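import Pool.Agent.S5.E.T.Defs

/-!
# Mixed chains, block E: instances with six or more half twists of the half round 0
-/

set_option autoImplicit false

namespace Pool.Agent.S5.E.VX

open Pool.Agent.S5.E

def NL0_6 : List Inst := [
  ⟨6, false, some false, ⟨543, 1080, 0, 1035, 0⟩, ⟨543, 1080, 0, 1035, 0⟩, ⟨590, 1000, 0, 627, 0⟩, ⟨874, 936, 17, 90, 0⟩⟩,
  ⟨6, false, some true, ⟨543, 1080, 0, 1035, 0⟩, ⟨530, 1080, 0, 1035, 0⟩, ⟨590, 1000, 0, 627, 0⟩, ⟨854, 927, 29, 117, 0⟩⟩,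
  ⟨6, true, some false, ⟨530, 1080, 0, 1035, 0⟩, ⟨543, 1080, 0, 1035, 0⟩, ⟨590, 1000, 0, 627, 0⟩, ⟨854, 927, 29, 117, 0⟩⟩,
  ⟨6, true, some true, ⟨530, 1080, 0, 1035, 0⟩, ⟨530, 1080, 0, 1035, 0⟩, ⟨530, 1000, 0, 777, 0⟩, ⟨830, 921, 44, 157, 0⟩⟩,
  ⟨6, false, none, ⟨543, 1080, 0, 1035, 0⟩, ⟨0, 0, 0, 0, 0⟩, ⟨590, 1000, 0, 627, 0⟩, ⟨861, 910, 7, 61, 0⟩⟩,
  ⟨6, true, none, ⟨530, 1080, 0, 1035, 0⟩, ⟨0, 0, 0, 0, 0⟩, ⟨530, 1000, 0, 777, 0⟩, ⟨832, 890, 17, 74, 0⟩⟩]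

def NL0_7 : List Inst := [
  ⟨7, false, some false, ⟨543, 1080, 0, 1035, 0⟩, ⟨543, 1080, 0, 1035, 0⟩, ⟨590, 1000, 0, 627, 0⟩, ⟨903, 947, 10, 61, 0⟩⟩,
  ⟨7, false, some true, ⟨543, 1080, 0, 1035, 0⟩, ⟨530, 1080, 0, 1035, 0⟩, ⟨590, 1000, 0, 627, 0⟩, ⟨889, 940, 17, 75, 0⟩⟩,
  ⟨7, true, some false, ⟨530, 1080, 0, 1035, 0⟩, ⟨543, 1080, 0, 1035, 0⟩, ⟨590, 1000, 0, 627, 0⟩, ⟨889, 940, 17, 75, 0⟩⟩,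
  ⟨7, true, some true, ⟨530, 1080, 0, 1035, 0⟩, ⟨530, 1080, 0, 1035, 0⟩, ⟨530, 1000, 0, 777, 0⟩, ⟨872, 934, 26, 96, 0⟩⟩,
  ⟨7, false, none, ⟨543, 1080, 0, 1035, 0⟩, ⟨0, 0, 0, 0, 0⟩, ⟨590, 1000, 0, 627, 0⟩, ⟨896, 930, 3, 40, 0⟩⟩,
  ⟨7, true, none, ⟨530, 1080, 0, 1035, 0⟩, ⟨0, 0, 0, 0, 0⟩, ⟨530, 1000, 0, 777, 0⟩, ⟨875, 916, 8, 45, 0⟩⟩]

def NL0_8 : List Inst := [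
  ⟨8, false, some false, ⟨543, 1080, 0, 1035, 0⟩, ⟨543, 1080, 0, 1035, 0⟩, ⟨590, 1000, 0, 627, 0⟩, ⟨924, 2000, 0, 42, 0⟩⟩,
  ⟨8, false, some true, ⟨543, 1080, 0, 1035, 0⟩, ⟨530, 1080, 0, 1035, 0⟩, ⟨590, 1000, 0, 627, 0⟩, ⟨913, 2000, 0, 50, 0⟩⟩,
  ⟨8, true, some false, ⟨530, 1080, 0, 1035, 0⟩, ⟨543, 1080, 0, 1035, 0⟩, ⟨590, 1000, 0, 627, 0⟩, ⟨913, 2000, 0, 50, 0⟩⟩,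
  ⟨8, true, some true, ⟨530, 1080, 0, 1035, 0⟩, ⟨530, 1080, 0, 1035, 0⟩, ⟨530, 1000, 0, 777, 0⟩, ⟨901, 2000, 0, 61, 0⟩⟩,
  ⟨8, false, none, ⟨543, 1080, 0, 1035, 0⟩, ⟨0, 0, 0, 0, 0⟩, ⟨590, 1000, 0, 627, 0⟩, ⟨920, 2000, 0, 27, 0⟩⟩,
  ⟨8, true, none, ⟨530, 1080, 0, 1035, 0⟩, ⟨0, 0, 0, 0, 0⟩, ⟨530, 1000, 0, 777, 0⟩, ⟨905, 2000, 0, 29, 0⟩⟩]

def NL0 : List Inst := NL0_6 ++ NL0_7 ++ NL0_8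

end Pool.Agent.S5.E.VX
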