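import Pool.Agent.S5.E.T.Defs

/-!
# Mixed chains, block E: instances with six or more half twists of the half round 3
-/

set_option autoImplicit false

namespace Pool.Agent.S5.E.VX

open Pool.Agent.S5.E

def NL3_6 : List Inst := [
  ⟨6, false, some false, ⟨616, 983, 122, 635, 0⟩, ⟨616, 1000, 0, 984, 0⟩, ⟨874, 936, 17, 90, 0⟩, ⟨884, 926, 28, 79, 0⟩⟩,
  ⟨6, false, some false, ⟨661, 991, 560, 984, 0⟩, ⟨616, 1000, 0, 984, 0⟩, ⟨874, 936, 17, 90, 0⟩, ⟨890, 928, 25, 66, 0⟩⟩,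
  ⟨6, false, some false, ⟨731, 1000, 0, 214, 0⟩, ⟨616, 1000, 0, 984, 0⟩, ⟨874, 936, 17, 90, 0⟩, ⟨885, 923, 37, 83, 0⟩⟩,
  ⟨6, false, some true, ⟨704, 986, 241, 666, 0⟩, ⟨659, 1000, 0, 716, 0⟩, ⟨854, 927, 29, 117, 0⟩, ⟨875, 919, 43, 92, 0⟩⟩,
  ⟨6, false, some true, ⟨704, 986, 241, 666, 0⟩, ⟨543, 717, 292, 607, 0⟩, ⟨854, 927, 29, 117, 0⟩, ⟨875, 919, 43, 92, 0⟩⟩,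
  ⟨6, false, some true, ⟨653, 681, 889, 972, 0⟩, ⟨659, 1000, 0, 716, 0⟩, ⟨854, 927, 29, 117, 0⟩, ⟨879, 909, 37, 69, 0⟩⟩,
  ⟨6, false, some true, ⟨653, 681, 889, 972, 0⟩, ⟨543, 717, 292, 607, 0⟩, ⟨854, 927, 29, 117, 0⟩, ⟨879, 909, 37, 69, 0⟩⟩,
  ⟨6, false, some true, ⟨616, 917, 122, 387, 0⟩, ⟨659, 1000, 0, 716, 0⟩, ⟨854, 927, 29, 117, 0⟩, ⟨869, 915, 47, 95, 0⟩⟩,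
  ⟨6, false, some true, ⟨616, 917, 122, 387, 0⟩, ⟨543, 717, 292, 607, 0⟩, ⟨854, 927, 29, 117, 0⟩, ⟨869, 915, 47, 95, 0⟩⟩,
  ⟨6, false, some true, ⟨731, 1000, 0, 214, 0⟩, ⟨659, 1000, 0, 716, 0⟩, ⟨854, 927, 29, 117, 0⟩, ⟨871, 916, 54, 102, 0⟩⟩,
  ⟨6, false, some true, ⟨731, 1000, 0, 214, 0⟩, ⟨543, 717, 292, 607, 0⟩, ⟨854, 927, 29, 117, 0⟩, ⟨871, 916, 54, 102, 0⟩⟩,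
  ⟨6, true, some false, ⟨680, 974, 163, 716, 0⟩, ⟨616, 1000, 0, 972, 0⟩, ⟨854, 927, 29, 117, 0⟩, ⟨867, 916, 41, 101, 0⟩⟩,
  ⟨6, true, some false, ⟨543, 717, 292, 607, 0⟩, ⟨616, 1000, 0, 972, 0⟩, ⟨854, 927, 29, 117, 0⟩, ⟨868, 909, 37, 89, 0⟩⟩,
  ⟨6, true, some false, ⟨659, 910, 54, 304, 0⟩, ⟨616, 1000, 0, 972, 0⟩, ⟨854, 927, 29, 117, 0⟩, ⟨876, 917, 39, 90, 0⟩⟩,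
  ⟨6, true, some false, ⟨768, 1000, 0, 157, 0⟩, ⟨616, 1000, 0, 972, 0⟩, ⟨854, 927, 29, 117, 0⟩, ⟨882, 919, 42, 88, 0⟩⟩,
  ⟨6, true, some true, ⟨680, 968, 163, 716, 0⟩, ⟨659, 1000, 0, 716, 0⟩, ⟨830, 921, 44, 157, 0⟩, ⟨850, 908, 61, 127, 0⟩⟩,
  ⟨6, true, some true, ⟨680, 968, 163, 716, 0⟩, ⟨543, 717, 292, 607, 0⟩, ⟨830, 921, 44, 157, 0⟩, ⟨850, 908, 61, 127, 0⟩⟩,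
  ⟨6, true, some true, ⟨543, 717, 292, 607, 0⟩, ⟨659, 1000, 0, 716, 0⟩, ⟨830, 921, 44, 157, 0⟩, ⟨850, 899, 57, 111, 0⟩⟩,
  ⟨6, true, some true, ⟨543, 717, 292, 607, 0⟩, ⟨543, 717, 292, 607, 0⟩, ⟨830, 921, 44, 157, 0⟩, ⟨850, 899, 57, 111, 0⟩⟩,
  ⟨6, true, some true, ⟨659, 907, 82, 304, 0⟩, ⟨659, 1000, 0, 716, 0⟩, ⟨830, 921, 44, 157, 0⟩, ⟨860, 908, 58, 112, 0⟩⟩,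
  ⟨6, true, some true, ⟨659, 907, 82, 304, 0⟩, ⟨543, 717, 292, 607, 0⟩, ⟨830, 921, 44, 157, 0⟩, ⟨860, 908, 58, 112, 0⟩⟩,
  ⟨6, true, some true, ⟨768, 1000, 0, 185, 0⟩, ⟨659, 1000, 0, 716, 0⟩, ⟨830, 921, 44, 157, 0⟩, ⟨867, 912, 60, 110, 0⟩⟩,
  ⟨6, true, some true, ⟨768, 1000, 0, 185, 0⟩, ⟨543, 717, 292, 607, 0⟩, ⟨830, 921, 44, 157, 0⟩, ⟨867, 912, 60, 110, 0⟩⟩,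
  ⟨6, false, none, ⟨616, 978, 185, 640, 0⟩, ⟨0, 0, 0, 0, 0⟩, ⟨861, 910, 7, 61, 0⟩, ⟨870, 899, 18, 49, 0⟩⟩,
  ⟨6, false, none, ⟨924, 985, 575, 651, 0⟩, ⟨0, 0, 0, 0, 0⟩, ⟨861, 910, 7, 61, 0⟩, ⟨885, 899, 26, 40, 0⟩⟩,
  ⟨6, false, none, ⟨656, 675, 940, 994, 0⟩, ⟨0, 0, 0, 0, 0⟩, ⟨861, 910, 7, 61, 0⟩, ⟨882, 894, 14, 26, 0⟩⟩,
  ⟨6, false, none, ⟨729, 917, 52, 369, 0⟩, ⟨0, 0, 0, 0, 0⟩, ⟨861, 910, 7, 61, 0⟩, ⟨869, 892, 26, 50, 0⟩⟩,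
  ⟨6, false, none, ⟨810, 1000, 0, 136, 0⟩, ⟨0, 0, 0, 0, 0⟩, ⟨861, 910, 7, 61, 0⟩, ⟨869, 889, 33, 54, 0⟩⟩,
  ⟨6, true, none, ⟨680, 960, 163, 716, 0⟩, ⟨0, 0, 0, 0, 0⟩, ⟨832, 890, 17, 74, 0⟩, ⟨846, 878, 32, 62, 0⟩⟩,
  ⟨6, true, none, ⟨543, 717, 292, 607, 0⟩, ⟨0, 0, 0, 0, 0⟩, ⟨832, 890, 17, 74, 0⟩, ⟨850, 870, 25, 47, 0⟩⟩,
  ⟨6, true, none, ⟨659, 907, 82, 304, 0⟩, ⟨0, 0, 0, 0, 0⟩, ⟨832, 890, 17, 74, 0⟩, ⟨858, 880, 30, 56, 0⟩⟩,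
  ⟨6, true, none, ⟨768, 1000, 0, 185, 0⟩, ⟨0, 0, 0, 0, 0⟩, ⟨832, 890, 17, 74, 0⟩, ⟨863, 884, 34, 58, 0⟩⟩]

def NL3_7 : List Inst := [
  ⟨7, false, some false, ⟨616, 995, 67, 635, 0⟩, ⟨616, 1000, 0, 991, 0⟩, ⟨903, 947, 10, 61, 0⟩, ⟨908, 941, 17, 55, 0⟩⟩,
  ⟨7, false, some false, ⟨671, 689, 940, 991, 0⟩, ⟨616, 1000, 0, 991, 0⟩, ⟨903, 947, 10, 61, 0⟩, ⟨915, 938, 15, 40, 0⟩⟩,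
  ⟨7, false, some false, ⟨731, 1000, 0, 185, 0⟩, ⟨616, 1000, 0, 991, 0⟩, ⟨903, 947, 10, 61, 0⟩, ⟨909, 938, 23, 57, 0⟩⟩,
  ⟨7, false, some true, ⟨704, 992, 241, 642, 0⟩, ⟨543, 1000, 0, 716, 0⟩, ⟨889, 940, 17, 75, 0⟩, ⟨902, 935, 25, 61, 0⟩⟩,
  ⟨7, false, some true, ⟨666, 686, 927, 984, 0⟩, ⟨543, 1000, 0, 716, 0⟩, ⟨889, 940, 17, 75, 0⟩, ⟨906, 929, 21, 45, 0⟩⟩,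
  ⟨7, false, some true, ⟨616, 917, 52, 387, 0⟩, ⟨543, 1000, 0, 716, 0⟩, ⟨889, 940, 17, 75, 0⟩, ⟨897, 932, 26, 64, 0⟩⟩,
  ⟨7, false, some true, ⟨806, 1000, 0, 185, 0⟩, ⟨543, 1000, 0, 716, 0⟩, ⟨889, 940, 17, 75, 0⟩, ⟨900, 931, 32, 67, 0⟩⟩,
  ⟨7, true, some false, ⟨543, 978, 163, 716, 0⟩, ⟨616, 1000, 0, 984, 0⟩, ⟨889, 940, 17, 75, 0⟩, ⟨897, 933, 21, 66, 0⟩⟩,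
  ⟨7, true, some false, ⟨659, 1000, 0, 304, 0⟩, ⟨616, 1000, 0, 984, 0⟩, ⟨889, 940, 17, 75, 0⟩, ⟨903, 936, 23, 62, 0⟩⟩,
  ⟨7, true, some true, ⟨543, 974, 101, 716, 0⟩, ⟨543, 1000, 0, 716, 0⟩, ⟨872, 934, 26, 96, 0⟩, ⟨884, 927, 29, 80, 0⟩⟩,
  ⟨7, true, some true, ⟨705, 1000, 0, 438, 0⟩, ⟨543, 1000, 0, 716, 0⟩, ⟨872, 934, 26, 96, 0⟩, ⟨889, 929, 33, 77, 0⟩⟩,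
  ⟨7, false, none, ⟨616, 983, 185, 637, 0⟩, ⟨0, 0, 0, 0, 0⟩, ⟨896, 930, 3, 40, 0⟩, ⟨901, 923, 9, 33, 0⟩⟩,
  ⟨7, false, none, ⟨669, 991, 577, 998, 0⟩, ⟨0, 0, 0, 0, 0⟩, ⟨896, 930, 3, 40, 0⟩, ⟨906, 926, 7, 27, 0⟩⟩,
  ⟨7, false, none, ⟨729, 1000, 0, 369, 0⟩, ⟨0, 0, 0, 0, 0⟩, ⟨896, 930, 3, 40, 0⟩, ⟨899, 920, 14, 36, 0⟩⟩,
  ⟨7, true, none, ⟨543, 968, 163, 716, 0⟩, ⟨0, 0, 0, 0, 0⟩, ⟨875, 916, 8, 45, 0⟩, ⟨884, 909, 12, 39, 0⟩⟩,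
  ⟨7, true, none, ⟨659, 1000, 0, 304, 0⟩, ⟨0, 0, 0, 0, 0⟩, ⟨875, 916, 8, 45, 0⟩, ⟨893, 913, 15, 39, 0⟩⟩]

def NL3 : List Inst := NL3_6 ++ NL3_7

end Pool.Agent.S5.E.VX
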