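import Pool.Agent.S5.E.VX.Run
import Pool.Agent.S5.E.T.Defs
import Pool.Agent.S5.E.B2.Slots
import Pool.Agent.S5.E.Sl

/-!
# Vertices: the checker of the instances
-/

set_option autoImplicit false

namespace Pool.Agent.S5.E.VX

open Real Pool.Agent.S3.NI Pool.Agent.S5.E.B2
open Pool.Agent.S3.E (al tt k2 s2 cc gg tan_al al_pos al_lt tt_pos tt_sq k2_pos s2_pos)

section geo

variable {R I : ℝ}

theorem k2_eq : k2 R I = cos R ^ 2 + sinh I ^ 2 := by
  unfold k2 cc gg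
  rw [cosh_two_mul, cosh_sq I, cos_two_mul]
  ring

theorem s2_eq : s2 R I = sin R ^ 2 + sinh I ^ 2 := by
  unfold s2 cc gg
  rw [cosh_two_mul, cosh_sq I, cos_two_mul, cos_sq' R]
  ring

theorem nd_eq : (sin R * cos R) ^ 2 + (sinh I * cosh I) ^ 2 =
    (sin R ^ 2 + sinh I ^ 2) * (cos R ^ 2 + sinh I ^ 2) := by
  rw [mul_pow, mul_pow, cosh_sq I, cos_sq' R]
  ring

/-- Real and imaginary part of `tan z`, times `|cos z|²`. -/
theorem tt_al (hR0 : 0 < R) (hR1 : R < π / 2) (hI : 0 < I) :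
    tt R I * cos (al R I) * (cos R ^ 2 + sinh I ^ 2) = sin R * cos R ∧
      tt R I * sin (al R I) * (cos R ^ 2 + sinh I ^ 2) = sinh I * cosh I := by
  have hsR : 0 < sin R := sin_pos_of_pos_of_lt_pi hR0 (by linarith [pi_pos])
  have hcR : 0 < cos R := cos_pos_of_mem_Ioo ⟨by linarith [pi_pos], hR1⟩
  have hsI : 0 < sinh I := sinh_pos_iff.2 hI
  have hcI := cosh_pos I
  have hal0 := al_pos hR0 hR1 hI
  have hal1 := al_lt R I
  have hc : 0 < cos (al R I) := cos_pos_of_mem_Ioo ⟨by linarith, hal1⟩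
  have htt := tt_pos (I := I) hR0 hR1
  have ht2 := tt_sq (I := I) hR0 hR1
  rw [k2_eq, s2_eq] at ht2
  have hD : 0 < cos R ^ 2 + sinh I ^ 2 := by positivity
  have hN : 0 < sin R ^ 2 + sinh I ^ 2 := by positivity
  have ht := tan_al R I
  rw [tan_eq_sin_div_cos, sinh_two_mul, sin_two_mul, div_eq_div_iff hc.ne' (by positivity)] at ht
  have e1 : sin (al R I) * (sin R * cos R) = (sinh I * cosh I) * cos (al R I) := by
    linear_combination (1 / 2) * ht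
  have e2 := cos_sq_add_sin_sq (al R I)
  have e3 : cos (al R I) ^ 2 * ((sin R * cos R) ^ 2 + (sinh I * cosh I) ^ 2) =
      (sin R * cos R) ^ 2 := by
    have : (sin (al R I) * (sin R * cos R)) ^ 2 = ((sinh I * cosh I) * cos (al R I)) ^ 2 := by
      rw [e1]
    linear_combination (sin R * cos R) ^ 2 * e2 - this
  rw [nd_eq] at e3
  have e4 : (tt R I * cos (al R I) * (cos R ^ 2 + sinh I ^ 2)) ^ 2 = (sin R * cos R) ^ 2 := by
    rw [mul_pow, mul_pow, ht2, ← e3]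
    field_simp
  have e5 : tt R I * cos (al R I) * (cos R ^ 2 + sinh I ^ 2) = sin R * cos R := by
    have h1 : 0 ≤ tt R I * cos (al R I) * (cos R ^ 2 + sinh I ^ 2) := by positivity
    have h2 : 0 ≤ sin R * cos R := by positivity
    exact (sq_eq_sq₀ h1 h2).1 e4
  refine ⟨e5, ?_⟩
  have h3 : (sin R * cos R) * (tt R I * sin (al R I) * (cos R ^ 2 + sinh I ^ 2)) =
      (sin R * cos R) * (sinh I * cosh I) := by
    calc (sin R * cos R) * (tt R I * sin (al R I) * (cos R ^ 2 + sinh I ^ 2)) =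
        tt R I * (cos R ^ 2 + sinh I ^ 2) * (sin (al R I) * (sin R * cos R)) := by ring
      _ = (tt R I * cos (al R I) * (cos R ^ 2 + sinh I ^ 2)) * (sinh I * cosh I) := by
        rw [e1]; ring
      _ = _ := by rw [e5]
  exact mul_left_cancel₀ (by positivity : sin R * cos R ≠ 0) h3

/-- `p ≤ 2`. -/
theorem p_le_two {ρ β p r φ : ℝ} {g : Rg} (hs : Slot R I ρ β p r) (hR0 : 0 < R) (hR1 : R < π / 2)
    (hz : InR rS3 (cos R * cosh I) (sin R * sinh I)) (hρ : InR g (ρ * cos φ) (ρ * sin φ))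
    (hg : g.k1 ≤ 1200) : p ≤ 2 := by
  have hlo := hz.lo
  have hhi := hz.hi
  rw [norm_uv] at hlo hhi
  norm_num [rS3] at hlo hhi
  have hr := hρ.hi
  have e1 : (ρ * cos φ) ^ 2 + (ρ * sin φ) ^ 2 = ρ ^ 2 := by
    have := cos_sq_add_sin_sq φ
    linear_combination ρ ^ 2 * this
  rw [e1] at hr
  have hg' : (g.k1 : ℝ) ≤ 1200 := by exact_mod_cast hg
  have hr2 : ρ ^ 2 ≤ (6 / 5) ^ 2 := by
    refine hr.trans (pow_le_pow_left₀ (by positivity) ?_ 2)
    linarith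
  have h1 := hs.sinh_sq_le
  have ht2 := tt_sq (I := I) hR0 hR1
  rw [k2_eq, s2_eq] at ht2
  have h3 : sin R ^ 2 + sinh I ^ 2 ≤ 2 := by
    have := sin_sq_add_cos_sq R
    nlinarith [sq_nonneg (cos R)]
  have h4 : tt R I ^ 2 ≤ 8 := by
    rw [ht2, div_le_iff₀ (by linarith)]
    linarith
  have h5 : sinh p ^ 2 ≤ 12 := by
    rw [mul_pow] at h1
    nlinarith [sq_nonneg (tt R I), sq_nonneg ρ]
  by_contra hc
  push Not at hc
  have h6 := T7_le_sinh hs.p0
  have h7 : 3.6 ≤ sinh p := by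
    refine le_trans ?_ h6
    have e2 : (2 : ℝ) ^ 3 ≤ p ^ 3 := pow_le_pow_left₀ (by norm_num) hc.le 3
    have e3 : (2 : ℝ) ^ 5 ≤ p ^ 5 := pow_le_pow_left₀ (by norm_num) hc.le 5
    have e4 : (2 : ℝ) ^ 7 ≤ p ^ 7 := pow_le_pow_left₀ (by norm_num) hc.le 7
    norm_num at e2 e3 e4 ⊢
    linarith
  nlinarith

end geo

section dat

variable {R I ρ φ p r : ℝ} {g : Rg}

theorem slot_A (hR0 : 0 < R) (hR1 : R < π / 2) (hI : 0 < I)
    (hs : Slot R I ρ (sg false * φ) p r) (hρ : 0 < ρ) (hφ0 : 0 < φ) (hφ1 : φ < π / 2)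
    (hg : InR g (ρ * cos φ) (ρ * sin φ)) (hp : p ≤ 2) : 0 ≤ r ∧ SDat .a g R I p r := by
  obtain ⟨e1, e2⟩ := tt_al hR0 hR1 hI
  have f1 := hs.e1
  have f2 := hs.e2
  have hsg : sg false * φ = φ := by simp [sg]
  rw [hsg, cos_add] at f1
  rw [hsg, sin_add] at f2
  have hsR : 0 < sin R := sin_pos_of_pos_of_lt_pi hR0 (by linarith [pi_pos])
  have hcR : 0 < cos R := cos_pos_of_mem_Ioo ⟨by linarith [pi_pos], hR1⟩
  have hsI : 0 < sinh I := sinh_pos_iff.2 hI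
  have hcI := cosh_pos I
  have hD : 0 < cos R ^ 2 + sinh I ^ 2 := by positivity
  have hx : 0 < ρ * cos φ := mul_pos hρ (cos_pos_of_mem_Ioo ⟨by linarith, hφ1⟩)
  have hy : 0 < ρ * sin φ := mul_pos hρ (sin_pos_of_pos_of_lt_pi hφ0 (by linarith [pi_pos]))
  have g1 : (sinh p * cos r) * (cos R ^ 2 + sinh I ^ 2) =
      (ρ * cos φ) * (sin R * cos R) - (ρ * sin φ) * (sinh I * cosh I) := by
    rw [f1, ← e1, ← e2]
    ring
  have g2 : (cosh p * sin r) * (cos R ^ 2 + sinh I ^ 2) =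
      (ρ * cos φ) * (sinh I * cosh I) + (ρ * sin φ) * (sin R * cos R) := by
    rw [f2, ← e1, ← e2]
    ring
  have hw2 : 0 < cosh p * sin r := by
    have : 0 < (cosh p * sin r) * (cos R ^ 2 + sinh I ^ 2) := by
      rw [g2]
      positivity
    exact pos_of_mul_pos_left this hD.le
  have hsr : 0 < sin r := pos_of_mul_pos_right hw2 (cosh_pos p).le
  have hr0 : 0 ≤ r := by
    by_contra hc
    push Not at hc
    have := sin_nonpos_of_nonpos_of_neg_pi_le hc.le (by linarith [hs.r0, pi_pos])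
    linarith
  refine ⟨hr0, hs.p0, hp, hr0, hs.r1, (by intro h; cases h), fun _ => ⟨_, _, hg, Or.inr ⟨rfl, hw2⟩, ?_, ?_⟩⟩
  · simp only [eqx]
    have h5 : ((ρ * cos φ) * (sin R ^ 2 + sinh I ^ 2)) * (cos R ^ 2 + sinh I ^ 2) =
        (sinh p * cos r * (sin R * cos R) + cosh p * sin r * (sinh I * cosh I)) *
          (cos R ^ 2 + sinh I ^ 2) := by
      have := nd_eq (R := R) (I := I)
      linear_combination (-(ρ * cos φ)) * this - (sin R * cos R) * g1 - (sinh I * cosh I) * g2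
    exact mul_right_cancel₀ hD.ne' h5
  · simp only [eqy]
    have h5 : ((ρ * sin φ) * (sin R ^ 2 + sinh I ^ 2)) * (cos R ^ 2 + sinh I ^ 2) =
        (cosh p * sin r * (sin R * cos R) - sinh p * cos r * (sinh I * cosh I)) *
          (cos R ^ 2 + sinh I ^ 2) := by
      have := nd_eq (R := R) (I := I)
      linear_combination (-(ρ * sin φ)) * this - (sin R * cos R) * g2 + (sinh I * cosh I) * g1
    exact mul_right_cancel₀ hD.ne' h5

theorem slot_S (hR0 : 0 < R) (hR1 : R < π / 2) (hI : 0 < I)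
    (hs : Slot R I ρ (sg true * φ) p r) (hρ : 0 < ρ) (hφ0 : 0 < φ) (hφ1 : φ < π / 2)
    (hg : InR g (ρ * cos φ) (ρ * sin φ)) (hp : p ≤ 2) :
    (0 ≤ r → SDat .s g R I p r) ∧ (r ≤ 0 → SDat .n g R I p (-r)) := by
  obtain ⟨e1, e2⟩ := tt_al hR0 hR1 hI
  have f1 := hs.e1
  have f2 := hs.e2
  have hsg : al R I + sg true * φ = al R I - φ := by simp [sg, sub_eq_add_neg]
  rw [hsg, cos_sub] at f1
  rw [hsg, sin_sub] at f2
  have hsR : 0 < sin R := sin_pos_of_pos_of_lt_pi hR0 (by linarith [pi_pos])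
  have hcR : 0 < cos R := cos_pos_of_mem_Ioo ⟨by linarith [pi_pos], hR1⟩
  have hsI : 0 < sinh I := sinh_pos_iff.2 hI
  have hcI := cosh_pos I
  have hD : 0 < cos R ^ 2 + sinh I ^ 2 := by positivity
  have hx : 0 < ρ * cos φ := mul_pos hρ (cos_pos_of_mem_Ioo ⟨by linarith, hφ1⟩)
  have hy : 0 < ρ * sin φ := mul_pos hρ (sin_pos_of_pos_of_lt_pi hφ0 (by linarith [pi_pos]))
  have g1 : (sinh p * cos r) * (cos R ^ 2 + sinh I ^ 2) =
      (ρ * cos φ) * (sin R * cos R) + (ρ * sin φ) * (sinh I * cosh I) := by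
    rw [f1, ← e1, ← e2]
    ring
  have g2 : (cosh p * sin r) * (cos R ^ 2 + sinh I ^ 2) =
      (ρ * cos φ) * (sinh I * cosh I) - (ρ * sin φ) * (sin R * cos R) := by
    rw [f2, ← e1, ← e2]
    ring
  have hw1 : 0 < sinh p * cos r := by
    have : 0 < (sinh p * cos r) * (cos R ^ 2 + sinh I ^ 2) := by
      rw [g1]
      positivity
    exact pos_of_mul_pos_left this hD.le
  have k1 : (ρ * cos φ) * (sin R ^ 2 + sinh I ^ 2) =
      sinh p * cos r * (sin R * cos R) + cosh p * sin r * (sinh I * cosh I) := by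
    have h5 : ((ρ * cos φ) * (sin R ^ 2 + sinh I ^ 2)) * (cos R ^ 2 + sinh I ^ 2) =
        (sinh p * cos r * (sin R * cos R) + cosh p * sin r * (sinh I * cosh I)) *
          (cos R ^ 2 + sinh I ^ 2) := by
      have := nd_eq (R := R) (I := I)
      linear_combination (-(ρ * cos φ)) * this - (sin R * cos R) * g1 - (sinh I * cosh I) * g2
    exact mul_right_cancel₀ hD.ne' h5
  have k2 : (ρ * sin φ) * (sin R ^ 2 + sinh I ^ 2) =
      sinh p * cos r * (sinh I * cosh I) - cosh p * sin r * (sin R * cos R) := by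
    have h5 : ((ρ * sin φ) * (sin R ^ 2 + sinh I ^ 2)) * (cos R ^ 2 + sinh I ^ 2) =
        (sinh p * cos r * (sinh I * cosh I) - cosh p * sin r * (sin R * cos R)) *
          (cos R ^ 2 + sinh I ^ 2) := by
      have := nd_eq (R := R) (I := I)
      linear_combination (-(ρ * sin φ)) * this + (sin R * cos R) * g2 - (sinh I * cosh I) * g1
    exact mul_right_cancel₀ hD.ne' h5
  constructor
  · intro h0
    exact ⟨hs.p0, hp, h0, hs.r1, (by intro h; cases h), fun _ => ⟨_, _, hg, Or.inl hw1, k1, k2⟩⟩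
  · intro h0
    refine ⟨hs.p0, hp, by linarith, by linarith [hs.r0], (by intro h; cases h), fun _ => ⟨_, _, hg,
      Or.inl ?_, ?_, ?_⟩⟩
    · rw [cos_neg]; exact hw1
    · simp only [eqx, cos_neg, sin_neg]
      rw [k1]
      ring
    · simp only [eqy, cos_neg, sin_neg]
      rw [k2]
      ring

end dat

/-- The modes of a slot. -/
def mds (s : Option Bool) : List Md :=
  match s with
  | none => [.o]
  | some false => [.a]
  | some true => [.s, .n]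

/-- A slot has one of the modes. -/
theorem slot_mds {s : Option Bool} {g : Rg} {R I ρ φ p r : ℝ} (hR0 : 0 < R) (hR1 : R < π / 2)
    (hI : 0 < I) (hs : Slot R I ρ (sgO s * φ) p r) (hin : InP s g ρ φ)
    (hz : InR rS3 (cos R * cosh I) (sin R * sinh I)) (hg : g.k1 ≤ 1200) :
    ∃ m ∈ mds s, ∃ q, r = sq m q ∧ SDat m g R I p q := by
  cases s with
  | none =>
    obtain ⟨h1, h2⟩ := hin
    subst h1
    obtain ⟨rfl, rfl⟩ := hs.zero
    refine ⟨.o, by simp [mds], 0, rfl, le_rfl, by norm_num, le_rfl, by positivity,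
      fun _ => ⟨rfl, rfl⟩, fun h => absurd rfl h⟩
  | some s =>
    obtain ⟨h1, h2, h3, h4⟩ := hin
    have hp := p_le_two hs hR0 hR1 hz h4 hg
    cases s with
    | false =>
      obtain ⟨h5, h6⟩ := slot_A hR0 hR1 hI hs h1 h2 h3 h4 hp
      exact ⟨.a, by simp [mds], r, rfl, h6⟩
    | true =>
      obtain ⟨h5, h6⟩ := slot_S hR0 hR1 hI hs h1 h2 h3 h4 hp
      rcases le_total 0 r with h7 | h7
      · exact ⟨.s, by simp [mds], r, rfl, h5 h7⟩
      · exact ⟨.n, by simp [mds], -r, by simp [sq], h6 h7⟩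

/-- The ranges of `4 a`. -/
def rgs (n : ℕ) : List (ℕ × ℕ) :=
  bif Nat.beq n 8 then [(32, 32), (36, 48), (48, 0)] else [(Nat.mul 4 n, Nat.mul 4 n)]

theorem mem_rgs {n : ℕ} {a : ℝ} (ha : HasA n a) (hn : 1 ≤ n) :
    ∃ ab ∈ rgs n, 0 < ab.1 ∧ (ab.1 : ℝ) ≤ 4 * a ∧ (ab.2 = 0 ∨ 4 * a ≤ ab.2) := by
  unfold HasA at ha
  split_ifs at ha with h8
  · subst h8
    obtain ⟨k, hk, rfl⟩ := ha
    have e : rgs 8 = [(32, 32), (36, 48), (48, 0)] := rfl
    rw [e]
    rcases Nat.lt_or_ge 8 k with h1 | h1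
    · rcases Nat.lt_or_ge 12 k with h2 | h2
      · have : (12 : ℝ) ≤ k := by exact_mod_cast h2.le
        exact ⟨(48, 0), by simp, by norm_num, by norm_num; linarith, Or.inl rfl⟩
      · have b1 : (9 : ℝ) ≤ k := by exact_mod_cast h1
        have b2 : (k : ℝ) ≤ 12 := by exact_mod_cast h2
        exact ⟨(36, 48), by simp, by norm_num, by norm_num; linarith,
          Or.inr (by norm_num; linarith)⟩
    · have : k = 8 := by omega
      subst this
      exact ⟨(32, 32), by simp, by norm_num, by norm_num, Or.inr (by norm_num)⟩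
  · have : Nat.beq n 8 = false := by
      rw [Bool.eq_false_iff]
      intro hc
      exact h8 (Nat.eq_of_beq_eq_true hc)
    unfold rgs
    rw [this, cond_false]
    have e : Nat.mul 4 n = 4 * n := rfl
    refine ⟨_, List.mem_singleton.2 rfl, ?_, ?_, Or.inr ?_⟩
    · show 0 < 4 * n
      omega
    · show ((4 * n : ℕ) : ℝ) ≤ 4 * a
      push_cast
      rw [ha]
    · show 4 * a ≤ ((4 * n : ℕ) : ℝ)
      push_cast
      rw [ha]

/-- The parameters of an instance. -/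
def vpI (x : Inst) (ab : ℕ × ℕ) (m1 m2 : Md) : VP := ⟨ab.1, ab.2, m1, m2, x.r₁, x.r₂, x.own⟩

/-- The checker of an instance. -/
def chk (n : ℕ) (x : Inst) : Bool :=
  ((Nat.ble 1 x.a && (Nat.beq x.out.m 0 && Sb x.own rS3)) &&
    (Nat.ble x.r₁.k1 1200 && Nat.ble x.r₂.k1 1200)) &&
    (rgs x.a).all fun ab => (mds (some x.s₁)).all fun m1 => (mds x.s₂).all fun m2 =>
      run (vpI x ab m1 m2) (accR x.own x.out) n

theorem vh_of {x : Inst} {a R I ρ₁ φ₁ p₁ r₁ ρ₂ φ₂ p₂ r₂ : ℝ}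
    (h : Vx a R I ρ₁ (sg x.s₁ * φ₁) p₁ r₁ ρ₂ (sgO x.s₂ * φ₂) p₂ r₂) (ha : HasA x.a a)
    (h1 : InP (some x.s₁) x.r₁ ρ₁ φ₁) (h2 : InP x.s₂ x.r₂ ρ₂ φ₂)
    (hz : InR x.own (cos R * cosh I) (sin R * sinh I)) (hs : Sb x.own rS3 = true) (c0 : 1 ≤ x.a)
    (c1 : x.r₁.k1 ≤ 1200) (c2 : x.r₂.k1 ≤ 1200) :
    ∃ ab ∈ rgs x.a, ∃ m1 ∈ mds (some x.s₁), ∃ m2 ∈ mds x.s₂, ∃ q₁ q₂, r₁ = sq m1 q₁ ∧
      r₂ = sq m2 q₂ ∧ VH (vpI x ab m1 m2) a R I p₁ q₁ p₂ q₂ := by
  have hz' := hz.sub hs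
  obtain ⟨m1, hm1, q₁, e1, s1⟩ := slot_mds (s := some x.s₁) h.R0 h.R1 h.I0 h.sl₁ h1 hz' c1
  obtain ⟨m2, hm2, q₂, e2, s2⟩ := slot_mds h.R0 h.R1 h.I0 h.sl₂ h2 hz' c2
  obtain ⟨ab, hab, a1, a2, a3⟩ := mem_rgs ha c0
  refine ⟨ab, hab, m1, hm1, m2, hm2, q₁, q₂, e1, e2, a2, a1, a3, h.R0, h.R1, h.I0, ?_, h.hI, s1,
    s2, hz⟩
  show a * R = π - sq m1 q₁ - sq m2 q₂
  rw [← e1, ← e2]
  linarith [h.hR]

/-- **Soundness of the checker.** -/
theorem chk_sound {n : ℕ} {x : Inst} (h : chk n x = true) : x.Ok3 := by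
  intro a R I ρ₁ φ₁ p₁ r₁ ρ₂ φ₂ p₂ r₂ hv ha h1 h2 hz
  unfold chk at h
  rw [Bool.and_eq_true, Bool.and_eq_true, Bool.and_eq_true, Bool.and_eq_true,
    Bool.and_eq_true] at h
  obtain ⟨⟨⟨c0, c3, c4⟩, c1, c2⟩, h⟩ := h
  rw [Nat.ble_eq] at c0 c1 c2
  obtain ⟨ab, hab, m1, hm1, m2, hm2, q₁, q₂, e1, e2, hV⟩ := vh_of hv ha h1 h2 hz c4 c0 c1 c2
  have h0 := List.all_eq_true.1 h ab hab
  have h3 := List.all_eq_true.1 h0 m1 hm1
  have h4 := List.all_eq_true.1 h3 m2 hm2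
  exact run_out hV (Nat.eq_of_beq_eq_true c3) h4

/-- A list of instances. -/
theorem chk_all {n : ℕ} {l : List Inst} (h : l.all (chk n) = true) : ∀ x ∈ l, x.Ok3 :=
  fun x hx => chk_sound (List.all_eq_true.1 h x hx)

end Pool.Agent.S5.E.VX
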