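import Pool.Agent.S5.E.VX.NL3
import Pool.Agent.S5.E.VX.Chk

/-!
# Mixed chains, block E: instances with seven or more half twists of the half round 3, run
-/

set_option autoImplicit false

namespace Pool.Agent.S5.E.VX

open Pool.Agent.S5.E

set_option maxRecDepth 100000 in
theorem NL3_7_chk : NL3_7.all (chk 60) = true := by decide +kernel

end Pool.Agent.S5.E.VX
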