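import Pool.Agent.S5.E.VX.NL3
import Pool.Agent.S5.E.VX.Chk
import Pool.Agent.S5.E.VX.NK3a
import Pool.Agent.S5.E.VX.NK3b
import Pool.Agent.S5.E.VX.NK3c
import Pool.Agent.S5.E.T.App

/-!
# Mixed chains, block E: instances with six or more half twists of the half round 3, runs
-/

set_option autoImplicit false

namespace Pool.Agent.S5.E.VX

open Pool.Agent.S5.E

/-- From the checker to `Ok`. -/
theorem ok_of_chk3 {n : ℕ} {l : List Inst} (h : l.all (chk n) = true)
    (h3 : l.all (fun x => Nat.ble 3 x.a) = true) : ∀ x ∈ l, x.Ok := by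
  intro x hx
  have h4 := List.all_eq_true.1 h3 x hx
  rw [Nat.ble_eq] at h4
  unfold Inst.Ok
  rw [if_neg (by omega)]
  exact ⟨h4, chk_all h x hx⟩

theorem NL3_6_chk : NL3_6.all (chk 60) = true := by
  rw [← List.take_append_drop 15 NL3_6, List.all_append, NL3_6_chk_a, NL3_6_chk_b]
  rfl

theorem NL3_6_ok : ∀ x ∈ NL3_6, x.Ok :=
  ok_of_chk3 NL3_6_chk (by decide +kernel)

theorem NL3_7_ok : ∀ x ∈ NL3_7, x.Ok :=
  ok_of_chk3 NL3_7_chk (by decide +kernel)

theorem NL3_ok : ∀ x ∈ NL3, x.Ok := by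
  intro x hx
  unfold NL3 at hx
  rw [List.mem_append] at hx
  rcases hx with hx | hx
  · exact NL3_6_ok x hx
  · exact NL3_7_ok x hx

end Pool.Agent.S5.E.VX
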