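import Pool.Agent.S5.E.VX.Real
import Pool.Agent.S3.NIW

/-!
# Vertices: the cell test

A vertex is given by `a R = π - r₁ - r₂`, `a I = p₁ + p₂` and by the two slots
`sinh (p + i r) = b tan (R + i I)`.  A cell is a box for `(p₁, |r₁|, p₂, |r₂|)`.
-/

set_option autoImplicit false

namespace Pool.Agent.S5.E.VX

open Real Pool.Agent.S3.NI Pool.Agent.S5.E.B2

/-- The mode of a slot: missing, `A`, `S` with `r ≥ 0`, `S` with `r ≤ 0`. -/
inductive Md where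
  | o : Md
  | a : Md
  | s : Md
  | n : Md

/-- The data of a run; `a` is between `a0 / 4` and `a1 / 4` (`a1 = 0`: no upper bound). -/
structure VP where
  a0 : ℕ
  a1 : ℕ
  m1 : Md
  m2 : Md
  r1 : Rg
  r2 : Rg
  pr : Rg

/-! ### One slot -/

def kEx (r : Rg) (dl nl glo ghi slo shi : ℕ) : Bool :=
  (Nat.ble 1 dl && Nat.ble (Nat.succ (ku r.k1)) (mlo slo glo)) ||
    (Nat.ble 1 nl && Nat.ble (Nat.succ (mhi shi ghi)) (kl r.k0))

def tA (r : Rg) (scl tlo thi wd wlo whi : ℕ) : Bool :=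
  (Nat.ble 1 scl && Nat.ble (Nat.succ (Nat.add (Nat.add thi (tu r.t1))
    (mhi (tu r.t1) (mhi thi wlo)))) wlo) ||
  (Nat.ble 1 wd && Nat.ble (Nat.succ whi) (Nat.add (Nat.add tlo (tl r.t0))
    (mlo (tl r.t0) (mlo tlo whi))))

def tS (r : Rg) (scl tlo thi wd wlo whi : ℕ) : Bool :=
  (Nat.ble 1 wd && Nat.ble (Nat.succ (Nat.add (Nat.add (tu r.t1) whi)
    (mhi (tu r.t1) (mhi tlo whi)))) tlo) ||
  (Nat.ble 1 scl && Nat.ble (Nat.succ thi) (Nat.add (Nat.add (tl r.t0) wlo)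
    (mlo (tl r.t0) (mlo thi wlo))))

def tN (r : Rg) (scl tlo thi wd wlo whi : ℕ) : Bool :=
  Nat.ble (Nat.succ (tu r.t1)) (Nat.add (Nat.add tlo wlo) (mlo (tl r.t1) (mlo tlo wlo))) ||
  ((Nat.ble 1 scl && Nat.ble 1 wd) && Nat.ble (Nat.succ (Nat.add (Nat.add thi whi)
    (mhi (tu r.t0) (mhi thi whi)))) (tl r.t0))

def tM (m : Md) (r : Rg) (scl tlo thi wd wlo whi : ℕ) : Bool :=
  match m with
  | .o => false
  | .a => tA r scl tlo thi wd wlo whi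
  | .s => tS r scl tlo thi wd wlo whi
  | .n => tN r scl tlo thi wd wlo whi

def slE2 (m : Md) (r : Rg) (dl nl glo ghi scl tlo thi sh0 sh1 sn0 sn1 ch0 ch1 cs0 wd : ℕ) : Bool :=
  kEx r dl nl glo ghi (Nat.add (mlo sh0 sh0) (mlo sn0 sn0)) (Nat.add (mhi sh1 sh1) (mhi sn1 sn1)) ||
    tM m r scl tlo thi wd (dlo (mlo sn0 ch1) (mhi cs0 sh1)) (dhi (mhi sn1 ch0) wd)

def slE1 (m : Md) (r : Rg) (dl nl glo ghi scl tlo thi pl ph ql qh : ℕ) : Bool :=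
  slE2 m r dl nl glo ghi scl tlo thi (shLo pl) (shHi ph) (snLo ql) (snHi qh) (chHi pl) (chLo ph)
    (csHi ql) (mlo (csLo qh) (shLo pl))

def slE (m : Md) (r : Rg) (P Q : N) (dl nl glo ghi scl tlo thi : ℕ) : Bool :=
  match m with
  | .o => false
  | _ => slE1 m r dl nl glo ghi scl tlo thi P.lo P.hi Q.lo Q.hi

/-! ### The vertex -/

def mi (m : Md) (B : N) : N :=
  match m with
  | .n => B
  | _ => ⟨0, 0⟩

def pl (m : Md) (B : N) : N :=
  match m with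
  | .n => ⟨0, 0⟩
  | _ => B

/-- The range of `R`. -/
def rR (p : VP) (B D : N) : N :=
  ⟨Nat.div (Nat.mul 4 (Nat.sub (Nat.add 3373259426 (Nat.add (mi p.m1 B).lo (mi p.m2 D).lo))
      (Nat.add (pl p.m1 B).hi (pl p.m2 D).hi))) p.a1,
    Nat.succ (Nat.div (Nat.mul 4 (Nat.sub (Nat.add 3373259428 (Nat.add (mi p.m1 B).hi (mi p.m2 D).hi))
      (Nat.add (pl p.m1 B).lo (pl p.m2 D).lo))) p.a0)⟩

/-- The range of `I`. -/
def rI (p : VP) (A C : N) : N :=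
  ⟨Nat.div (Nat.mul 4 (Nat.add A.lo C.lo)) p.a1,
    Nat.succ (Nat.div (Nat.mul 4 (Nat.add A.hi C.hi)) p.a0)⟩

/-- The cell is outside the prior region. -/
def prE (r : Rg) (dl dh f0 fd f1 : ℕ) : Bool :=
  Nat.ble (Nat.succ dh) (kl r.k0) || (Nat.ble (Nat.succ (ku r.k1)) dl ||
    (Nat.ble (Nat.succ (tu r.t1)) f0 || (Nat.ble 1 fd && Nat.ble (Nat.succ f1) (tl r.t0))))

/-- The cell is inside the region. -/
def inE (p r : Rg) (dl dh f0 fd f1 : ℕ) : Bool :=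
  ((Nat.ble r.k0 p.k0 || Nat.ble (ku r.k0) dl) && (Nat.ble p.k1 r.k1 || Nat.ble dh (kl r.k1))) &&
    ((Nat.ble r.t0 p.t0 || Nat.ble (tu r.t0) f0) &&
      (Nat.ble p.t1 r.t1 || (Nat.ble 1 fd && Nat.ble f1 (tl r.t1))))

def frE (p : VP) (A B C D : N) (dl nl glo ghi scl tlo thi : ℕ) : Bool :=
  slE p.m1 p.r1 A B dl nl glo ghi scl tlo thi || slE p.m2 p.r2 C D dl nl glo ghi scl tlo thi

/-- `s0, s1, c0, c1, h0, h1`: bounds of the squares; `dl, dh, nl, nh`: bounds of `|cos z|²`, `|sin z|²`. -/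
def fr2 (p : VP) (A B C D : N) (s0 s1 c0 c1 dl dh nl nh scl sch hl hh : ℕ) : Bool :=
  frE p A B C D dl nl
    (dlo (Nat.add 1073741824 (dlo (Nat.sub c1 s1) nh))
      (Nat.add 1073741824 (dhi (Nat.sub s1 c1) dl)))
    (dhi (Nat.add 1073741824 (dhi (Nat.sub c0 s0) nl))
      (Nat.add 1073741824 (dlo (Nat.sub s0 c0) dh)))
    scl (dlo hl sch) (dhi hh scl)

def fr1 (p : VP) (A B C D : N) (s0 s1 c0 c1 h0 h1 scl sch hl hh : ℕ) : Bool :=
  fr2 p A B C D s0 s1 c0 c1 (Nat.add c1 h0) (Nat.add c0 h1) (Nat.add s0 h0) (Nat.add s1 h1)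
    scl sch hl hh

/-- The exclusion by the slots; arguments: bounds of `sin R, cos R, sinh I, cosh I`. -/
def frr (p : VP) (A B C D : N) (s0 s1 c0 c1 h0 h1 C0 C1 : ℕ) : Bool :=
  fr1 p A B C D (mlo s0 s0) (mhi s1 s1) (mhi c0 c0) (mlo c1 c1) (mlo h0 h0) (mhi h1 h1)
    (mlo s0 c1) (mhi s1 c0) (mlo h0 C0) (mhi h1 C1)

/-- An acceptance or exclusion test by `|κ|²` and `tan φ`. -/
def kT (g : ℕ → ℕ → ℕ → ℕ → ℕ → Bool) (s0 s1 c0 c1 h0 h1 k0 k1 : ℕ) : Bool :=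
  g (Nat.add (mlo c1 c1) (mlo h0 h0)) (Nat.add (mhi c0 c0) (mhi h1 h1))
    (dlo (mlo s0 h0) (mhi c0 k0)) (mlo c1 k1) (dhi (mhi s1 h1) (mlo c1 k1))

def kTT (g : ℕ → ℕ → ℕ → ℕ → ℕ → Bool) (R I : N) : Bool :=
  kT g (snLo R.lo) (snHi R.hi) (csHi R.lo) (csLo R.hi) (shLo I.lo) (shHi I.hi) (chHi I.lo)
    (chLo I.hi)

def gd (A B C D R I : N) : Bool :=
  ((Nat.ble A.hi 2147483648 && Nat.ble C.hi 2147483648) &&
    (Nat.ble B.hi 3221225472 && Nat.ble D.hi 3221225472)) &&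
      (Nat.ble R.hi 3221225472 && Nat.ble I.hi 2147483648)

def vt2 (p : VP) (acc : N → N → N → N → N → N → Bool) (A B C D R I : N) : Bool :=
  gd A B C D R I && (kTT (prE p.pr) R I || (acc A B C D R I ||
    frr p A B C D (snLo R.lo) (snHi R.hi) (csHi R.lo) (csLo R.hi) (shLo I.lo) (shHi I.hi)
      (chLo I.lo) (chHi I.hi)))

/-- The test. -/
def vt (p : VP) (acc : N → N → N → N → N → N → Bool) (A B C D : N) : Bool :=
  vt2 p acc A B C D (rR p B D) (rI p A C)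

/-- Acceptance: the vertex is in the region `out`. -/
def accR (pr out : Rg) (_ _ _ _ R I : N) : Bool := kTT (inE pr out) R I

/-- The initial ranges. -/
def iP (m : Md) : N :=
  match m with
  | .o => ⟨0, 0⟩
  | _ => ⟨0, 2147483648⟩

def iQ (m : Md) : N :=
  match m with
  | .o => ⟨0, 0⟩
  | _ => ⟨0, 1686629714⟩

/-- The run. -/
def run (p : VP) (acc : N → N → N → N → N → N → Bool) (n : ℕ) : Bool :=
  bbw (vt p acc) 1 1 1 1 n (iP p.m1) (iQ p.m1) (iP p.m2) (iQ p.m2)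

end Pool.Agent.S5.E.VX
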