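import Pool.Agent.S5.E.VX.Fn0

/-!
# Bounds of `sin`, `cos`, `sinh`, `cosh` by kernel evaluation

The argument is a natural number `n` in units of `2 ^ (-30)`; the Taylor polynomials of degree `11`
and `10` are evaluated exactly.
-/

set_option autoImplicit false

namespace Pool.Agent.S5.E.VX

open Real Pool.Agent.S3.NI

/-! ### The evaluations -/

def evP (w w2 : ℕ) : ℕ := Nat.mul 1152921504606846976 (Nat.add (Nat.add
  6411534628667801055191869970695902710234773564982246075231684583250658643148800 (Nat.mul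
  200979272962679279983055627514388099891200 w)) (Nat.mul 90 w2))
def evN (y w w2 : ℕ) : ℕ := Nat.mul y (Nat.add (Nat.add
  3205767314333900527595934985347951355117386782491123037615842291625329321574400 (Nat.mul
  6699309098755975999435187583812936663040 w)) w2)
def odP (w w2 : ℕ) : ℕ := Nat.mul 1152921504606846976 (Nat.add (Nat.add
  70526880915345811607110569677654929812582509214804706827548530415757245074636800 (Nat.mul
  442154400517894415962722380531653819760640 w)) (Nat.mul 110 w2))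
def odN (y w w2 : ℕ) : ℕ := Nat.mul y (Nat.add (Nat.add
  11754480152557635267851761612942488302097084869134117804591421735959540845772800 (Nat.mul
  10527485726616533713398151917420329041920 w)) w2)

def csLo2 (y w w2 : ℕ) : ℕ := Nat.div (Nat.sub (evP w w2) (evN y w w2))
  6884332886824927395070843132305845125414029235891019428436110227012242060695957615411200
def csLo1 (y w : ℕ) : ℕ := csLo2 y w (Nat.mul w w)
def csLo0 (y : ℕ) : ℕ := csLo1 y (Nat.mul y y)
/-- lower bound of `cos`. -/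
def csLo (n : ℕ) : ℕ := csLo0 (Nat.mul n n)

def csHi2 (y w w2 : ℕ) : ℕ := Nat.succ (Nat.div (Nat.add (Nat.mul (Nat.sub (evP w w2) (evN y w w2))
  152185638608103800832) (Nat.mul w w2))
  1047696596772222364593507562792904022198352722468938186187842401703337742541299786225539969415126018582118400)
def csHi1 (y w : ℕ) : ℕ := csHi2 y w (Nat.mul w w)
def csHi0 (y : ℕ) : ℕ := csHi1 y (Nat.mul y y)
/-- upper bound of `cos`. -/
def csHi (n : ℕ) : ℕ := csHi0 (Nat.mul n n)

def chLo2 (y w w2 : ℕ) : ℕ := Nat.div (Nat.add (evP w w2) (evN y w w2))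
  6884332886824927395070843132305845125414029235891019428436110227012242060695957615411200
def chLo1 (y w : ℕ) : ℕ := chLo2 y w (Nat.mul w w)
def chLo0 (y : ℕ) : ℕ := chLo1 y (Nat.mul y y)
/-- lower bound of `cosh`. -/
def chLo (n : ℕ) : ℕ := chLo0 (Nat.mul n n)

def chHi2 (y w w2 : ℕ) : ℕ := Nat.succ (Nat.div (Nat.add (Nat.mul (Nat.add (evP w w2) (evN y w w2))
  152185638608103800832) (Nat.mul 4 (Nat.mul w w2)))
  1047696596772222364593507562792904022198352722468938186187842401703337742541299786225539969415126018582118400)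
def chHi1 (y w : ℕ) : ℕ := chHi2 y w (Nat.mul w w)
def chHi0 (y : ℕ) : ℕ := chHi1 y (Nat.mul y y)
/-- upper bound of `cosh`. -/
def chHi (n : ℕ) : ℕ := chHi0 (Nat.mul n n)

def snLo2 (n y w w2 : ℕ) : ℕ := Nat.div (Nat.mul n (Nat.sub (odP w w2) (odN y w w2)))
  81311957660148414208360292855099466179059253576284444129392691088788967466393158633381436378316800
def snLo1 (n y w : ℕ) : ℕ := snLo2 n y w (Nat.mul w w)
def snLo0 (n y : ℕ) : ℕ := snLo1 n y (Nat.mul y y)
/-- lower bound of `sin`. -/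
def snLo (n : ℕ) : ℕ := snLo0 n (Nat.mul n n)

def snHi2 (n y w w2 : ℕ) : ℕ := Nat.succ (Nat.div (Nat.mul n (Nat.add (Nat.mul (Nat.sub (odP w w2)
  (odN y w w2)) 179855754718668128256) (Nat.mul w w2)))
  14624423512618381205798935777403614887678544646249125127947611591383273469336389161304077707881121116968882159799500800)
def snHi1 (n y w : ℕ) : ℕ := snHi2 n y w (Nat.mul w w)
def snHi0 (n y : ℕ) : ℕ := snHi1 n y (Nat.mul y y)
/-- upper bound of `sin`. -/
def snHi (n : ℕ) : ℕ := bif Nat.ble 1686629713 n then 1073741824 else snHi0 n (Nat.mul n n)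

def shLo2 (n y w w2 : ℕ) : ℕ := Nat.div (Nat.mul n (Nat.add (odP w w2) (odN y w w2)))
  81311957660148414208360292855099466179059253576284444129392691088788967466393158633381436378316800
def shLo1 (n y w : ℕ) : ℕ := shLo2 n y w (Nat.mul w w)
def shLo0 (n y : ℕ) : ℕ := shLo1 n y (Nat.mul y y)
/-- lower bound of `sinh`. -/
def shLo (n : ℕ) : ℕ := shLo0 n (Nat.mul n n)

def shHi2 (n y w w2 : ℕ) : ℕ := Nat.succ (Nat.div (Nat.mul n (Nat.add (Nat.mul (Nat.add (odP w w2)
  (odN y w w2)) 179855754718668128256) (Nat.mul 4 (Nat.mul w w2))))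
  14624423512618381205798935777403614887678544646249125127947611591383273469336389161304077707881121116968882159799500800)
def shHi1 (n y w : ℕ) : ℕ := shHi2 n y w (Nat.mul w w)
def shHi0 (n y : ℕ) : ℕ := shHi1 n y (Nat.mul y y)
/-- upper bound of `sinh`. -/
def shHi (n : ℕ) : ℕ := shHi0 n (Nat.mul n n)

/-! ### Soundness -/

theorem cast_n (n : ℕ) : (n : ℝ) = ((n : ℝ) / 1073741824) * 1073741824 := by
  rw [div_mul_cancel₀ _ (by norm_num)]

theorem evP_cast {x : ℝ} {y w w2 : ℕ} (hy : (y : ℝ) = x ^ 2 * 1152921504606846976)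
    (hw : w = y * y) (hw2 : w2 = w * w) : ((evP w w2 : ℕ) : ℝ) =
      (3628800 + 151200 * x ^ 4 + 90 * x ^ 8) * 1152921504606846976 ^ 5 := by
  unfold evP
  rw [cast_mul', cast_add', cast_add', cast_mul', cast_mul', hw2, hw]
  push_cast
  rw [hy]
  ring

theorem evN_cast {x : ℝ} {y w w2 : ℕ} (hy : (y : ℝ) = x ^ 2 * 1152921504606846976)
    (hw : w = y * y) (hw2 : w2 = w * w) : ((evN y w w2 : ℕ) : ℝ) =
      (1814400 * x ^ 2 + 5040 * x ^ 6 + x ^ 10) * 1152921504606846976 ^ 5 := by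
  unfold evN
  rw [cast_mul', cast_add', cast_add', cast_mul', hw2, hw]
  push_cast
  rw [hy]
  ring

theorem odP_cast {x : ℝ} {y w w2 : ℕ} (hy : (y : ℝ) = x ^ 2 * 1152921504606846976)
    (hw : w = y * y) (hw2 : w2 = w * w) : ((odP w w2 : ℕ) : ℝ) =
      (39916800 + 332640 * x ^ 4 + 110 * x ^ 8) * 1152921504606846976 ^ 5 := by
  unfold odP
  rw [cast_mul', cast_add', cast_add', cast_mul', cast_mul', hw2, hw]
  push_cast
  rw [hy]
  ring

theorem odN_cast {x : ℝ} {y w w2 : ℕ} (hy : (y : ℝ) = x ^ 2 * 1152921504606846976)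
    (hw : w = y * y) (hw2 : w2 = w * w) : ((odN y w w2 : ℕ) : ℝ) =
      (6652800 * x ^ 2 + 7920 * x ^ 6 + x ^ 10) * 1152921504606846976 ^ 5 := by
  unfold odN
  rw [cast_mul', cast_add', cast_add', cast_mul', hw2, hw]
  push_cast
  rw [hy]
  ring

theorem cast_sq {x : ℝ} {n : ℕ} (hn : (n : ℝ) = x * 1073741824) :
    ((Nat.mul n n : ℕ) : ℝ) = x ^ 2 * 1152921504606846976 := by
  rw [cast_mul', hn]
  ring

/-- The upper bound of a truncated difference is a bound of the difference. -/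
theorem sub_le_nsub (a b : ℕ) : (a : ℝ) - b ≤ ((Nat.sub a b : ℕ) : ℝ) := le_nsub le_rfl

theorem csLo_le {x t : ℝ} {n : ℕ} (hn : (n : ℝ) = x * 1073741824) (h0 : 0 ≤ t)
    (h : 1 - x ^ 2 / 2 + x ^ 4 / 24 - x ^ 6 / 720 + x ^ 8 / 40320 - x ^ 10 / 3628800 ≤ t) :
    (csLo n : ℝ) ≤ t * 1073741824 := by
  obtain ⟨y, hy⟩ : ∃ y, y = Nat.mul n n := ⟨_, rfl⟩
  obtain ⟨w, hw⟩ : ∃ w, w = y * y := ⟨_, rfl⟩
  obtain ⟨w2, hw2⟩ : ∃ w2, w2 = w * w := ⟨_, rfl⟩
  have e : csLo n = Nat.div (Nat.sub (evP w w2) (evN y w w2))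
      6884332886824927395070843132305845125414029235891019428436110227012242060695957615411200 := by
    rw [hw2, hw, hy]; rfl
  have hy' : (y : ℝ) = x ^ 2 * 1152921504606846976 := by rw [hy]; exact cast_sq hn
  rw [e]
  refine (nat_div_le _ _).trans ?_
  rw [div_le_iff₀ (by norm_num)]
  apply nsub_le
  · rw [evP_cast hy' hw hw2, evN_cast hy' hw hw2]
    push_cast
    nlinarith
  · positivity

theorem le_csHi {x t : ℝ} {n : ℕ} (hn : (n : ℝ) = x * 1073741824)
    (h : t ≤ 1 - x ^ 2 / 2 + x ^ 4 / 24 - x ^ 6 / 720 + x ^ 8 / 40320 - x ^ 10 / 3628800 +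
      x ^ 12 / 479001600) : t * 1073741824 ≤ (csHi n : ℝ) := by
  obtain ⟨y, hy⟩ : ∃ y, y = Nat.mul n n := ⟨_, rfl⟩
  obtain ⟨w, hw⟩ : ∃ w, w = y * y := ⟨_, rfl⟩
  obtain ⟨w2, hw2⟩ : ∃ w2, w2 = w * w := ⟨_, rfl⟩
  have e : csHi n = Nat.succ (Nat.div (Nat.add (Nat.mul (Nat.sub (evP w w2) (evN y w w2))
      152185638608103800832) (Nat.mul w w2))
      1047696596772222364593507562792904022198352722468938186187842401703337742541299786225539969415126018582118400) := by
    rw [hw2, hw, hy]; rfl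
  have hy' : (y : ℝ) = x ^ 2 * 1152921504606846976 := by rw [hy]; exact cast_sq hn
  rw [e]
  refine le_trans ?_ (le_succ_div _ (by norm_num))
  rw [le_div_iff₀ (by norm_num), cast_add', cast_mul', cast_mul']
  have k := sub_le_nsub (evP w w2) (evN y w w2)
  rw [evP_cast hy' hw hw2, evN_cast hy' hw hw2] at k
  have k2 := mul_le_mul_of_nonneg_right k (show (0 : ℝ) ≤ ((152185638608103800832 : ℕ) : ℝ) from
    Nat.cast_nonneg _)
  refine le_trans ?_ (add_le_add_left k2 _)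
  rw [hw2, hw]
  push_cast
  rw [hy']
  nlinarith

theorem chLo_le {x t : ℝ} {n : ℕ} (hn : (n : ℝ) = x * 1073741824)
    (h : 1 + x ^ 2 / 2 + x ^ 4 / 24 + x ^ 6 / 720 + x ^ 8 / 40320 + x ^ 10 / 3628800 ≤ t) :
    (chLo n : ℝ) ≤ t * 1073741824 := by
  obtain ⟨y, hy⟩ : ∃ y, y = Nat.mul n n := ⟨_, rfl⟩
  obtain ⟨w, hw⟩ : ∃ w, w = y * y := ⟨_, rfl⟩
  obtain ⟨w2, hw2⟩ : ∃ w2, w2 = w * w := ⟨_, rfl⟩
  have e : chLo n = Nat.div (Nat.add (evP w w2) (evN y w w2))
      6884332886824927395070843132305845125414029235891019428436110227012242060695957615411200 := by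
    rw [hw2, hw, hy]; rfl
  have hy' : (y : ℝ) = x ^ 2 * 1152921504606846976 := by rw [hy]; exact cast_sq hn
  rw [e]
  refine (nat_div_le _ _).trans ?_
  rw [div_le_iff₀ (by norm_num), cast_add', evP_cast hy' hw hw2, evN_cast hy' hw hw2]
  push_cast
  nlinarith

theorem le_chHi {x t : ℝ} {n : ℕ} (hn : (n : ℝ) = x * 1073741824)
    (h : t ≤ 1 + x ^ 2 / 2 + x ^ 4 / 24 + x ^ 6 / 720 + x ^ 8 / 40320 + x ^ 10 / 3628800 +
      4 * x ^ 12 / 479001600) : t * 1073741824 ≤ (chHi n : ℝ) := by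
  obtain ⟨y, hy⟩ : ∃ y, y = Nat.mul n n := ⟨_, rfl⟩
  obtain ⟨w, hw⟩ : ∃ w, w = y * y := ⟨_, rfl⟩
  obtain ⟨w2, hw2⟩ : ∃ w2, w2 = w * w := ⟨_, rfl⟩
  have e : chHi n = Nat.succ (Nat.div (Nat.add (Nat.mul (Nat.add (evP w w2) (evN y w w2))
      152185638608103800832) (Nat.mul 4 (Nat.mul w w2)))
      1047696596772222364593507562792904022198352722468938186187842401703337742541299786225539969415126018582118400) := by
    rw [hw2, hw, hy]; rfl
  have hy' : (y : ℝ) = x ^ 2 * 1152921504606846976 := by rw [hy]; exact cast_sq hn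
  rw [e]
  refine le_trans ?_ (le_succ_div _ (by norm_num))
  rw [le_div_iff₀ (by norm_num), cast_add', cast_mul', cast_mul', cast_add', cast_mul',
    evP_cast hy' hw hw2, evN_cast hy' hw hw2, hw2, hw]
  push_cast
  rw [hy']
  nlinarith

theorem snLo_le {x t : ℝ} {n : ℕ} (hn : (n : ℝ) = x * 1073741824) (h0 : 0 ≤ t)
    (h : x - x ^ 3 / 6 + x ^ 5 / 120 - x ^ 7 / 5040 + x ^ 9 / 362880 - x ^ 11 / 39916800 ≤ t) :
    (snLo n : ℝ) ≤ t * 1073741824 := by
  obtain ⟨y, hy⟩ : ∃ y, y = Nat.mul n n := ⟨_, rfl⟩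
  obtain ⟨w, hw⟩ : ∃ w, w = y * y := ⟨_, rfl⟩
  obtain ⟨w2, hw2⟩ : ∃ w2, w2 = w * w := ⟨_, rfl⟩
  have e : snLo n = Nat.div (Nat.mul n (Nat.sub (odP w w2) (odN y w w2)))
      81311957660148414208360292855099466179059253576284444129392691088788967466393158633381436378316800 := by
    rw [hw2, hw, hy]; rfl
  have hy' : (y : ℝ) = x ^ 2 * 1152921504606846976 := by rw [hy]; exact cast_sq hn
  rw [e]
  refine (nat_div_le _ _).trans ?_
  rw [div_le_iff₀ (by norm_num), cast_mul']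
  have hx : 0 ≤ x := by
    have : (0 : ℝ) ≤ n := n.cast_nonneg
    rw [hn] at this
    linarith
  rcases le_total ((odN y w w2 : ℕ) : ℝ) ((odP w w2 : ℕ) : ℝ) with hc | hc
  · have hc' : odN y w w2 ≤ odP w w2 := by exact_mod_cast hc
    rw [cast_sub' hc', odP_cast hy' hw hw2, odN_cast hy' hw hw2, hn]
    push_cast
    nlinarith
  · have hc' : odP w w2 ≤ odN y w w2 := by exact_mod_cast hc
    have e2 : Nat.sub (odP w w2) (odN y w w2) = 0 := Nat.sub_eq_zero_of_le hc'
    rw [e2]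
    push_cast
    rw [mul_zero]
    positivity

theorem le_snHi {x t : ℝ} {n : ℕ} (hn : (n : ℝ) = x * 1073741824)
    (h : t ≤ x - x ^ 3 / 6 + x ^ 5 / 120 - x ^ 7 / 5040 + x ^ 9 / 362880 - x ^ 11 / 39916800 +
      x ^ 13 / 6227020800) : t * 1073741824 ≤ (snHi0 n (Nat.mul n n) : ℝ) := by
  obtain ⟨y, hy⟩ : ∃ y, y = Nat.mul n n := ⟨_, rfl⟩
  obtain ⟨w, hw⟩ : ∃ w, w = y * y := ⟨_, rfl⟩
  obtain ⟨w2, hw2⟩ : ∃ w2, w2 = w * w := ⟨_, rfl⟩
  have e : snHi0 n (Nat.mul n n) = Nat.succ (Nat.div (Nat.mul n (Nat.add (Nat.mul (Nat.sub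
      (odP w w2) (odN y w w2)) 179855754718668128256) (Nat.mul w w2)))
      14624423512618381205798935777403614887678544646249125127947611591383273469336389161304077707881121116968882159799500800) := by
    rw [hw2, hw, hy]; rfl
  have hy' : (y : ℝ) = x ^ 2 * 1152921504606846976 := by rw [hy]; exact cast_sq hn
  have hn0 : (0 : ℝ) ≤ n := n.cast_nonneg
  rw [e]
  refine le_trans ?_ (le_succ_div _ (by norm_num))
  rw [le_div_iff₀ (by norm_num), cast_mul', cast_add', cast_mul', cast_mul']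
  have k := sub_le_nsub (odP w w2) (odN y w w2)
  rw [odP_cast hy' hw hw2, odN_cast hy' hw hw2] at k
  have k2 := mul_le_mul_of_nonneg_right k (show (0 : ℝ) ≤ ((179855754718668128256 : ℕ) : ℝ) from
    Nat.cast_nonneg _)
  refine le_trans ?_ (mul_le_mul_of_nonneg_left (add_le_add_left k2 _) hn0)
  rw [hn, hw2, hw]
  push_cast
  rw [hy']
  nlinarith

theorem shLo_le {x t : ℝ} {n : ℕ} (hn : (n : ℝ) = x * 1073741824)
    (h : x + x ^ 3 / 6 + x ^ 5 / 120 + x ^ 7 / 5040 + x ^ 9 / 362880 + x ^ 11 / 39916800 ≤ t) :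
    (shLo n : ℝ) ≤ t * 1073741824 := by
  obtain ⟨y, hy⟩ : ∃ y, y = Nat.mul n n := ⟨_, rfl⟩
  obtain ⟨w, hw⟩ : ∃ w, w = y * y := ⟨_, rfl⟩
  obtain ⟨w2, hw2⟩ : ∃ w2, w2 = w * w := ⟨_, rfl⟩
  have e : shLo n = Nat.div (Nat.mul n (Nat.add (odP w w2) (odN y w w2)))
      81311957660148414208360292855099466179059253576284444129392691088788967466393158633381436378316800 := by
    rw [hw2, hw, hy]; rfl
  have hy' : (y : ℝ) = x ^ 2 * 1152921504606846976 := by rw [hy]; exact cast_sq hn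
  rw [e]
  refine (nat_div_le _ _).trans ?_
  rw [div_le_iff₀ (by norm_num), cast_mul', cast_add', odP_cast hy' hw hw2, odN_cast hy' hw hw2, hn]
  push_cast
  nlinarith

theorem le_shHi {x t : ℝ} {n : ℕ} (hn : (n : ℝ) = x * 1073741824)
    (h : t ≤ x + x ^ 3 / 6 + x ^ 5 / 120 + x ^ 7 / 5040 + x ^ 9 / 362880 + x ^ 11 / 39916800 +
      4 * x ^ 13 / 6227020800) : t * 1073741824 ≤ (shHi n : ℝ) := by
  obtain ⟨y, hy⟩ : ∃ y, y = Nat.mul n n := ⟨_, rfl⟩
  obtain ⟨w, hw⟩ : ∃ w, w = y * y := ⟨_, rfl⟩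
  obtain ⟨w2, hw2⟩ : ∃ w2, w2 = w * w := ⟨_, rfl⟩
  have e : shHi n = Nat.succ (Nat.div (Nat.mul n (Nat.add (Nat.mul (Nat.add
      (odP w w2) (odN y w w2)) 179855754718668128256) (Nat.mul 4 (Nat.mul w w2))))
      14624423512618381205798935777403614887678544646249125127947611591383273469336389161304077707881121116968882159799500800) := by
    rw [hw2, hw, hy]; rfl
  have hy' : (y : ℝ) = x ^ 2 * 1152921504606846976 := by rw [hy]; exact cast_sq hn
  rw [e]
  refine le_trans ?_ (le_succ_div _ (by norm_num))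
  rw [le_div_iff₀ (by norm_num), cast_mul', cast_add', cast_mul', cast_mul', cast_add', cast_mul',
    odP_cast hy' hw hw2, odN_cast hy' hw hw2, hn, hw2, hw]
  push_cast
  rw [hy']
  nlinarith

/-! ### End points of intervals -/

section

variable {x : ℝ} {n : ℕ}

theorem snLo_mem (h1 : x ≤ π / 2) (hn : (n : ℝ) ≤ x * 1073741824) :
    (snLo n : ℝ) ≤ sin x * 1073741824 := by
  have hn0 : (0 : ℝ) ≤ n := n.cast_nonneg
  have h2 : (n : ℝ) / 1073741824 ≤ x := by rw [div_le_iff₀ (by norm_num)]; exact hn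
  have h3 : 0 ≤ (n : ℝ) / 1073741824 := by positivity
  have h4 : sin ((n : ℝ) / 1073741824) ≤ sin x :=
    sin_le_sin_of_le_of_le_pi_div_two (by linarith [pi_pos]) h1 h2
  apply snLo_le (cast_n n)
  · exact sin_nonneg_of_nonneg_of_le_pi (h3.trans h2) (by linarith [pi_pos])
  · exact (T11_le_sin h3).trans h4

theorem snHi_mem (h0 : 0 ≤ x) (hn : x * 1073741824 ≤ n) :
    sin x * 1073741824 ≤ (snHi n : ℝ) := by
  have hn0 : (0 : ℝ) ≤ n := n.cast_nonneg
  have h2 : x ≤ (n : ℝ) / 1073741824 := by rw [le_div_iff₀ (by norm_num)]; exact hn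
  unfold snHi
  rcases hb : Nat.ble 1686629713 n with _ | _
  · have hb' : n < 1686629713 := by
      by_contra hc
      push Not at hc
      rw [← Nat.ble_eq, hb] at hc
      exact absurd hc (by decide)
    have hb2 : (n : ℝ) ≤ 1686629713 := by exact_mod_cast hb'.le
    have h5 : (n : ℝ) / 1073741824 ≤ π / 2 := by
      rw [div_le_iff₀ (by norm_num)]
      exact hb2.trans pi_lo
    have h4 : sin x ≤ sin ((n : ℝ) / 1073741824) :=
      sin_le_sin_of_le_of_le_pi_div_two (by linarith [pi_pos]) h5 h2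
    rw [cond_false]
    exact le_snHi (cast_n n) (h4.trans (sin_le_T13 (h0.trans h2)))
  · rw [cond_true]
    push_cast
    linarith [sin_le_one x]

theorem csLo_mem (h0 : 0 ≤ x) (h1 : x ≤ π / 2) (hn : x * 1073741824 ≤ n) (h3 : n ≤ 3221225472) :
    (csLo n : ℝ) ≤ cos x * 1073741824 := by
  have h2 : x ≤ (n : ℝ) / 1073741824 := by rw [le_div_iff₀ (by norm_num)]; exact hn
  have h3' : (n : ℝ) ≤ 3221225472 := by exact_mod_cast h3
  have h4 : (n : ℝ) / 1073741824 ≤ π := by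
    rw [div_le_iff₀ (by norm_num)]
    linarith [pi_gt_three]
  have h5 : cos ((n : ℝ) / 1073741824) ≤ cos x := cos_le_cos_of_nonneg_of_le_pi h0 h4 h2
  exact csLo_le (cast_n n) (cos_nonneg_of_neg_pi_div_two_le_of_le (by linarith [pi_pos]) h1)
    ((T10_le_cos (h0.trans h2)).trans h5)

theorem csHi_mem (h1 : x ≤ π / 2) (hn : (n : ℝ) ≤ x * 1073741824) :
    cos x * 1073741824 ≤ (csHi n : ℝ) := by
  have h2 : (n : ℝ) / 1073741824 ≤ x := by rw [div_le_iff₀ (by norm_num)]; exact hn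
  have h3 : 0 ≤ (n : ℝ) / 1073741824 := by positivity
  have h5 : cos x ≤ cos ((n : ℝ) / 1073741824) :=
    cos_le_cos_of_nonneg_of_le_pi h3 (by linarith [pi_pos]) h2
  exact le_csHi (cast_n n) (h5.trans (cos_le_T12 h3))

theorem shLo_mem (hn : (n : ℝ) ≤ x * 1073741824) : (shLo n : ℝ) ≤ sinh x * 1073741824 := by
  have h2 : (n : ℝ) / 1073741824 ≤ x := by rw [div_le_iff₀ (by norm_num)]; exact hn
  have h3 : 0 ≤ (n : ℝ) / 1073741824 := by positivity
  exact shLo_le (cast_n n) ((T11_le_sinh h3).trans (sinh_le_sinh.2 h2))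

theorem shHi_mem (h0 : 0 ≤ x) (hn : x * 1073741824 ≤ n) (h2 : n ≤ 2147483648) :
    sinh x * 1073741824 ≤ (shHi n : ℝ) := by
  have h3 : x ≤ (n : ℝ) / 1073741824 := by rw [le_div_iff₀ (by norm_num)]; exact hn
  have h4 : (n : ℝ) ≤ 2147483648 := by exact_mod_cast h2
  have h5 : (n : ℝ) / 1073741824 ≤ 2 := by
    rw [div_le_iff₀ (by norm_num)]
    linarith
  exact le_shHi (cast_n n) ((sinh_le_sinh.2 h3).trans (sinh_le_U13 (h0.trans h3) h5))

theorem chLo_mem (hn : (n : ℝ) ≤ x * 1073741824) : (chLo n : ℝ) ≤ cosh x * 1073741824 := by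
  have h2 : (n : ℝ) / 1073741824 ≤ x := by rw [div_le_iff₀ (by norm_num)]; exact hn
  have h3 : 0 ≤ (n : ℝ) / 1073741824 := by positivity
  refine chLo_le (cast_n n) ((T10_le_cosh h3).trans (cosh_le_cosh.2 ?_))
  rw [abs_of_nonneg h3, abs_of_nonneg (h3.trans h2)]
  exact h2

theorem chHi_mem (h0 : 0 ≤ x) (hn : x * 1073741824 ≤ n) (h2 : n ≤ 2147483648) :
    cosh x * 1073741824 ≤ (chHi n : ℝ) := by
  have h3 : x ≤ (n : ℝ) / 1073741824 := by rw [le_div_iff₀ (by norm_num)]; exact hn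
  have h4 : (n : ℝ) ≤ 2147483648 := by exact_mod_cast h2
  have h5 : (n : ℝ) / 1073741824 ≤ 2 := by
    rw [div_le_iff₀ (by norm_num)]
    linarith
  refine le_chHi (cast_n n) ((cosh_le_cosh.2 ?_).trans (cosh_le_U12 (h0.trans h3) h5))
  rw [abs_of_nonneg h0, abs_of_nonneg (h0.trans h3)]
  exact h3

end

end Pool.Agent.S5.E.VX
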