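import Pool.Agent.S3.NIF

/-!
# Taylor bounds of `sin`, `cos`, `sinh`, `cosh`
-/

set_option autoImplicit false

namespace Pool.Agent.S5.E.VX

open Real Pool.Agent.S3.NI

/-! ### Taylor polynomials -/

theorem le_of_der0 {f f' : ℝ → ℝ} (h : ∀ x, HasDerivAt f (f' x) x) (h' : ∀ x, 0 ≤ x → 0 ≤ f' x)
    (h0 : f 0 = 0) {x : ℝ} (hx : 0 ≤ x) : 0 ≤ f x := by
  have := le_of_der (f := f) (f' := f') (a := 0) (fun x _ => h x) h' hx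
  rwa [h0] at this

/-- Monotonicity on `[0, b]`. -/
theorem le_of_der1 {f f' : ℝ → ℝ} {b : ℝ} (h : ∀ x, HasDerivAt f (f' x) x)
    (h' : ∀ x, 0 ≤ x → x ≤ b → 0 ≤ f' x) (h0 : f 0 = 0) {x : ℝ} (hx : 0 ≤ x) (hb : x ≤ b) :
    0 ≤ f x := by
  have hm : MonotoneOn f (Set.Icc 0 b) := by
    apply monotoneOn_of_deriv_nonneg (convex_Icc 0 b)
    · exact fun x _ => (h x).continuousAt.continuousWithinAt
    · intro x _
      exact (h x).differentiableAt.differentiableWithinAt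
    · intro x hx
      rw [interior_Icc] at hx
      rw [(h x).deriv]
      exact h' x hx.1.le hx.2.le
  have := hm ⟨le_refl 0, hx.trans hb⟩ ⟨hx, hb⟩ hx
  rwa [h0] at this

/-- Monomials. -/
private theorem dm (a : ℝ) (n : ℕ) (c c' : ℝ) (h : c' = (n + 1 : ℕ) * c) (x : ℝ) :
    HasDerivAt (fun x : ℝ => a * x ^ (n + 1) / c') (a * x ^ n / c) x := by
  refine (((hasDerivAt_pow (n + 1) x).const_mul a).div_const c').congr_deriv ?_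
  have h1 : ((n + 1 : ℕ) : ℝ) ≠ 0 := Nat.cast_ne_zero.2 (Nat.succ_ne_zero n)
  rw [h, Nat.add_sub_cancel, mul_left_comm, mul_div_mul_left _ _ h1]

private theorem dn (n : ℕ) (c c' : ℝ) (h : c' = (n + 1 : ℕ) * c) (x : ℝ) :
    HasDerivAt (fun x : ℝ => x ^ (n + 1) / c') (x ^ n / c) x := by
  refine ((hasDerivAt_pow (n + 1) x).div_const c').congr_deriv ?_
  have h1 : ((n + 1 : ℕ) : ℝ) ≠ 0 := Nat.cast_ne_zero.2 (Nat.succ_ne_zero n)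
  rw [h, Nat.add_sub_cancel, mul_div_mul_left _ _ h1]

private theorem m2 (x : ℝ) : HasDerivAt (fun x : ℝ => x ^ 2 / 2) x x :=
  (dn 1 1 2 (by norm_num) x).congr_deriv (by rw [pow_one, div_one])

private theorem u2 (x : ℝ) : HasDerivAt (fun x : ℝ => 4 * x ^ 2 / 2) (4 * x) x :=
  (dm 4 1 1 2 (by norm_num) x).congr_deriv (by rw [pow_one, div_one])

private theorem m3 (x : ℝ) : HasDerivAt (fun x : ℝ => x ^ 3 / 6) (x ^ 2 / 2) x :=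
  dn 2 2 6 (by norm_num) x

private theorem m4 (x : ℝ) : HasDerivAt (fun x : ℝ => x ^ 4 / 24) (x ^ 3 / 6) x :=
  dn 3 6 24 (by norm_num) x

private theorem m5 (x : ℝ) : HasDerivAt (fun x : ℝ => x ^ 5 / 120) (x ^ 4 / 24) x :=
  dn 4 24 120 (by norm_num) x

private theorem m6 (x : ℝ) : HasDerivAt (fun x : ℝ => x ^ 6 / 720) (x ^ 5 / 120) x :=
  dn 5 120 720 (by norm_num) x

private theorem m7 (x : ℝ) : HasDerivAt (fun x : ℝ => x ^ 7 / 5040) (x ^ 6 / 720) x :=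
  dn 6 720 5040 (by norm_num) x

private theorem m8 (x : ℝ) : HasDerivAt (fun x : ℝ => x ^ 8 / 40320) (x ^ 7 / 5040) x :=
  dn 7 5040 40320 (by norm_num) x

private theorem m9 (x : ℝ) : HasDerivAt (fun x : ℝ => x ^ 9 / 362880) (x ^ 8 / 40320) x :=
  dn 8 40320 362880 (by norm_num) x

private theorem m10 (x : ℝ) : HasDerivAt (fun x : ℝ => x ^ 10 / 3628800) (x ^ 9 / 362880) x :=
  dn 9 362880 3628800 (by norm_num) x

private theorem m11 (x : ℝ) : HasDerivAt (fun x : ℝ => x ^ 11 / 39916800) (x ^ 10 / 3628800) x :=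
  dn 10 3628800 39916800 (by norm_num) x

private theorem m12 (x : ℝ) : HasDerivAt (fun x : ℝ => x ^ 12 / 479001600) (x ^ 11 / 39916800) x :=
  dn 11 39916800 479001600 (by norm_num) x

private theorem m13 (x : ℝ) : HasDerivAt (fun x : ℝ => x ^ 13 / 6227020800) (x ^ 12 / 479001600) x :=
  dn 12 479001600 6227020800 (by norm_num) x

private theorem u3 (x : ℝ) : HasDerivAt (fun x : ℝ => 4 * x ^ 3 / 6) (4 * x ^ 2 / 2) x :=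
  dm 4 2 2 6 (by norm_num) x

private theorem u4 (x : ℝ) : HasDerivAt (fun x : ℝ => 4 * x ^ 4 / 24) (4 * x ^ 3 / 6) x :=
  dm 4 3 6 24 (by norm_num) x

private theorem u5 (x : ℝ) : HasDerivAt (fun x : ℝ => 4 * x ^ 5 / 120) (4 * x ^ 4 / 24) x :=
  dm 4 4 24 120 (by norm_num) x

private theorem u6 (x : ℝ) : HasDerivAt (fun x : ℝ => 4 * x ^ 6 / 720) (4 * x ^ 5 / 120) x :=
  dm 4 5 120 720 (by norm_num) x

private theorem u7 (x : ℝ) : HasDerivAt (fun x : ℝ => 4 * x ^ 7 / 5040) (4 * x ^ 6 / 720) x :=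
  dm 4 6 720 5040 (by norm_num) x

private theorem u8 (x : ℝ) : HasDerivAt (fun x : ℝ => 4 * x ^ 8 / 40320) (4 * x ^ 7 / 5040) x :=
  dm 4 7 5040 40320 (by norm_num) x

private theorem u9 (x : ℝ) : HasDerivAt (fun x : ℝ => 4 * x ^ 9 / 362880) (4 * x ^ 8 / 40320) x :=
  dm 4 8 40320 362880 (by norm_num) x

private theorem u10 (x : ℝ) : HasDerivAt (fun x : ℝ => 4 * x ^ 10 / 3628800) (4 * x ^ 9 / 362880) x :=
  dm 4 9 362880 3628800 (by norm_num) x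

private theorem u11 (x : ℝ) : HasDerivAt (fun x : ℝ => 4 * x ^ 11 / 39916800) (4 * x ^ 10 / 3628800) x :=
  dm 4 10 3628800 39916800 (by norm_num) x

private theorem u12 (x : ℝ) : HasDerivAt (fun x : ℝ => 4 * x ^ 12 / 479001600) (4 * x ^ 11 / 39916800) x :=
  dm 4 11 39916800 479001600 (by norm_num) x

private theorem u13 (x : ℝ) : HasDerivAt (fun x : ℝ => 4 * x ^ 13 / 6227020800) (4 * x ^ 12 / 479001600) x :=
  dm 4 12 479001600 6227020800 (by norm_num) x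

theorem cos_le_T0 {x : ℝ} (_ : 0 ≤ x) : cos x ≤ 1 := cos_le_one x

theorem sin_le_T1 {x : ℝ} (hx : 0 ≤ x) :
    sin x ≤ x :=
  sub_nonneg.1 (le_of_der0 (f := fun x : ℝ => (x) - sin x)
    (f' := fun x => (1) - cos x)
    (fun x => (hasDerivAt_id' x).fun_sub (hasDerivAt_sin x))
    (fun x hx => sub_nonneg.2 (cos_le_T0 hx)) (by simp) hx)

theorem T2_le_cos {x : ℝ} (hx : 0 ≤ x) :
    1 - x ^ 2 / 2 ≤ cos x :=
  sub_nonneg.1 (le_of_der0 (f := fun x : ℝ => cos x - (1 - x ^ 2 / 2))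
    (f' := fun x => (x) - sin x)
    (fun x => ((hasDerivAt_cos x).fun_sub ((m2 x).const_sub (1 : ℝ))).congr_deriv (by ring))
    (fun x hx => sub_nonneg.2 (sin_le_T1 hx)) (by simp) hx)

theorem T3_le_sin {x : ℝ} (hx : 0 ≤ x) :
    x - x ^ 3 / 6 ≤ sin x :=
  sub_nonneg.1 (le_of_der0 (f := fun x : ℝ => sin x - (x - x ^ 3 / 6))
    (f' := fun x => cos x - (1 - x ^ 2 / 2))
    (fun x => (hasDerivAt_sin x).fun_sub ((hasDerivAt_id' x).fun_sub (m3 x)))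
    (fun x hx => sub_nonneg.2 (T2_le_cos hx)) (by simp) hx)

theorem cos_le_T4 {x : ℝ} (hx : 0 ≤ x) :
    cos x ≤ 1 - x ^ 2 / 2 + x ^ 4 / 24 :=
  sub_nonneg.1 (le_of_der0 (f := fun x : ℝ => (1 - x ^ 2 / 2 + x ^ 4 / 24) - cos x)
    (f' := fun x => sin x - (x - x ^ 3 / 6))
    (fun x => ((((m2 x).const_sub (1 : ℝ)).fun_add (m4 x)).fun_sub (hasDerivAt_cos x)).congr_deriv (by ring))
    (fun x hx => sub_nonneg.2 (T3_le_sin hx)) (by simp) hx)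

theorem sin_le_T5 {x : ℝ} (hx : 0 ≤ x) :
    sin x ≤ x - x ^ 3 / 6 + x ^ 5 / 120 :=
  sub_nonneg.1 (le_of_der0 (f := fun x : ℝ => (x - x ^ 3 / 6 + x ^ 5 / 120) - sin x)
    (f' := fun x => (1 - x ^ 2 / 2 + x ^ 4 / 24) - cos x)
    (fun x => (((hasDerivAt_id' x).fun_sub (m3 x)).fun_add (m5 x)).fun_sub (hasDerivAt_sin x))
    (fun x hx => sub_nonneg.2 (cos_le_T4 hx)) (by simp) hx)

theorem T6_le_cos {x : ℝ} (hx : 0 ≤ x) :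
    1 - x ^ 2 / 2 + x ^ 4 / 24 - x ^ 6 / 720 ≤ cos x :=
  sub_nonneg.1 (le_of_der0 (f := fun x : ℝ => cos x - (1 - x ^ 2 / 2 + x ^ 4 / 24 - x ^ 6 / 720))
    (f' := fun x => (x - x ^ 3 / 6 + x ^ 5 / 120) - sin x)
    (fun x => ((hasDerivAt_cos x).fun_sub ((((m2 x).const_sub (1 : ℝ)).fun_add (m4 x)).fun_sub (m6 x))).congr_deriv (by ring))
    (fun x hx => sub_nonneg.2 (sin_le_T5 hx)) (by simp) hx)

theorem T7_le_sin {x : ℝ} (hx : 0 ≤ x) :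
    x - x ^ 3 / 6 + x ^ 5 / 120 - x ^ 7 / 5040 ≤ sin x :=
  sub_nonneg.1 (le_of_der0 (f := fun x : ℝ => sin x - (x - x ^ 3 / 6 + x ^ 5 / 120 - x ^ 7 / 5040))
    (f' := fun x => cos x - (1 - x ^ 2 / 2 + x ^ 4 / 24 - x ^ 6 / 720))
    (fun x => (hasDerivAt_sin x).fun_sub ((((hasDerivAt_id' x).fun_sub (m3 x)).fun_add (m5 x)).fun_sub (m7 x)))
    (fun x hx => sub_nonneg.2 (T6_le_cos hx)) (by simp) hx)

theorem cos_le_T8 {x : ℝ} (hx : 0 ≤ x) :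
    cos x ≤ 1 - x ^ 2 / 2 + x ^ 4 / 24 - x ^ 6 / 720 + x ^ 8 / 40320 :=
  sub_nonneg.1 (le_of_der0 (f := fun x : ℝ => (1 - x ^ 2 / 2 + x ^ 4 / 24 - x ^ 6 / 720 + x ^ 8 / 40320) - cos x)
    (f' := fun x => sin x - (x - x ^ 3 / 6 + x ^ 5 / 120 - x ^ 7 / 5040))
    (fun x => ((((((m2 x).const_sub (1 : ℝ)).fun_add (m4 x)).fun_sub (m6 x)).fun_add (m8 x)).fun_sub (hasDerivAt_cos x)).congr_deriv (by ring))
    (fun x hx => sub_nonneg.2 (T7_le_sin hx)) (by simp) hx)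

theorem sin_le_T9 {x : ℝ} (hx : 0 ≤ x) :
    sin x ≤ x - x ^ 3 / 6 + x ^ 5 / 120 - x ^ 7 / 5040 + x ^ 9 / 362880 :=
  sub_nonneg.1 (le_of_der0 (f := fun x : ℝ => (x - x ^ 3 / 6 + x ^ 5 / 120 - x ^ 7 / 5040 + x ^ 9 / 362880) - sin x)
    (f' := fun x => (1 - x ^ 2 / 2 + x ^ 4 / 24 - x ^ 6 / 720 + x ^ 8 / 40320) - cos x)
    (fun x => (((((hasDerivAt_id' x).fun_sub (m3 x)).fun_add (m5 x)).fun_sub (m7 x)).fun_add (m9 x)).fun_sub (hasDerivAt_sin x))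
    (fun x hx => sub_nonneg.2 (cos_le_T8 hx)) (by simp) hx)

theorem T10_le_cos {x : ℝ} (hx : 0 ≤ x) :
    1 - x ^ 2 / 2 + x ^ 4 / 24 - x ^ 6 / 720 + x ^ 8 / 40320 - x ^ 10 / 3628800 ≤ cos x :=
  sub_nonneg.1 (le_of_der0 (f := fun x : ℝ => cos x - (1 - x ^ 2 / 2 + x ^ 4 / 24 - x ^ 6 / 720 + x ^ 8 / 40320 - x ^ 10 / 3628800))
    (f' := fun x => (x - x ^ 3 / 6 + x ^ 5 / 120 - x ^ 7 / 5040 + x ^ 9 / 362880) - sin x)
    (fun x => ((hasDerivAt_cos x).fun_sub ((((((m2 x).const_sub (1 : ℝ)).fun_add (m4 x)).fun_sub (m6 x)).fun_add (m8 x)).fun_sub (m10 x))).congr_deriv (by ring))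
    (fun x hx => sub_nonneg.2 (sin_le_T9 hx)) (by simp) hx)

theorem T11_le_sin {x : ℝ} (hx : 0 ≤ x) :
    x - x ^ 3 / 6 + x ^ 5 / 120 - x ^ 7 / 5040 + x ^ 9 / 362880 - x ^ 11 / 39916800 ≤ sin x :=
  sub_nonneg.1 (le_of_der0 (f := fun x : ℝ => sin x - (x - x ^ 3 / 6 + x ^ 5 / 120 - x ^ 7 / 5040 + x ^ 9 / 362880 - x ^ 11 / 39916800))
    (f' := fun x => cos x - (1 - x ^ 2 / 2 + x ^ 4 / 24 - x ^ 6 / 720 + x ^ 8 / 40320 - x ^ 10 / 3628800))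
    (fun x => (hasDerivAt_sin x).fun_sub ((((((hasDerivAt_id' x).fun_sub (m3 x)).fun_add (m5 x)).fun_sub (m7 x)).fun_add (m9 x)).fun_sub (m11 x)))
    (fun x hx => sub_nonneg.2 (T10_le_cos hx)) (by simp) hx)

theorem cos_le_T12 {x : ℝ} (hx : 0 ≤ x) :
    cos x ≤ 1 - x ^ 2 / 2 + x ^ 4 / 24 - x ^ 6 / 720 + x ^ 8 / 40320 - x ^ 10 / 3628800 + x ^ 12 / 479001600 :=
  sub_nonneg.1 (le_of_der0 (f := fun x : ℝ => (1 - x ^ 2 / 2 + x ^ 4 / 24 - x ^ 6 / 720 + x ^ 8 / 40320 - x ^ 10 / 3628800 + x ^ 12 / 479001600) - cos x)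
    (f' := fun x => sin x - (x - x ^ 3 / 6 + x ^ 5 / 120 - x ^ 7 / 5040 + x ^ 9 / 362880 - x ^ 11 / 39916800))
    (fun x => ((((((((m2 x).const_sub (1 : ℝ)).fun_add (m4 x)).fun_sub (m6 x)).fun_add (m8 x)).fun_sub (m10 x)).fun_add (m12 x)).fun_sub (hasDerivAt_cos x)).congr_deriv (by ring))
    (fun x hx => sub_nonneg.2 (T11_le_sin hx)) (by simp) hx)

theorem sin_le_T13 {x : ℝ} (hx : 0 ≤ x) :
    sin x ≤ x - x ^ 3 / 6 + x ^ 5 / 120 - x ^ 7 / 5040 + x ^ 9 / 362880 - x ^ 11 / 39916800 + x ^ 13 / 6227020800 :=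
  sub_nonneg.1 (le_of_der0 (f := fun x : ℝ => (x - x ^ 3 / 6 + x ^ 5 / 120 - x ^ 7 / 5040 + x ^ 9 / 362880 - x ^ 11 / 39916800 + x ^ 13 / 6227020800) - sin x)
    (f' := fun x => (1 - x ^ 2 / 2 + x ^ 4 / 24 - x ^ 6 / 720 + x ^ 8 / 40320 - x ^ 10 / 3628800 + x ^ 12 / 479001600) - cos x)
    (fun x => (((((((hasDerivAt_id' x).fun_sub (m3 x)).fun_add (m5 x)).fun_sub (m7 x)).fun_add (m9 x)).fun_sub (m11 x)).fun_add (m13 x)).fun_sub (hasDerivAt_sin x))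
    (fun x hx => sub_nonneg.2 (cos_le_T12 hx)) (by simp) hx)

theorem T0_le_cosh {x : ℝ} (_ : 0 ≤ x) : 1 ≤ cosh x := one_le_cosh x

theorem T1_le_sinh {x : ℝ} (hx : 0 ≤ x) :
    x ≤ sinh x :=
  sub_nonneg.1 (le_of_der0 (f := fun x : ℝ => sinh x - (x))
    (f' := fun x => cosh x - (1))
    (fun x => (hasDerivAt_sinh x).fun_sub (hasDerivAt_id' x))
    (fun x hx => sub_nonneg.2 (T0_le_cosh hx)) (by simp) hx)

theorem T2_le_cosh {x : ℝ} (hx : 0 ≤ x) :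
    1 + x ^ 2 / 2 ≤ cosh x :=
  sub_nonneg.1 (le_of_der0 (f := fun x : ℝ => cosh x - (1 + x ^ 2 / 2))
    (f' := fun x => sinh x - (x))
    (fun x => (hasDerivAt_cosh x).fun_sub ((m2 x).const_add (1 : ℝ)))
    (fun x hx => sub_nonneg.2 (T1_le_sinh hx)) (by simp) hx)

theorem T3_le_sinh {x : ℝ} (hx : 0 ≤ x) :
    x + x ^ 3 / 6 ≤ sinh x :=
  sub_nonneg.1 (le_of_der0 (f := fun x : ℝ => sinh x - (x + x ^ 3 / 6))
    (f' := fun x => cosh x - (1 + x ^ 2 / 2))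
    (fun x => (hasDerivAt_sinh x).fun_sub ((hasDerivAt_id' x).fun_add (m3 x)))
    (fun x hx => sub_nonneg.2 (T2_le_cosh hx)) (by simp) hx)

theorem T4_le_cosh {x : ℝ} (hx : 0 ≤ x) :
    1 + x ^ 2 / 2 + x ^ 4 / 24 ≤ cosh x :=
  sub_nonneg.1 (le_of_der0 (f := fun x : ℝ => cosh x - (1 + x ^ 2 / 2 + x ^ 4 / 24))
    (f' := fun x => sinh x - (x + x ^ 3 / 6))
    (fun x => (hasDerivAt_cosh x).fun_sub (((m2 x).const_add (1 : ℝ)).fun_add (m4 x)))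
    (fun x hx => sub_nonneg.2 (T3_le_sinh hx)) (by simp) hx)

theorem T5_le_sinh {x : ℝ} (hx : 0 ≤ x) :
    x + x ^ 3 / 6 + x ^ 5 / 120 ≤ sinh x :=
  sub_nonneg.1 (le_of_der0 (f := fun x : ℝ => sinh x - (x + x ^ 3 / 6 + x ^ 5 / 120))
    (f' := fun x => cosh x - (1 + x ^ 2 / 2 + x ^ 4 / 24))
    (fun x => (hasDerivAt_sinh x).fun_sub (((hasDerivAt_id' x).fun_add (m3 x)).fun_add (m5 x)))
    (fun x hx => sub_nonneg.2 (T4_le_cosh hx)) (by simp) hx)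

theorem T6_le_cosh {x : ℝ} (hx : 0 ≤ x) :
    1 + x ^ 2 / 2 + x ^ 4 / 24 + x ^ 6 / 720 ≤ cosh x :=
  sub_nonneg.1 (le_of_der0 (f := fun x : ℝ => cosh x - (1 + x ^ 2 / 2 + x ^ 4 / 24 + x ^ 6 / 720))
    (f' := fun x => sinh x - (x + x ^ 3 / 6 + x ^ 5 / 120))
    (fun x => (hasDerivAt_cosh x).fun_sub ((((m2 x).const_add (1 : ℝ)).fun_add (m4 x)).fun_add (m6 x)))
    (fun x hx => sub_nonneg.2 (T5_le_sinh hx)) (by simp) hx)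

theorem T7_le_sinh {x : ℝ} (hx : 0 ≤ x) :
    x + x ^ 3 / 6 + x ^ 5 / 120 + x ^ 7 / 5040 ≤ sinh x :=
  sub_nonneg.1 (le_of_der0 (f := fun x : ℝ => sinh x - (x + x ^ 3 / 6 + x ^ 5 / 120 + x ^ 7 / 5040))
    (f' := fun x => cosh x - (1 + x ^ 2 / 2 + x ^ 4 / 24 + x ^ 6 / 720))
    (fun x => (hasDerivAt_sinh x).fun_sub ((((hasDerivAt_id' x).fun_add (m3 x)).fun_add (m5 x)).fun_add (m7 x)))
    (fun x hx => sub_nonneg.2 (T6_le_cosh hx)) (by simp) hx)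

theorem T8_le_cosh {x : ℝ} (hx : 0 ≤ x) :
    1 + x ^ 2 / 2 + x ^ 4 / 24 + x ^ 6 / 720 + x ^ 8 / 40320 ≤ cosh x :=
  sub_nonneg.1 (le_of_der0 (f := fun x : ℝ => cosh x - (1 + x ^ 2 / 2 + x ^ 4 / 24 + x ^ 6 / 720 + x ^ 8 / 40320))
    (f' := fun x => sinh x - (x + x ^ 3 / 6 + x ^ 5 / 120 + x ^ 7 / 5040))
    (fun x => (hasDerivAt_cosh x).fun_sub (((((m2 x).const_add (1 : ℝ)).fun_add (m4 x)).fun_add (m6 x)).fun_add (m8 x)))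
    (fun x hx => sub_nonneg.2 (T7_le_sinh hx)) (by simp) hx)

theorem T9_le_sinh {x : ℝ} (hx : 0 ≤ x) :
    x + x ^ 3 / 6 + x ^ 5 / 120 + x ^ 7 / 5040 + x ^ 9 / 362880 ≤ sinh x :=
  sub_nonneg.1 (le_of_der0 (f := fun x : ℝ => sinh x - (x + x ^ 3 / 6 + x ^ 5 / 120 + x ^ 7 / 5040 + x ^ 9 / 362880))
    (f' := fun x => cosh x - (1 + x ^ 2 / 2 + x ^ 4 / 24 + x ^ 6 / 720 + x ^ 8 / 40320))
    (fun x => (hasDerivAt_sinh x).fun_sub (((((hasDerivAt_id' x).fun_add (m3 x)).fun_add (m5 x)).fun_add (m7 x)).fun_add (m9 x)))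
    (fun x hx => sub_nonneg.2 (T8_le_cosh hx)) (by simp) hx)

theorem T10_le_cosh {x : ℝ} (hx : 0 ≤ x) :
    1 + x ^ 2 / 2 + x ^ 4 / 24 + x ^ 6 / 720 + x ^ 8 / 40320 + x ^ 10 / 3628800 ≤ cosh x :=
  sub_nonneg.1 (le_of_der0 (f := fun x : ℝ => cosh x - (1 + x ^ 2 / 2 + x ^ 4 / 24 + x ^ 6 / 720 + x ^ 8 / 40320 + x ^ 10 / 3628800))
    (f' := fun x => sinh x - (x + x ^ 3 / 6 + x ^ 5 / 120 + x ^ 7 / 5040 + x ^ 9 / 362880))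
    (fun x => (hasDerivAt_cosh x).fun_sub ((((((m2 x).const_add (1 : ℝ)).fun_add (m4 x)).fun_add (m6 x)).fun_add (m8 x)).fun_add (m10 x)))
    (fun x hx => sub_nonneg.2 (T9_le_sinh hx)) (by simp) hx)

theorem T11_le_sinh {x : ℝ} (hx : 0 ≤ x) :
    x + x ^ 3 / 6 + x ^ 5 / 120 + x ^ 7 / 5040 + x ^ 9 / 362880 + x ^ 11 / 39916800 ≤ sinh x :=
  sub_nonneg.1 (le_of_der0 (f := fun x : ℝ => sinh x - (x + x ^ 3 / 6 + x ^ 5 / 120 + x ^ 7 / 5040 + x ^ 9 / 362880 + x ^ 11 / 39916800))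
    (f' := fun x => cosh x - (1 + x ^ 2 / 2 + x ^ 4 / 24 + x ^ 6 / 720 + x ^ 8 / 40320 + x ^ 10 / 3628800))
    (fun x => (hasDerivAt_sinh x).fun_sub ((((((hasDerivAt_id' x).fun_add (m3 x)).fun_add (m5 x)).fun_add (m7 x)).fun_add (m9 x)).fun_add (m11 x)))
    (fun x hx => sub_nonneg.2 (T10_le_cosh hx)) (by simp) hx)

theorem cosh_le_U0 {x : ℝ} (hx : 0 ≤ x) (h2 : x ≤ 2) : cosh x ≤ 4 := by
  have h1 : cosh x ≤ cosh 2 := by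
    apply cosh_le_cosh.2
    rw [abs_of_nonneg hx]
    norm_num
    exact h2
  refine h1.trans ?_
  have e1 : exp 2 = exp 1 * exp 1 := by rw [← exp_add]; norm_num
  have e2 := exp_one_lt_d9
  have e3 := exp_pos 1
  have e5 := add_one_le_exp (1 : ℝ)
  have e4 : exp (-2) ≤ 1 / 4 := by
    rw [exp_neg, e1, inv_eq_one_div]
    apply one_div_le_one_div_of_le (by norm_num)
    nlinarith
  rw [cosh_eq, e1]
  nlinarith

theorem sinh_le_U1 {x : ℝ} (hx : 0 ≤ x) (h2 : x ≤ 2) :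
    sinh x ≤ 4 * x :=
  sub_nonneg.1 (le_of_der1 (b := 2) (f := fun x : ℝ => (4 * x) - sinh x)
    (f' := fun x => (4) - cosh x)
    (fun x => (((hasDerivAt_id' x).const_mul (4 : ℝ)).congr_deriv (mul_one (4 : ℝ))).fun_sub (hasDerivAt_sinh x))
    (fun x hx h2 => sub_nonneg.2 (cosh_le_U0 hx h2)) (by simp) hx h2)

theorem cosh_le_U2 {x : ℝ} (hx : 0 ≤ x) (h2 : x ≤ 2) :
    cosh x ≤ 1 + 4 * x ^ 2 / 2 :=
  sub_nonneg.1 (le_of_der1 (b := 2) (f := fun x : ℝ => (1 + 4 * x ^ 2 / 2) - cosh x)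
    (f' := fun x => (4 * x) - sinh x)
    (fun x => ((u2 x).const_add (1 : ℝ)).fun_sub (hasDerivAt_cosh x))
    (fun x hx h2 => sub_nonneg.2 (sinh_le_U1 hx h2)) (by simp) hx h2)

theorem sinh_le_U3 {x : ℝ} (hx : 0 ≤ x) (h2 : x ≤ 2) :
    sinh x ≤ x + 4 * x ^ 3 / 6 :=
  sub_nonneg.1 (le_of_der1 (b := 2) (f := fun x : ℝ => (x + 4 * x ^ 3 / 6) - sinh x)
    (f' := fun x => (1 + 4 * x ^ 2 / 2) - cosh x)
    (fun x => ((hasDerivAt_id' x).fun_add (u3 x)).fun_sub (hasDerivAt_sinh x))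
    (fun x hx h2 => sub_nonneg.2 (cosh_le_U2 hx h2)) (by simp) hx h2)

theorem cosh_le_U4 {x : ℝ} (hx : 0 ≤ x) (h2 : x ≤ 2) :
    cosh x ≤ 1 + x ^ 2 / 2 + 4 * x ^ 4 / 24 :=
  sub_nonneg.1 (le_of_der1 (b := 2) (f := fun x : ℝ => (1 + x ^ 2 / 2 + 4 * x ^ 4 / 24) - cosh x)
    (f' := fun x => (x + 4 * x ^ 3 / 6) - sinh x)
    (fun x => (((m2 x).const_add (1 : ℝ)).fun_add (u4 x)).fun_sub (hasDerivAt_cosh x))
    (fun x hx h2 => sub_nonneg.2 (sinh_le_U3 hx h2)) (by simp) hx h2)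

theorem sinh_le_U5 {x : ℝ} (hx : 0 ≤ x) (h2 : x ≤ 2) :
    sinh x ≤ x + x ^ 3 / 6 + 4 * x ^ 5 / 120 :=
  sub_nonneg.1 (le_of_der1 (b := 2) (f := fun x : ℝ => (x + x ^ 3 / 6 + 4 * x ^ 5 / 120) - sinh x)
    (f' := fun x => (1 + x ^ 2 / 2 + 4 * x ^ 4 / 24) - cosh x)
    (fun x => (((hasDerivAt_id' x).fun_add (m3 x)).fun_add (u5 x)).fun_sub (hasDerivAt_sinh x))
    (fun x hx h2 => sub_nonneg.2 (cosh_le_U4 hx h2)) (by simp) hx h2)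

theorem cosh_le_U6 {x : ℝ} (hx : 0 ≤ x) (h2 : x ≤ 2) :
    cosh x ≤ 1 + x ^ 2 / 2 + x ^ 4 / 24 + 4 * x ^ 6 / 720 :=
  sub_nonneg.1 (le_of_der1 (b := 2) (f := fun x : ℝ => (1 + x ^ 2 / 2 + x ^ 4 / 24 + 4 * x ^ 6 / 720) - cosh x)
    (f' := fun x => (x + x ^ 3 / 6 + 4 * x ^ 5 / 120) - sinh x)
    (fun x => ((((m2 x).const_add (1 : ℝ)).fun_add (m4 x)).fun_add (u6 x)).fun_sub (hasDerivAt_cosh x))
    (fun x hx h2 => sub_nonneg.2 (sinh_le_U5 hx h2)) (by simp) hx h2)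

theorem sinh_le_U7 {x : ℝ} (hx : 0 ≤ x) (h2 : x ≤ 2) :
    sinh x ≤ x + x ^ 3 / 6 + x ^ 5 / 120 + 4 * x ^ 7 / 5040 :=
  sub_nonneg.1 (le_of_der1 (b := 2) (f := fun x : ℝ => (x + x ^ 3 / 6 + x ^ 5 / 120 + 4 * x ^ 7 / 5040) - sinh x)
    (f' := fun x => (1 + x ^ 2 / 2 + x ^ 4 / 24 + 4 * x ^ 6 / 720) - cosh x)
    (fun x => ((((hasDerivAt_id' x).fun_add (m3 x)).fun_add (m5 x)).fun_add (u7 x)).fun_sub (hasDerivAt_sinh x))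
    (fun x hx h2 => sub_nonneg.2 (cosh_le_U6 hx h2)) (by simp) hx h2)

theorem cosh_le_U8 {x : ℝ} (hx : 0 ≤ x) (h2 : x ≤ 2) :
    cosh x ≤ 1 + x ^ 2 / 2 + x ^ 4 / 24 + x ^ 6 / 720 + 4 * x ^ 8 / 40320 :=
  sub_nonneg.1 (le_of_der1 (b := 2) (f := fun x : ℝ => (1 + x ^ 2 / 2 + x ^ 4 / 24 + x ^ 6 / 720 + 4 * x ^ 8 / 40320) - cosh x)
    (f' := fun x => (x + x ^ 3 / 6 + x ^ 5 / 120 + 4 * x ^ 7 / 5040) - sinh x)
    (fun x => (((((m2 x).const_add (1 : ℝ)).fun_add (m4 x)).fun_add (m6 x)).fun_add (u8 x)).fun_sub (hasDerivAt_cosh x))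
    (fun x hx h2 => sub_nonneg.2 (sinh_le_U7 hx h2)) (by simp) hx h2)

theorem sinh_le_U9 {x : ℝ} (hx : 0 ≤ x) (h2 : x ≤ 2) :
    sinh x ≤ x + x ^ 3 / 6 + x ^ 5 / 120 + x ^ 7 / 5040 + 4 * x ^ 9 / 362880 :=
  sub_nonneg.1 (le_of_der1 (b := 2) (f := fun x : ℝ => (x + x ^ 3 / 6 + x ^ 5 / 120 + x ^ 7 / 5040 + 4 * x ^ 9 / 362880) - sinh x)
    (f' := fun x => (1 + x ^ 2 / 2 + x ^ 4 / 24 + x ^ 6 / 720 + 4 * x ^ 8 / 40320) - cosh x)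
    (fun x => (((((hasDerivAt_id' x).fun_add (m3 x)).fun_add (m5 x)).fun_add (m7 x)).fun_add (u9 x)).fun_sub (hasDerivAt_sinh x))
    (fun x hx h2 => sub_nonneg.2 (cosh_le_U8 hx h2)) (by simp) hx h2)

theorem cosh_le_U10 {x : ℝ} (hx : 0 ≤ x) (h2 : x ≤ 2) :
    cosh x ≤ 1 + x ^ 2 / 2 + x ^ 4 / 24 + x ^ 6 / 720 + x ^ 8 / 40320 + 4 * x ^ 10 / 3628800 :=
  sub_nonneg.1 (le_of_der1 (b := 2) (f := fun x : ℝ => (1 + x ^ 2 / 2 + x ^ 4 / 24 + x ^ 6 / 720 + x ^ 8 / 40320 + 4 * x ^ 10 / 3628800) - cosh x)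
    (f' := fun x => (x + x ^ 3 / 6 + x ^ 5 / 120 + x ^ 7 / 5040 + 4 * x ^ 9 / 362880) - sinh x)
    (fun x => ((((((m2 x).const_add (1 : ℝ)).fun_add (m4 x)).fun_add (m6 x)).fun_add (m8 x)).fun_add (u10 x)).fun_sub (hasDerivAt_cosh x))
    (fun x hx h2 => sub_nonneg.2 (sinh_le_U9 hx h2)) (by simp) hx h2)

theorem sinh_le_U11 {x : ℝ} (hx : 0 ≤ x) (h2 : x ≤ 2) :
    sinh x ≤ x + x ^ 3 / 6 + x ^ 5 / 120 + x ^ 7 / 5040 + x ^ 9 / 362880 + 4 * x ^ 11 / 39916800 :=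
  sub_nonneg.1 (le_of_der1 (b := 2) (f := fun x : ℝ => (x + x ^ 3 / 6 + x ^ 5 / 120 + x ^ 7 / 5040 + x ^ 9 / 362880 + 4 * x ^ 11 / 39916800) - sinh x)
    (f' := fun x => (1 + x ^ 2 / 2 + x ^ 4 / 24 + x ^ 6 / 720 + x ^ 8 / 40320 + 4 * x ^ 10 / 3628800) - cosh x)
    (fun x => ((((((hasDerivAt_id' x).fun_add (m3 x)).fun_add (m5 x)).fun_add (m7 x)).fun_add (m9 x)).fun_add (u11 x)).fun_sub (hasDerivAt_sinh x))
    (fun x hx h2 => sub_nonneg.2 (cosh_le_U10 hx h2)) (by simp) hx h2)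

theorem cosh_le_U12 {x : ℝ} (hx : 0 ≤ x) (h2 : x ≤ 2) :
    cosh x ≤ 1 + x ^ 2 / 2 + x ^ 4 / 24 + x ^ 6 / 720 + x ^ 8 / 40320 + x ^ 10 / 3628800 + 4 * x ^ 12 / 479001600 :=
  sub_nonneg.1 (le_of_der1 (b := 2) (f := fun x : ℝ => (1 + x ^ 2 / 2 + x ^ 4 / 24 + x ^ 6 / 720 + x ^ 8 / 40320 + x ^ 10 / 3628800 + 4 * x ^ 12 / 479001600) - cosh x)
    (f' := fun x => (x + x ^ 3 / 6 + x ^ 5 / 120 + x ^ 7 / 5040 + x ^ 9 / 362880 + 4 * x ^ 11 / 39916800) - sinh x)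
    (fun x => (((((((m2 x).const_add (1 : ℝ)).fun_add (m4 x)).fun_add (m6 x)).fun_add (m8 x)).fun_add (m10 x)).fun_add (u12 x)).fun_sub (hasDerivAt_cosh x))
    (fun x hx h2 => sub_nonneg.2 (sinh_le_U11 hx h2)) (by simp) hx h2)

theorem sinh_le_U13 {x : ℝ} (hx : 0 ≤ x) (h2 : x ≤ 2) :
    sinh x ≤ x + x ^ 3 / 6 + x ^ 5 / 120 + x ^ 7 / 5040 + x ^ 9 / 362880 + x ^ 11 / 39916800 + 4 * x ^ 13 / 6227020800 :=
  sub_nonneg.1 (le_of_der1 (b := 2) (f := fun x : ℝ => (x + x ^ 3 / 6 + x ^ 5 / 120 + x ^ 7 / 5040 + x ^ 9 / 362880 + x ^ 11 / 39916800 + 4 * x ^ 13 / 6227020800) - sinh x)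
    (f' := fun x => (1 + x ^ 2 / 2 + x ^ 4 / 24 + x ^ 6 / 720 + x ^ 8 / 40320 + x ^ 10 / 3628800 + 4 * x ^ 12 / 479001600) - cosh x)
    (fun x => (((((((hasDerivAt_id' x).fun_add (m3 x)).fun_add (m5 x)).fun_add (m7 x)).fun_add (m9 x)).fun_add (m11 x)).fun_add (u13 x)).fun_sub (hasDerivAt_sinh x))
    (fun x hx h2 => sub_nonneg.2 (cosh_le_U12 hx h2)) (by simp) hx h2)

end Pool.Agent.S5.E.VX
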