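import Pool.Agent.S5.E.VX.Chk

/-!
# Vertices: linear inequalities

A form is `∑ (pᵢ - nᵢ) xᵢ`, `x = (p₁, r₁, p₂, r₂, R, I, π, 1)`, with signed `r₁, r₂`.
-/

set_option autoImplicit false

namespace Pool.Agent.S5.E.VX

open Real Pool.Agent.S3.NI Pool.Agent.S5.E.B2

/-- A linear form in `(p₁, r₁, p₂, r₂, R, I, π, 1)`: the positive and the negative parts of the
coefficients. -/
structure LF where
  a1 : ℕ
  b1 : ℕ
  a2 : ℕ
  b2 : ℕ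
  a3 : ℕ
  b3 : ℕ
  a4 : ℕ
  b4 : ℕ
  a5 : ℕ
  b5 : ℕ
  a6 : ℕ
  b6 : ℕ
  a7 : ℕ
  b7 : ℕ
  a8 : ℕ
  b8 : ℕ

/-- The value of a form. -/
noncomputable def LF.val (f : LF) (p₁ r₁ p₂ r₂ R I : ℝ) : ℝ :=
  ((f.a1 : ℝ) - f.b1) * p₁ + ((f.a2 : ℝ) - f.b2) * r₁ + ((f.a3 : ℝ) - f.b3) * p₂ +
    ((f.a4 : ℝ) - f.b4) * r₂ + ((f.a5 : ℝ) - f.b5) * R + ((f.a6 : ℝ) - f.b6) * I +
      ((f.a7 : ℝ) - f.b7) * π + ((f.a8 : ℝ) - f.b8)

/-- The positive and the negative part of a multiple of a signed quantity. -/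
def sP (m : Md) (a b : ℕ) (B : N) : ℕ :=
  match m with
  | .n => Nat.mul b B.lo
  | _ => Nat.mul a B.lo

def sN (m : Md) (a b : ℕ) (B : N) : ℕ :=
  match m with
  | .n => Nat.mul a B.hi
  | _ => Nat.mul b B.hi

def lfP (m1 m2 : Md) (f : LF) (A B C D R I : N) : ℕ :=
  Nat.add (Nat.add (Nat.add (Nat.mul f.a1 A.lo) (sP m1 f.a2 f.b2 B))
    (Nat.add (Nat.mul f.a3 C.lo) (sP m2 f.a4 f.b4 D)))
    (Nat.add (Nat.add (Nat.mul f.a5 R.lo) (Nat.mul f.a6 I.lo))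
      (Nat.add (Nat.mul f.a7 3373259426) (Nat.mul f.a8 1073741824)))

def lfN (m1 m2 : Md) (f : LF) (A B C D R I : N) : ℕ :=
  Nat.add (Nat.add (Nat.add (Nat.mul f.b1 A.hi) (sN m1 f.a2 f.b2 B))
    (Nat.add (Nat.mul f.b3 C.hi) (sN m2 f.a4 f.b4 D)))
    (Nat.add (Nat.add (Nat.mul f.b5 R.hi) (Nat.mul f.b6 I.hi))
      (Nat.add (Nat.mul f.b7 3373259428) (Nat.mul f.b8 1073741824)))

/-- The form is positive on the cell. -/
def accF (m1 m2 : Md) (f : LF) (A B C D R I : N) : Bool :=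
  Nat.ble (Nat.succ (lfN m1 m2 f A B C D R I)) (lfP m1 m2 f A B C D R I)

def accL (m1 m2 : Md) (l : List LF) (A B C D R I : N) : Bool :=
  l.all fun f => accF m1 m2 f A B C D R I

theorem mulL {a : ℕ} {x : ℝ} {n : ℕ} (h : (n : ℝ) ≤ x * 1073741824) :
    ((Nat.mul a n : ℕ) : ℝ) ≤ a * x * 1073741824 := by
  rw [cast_mul']
  have : (0 : ℝ) ≤ a := a.cast_nonneg
  nlinarith

theorem mulU {a : ℕ} {x : ℝ} {n : ℕ} (h : x * 1073741824 ≤ n) :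
    a * x * 1073741824 ≤ ((Nat.mul a n : ℕ) : ℝ) := by
  rw [cast_mul']
  have : (0 : ℝ) ≤ a := a.cast_nonneg
  nlinarith

theorem sPN_le {m : Md} {a b : ℕ} {q : ℝ} {B : N} (h : Mem q B) :
    ((sP m a b B : ℕ) : ℝ) - ((sN m a b B : ℕ) : ℝ) ≤ ((a : ℝ) - b) * sq m q * 1073741824 := by
  have h1 := mulL (a := a) h.1
  have h2 := mulU (a := b) h.2
  have h3 := mulL (a := b) h.1
  have h4 := mulU (a := a) h.2
  cases m with
  | o => simp only [sP, sN, sq]; linarith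
  | a => simp only [sP, sN, sq]; linarith
  | s => simp only [sP, sN, sq]; linarith
  | n => simp only [sP, sN, sq]; linarith

theorem accF_sound {m1 m2 : Md} {f : LF} {A B C D Rr Ir : N} {p₁ q₁ p₂ q₂ R I : ℝ}
    (h : accF m1 m2 f A B C D Rr Ir = true) (hA : Mem p₁ A) (hB : Mem q₁ B) (hC : Mem p₂ C)
    (hD : Mem q₂ D) (hR : Mem R Rr) (hI : Mem I Ir) :
    0 < f.val p₁ (sq m1 q₁) p₂ (sq m2 q₂) R I := by
  unfold accF at h
  rw [Nat.ble_eq] at h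
  have h' : ((lfN m1 m2 f A B C D Rr Ir : ℕ) : ℝ) + 1 ≤ ((lfP m1 m2 f A B C D Rr Ir : ℕ) : ℝ) := by
    exact_mod_cast h
  unfold lfN lfP at h'
  simp only [cast_add'] at h'
  have e1 := mulL (a := f.a1) hA.1
  have e2 := mulU (a := f.b1) hA.2
  have e3 := mulL (a := f.a3) hC.1
  have e4 := mulU (a := f.b3) hC.2
  have e5 := mulL (a := f.a5) hR.1
  have e6 := mulU (a := f.b5) hR.2
  have e7 := mulL (a := f.a6) hI.1
  have e8 := mulU (a := f.b6) hI.2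
  have e9 := mulL (a := f.a7) pi_lb
  have e10 := mulU (a := f.b7) pi_ub
  have e11 := sPN_le (m := m1) (a := f.a2) (b := f.b2) hB
  have e12 := sPN_le (m := m2) (a := f.a4) (b := f.b4) hD
  have e13 : ((Nat.mul f.a8 1073741824 : ℕ) : ℝ) = f.a8 * 1073741824 := by
    rw [cast_mul']; push_cast; ring
  have e14 : ((Nat.mul f.b8 1073741824 : ℕ) : ℝ) = f.b8 * 1073741824 := by
    rw [cast_mul']; push_cast; ring
  rw [e13, e14] at h'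
  unfold LF.val
  by_contra hc
  push Not at hc
  have hc' := mul_le_mul_of_nonneg_right hc (show (0 : ℝ) ≤ 1073741824 by norm_num)
  nlinarith

/-- The run of an instance with an acceptance test for every pair of modes; `x.own` is the known
region of the vertex, `x.out` is not used. -/
def chkG (n : ℕ) (x : Inst) (acc : Md → Md → N → N → N → N → N → N → Bool) : Bool :=
  ((Nat.ble 1 x.a && Sb x.own rS3) && (Nat.ble x.r₁.k1 1200 && Nat.ble x.r₂.k1 1200)) &&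
    (rgs x.a).all fun ab => (mds (some x.s₁)).all fun m1 => (mds x.s₂).all fun m2 =>
      run (vpI x ab m1 m2) (acc m1 m2) n

/-- **Soundness**, general form. -/
theorem chkG_sound {n : ℕ} {x : Inst} {acc : Md → Md → N → N → N → N → N → N → Bool}
    (h : chkG n x acc = true) {a R I ρ₁ φ₁ p₁ r₁ ρ₂ φ₂ p₂ r₂ : ℝ} {G : Prop}
    (hv : Vx a R I ρ₁ (sg x.s₁ * φ₁) p₁ r₁ ρ₂ (sgO x.s₂ * φ₂) p₂ r₂) (ha : HasA x.a a)
    (h1 : InP (some x.s₁) x.r₁ ρ₁ φ₁) (h2 : InP x.s₂ x.r₂ ρ₂ φ₂)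
    (ho : InR x.own (cos R * cosh I) (sin R * sinh I))
    (hacc : ∀ ab, ∀ m1 ∈ mds (some x.s₁), ∀ m2 ∈ mds x.s₂, ∀ q₁ q₂, r₁ = sq m1 q₁ →
      r₂ = sq m2 q₂ → VH (vpI x ab m1 m2) a R I p₁ q₁ p₂ q₂ →
      ∀ A B C D Rr Ir : N, acc m1 m2 A B C D Rr Ir = true → Mem p₁ A → Mem q₁ B → Mem p₂ C →
      Mem q₂ D → Mem R Rr → Mem I Ir → Rr.hi ≤ 3221225472 → Ir.hi ≤ 2147483648 → G) : G := by
  unfold chkG at h
  rw [Bool.and_eq_true, Bool.and_eq_true, Bool.and_eq_true, Bool.and_eq_true] at h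
  obtain ⟨⟨⟨c0, c4⟩, c1, c2⟩, h⟩ := h
  rw [Nat.ble_eq] at c0 c1 c2
  obtain ⟨ab, hab, m1, hm1, m2, hm2, q₁, q₂, e1, e2, hV⟩ := vh_of hv ha h1 h2 ho c4 c0 c1 c2
  have h0 := List.all_eq_true.1 h ab hab
  have h3 := List.all_eq_true.1 h0 m1 hm1
  have h4 := List.all_eq_true.1 h3 m2 hm2
  exact run_sound hV h4 (hacc ab m1 hm1 m2 hm2 q₁ q₂ e1 e2 hV)

/-- Linear inequalities: the list of the forms may depend on the modes. -/
def chkL (n : ℕ) (x : Inst) (F : Md → Md → List LF) : Bool :=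
  chkG n x fun m1 m2 => accL m1 m2 (F m1 m2)

theorem chkL_sound {n : ℕ} {x : Inst} {F : Md → Md → List LF} (h : chkL n x F = true)
    {a R I ρ₁ φ₁ p₁ r₁ ρ₂ φ₂ p₂ r₂ : ℝ}
    (hv : Vx a R I ρ₁ (sg x.s₁ * φ₁) p₁ r₁ ρ₂ (sgO x.s₂ * φ₂) p₂ r₂) (ha : HasA x.a a)
    (h1 : InP (some x.s₁) x.r₁ ρ₁ φ₁) (h2 : InP x.s₂ x.r₂ ρ₂ φ₂)
    (ho : InR x.own (cos R * cosh I) (sin R * sinh I)) :
    ∃ m1 ∈ mds (some x.s₁), ∃ m2 ∈ mds x.s₂, ∃ q₁ q₂, 0 ≤ q₁ ∧ 0 ≤ q₂ ∧ r₁ = sq m1 q₁ ∧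
      r₂ = sq m2 q₂ ∧ ∀ f ∈ F m1 m2, 0 < f.val p₁ r₁ p₂ r₂ R I := by
  unfold chkL chkG at h
  rw [Bool.and_eq_true, Bool.and_eq_true, Bool.and_eq_true, Bool.and_eq_true] at h
  obtain ⟨⟨⟨c0, c4⟩, c1, c2⟩, h⟩ := h
  rw [Nat.ble_eq] at c0 c1 c2
  obtain ⟨ab, hab, m1, hm1, m2, hm2, q₁, q₂, e1, e2, hV⟩ := vh_of hv ha h1 h2 ho c4 c0 c1 c2
  have h0 := List.all_eq_true.1 h ab hab
  have h3 := List.all_eq_true.1 h0 m1 hm1
  have h4 := List.all_eq_true.1 h3 m2 hm2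
  refine ⟨m1, hm1, m2, hm2, q₁, q₂, hV.s1.q0, hV.s2.q0, e1, e2, fun f hf => ?_⟩
  refine run_sound hV h4 ?_
  intro A B C D Rr Ir hk hA hB hC hD hR hI _ _
  have h5 := List.all_eq_true.1 hk f hf
  rw [e1, e2]
  exact accF_sound h5 hA hB hC hD hR hI

end Pool.Agent.S5.E.VX
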