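import Pool.Agent.S5.E.VX.NL0
import Pool.Agent.S5.E.VX.Chk
import Pool.Agent.S5.E.T.App

/-!
# Mixed chains, block E: instances with six or more half twists of the half round 0, runs
-/

set_option autoImplicit false

namespace Pool.Agent.S5.E.VX

open Pool.Agent.S5.E

/-- From the checker to `Ok`. -/
theorem ok_of_chk0 {n : ℕ} {l : List Inst} (h : l.all (chk n) = true)
    (h3 : l.all (fun x => Nat.ble 3 x.a) = true) : ∀ x ∈ l, x.Ok := by
  intro x hx
  have h4 := List.all_eq_true.1 h3 x hx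
  rw [Nat.ble_eq] at h4
  unfold Inst.Ok
  rw [if_neg (by omega)]
  exact ⟨h4, chk_all h x hx⟩

set_option maxRecDepth 100000 in
theorem NL0_6_chk : NL0_6.all (chk 60) = true := by decide +kernel

theorem NL0_6_ok : ∀ x ∈ NL0_6, x.Ok :=
  ok_of_chk0 NL0_6_chk (by decide +kernel)

set_option maxRecDepth 100000 in
theorem NL0_7_chk : NL0_7.all (chk 60) = true := by decide +kernel

theorem NL0_7_ok : ∀ x ∈ NL0_7, x.Ok :=
  ok_of_chk0 NL0_7_chk (by decide +kernel)

set_option maxRecDepth 100000 in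
theorem NL0_8_chk : NL0_8.all (chk 60) = true := by decide +kernel

theorem NL0_8_ok : ∀ x ∈ NL0_8, x.Ok :=
  ok_of_chk0 NL0_8_chk (by decide +kernel)

theorem NL0_ok : ∀ x ∈ NL0, x.Ok := by
  intro x hx
  unfold NL0 at hx
  simp only [List.mem_append] at hx
  rcases hx with (hx | hx) | hx
  · exact NL0_6_ok x hx
  · exact NL0_7_ok x hx
  · exact NL0_8_ok x hx

end Pool.Agent.S5.E.VX
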