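import Pool.Agent.S5.E.VX.Fn
import Pool.Agent.S5.E.B2.Base

/-!
# Vertices: the real inequalities behind the tests

`w₁ = sinh p cos q`, `w₂ = cosh p sin q`, `s = sin R cos R`, `h = sinh I cosh I`.
-/

set_option autoImplicit false

namespace Pool.Agent.S5.E.VX

open Real Pool.Agent.S3.NI

section slopes

variable {w₁ w₂ s h t W T : ℝ}

theorem aHi (hs : 0 < s) (h1 : 0 ≤ w₁) (h2 : 0 ≤ w₂) (hw : 0 < w₁ ∨ 0 < w₂) (hW : W * w₁ ≤ w₂)
    (hT : h ≤ T * s) (ht : 0 ≤ t) (hW0 : 0 ≤ W) (hT0 : 0 ≤ T) (k : T + t + t * (T * W) < W) :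
    t * (w₁ * s + w₂ * h) < w₂ * s - w₁ * h := by
  have k1 : 0 < W * (1 - t * T) - (T + t) := by linarith [mul_comm T W, mul_assoc t T W]
  have k2 : 0 < 1 - t * T := by
    by_contra hc
    push Not at hc
    nlinarith [mul_nonneg hW0 (sub_nonneg.2 (le_of_sub_nonpos (by linarith : (1 - t * T) - 0 ≤ 0)))]
  have k3 : 0 < W := by
    rcases hW0.lt_or_eq with h3 | h3
    · exact h3
    · rw [← h3] at k1
      linarith
  have e1 : w₂ * (s - t * h) ≥ w₂ * (s * (1 - t * T)) :=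
    mul_le_mul_of_nonneg_left (by nlinarith) h2
  have e2 : w₁ * (h + t * s) ≤ w₁ * ((T + t) * s) := mul_le_mul_of_nonneg_left (by nlinarith) h1
  have e3 : w₂ * (s * (1 - t * T)) ≥ (W * w₁) * (s * (1 - t * T)) :=
    mul_le_mul_of_nonneg_right hW (by positivity)
  rcases hw with hw | hw
  · have e4 : 0 < w₁ * s * (W * (1 - t * T) - (T + t)) := by positivity
    nlinarith
  · rcases h1.lt_or_eq with h3 | h3
    · have e4 : 0 < w₁ * s * (W * (1 - t * T) - (T + t)) := by positivity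
      nlinarith
    · rw [← h3] at e2 ⊢
      have e5 : 0 < w₂ * (s * (1 - t * T)) := by positivity
      nlinarith

theorem aLo (hs : 0 < s) (h1 : 0 < w₁) (h2 : 0 ≤ w₂) (hW : w₂ ≤ W * w₁)
    (hT : T * s ≤ h) (ht : 0 ≤ t) (hT0 : 0 ≤ T) (k : W < T + t + t * (T * W)) :
    w₂ * s - w₁ * h < t * (w₁ * s + w₂ * h) := by
  by_contra hc
  push Not at hc
  have e1 : w₂ * (t * h) ≥ w₂ * (t * (T * s)) :=
    mul_le_mul_of_nonneg_left (mul_le_mul_of_nonneg_left hT ht) h2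
  have e2 : w₁ * h ≥ w₁ * (T * s) := mul_le_mul_of_nonneg_left hT h1.le
  have e3 : w₁ * ((T + t) * s) ≤ w₂ * ((1 - t * T) * s) := by nlinarith
  have e4 : w₁ * (T + t) ≤ w₂ * (1 - t * T) := by
    have := e3
    rw [← mul_assoc, ← mul_assoc] at this
    exact le_of_mul_le_mul_right this hs
  have hTt : 0 ≤ T + t := by linarith
  rcases le_or_gt 0 (1 - t * T) with h3 | h3
  · have e5 := mul_le_mul_of_nonneg_right hW h3
    have e6 : w₁ * (T + t) ≤ w₁ * (W * (1 - t * T)) := by nlinarith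
    have e7 := le_of_mul_le_mul_left e6 h1
    nlinarith
  · have e5 : 0 ≤ w₁ * (T + t) := by positivity
    have e6 : w₂ * (1 - t * T) ≤ 0 := mul_nonpos_of_nonneg_of_nonpos h2 h3.le
    have hT1 : 0 < T := by
      rcases hT0.lt_or_eq with h4 | h4
      · exact h4
      · rw [← h4] at h3
        linarith
    have e7 : 0 < w₁ * (T + t) := by positivity
    linarith

theorem sHi (hs : 0 < s) (h1 : 0 < w₁) (hW : w₂ ≤ W * w₁) (hh : 0 ≤ h)
    (hT : T * s ≤ h) (ht : 0 ≤ t) (hW0 : 0 ≤ W) (hT1 : 0 ≤ T) (k : t + W + t * (T * W) < T) :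
    t * (w₁ * s + w₂ * h) < w₁ * h - w₂ * s := by
  have e1 : w₂ * (s + t * h) ≤ (W * w₁) * (s + t * h) :=
    mul_le_mul_of_nonneg_right hW (by positivity)
  have k1 : 0 < T * (1 - t * W) - (t + W) := by nlinarith
  have k2 : 0 < 1 - t * W := by
    by_contra hc
    push Not at hc
    have : 0 ≤ t + W := by positivity
    nlinarith
  have e2 : (T * s) * (1 - t * W) ≤ h * (1 - t * W) := mul_le_mul_of_nonneg_right hT k2.le
  have e3 : 0 < w₁ * s * (T * (1 - t * W) - (t + W)) := by positivity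
  have e4 : w₁ * ((T * s) * (1 - t * W)) ≤ w₁ * (h * (1 - t * W)) :=
    mul_le_mul_of_nonneg_left e2 h1.le
  nlinarith

theorem sLo (hs : 0 < s) (h1 : 0 < w₁) (hW : W * w₁ ≤ w₂) (hh : 0 ≤ h)
    (hT : h ≤ T * s) (ht : 0 ≤ t) (hW0 : 0 ≤ W) (k : T < t + W + t * (T * W)) :
    w₁ * h - w₂ * s < t * (w₁ * s + w₂ * h) := by
  have e1 : (W * w₁) * (s + t * h) ≤ w₂ * (s + t * h) :=
    mul_le_mul_of_nonneg_right hW (by positivity)
  have e2 : h * (1 - t * W) < s * (t + W) := by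
    rcases le_or_gt 0 (1 - t * W) with h3 | h3
    · have e4 := mul_le_mul_of_nonneg_right hT h3
      have e5 : s * (T * (1 - t * W)) < s * (t + W) := mul_lt_mul_of_pos_left (by nlinarith) hs
      nlinarith
    · have hW1 : 0 < W := by
        rcases hW0.lt_or_eq with h4 | h4
        · exact h4
        · rw [← h4] at h3
          linarith
      have e4 : h * (1 - t * W) ≤ 0 := mul_nonpos_of_nonneg_of_nonpos hh h3.le
      have e5 : 0 < s * (t + W) := by positivity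
      linarith
  have e3 := mul_lt_mul_of_pos_left e2 h1
  nlinarith

theorem nHi (hs : 0 < s) (h1 : 0 < w₁) (hW : W * w₁ ≤ w₂)
    (hT : T * s ≤ h) (ht : 0 ≤ t) (hW0 : 0 ≤ W) (hT0 : 0 ≤ T) (k : t < T + W + t * (T * W)) :
    t * (w₁ * s - w₂ * h) < w₁ * h + w₂ * s := by
  have e1 : w₁ * (T * s) ≤ w₁ * h := mul_le_mul_of_nonneg_left hT h1.le
  have e2 : (W * w₁) * s ≤ w₂ * s := mul_le_mul_of_nonneg_right hW hs.le
  have e3 : (W * w₁) * (T * s) ≤ w₂ * h := mul_le_mul hW hT (by positivity) (by nlinarith [mul_nonneg hW0 h1.le])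
  have e4 := mul_le_mul_of_nonneg_left e3 ht
  have e5 : 0 < w₁ * s * (T + W + t * (T * W) - t) := by
    apply mul_pos (by positivity)
    linarith
  nlinarith

theorem nLo (hs : 0 < s) (h1 : 0 < w₁) (h2 : 0 ≤ w₂) (hW : w₂ ≤ W * w₁) (hh : 0 ≤ h)
    (hT : h ≤ T * s) (ht : 0 ≤ t) (k : T + W + t * (T * W) < t) :
    w₁ * h + w₂ * s < t * (w₁ * s - w₂ * h) := by
  have e1 : w₁ * h ≤ w₁ * (T * s) := mul_le_mul_of_nonneg_left hT h1.le
  have e2 : w₂ * s ≤ (W * w₁) * s := mul_le_mul_of_nonneg_right hW hs.le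
  have e3 : w₂ * h ≤ (W * w₁) * (T * s) := mul_le_mul hW hT hh (h2.trans hW)
  have e4 := mul_le_mul_of_nonneg_left e3 ht
  have e5 : 0 < w₁ * s * (t - (T + W + t * (T * W))) := by
    apply mul_pos (by positivity)
    linarith
  nlinarith

end slopes

/-! ### Products and quotients of bounds -/

def mlo (a b : ℕ) : ℕ := Nat.div (Nat.mul a b) 1073741824
def mhi (a b : ℕ) : ℕ := Nat.succ (Nat.div (Nat.mul a b) 1073741824)
def dlo (a b : ℕ) : ℕ := Nat.div (Nat.mul a 1073741824) b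
def dhi (a b : ℕ) : ℕ := Nat.succ (Nat.div (Nat.mul a 1073741824) b)

/-- `a` is a lower bound of `x`, in units of `2 ^ (-30)`. -/
def Lb (a : ℕ) (x : ℝ) : Prop := (a : ℝ) ≤ x * 1073741824
/-- `a` is an upper bound of `x`. -/
def Ub (x : ℝ) (a : ℕ) : Prop := x * 1073741824 ≤ (a : ℝ)

section

variable {a b : ℕ} {x y : ℝ}

theorem Lb.nonneg (h : Lb a x) : 0 ≤ x := by
  have h0 : (0 : ℝ) ≤ a := a.cast_nonneg
  unfold Lb at h
  linarith

theorem Lb.pos (h : Lb a x) (ha : 0 < a) : 0 < x := by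
  have h0 : (0 : ℝ) < a := by exact_mod_cast ha
  unfold Lb at h
  linarith

theorem Lb.add (h1 : Lb a x) (h2 : Lb b y) : Lb (Nat.add a b) (x + y) := by
  unfold Lb at *
  rw [cast_add']
  linarith

theorem Ub.add (h1 : Ub x a) (h2 : Ub y b) : Ub (x + y) (Nat.add a b) := by
  unfold Ub at *
  rw [cast_add']
  linarith

theorem Lb.mul (h1 : Lb a x) (h2 : Lb b y) : Lb (mlo a b) (x * y) := by
  have hx := h1.nonneg
  have b0 : (0 : ℝ) ≤ b := b.cast_nonneg
  unfold Lb mlo at *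
  refine (nat_div_le _ _).trans ?_
  push_cast
  rw [div_le_iff₀ (by norm_num), cast_mul']
  have := mul_le_mul h1 h2 b0 (by positivity)
  linarith

theorem Ub.mul (h1 : Ub x a) (h2 : Ub y b) (hy : 0 ≤ y) :
    Ub (x * y) (mhi a b) := by
  have a0 : (0 : ℝ) ≤ a := a.cast_nonneg
  unfold Ub mhi at *
  refine le_trans ?_ (le_succ_div _ (by norm_num))
  push_cast
  rw [le_div_iff₀ (by norm_num), cast_mul']
  have := mul_le_mul h1 h2 (by positivity) a0
  linarith

theorem Lb.div (h1 : Lb a x) (h2 : Ub y b) (hy : 0 < y) : Lb (dlo a b) (x / y) := by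
  have hx := h1.nonneg
  have a0 : (0 : ℝ) ≤ a := a.cast_nonneg
  unfold Lb Ub dlo at *
  have hb : (0 : ℝ) < b := lt_of_lt_of_le (by positivity) h2
  refine (nat_div_le _ _).trans ?_
  rw [div_le_iff₀ hb, cast_mul', div_mul_eq_mul_div, div_mul_eq_mul_div, le_div_iff₀ hy]
  push_cast
  have := mul_le_mul h1 h2 (by positivity) (by positivity)
  linarith

theorem Ub.div (h1 : Ub x a) (h2 : Lb b y) (hb : 0 < b) : Ub (x / y) (dhi a b) := by
  have hy := h2.pos hb
  have a0 : (0 : ℝ) ≤ a := a.cast_nonneg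
  have hb' : (0 : ℝ) < b := by exact_mod_cast hb
  unfold Lb Ub dhi at *
  refine le_trans ?_ (le_succ_div _ hb)
  rw [le_div_iff₀ hb', cast_mul', div_mul_eq_mul_div, div_mul_eq_mul_div, div_le_iff₀ hy]
  push_cast
  have := mul_le_mul h1 h2 (by positivity) a0
  linarith

theorem Lb.subm {c : ℕ} {z : ℝ} (h1 : Lb a x) (h2 : Ub y c) (hz : 0 ≤ z) (h : x - y ≤ z) :
    Lb (Nat.sub a c) z := by
  unfold Lb Ub at *
  apply nsub_le
  · nlinarith
  · positivity

theorem Ub.subm {c : ℕ} {z : ℝ} (h1 : Ub x a) (h2 : Lb c y) (h : z ≤ x - y) :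
    Ub z (Nat.sub a c) := by
  unfold Lb Ub at *
  apply le_nsub
  nlinarith

theorem lt_of_LU (h1 : Ub x a) (h2 : Lb b y) (h : Nat.ble (Nat.succ a) b = true) : x < y := by
  rw [Nat.ble_eq] at h
  have h' : (a : ℝ) + 1 ≤ b := by exact_mod_cast h
  unfold Lb Ub at *
  nlinarith

theorem le_of_LU (h1 : Ub x a) (h2 : Lb b y) (h : Nat.ble a b = true) : x ≤ y := by
  rw [Nat.ble_eq] at h
  have h' : (a : ℝ) ≤ b := by exact_mod_cast h
  unfold Lb Ub at *
  nlinarith

end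

/-- constants in units of `1 / 1000`. -/
def tl (n : ℕ) : ℕ := Nat.div (Nat.mul n 1073741824) 1000
def tu (n : ℕ) : ℕ := Nat.succ (Nat.div (Nat.mul n 1073741824) 1000)
/-- squares of constants in units of `1 / 1000`. -/
def kl (n : ℕ) : ℕ := Nat.div (Nat.mul (Nat.mul n n) 1073741824) 1000000
def ku (n : ℕ) : ℕ := Nat.succ (Nat.div (Nat.mul (Nat.mul n n) 1073741824) 1000000)

theorem tl_mem (n : ℕ) : Lb (tl n) ((n : ℝ) / 1000) := by
  unfold Lb tl
  refine (nat_div_le _ _).trans ?_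
  rw [cast_mul']
  push_cast
  rw [div_mul_eq_mul_div]

theorem tu_mem (n : ℕ) : Ub ((n : ℝ) / 1000) (tu n) := by
  unfold Ub tu
  refine le_trans ?_ (le_succ_div _ (by norm_num))
  rw [cast_mul']
  push_cast
  rw [div_mul_eq_mul_div]

theorem kl_mem (n : ℕ) : Lb (kl n) (((n : ℝ) / 1000) ^ 2) := by
  unfold Lb kl
  refine (nat_div_le _ _).trans ?_
  rw [cast_mul', cast_mul']
  push_cast
  apply le_of_eq
  ring

theorem ku_mem (n : ℕ) : Ub (((n : ℝ) / 1000) ^ 2) (ku n) := by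
  unfold Ub ku
  refine le_trans ?_ (le_succ_div _ (by norm_num))
  rw [cast_mul', cast_mul']
  push_cast
  apply le_of_eq
  ring

end Pool.Agent.S5.E.VX
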