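import Pool.Agent.S5.E.VX.Sound

/-!
# Vertices: soundness of the run
-/

set_option autoImplicit false

namespace Pool.Agent.S5.E.VX

open Real Pool.Agent.S3.NI Pool.Agent.S5.E.B2

theorem pi_lb : Lb 3373259426 π := by
  unfold Lb
  have := pi_lo
  push_cast
  linarith

theorem pi_ub : Ub π 3373259428 := by
  unfold Ub
  have := pi_hi
  push_cast
  linarith

theorem mem_mi_pl {m : Md} {q : ℝ} {B : N} (h : Mem q B) :
    ∃ u v : ℝ, Mem u (mi m B) ∧ Mem v (pl m B) ∧ sq m q = v - u := by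
  have h0 : Mem 0 (⟨0, 0⟩ : N) := by constructor <;> norm_num
  cases m with
  | o => exact ⟨0, q, h0, h, by simp [sq]⟩
  | a => exact ⟨0, q, h0, h, by simp [sq]⟩
  | s => exact ⟨0, q, h0, h, by simp [sq]⟩
  | n => exact ⟨q, 0, h, h0, by simp [sq]⟩

theorem div_lb {x a : ℝ} {k n : ℕ} (hk : Lb k (a * x)) (hx : 0 ≤ x) (hn : n = 0 ∨ a ≤ n) :
    Lb (Nat.div k n) x := by
  unfold Lb at *
  rcases hn with rfl | hn
  · have e : Nat.div k 0 = 0 := Nat.div_zero k
    rw [e]
    push_cast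
    positivity
  · refine (nat_div_le _ _).trans ?_
    rcases Nat.eq_zero_or_pos n with h0 | h0
    · rw [h0]
      push_cast
      rw [div_zero]
      positivity
    · have h1 : (0 : ℝ) < n := by exact_mod_cast h0
      rw [div_le_iff₀ h1]
      have := mul_le_mul_of_nonneg_right hn hx
      nlinarith

theorem div_ub {x a : ℝ} {k n : ℕ} (hk : Ub (a * x) k) (hx : 0 ≤ x) (h0 : 0 < n) (hn : (n : ℝ) ≤ a) :
    Ub x (Nat.succ (Nat.div k n)) := by
  unfold Ub at *
  refine le_trans ?_ (le_succ_div _ h0)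
  have h1 : (0 : ℝ) < n := by exact_mod_cast h0
  rw [le_div_iff₀ h1]
  have := mul_le_mul_of_nonneg_right hn hx
  nlinarith

theorem four_lb {k : ℕ} {a x : ℝ} (h : Lb k (a * x)) : Lb (Nat.mul 4 k) (4 * a * x) := by
  unfold Lb at *
  rw [cast_mul']
  push_cast
  linarith

theorem four_ub {k : ℕ} {a x : ℝ} (h : Ub (a * x) k) : Ub (4 * a * x) (Nat.mul 4 k) := by
  unfold Ub at *
  rw [cast_mul']
  push_cast
  linarith

section

variable {p : VP} {a R I p₁ q₁ p₂ q₂ : ℝ} {A B C D : N}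

theorem VH.mR (h : VH p a R I p₁ q₁ p₂ q₂) (hB : Mem q₁ B) (hD : Mem q₂ D) : Mem R (rR p B D) := by
  obtain ⟨u1, v1, hu1, hv1, e1⟩ := mem_mi_pl (m := p.m1) hB
  obtain ⟨u2, v2, hu2, hv2, e2⟩ := mem_mi_pl (m := p.m2) hD
  have hE := h.eR
  have ha' : 0 < 4 * a := lt_of_lt_of_le (by exact_mod_cast h.a00) h.a0
  have ha : 0 < a := by linarith
  have h0 : 0 ≤ a * R := (mul_pos ha h.R0).le
  constructor
  · apply div_lb (a := 4 * a) _ h.R0.le h.a1
    apply four_lb
    apply (pi_lb.add ((lbm hu1).add (lbm hu2))).subm ((ubm hv1).add (ubm hv2)) h0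
    rw [hE, e1, e2]
    linarith
  · apply div_ub (a := 4 * a) _ h.R0.le h.a00 h.a0
    apply four_ub
    apply (pi_ub.add ((ubm hu1).add (ubm hu2))).subm ((lbm hv1).add (lbm hv2))
    rw [hE, e1, e2]
    linarith

theorem VH.mI (h : VH p a R I p₁ q₁ p₂ q₂) (hA : Mem p₁ A) (hC : Mem p₂ C) : Mem I (rI p A C) := by
  have hE := h.eI
  constructor
  · apply div_lb (a := 4 * a) _ h.I0.le h.a1
    apply four_lb
    rw [hE]
    exact (lbm hA).add (lbm hC)
  · apply div_ub (a := 4 * a) _ h.I0.le h.a00 h.a0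
    apply four_ub
    rw [hE]
    exact (ubm hA).add (ubm hC)

/-- The bounds of `|κ|²` and `tan φ`. -/
structure KB (R I : ℝ) (dl dh f0 fd f1 : ℕ) : Prop where
  dl : Lb dl (cos R ^ 2 + sinh I ^ 2)
  dh : Ub (cos R ^ 2 + sinh I ^ 2) dh
  f0 : Lb f0 (sin R * sinh I / (cos R * cosh I))
  f1 : 0 < fd → Ub (sin R * sinh I / (cos R * cosh I)) f1

theorem le_hiU {x : ℝ} {A : N} {n : ℕ} (h : Mem x A) (hA : A.hi ≤ n) : A.lo ≤ n := by
  have h2 : (A.lo : ℝ) ≤ A.hi := h.1.trans h.2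
  have : A.lo ≤ A.hi := by exact_mod_cast h2
  omega

/-- The quotient `tan R tanh I` by the end points. -/
theorem kTT_sound {g : ℕ → ℕ → ℕ → ℕ → ℕ → Bool} {Rr Ir : N} (hR0 : 0 < R) (hR1 : R < π / 2)
    (hI : 0 < I) (hR : Mem R Rr) (hi : Mem I Ir) (gR : Rr.hi ≤ 3221225472)
    (gI : Ir.hi ≤ 2147483648) (h : kTT g Rr Ir = true) :
    ∃ dl dh f0 fd f1 : ℕ, KB R I dl dh f0 fd f1 ∧ g dl dh f0 fd f1 = true := by
  refine ⟨_, _, _, _, _, ?_, h⟩
  have hsR : 0 < sin R := sin_pos_of_pos_of_lt_pi hR0 (by linarith [pi_pos])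
  have hcR : 0 < cos R := cos_pos_of_mem_Ioo ⟨by linarith [pi_pos], hR1⟩
  have hsI : 0 < sinh I := sinh_pos_iff.2 hI
  have b1 : Lb (snLo Rr.lo) (sin R) := snLo_mem hR1.le hR.1
  have b2 : Ub (sin R) (snHi Rr.hi) := snHi_mem hR0.le hR.2
  have b3 : Ub (cos R) (csHi Rr.lo) := csHi_mem hR1.le hR.1
  have b4 : Lb (csLo Rr.hi) (cos R) := csLo_mem hR0.le hR1.le hR.2 gR
  have b5 : Lb (shLo Ir.lo) (sinh I) := shLo_mem hi.1
  have b6 : Ub (sinh I) (shHi Ir.hi) := shHi_mem hI.le hi.2 gI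
  obtain ⟨I0, hI0⟩ : ∃ I0 : ℝ, I0 = (Ir.lo : ℝ) / 1073741824 := ⟨_, rfl⟩
  have eI0 : (Ir.lo : ℝ) = I0 * 1073741824 := by rw [hI0]; exact cast_n _
  obtain ⟨I1, hI1⟩ : ∃ I1 : ℝ, I1 = (Ir.hi : ℝ) / 1073741824 := ⟨_, rfl⟩
  have eI1 : (Ir.hi : ℝ) = I1 * 1073741824 := by rw [hI1]; exact cast_n _
  have hII0 : I0 ≤ I := by
    have := hi.1
    rw [eI0] at this
    linarith
  have hII1 : I ≤ I1 := by
    have := hi.2
    rw [eI1] at this
    linarith
  have hI00 : 0 ≤ I0 := by rw [hI0]; positivity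
  have c5 : Lb (shLo Ir.lo) (sinh I0) := shLo_mem eI0.le
  have c6 : Ub (sinh I1) (shHi Ir.hi) := shHi_mem (hI.le.trans hII1) eI1.ge gI
  have c7 : Ub (cosh I0) (chHi Ir.lo) := chHi_mem hI00 eI0.ge (le_hiU hi gI)
  have c8 : Lb (chLo Ir.hi) (cosh I1) := chLo_mem eI1.le
  have e1 : cos R * cos R + sinh I * sinh I = cos R ^ 2 + sinh I ^ 2 := by ring
  constructor
  · rw [← e1]
    exact (b4.mul b4).add (b5.mul b5)
  · rw [← e1]
    exact (b3.mul b3 hcR.le).add (b6.mul b6 hsI.le)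
  · have k := (b1.mul c5).div (b3.mul c7 (cosh_pos _).le) (mul_pos hcR (cosh_pos _))
    have k2 : sin R * sinh I0 / (cos R * cosh I0) ≤ sin R * sinh I / (cos R * cosh I) := by
      rw [div_le_div_iff₀ (mul_pos hcR (cosh_pos _)) (mul_pos hcR (cosh_pos _))]
      have k3 := mul_le_mul_of_nonneg_left (sinh_cosh_le hII0) (mul_pos hsR hcR).le
      linarith
    unfold Lb at k ⊢
    linarith
  · intro h0
    have k := (b2.mul c6 (sinh_nonneg_iff.2 (hI.le.trans hII1))).div (b4.mul c8) h0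
    have k2 : sin R * sinh I / (cos R * cosh I) ≤ sin R * sinh I1 / (cos R * cosh I1) := by
      rw [div_le_div_iff₀ (mul_pos hcR (cosh_pos _)) (mul_pos hcR (cosh_pos _))]
      have k3 := mul_le_mul_of_nonneg_left (sinh_cosh_le hII1) (mul_pos hsR hcR).le
      linarith
    unfold Ub at k ⊢
    linarith

theorem norm_uv (R I : ℝ) : (cos R * cosh I) ^ 2 + (sin R * sinh I) ^ 2 = cos R ^ 2 + sinh I ^ 2 := by
  have e1 := cosh_sq I
  have e2 := cos_sq' R
  rw [mul_pow, mul_pow, e1, e2]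
  ring

theorem prE_sound {r : Rg} {dl dh f0 fd f1 : ℕ} (hR0 : 0 < R) (hR1 : R < π / 2)
    (hb : KB R I dl dh f0 fd f1) (hr : InR r (cos R * cosh I) (sin R * sinh I))
    (h : prE r dl dh f0 fd f1 = true) : False := by
  have hcR : 0 < cos R := cos_pos_of_mem_Ioo ⟨by linarith [pi_pos], hR1⟩
  have hu : 0 < cos R * cosh I := mul_pos hcR (cosh_pos I)
  have hlo := hr.lo
  have hhi := hr.hi
  rw [norm_uv] at hlo hhi
  have ha0 := hr.a0
  have ha1 := hr.a1
  rw [← le_div_iff₀ hu] at ha0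
  rw [← div_le_iff₀ hu] at ha1
  unfold prE at h
  rw [Bool.or_eq_true, Bool.or_eq_true, Bool.or_eq_true, Bool.and_eq_true] at h
  rcases h with h | h | h | ⟨h1, h⟩
  · exact absurd (lt_of_LU hb.dh (kl_mem r.k0) h) (not_lt.2 hlo)
  · exact absurd (lt_of_LU (ku_mem r.k1) hb.dl h) (not_lt.2 hhi)
  · exact absurd (lt_of_LU (tu_mem r.t1) hb.f0 h) (not_lt.2 ha1)
  · exact absurd (lt_of_LU (hb.f1 (ble_one h1)) (tl_mem r.t0) h) (not_lt.2 ha0)

theorem inE_sound {pr r : Rg} {dl dh f0 fd f1 : ℕ} (hR0 : 0 < R) (hR1 : R < π / 2) (hI : 0 < I)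
    (hb : KB R I dl dh f0 fd f1) (hr : InR pr (cos R * cosh I) (sin R * sinh I)) (hm : r.m = 0)
    (h : inE pr r dl dh f0 fd f1 = true) : InR r (cos R * cosh I) (sin R * sinh I) := by
  have hsR : 0 < sin R := sin_pos_of_pos_of_lt_pi hR0 (by linarith [pi_pos])
  have hcR : 0 < cos R := cos_pos_of_mem_Ioo ⟨by linarith [pi_pos], hR1⟩
  have hu : 0 < cos R * cosh I := mul_pos hcR (cosh_pos I)
  have hv : 0 < sin R * sinh I := mul_pos hsR (sinh_pos_iff.2 hI)
  unfold inE at h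
  rw [Bool.and_eq_true, Bool.and_eq_true, Bool.and_eq_true, Bool.or_eq_true, Bool.or_eq_true,
    Bool.or_eq_true, Bool.or_eq_true, Bool.and_eq_true] at h
  obtain ⟨⟨h1, h2⟩, h3, h4⟩ := h
  have hlo := hr.lo
  have hhi := hr.hi
  have cast_th : ∀ {a b : ℕ}, Nat.ble a b = true → (a : ℝ) / 1000 ≤ (b : ℝ) / 1000 := by
    intro a b hab
    rw [Nat.ble_eq] at hab
    have : (a : ℝ) ≤ b := by exact_mod_cast hab
    linarith
  refine ⟨hu.le, hv.le, ?_, ?_, ?_, ?_, ?_⟩
  · rcases h1 with h1 | h1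
    · refine le_trans ?_ hlo
      have h5 := cast_th h1
      exact pow_le_pow_left₀ (by positivity) h5 2
    · rw [norm_uv]
      exact le_of_LU (ku_mem r.k0) hb.dl h1
  · rcases h2 with h2 | h2
    · refine hhi.trans ?_
      have h5 := cast_th h2
      exact pow_le_pow_left₀ (by positivity) h5 2
    · rw [norm_uv]
      exact le_of_LU hb.dh (kl_mem r.k1) h2
  · rcases h3 with h3 | h3
    · exact (mul_le_mul_of_nonneg_right (cast_th h3) hu.le).trans hr.a0
    · rw [← le_div_iff₀ hu]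
      exact le_of_LU (tu_mem r.t0) hb.f0 h3
  · rcases h4 with h4 | ⟨h4, h5⟩
    · exact hr.a1.trans (mul_le_mul_of_nonneg_right (cast_th h4) hu.le)
    · rw [← div_le_iff₀ hu]
      exact le_of_LU (hb.f1 (ble_one h4)) (tl_mem r.t1) h5
  · rw [hm]
    push_cast
    rw [zero_div]
    exact (mul_pos hu hv).le

theorem VH.mem_acc (h : VH p a R I p₁ q₁ p₂ q₂) {acc : N → N → N → N → N → N → Bool}
    (hA : Mem p₁ A) (hB : Mem q₁ B) (hC : Mem p₂ C) (hD : Mem q₂ D)
    (ht : vt p acc A B C D = true) : acc A B C D (rR p B D) (rI p A C) = true := by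
  have hR := h.mR hB hD
  have hI := h.mI hA hC
  unfold vt vt2 gd at ht
  simp only [Bool.and_eq_true, Bool.or_eq_true] at ht
  obtain ⟨⟨⟨⟨g1, g2⟩, g3, g4⟩, g5, g6⟩, ht⟩ := ht
  rw [Nat.ble_eq] at g1 g2 g3 g4 g5 g6
  have hR0 := h.R0
  have hR1 := h.R1
  have hI0 := h.I0
  rcases ht with ht | ht | ht
  · obtain ⟨dl, dh, f0, fd, f1, hb, hg⟩ := kTT_sound hR0 hR1 hI0 hR hI g5 g6 ht
    exact (prE_sound hR0 hR1 hb h.pr hg).elim
  · exact ht
  · exfalso
    have hsR : 0 < sin R := sin_pos_of_pos_of_lt_pi hR0 (by linarith [pi_pos])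
    have hcR : 0 < cos R := cos_pos_of_mem_Ioo ⟨by linarith [pi_pos], hR1⟩
    have hsI : 0 < sinh I := sinh_pos_iff.2 hI0
    have hcI : 0 < cosh I := cosh_pos I
    have b1 : Lb (snLo (rR p B D).lo) (sin R) := snLo_mem hR1.le hR.1
    have b2 : Ub (sin R) (snHi (rR p B D).hi) := snHi_mem hR0.le hR.2
    have b3 : Ub (cos R) (csHi (rR p B D).lo) := csHi_mem hR1.le hR.1
    have b4 : Lb (csLo (rR p B D).hi) (cos R) := csLo_mem hR0.le hR1.le hR.2 g5
    have b5 : Lb (shLo (rI p A C).lo) (sinh I) := shLo_mem hI.1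
    have b6 : Ub (sinh I) (shHi (rI p A C).hi) := shHi_mem hI0.le hI.2 g6
    have b7 : Lb (chLo (rI p A C).lo) (cosh I) := chLo_mem hI.1
    have b8 : Ub (cosh I) (chHi (rI p A C).hi) := chHi_mem hI0.le hI.2 g6
    unfold frr fr1 fr2 frE at ht
    rw [Bool.or_eq_true] at ht
    have D1 := (b4.mul b4).add (b5.mul b5)
    have D2 := (b3.mul b3 hcR.le).add (b6.mul b6 hsI.le)
    have N1 := (b1.mul b1).add (b5.mul b5)
    have N2 := (b2.mul b2 hsR.le).add (b6.mul b6 hsI.le)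
    have S1 := b1.mul b4
    have S2 := b2.mul b3 hcR.le
    have H1 := b5.mul b7
    have H2 := b6.mul b8 hcI.le
    have eD : cos R * cos R + sinh I * sinh I = cos R ^ 2 + sinh I ^ 2 := by ring
    have eN : sin R * sin R + sinh I * sinh I = sin R ^ 2 + sinh I ^ 2 := by ring
    rw [eD] at D1 D2
    rw [eN] at N1 N2
    have pD : 0 < cos R ^ 2 + sinh I ^ 2 := by positivity
    have pN : 0 < sin R ^ 2 + sinh I ^ 2 := by positivity
    have pS : 0 < sin R * cos R := mul_pos hsR hcR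
    have pH : 0 < sinh I * cosh I := mul_pos hsI hcI
    obtain ⟨cp, hcp⟩ : ∃ cp : ℝ, cp = max (cos R * cos R - sin R * sin R) 0 := ⟨_, rfl⟩
    obtain ⟨cn, hcn⟩ : ∃ cn : ℝ, cn = max (sin R * sin R - cos R * cos R) 0 := ⟨_, rfl⟩
    have pcp : 0 ≤ cp := by rw [hcp]; exact le_max_right _ _
    have pcn : 0 ≤ cn := by rw [hcn]; exact le_max_right _ _
    have X1 := (b4.mul b4).subm (b2.mul b2 hsR.le) pcp (by rw [hcp]; exact le_max_left _ _)
    have X3 := (b1.mul b1).subm (b3.mul b3 hcR.le) pcn (by rw [hcn]; exact le_max_left _ _)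
    have X2 : Ub cp (Nat.sub (mhi (csHi (rR p B D).lo) (csHi (rR p B D).lo))
        (mlo (snLo (rR p B D).lo) (snLo (rR p B D).lo))) := by
      rcases le_total (cos R * cos R - sin R * sin R) 0 with h0 | h0
      · rw [hcp, max_eq_right h0]
        unfold Ub
        rw [zero_mul]
        exact Nat.cast_nonneg _
      · rw [hcp, max_eq_left h0]
        exact (b3.mul b3 hcR.le).subm (b1.mul b1) le_rfl
    have X4 : Ub cn (Nat.sub (mhi (snHi (rR p B D).hi) (snHi (rR p B D).hi))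
        (mlo (csLo (rR p B D).hi) (csLo (rR p B D).hi))) := by
      rcases le_total (sin R * sin R - cos R * cos R) 0 with h0 | h0
      · rw [hcn, max_eq_right h0]
        unfold Ub
        rw [zero_mul]
        exact Nat.cast_nonneg _
      · rw [hcn, max_eq_left h0]
        exact (b2.mul b2 hsR.le).subm (b4.mul b4) le_rfl
    have one_l : Lb 1073741824 1 := by unfold Lb; norm_num
    have one_u : Ub 1 1073741824 := by unfold Ub; norm_num
    have eG : (cos R ^ 2 + sinh I ^ 2) / (sin R ^ 2 + sinh I ^ 2) =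
        (1 + cp / (sin R ^ 2 + sinh I ^ 2)) / (1 + cn / (cos R ^ 2 + sinh I ^ 2)) := by
      rcases le_total (sin R * sin R) (cos R * cos R) with h0 | h0
      · rw [hcp, hcn, max_eq_left (by linarith), max_eq_right (by linarith)]
        field_simp
        ring
      · have e : 1 + (sin R * sin R - cos R * cos R) / (cos R ^ 2 + sinh I ^ 2) =
            (sin R ^ 2 + sinh I ^ 2) / (cos R ^ 2 + sinh I ^ 2) := by
          field_simp
          ring
        rw [hcp, hcn, max_eq_right (by linarith), max_eq_left (by linarith), e, zero_div, add_zero,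
          one_div_div]
    have gl : 0 < Nat.add (mlo (csLo (rR p B D).hi) (csLo (rR p B D).hi))
        (mlo (shLo (rI p A C).lo) (shLo (rI p A C).lo)) → Lb _ _ := fun h0 => by
      have k1 := one_l.add (X1.div N2 pN)
      have k2 := one_u.add (X4.div D1 h0)
      have k3 := k1.div k2 (by positivity)
      rw [← eG] at k3
      exact k3
    have gh : 0 < Nat.add (mlo (snLo (rR p B D).lo) (snLo (rR p B D).lo))
        (mlo (shLo (rI p A C).lo) (shLo (rI p A C).lo)) → Ub _ _ := fun h0 => by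
      have k1 := one_u.add (X2.div N1 h0)
      have k2 := one_l.add (X3.div D2 pD)
      have k4 : 0 < Nat.add 1073741824 (dlo (Nat.sub (mlo (snLo (rR p B D).lo) (snLo (rR p B D).lo))
          (mhi (csHi (rR p B D).lo) (csHi (rR p B D).lo)))
          (Nat.add (mhi (csHi (rR p B D).lo) (csHi (rR p B D).lo))
            (mhi (shHi (rI p A C).hi) (shHi (rI p A C).hi)))) := by
        have : ∀ n : ℕ, 0 < Nat.add 1073741824 n := fun n => by
          show 0 < 1073741824 + n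
          omega
        exact this _
      have k3 := k1.div k2 k4
      rw [← eG] at k3
      exact k3
    have tl := H1.div S2 pS
    have th := fun h0 => H2.div S1 h0
    rcases ht with ht | ht
    · exact slE_sound h.s1 hA hB g1 g3 hR0 hR1 hI0 gl gh tl th ht
    · exact slE_sound h.s2 hC hD g2 g4 hR0 hR1 hI0 gl gh tl th ht

/-- Soundness of a run. -/
theorem run_sound {acc : N → N → N → N → N → N → Bool} {G : Prop} {n : ℕ}
    (h : VH p a R I p₁ q₁ p₂ q₂) (hr : run p acc n = true)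
    (hacc : ∀ A B C D Rr Ir : N, acc A B C D Rr Ir = true → Mem p₁ A → Mem q₁ B → Mem p₂ C →
      Mem q₂ D → Mem R Rr → Mem I Ir → Rr.hi ≤ 3221225472 → Ir.hi ≤ 2147483648 → G) : G := by
  have key := bbw_sound (test := vt p acc)
    (P := fun x y z w => VH p a R I x y z w → x = p₁ → y = q₁ → z = p₂ → w = q₂ → G) (by
      intro A B C D ht x y z w hx hy hz hw hv e1 e2 e3 e4
      subst e1 e2 e3 e4
      have k := hv.mem_acc hx hy hz hw ht
      unfold vt vt2 gd at ht
      simp only [Bool.and_eq_true] at ht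
      obtain ⟨⟨-, g5, g6⟩, -⟩ := ht
      rw [Nat.ble_eq] at g5 g6
      exact hacc A B C D _ _ k hx hy hz hw (hv.mR hy hw) (hv.mI hx hz) g5 g6) 1 1 1 1 n _ _ _ _ hr
  have mP : ∀ {m : Md} {r : Rg} {x y : ℝ}, SDat m r R I x y → Mem x (iP m) := by
    intro m r x y hs
    have h2 : Mem x (⟨0, 2147483648⟩ : N) := by
      constructor
      · push_cast
        linarith [hs.p0]
      · push_cast
        linarith [hs.p1]
    cases m with
    | o =>
      rw [(hs.o rfl).1]
      constructor <;> simp [iP]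
    | a => exact h2
    | s => exact h2
    | n => exact h2
  have mQ : ∀ {m : Md} {r : Rg} {x y : ℝ}, SDat m r R I x y → Mem y (iQ m) := by
    intro m r x y hs
    have h2 : Mem y (⟨0, 1686629714⟩ : N) := by
      constructor
      · push_cast
        linarith [hs.q0]
      · push_cast
        linarith [hs.q1, pi_hi]
    cases m with
    | o =>
      rw [(hs.o rfl).2]
      constructor <;> simp [iQ]
    | a => exact h2
    | s => exact h2
    | n => exact h2
  exact key p₁ q₁ p₂ q₂ (mP h.s1) (mQ h.s1) (mP h.s2) (mQ h.s2) h rfl rfl rfl rfl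

/-- The region of the vertex. -/
theorem run_out {out : Rg} {n : ℕ} (h : VH p a R I p₁ q₁ p₂ q₂) (hm : out.m = 0)
    (hr : run p (accR p.pr out) n = true) : InR out (cos R * cosh I) (sin R * sinh I) := by
  refine run_sound h hr ?_
  intro A B C D Rr Ir hk hA hB hC hD hR hI g5 g6
  obtain ⟨dl, dh, f0, fd, f1, hb, hg⟩ := kTT_sound h.R0 h.R1 h.I0 hR hI g5 g6 hk
  exact inE_sound h.R0 h.R1 h.I0 hb h.pr hm hg

end

end Pool.Agent.S5.E.VX
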