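import Pool.Agent.S5.E.VX.Lin
import Pool.Agent.S5.E.T.App

/-!
# Vertices: runs with weights, and their application
-/

set_option autoImplicit false

namespace Pool.Agent.S5.E.VX

open Real Pool.Agent.S3.NI Pool.Agent.S5.E.B2
open Pool.Agent.S3.E (PP)

/-- A run; the first slot has the weight `w`. -/
def runW (w : ℕ) (p : VP) (acc : N → N → N → N → N → N → Bool) (n : ℕ) : Bool :=
  bbw (vt p acc) w w 1 1 n (iP p.m1) (iQ p.m1) (iP p.m2) (iQ p.m2)

theorem mem_iP {m : Md} {r : Rg} {R I x y : ℝ} (hs : SDat m r R I x y) : Mem x (iP m) := by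
  have h2 : Mem x (⟨0, 2147483648⟩ : N) := by
    constructor
    · push_cast
      linarith [hs.p0]
    · push_cast
      linarith [hs.p1]
  cases m with
  | o =>
    rw [(hs.o rfl).1]
    constructor <;> simp [iP]
  | a => exact h2
  | s => exact h2
  | n => exact h2

theorem mem_iQ {m : Md} {r : Rg} {R I x y : ℝ} (hs : SDat m r R I x y) : Mem y (iQ m) := by
  have h2 : Mem y (⟨0, 1686629714⟩ : N) := by
    constructor
    · push_cast
      linarith [hs.q0]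
    · push_cast
      linarith [hs.q1, pi_hi]
  cases m with
  | o =>
    rw [(hs.o rfl).2]
    constructor <;> simp [iQ]
  | a => exact h2
  | s => exact h2
  | n => exact h2

/-- Soundness of a run. -/
theorem runW_sound {w : ℕ} {p : VP} {a R I p₁ q₁ p₂ q₂ : ℝ}
    {acc : N → N → N → N → N → N → Bool} {G : Prop} {n : ℕ}
    (h : VH p a R I p₁ q₁ p₂ q₂) (hr : runW w p acc n = true)
    (hacc : ∀ A B C D Rr Ir : N, acc A B C D Rr Ir = true → Mem p₁ A → Mem q₁ B → Mem p₂ C →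
      Mem q₂ D → Mem R Rr → Mem I Ir → Rr.hi ≤ 3221225472 → Ir.hi ≤ 2147483648 → G) : G := by
  have key := bbw_sound (test := vt p acc)
    (P := fun x y z w => VH p a R I x y z w → x = p₁ → y = q₁ → z = p₂ → w = q₂ → G) (by
      intro A B C D ht x y z w hx hy hz hw hv e1 e2 e3 e4
      subst e1 e2 e3 e4
      have k := hv.mem_acc hx hy hz hw ht
      unfold vt vt2 gd at ht
      simp only [Bool.and_eq_true] at ht
      obtain ⟨⟨-, g5, g6⟩, -⟩ := ht
      rw [Nat.ble_eq] at g5 g6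
      exact hacc A B C D _ _ k hx hy hz hw (hv.mR hy hw) (hv.mI hx hz) g5 g6) w w 1 1 n _ _ _ _ hr
  exact key p₁ q₁ p₂ q₂ (mem_iP h.s1) (mem_iQ h.s1) (mem_iP h.s2) (mem_iQ h.s2) h rfl rfl rfl rfl

/-- The run of an instance with an acceptance test for every pair of modes; `x.own` is the known
region of the vertex, `x.out` is not used. -/
def chkW (w n : ℕ) (acc : Md → Md → N → N → N → N → N → N → Bool) (x : Inst) : Bool :=
  ((Nat.ble 1 x.a && Sb x.own rS3) && (Nat.ble x.r₁.k1 1200 && Nat.ble x.r₂.k1 1200)) &&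
    (rgs x.a).all fun ab => (mds (some x.s₁)).all fun m1 => (mds x.s₂).all fun m2 =>
      runW w (vpI x ab m1 m2) (acc m1 m2) n

/-- **Soundness**, general form. -/
theorem chkW_sound {w n : ℕ} {x : Inst} {acc : Md → Md → N → N → N → N → N → N → Bool}
    (h : chkW w n acc x = true) {a R I ρ₁ φ₁ p₁ r₁ ρ₂ φ₂ p₂ r₂ : ℝ} {G : Prop}
    (hv : Vx a R I ρ₁ (sg x.s₁ * φ₁) p₁ r₁ ρ₂ (sgO x.s₂ * φ₂) p₂ r₂) (ha : HasA x.a a)
    (h1 : InP (some x.s₁) x.r₁ ρ₁ φ₁) (h2 : InP x.s₂ x.r₂ ρ₂ φ₂)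
    (ho : InR x.own (cos R * cosh I) (sin R * sinh I))
    (hacc : ∀ ab, ∀ m1 ∈ mds (some x.s₁), ∀ m2 ∈ mds x.s₂, ∀ q₁ q₂, r₁ = sq m1 q₁ →
      r₂ = sq m2 q₂ → VH (vpI x ab m1 m2) a R I p₁ q₁ p₂ q₂ →
      ∀ A B C D Rr Ir : N, acc m1 m2 A B C D Rr Ir = true → Mem p₁ A → Mem q₁ B → Mem p₂ C →
      Mem q₂ D → Mem R Rr → Mem I Ir → Rr.hi ≤ 3221225472 → Ir.hi ≤ 2147483648 → G) : G := by
  unfold chkW at h
  rw [Bool.and_eq_true, Bool.and_eq_true, Bool.and_eq_true, Bool.and_eq_true] at h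
  obtain ⟨⟨⟨c0, c4⟩, c1, c2⟩, h⟩ := h
  rw [Nat.ble_eq] at c0 c1 c2
  obtain ⟨ab, hab, m1, hm1, m2, hm2, q₁, q₂, e1, e2, hV⟩ := vh_of hv ha h1 h2 ho c4 c0 c1 c2
  have h0 := List.all_eq_true.1 h ab hab
  have h3 := List.all_eq_true.1 h0 m1 hm1
  have h4 := List.all_eq_true.1 h3 m2 hm2
  exact runW_sound hV h4 (hacc ab m1 hm1 m2 hm2 q₁ q₂ e1 e2 hV)

/-! ### Application at a vertex of a chain -/

/-- The instance `x` fits the vertex `i`, the first slot towards `j`. -/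
structure Fit {ι : Type*} (a : ι → ℝ) (nl nr : ι → Option (ι × Bool)) (z : ι → ℂ) (x : Inst)
    (i j : ι) (o : Option (ι × Bool)) : Prop where
  a : HasA x.a (a i)
  t : At nl nr i (some (j, x.s₁)) o
  s : x.s₂ = kd o
  own : InR x.own (Complex.cos (z i)).re (-(Complex.cos (z i)).im)
  r1 : InR x.r₁ (Complex.cos (z j)).re (-(Complex.cos (z j)).im)
  r2 : InN x.r₂ z o

theorem Fit.vx {ι : Type*} {a : ι → ℝ} {nl nr : ι → Option (ι × Bool)} {z : ι → ℂ} {x : Inst}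
    {i j : ι} {o : Option (ι × Bool)} (hf : Fit a nl nr z x i j o)
    (h : Zr true a nl nr (gC a nl nr) 1 z) : ∃ φ₁ φ₂ : ℝ,
    Vx (a i) (z i).re (z i).im (ro true 1 z (some (j, x.s₁))) (sg x.s₁ * φ₁)
      (PP (bo true 1 z (some (j, x.s₁)) * Complex.tan (z i)))
      (RS (bo true 1 z (some (j, x.s₁)) * Complex.tan (z i)))
      (ro true 1 z o) (sgO x.s₂ * φ₂) (PP (bo true 1 z o * Complex.tan (z i)))
      (RS (bo true 1 z o * Complex.tan (z i))) ∧
    InP (some x.s₁) x.r₁ (ro true 1 z (some (j, x.s₁))) φ₁ ∧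
    InP x.s₂ x.r₂ (ro true 1 z o) φ₂ ∧
    InR x.own (cos (z i).re * cosh (z i).im) (sin (z i).re * sinh (z i).im) := by
  obtain ⟨ha, ho, ho', h₀, h₁, h₂⟩ := hf
  have hself : InR x.own (cos (z i).re * cosh (z i).im) (sin (z i).re * sinh (z i).im) := by
    rw [← (cos_parts (z i)).1, ← (cos_parts (z i)).2]
    exact h₀
  have n1 : InN x.r₁ z (some (j, x.s₁)) := by
    intro j' s' e
    rw [Option.some.injEq, Prod.mk.injEq] at e
    rw [← e.1]
    exact h₁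
  obtain ⟨φ₁, b1, q1⟩ := h.inP n1
  obtain ⟨φ₂, b2, q2⟩ := h.inP h₂
  refine ⟨φ₁, φ₂, ?_, ?_, ?_, hself⟩
  · have hvx := h.vx i
    rcases ho with ⟨ho1, ho2⟩ | ⟨ho1, ho2⟩
    · rw [ho1, ho2, b1, b2, ← ho'] at hvx
      exact hvx
    · rw [ho1, ho2, b1, b2, ← ho'] at hvx
      exact hvx.swap
  · exact q1
  · rw [← ho'] at q2
    exact q2

end Pool.Agent.S5.E.VX
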