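import Pool.Agent.S5.E.VX.Cell

/-!
# Vertices: soundness of the cell test
-/

set_option autoImplicit false

namespace Pool.Agent.S5.E.VX

open Real Pool.Agent.S3.NI Pool.Agent.S5.E.B2

/-- `x |sin z|²`. -/
def eqx (m : Md) (w₁ w₂ s h : ℝ) : ℝ :=
  match m with
  | .n => w₁ * s - w₂ * h
  | _ => w₁ * s + w₂ * h

/-- `y |sin z|²`. -/
def eqy (m : Md) (w₁ w₂ s h : ℝ) : ℝ :=
  match m with
  | .o => 0
  | .a => w₂ * s - w₁ * h
  | .s => w₁ * h - w₂ * s
  | .n => w₁ * h + w₂ * s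

/-- The data of a slot: `q = |r|`. -/
structure SDat (m : Md) (r : Rg) (R I p q : ℝ) : Prop where
  p0 : 0 ≤ p
  p1 : p ≤ 2
  q0 : 0 ≤ q
  q1 : q ≤ π / 2
  o : m = Md.o → p = 0 ∧ q = 0
  d : m ≠ Md.o → ∃ x y, InR r x y ∧
    (0 < sinh p * cos q ∨ (m = Md.a ∧ 0 < cosh p * sin q)) ∧
    x * (sin R ^ 2 + sinh I ^ 2) = eqx m (sinh p * cos q) (cosh p * sin q) (sin R * cos R)
      (sinh I * cosh I) ∧
    y * (sin R ^ 2 + sinh I ^ 2) = eqy m (sinh p * cos q) (cosh p * sin q) (sin R * cos R)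
      (sinh I * cosh I)

/-- The sign of `r`. -/
def sq (m : Md) (q : ℝ) : ℝ :=
  match m with
  | .n => -q
  | _ => q

/-- The data of a vertex. -/
structure VH (p : VP) (a R I p₁ q₁ p₂ q₂ : ℝ) : Prop where
  a0 : (p.a0 : ℝ) ≤ 4 * a
  a00 : 0 < p.a0
  a1 : p.a1 = 0 ∨ 4 * a ≤ p.a1
  R0 : 0 < R
  R1 : R < π / 2
  I0 : 0 < I
  eR : a * R = π - sq p.m1 q₁ - sq p.m2 q₂
  eI : a * I = p₁ + p₂
  s1 : SDat p.m1 p.r1 R I p₁ q₁
  s2 : SDat p.m2 p.r2 R I p₂ q₂
  pr : InR p.pr (cos R * cosh I) (sin R * sinh I)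

theorem lbm {x : ℝ} {A : N} (h : Mem x A) : Lb A.lo x := h.1
theorem ubm {x : ℝ} {A : N} (h : Mem x A) : Ub x A.hi := h.2

theorem ble_one {n : ℕ} (h : Nat.ble 1 n = true) : 0 < n := by
  rw [Nat.ble_eq] at h
  omega

/-- The size of the product. -/
theorem SDat.norm {m : Md} {R I p q x y : ℝ} (hm : m ≠ Md.o)
    (hx : x * (sin R ^ 2 + sinh I ^ 2) = eqx m (sinh p * cos q) (cosh p * sin q) (sin R * cos R)
      (sinh I * cosh I))
    (hy : y * (sin R ^ 2 + sinh I ^ 2) = eqy m (sinh p * cos q) (cosh p * sin q) (sin R * cos R)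
      (sinh I * cosh I)) (hN : 0 < sin R ^ 2 + sinh I ^ 2) :
    x ^ 2 + y ^ 2 = (sinh p ^ 2 + sin q ^ 2) * ((cos R ^ 2 + sinh I ^ 2) /
      (sin R ^ 2 + sinh I ^ 2)) := by
  have h1 : (x * (sin R ^ 2 + sinh I ^ 2)) ^ 2 + (y * (sin R ^ 2 + sinh I ^ 2)) ^ 2 =
      ((sinh p * cos q) ^ 2 + (cosh p * sin q) ^ 2) *
        ((sin R * cos R) ^ 2 + (sinh I * cosh I) ^ 2) := by
    rw [hx, hy]
    cases m with
    | o => exact absurd rfl hm
    | a => simp only [eqx, eqy]; ring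
    | s => simp only [eqx, eqy]; ring
    | n => simp only [eqx, eqy]; ring
  have h2 : (sinh p * cos q) ^ 2 + (cosh p * sin q) ^ 2 = sinh p ^ 2 + sin q ^ 2 := by
    have e1 := cosh_sq p
    have e2 := cos_sq' q
    rw [mul_pow, mul_pow, e1, e2]
    ring
  have h3 : (sin R * cos R) ^ 2 + (sinh I * cosh I) ^ 2 =
      (sin R ^ 2 + sinh I ^ 2) * (cos R ^ 2 + sinh I ^ 2) := by
    have e1 := cosh_sq I
    have e2 := cos_sq' R
    rw [mul_pow, mul_pow, e1, e2]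
    ring
  rw [h2, h3] at h1
  have h4 : (x ^ 2 + y ^ 2) * (sin R ^ 2 + sinh I ^ 2) =
      (sinh p ^ 2 + sin q ^ 2) * (cos R ^ 2 + sinh I ^ 2) := by
    have h5 : ((x ^ 2 + y ^ 2) * (sin R ^ 2 + sinh I ^ 2)) * (sin R ^ 2 + sinh I ^ 2) =
        ((sinh p ^ 2 + sin q ^ 2) * (cos R ^ 2 + sinh I ^ 2)) * (sin R ^ 2 + sinh I ^ 2) := by
      linear_combination h1
    exact mul_right_cancel₀ hN.ne' h5
  rw [← mul_div_assoc, eq_div_iff hN.ne', h4]

theorem sinh_cosh_le {x y : ℝ} (h : x ≤ y) : sinh x * cosh y ≤ cosh x * sinh y := by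
  have h1 : 0 ≤ sinh (y - x) := sinh_nonneg_iff.2 (by linarith)
  rw [sinh_sub] at h1
  linarith

section slot

variable {m : Md} {r : Rg} {R I p q : ℝ} {P Q : N}

/-- The lower bound of `w₂ / w₁`. -/
theorem wlo_sound (p0 : 0 ≤ p) (q0 : 0 ≤ q) (q1 : q ≤ π / 2) (hP : Mem p P) (hQ : Mem q Q)
    (gP : P.hi ≤ 2147483648) {W : ℝ}
    (hW : W = ((dlo (mlo (snLo Q.lo) (chLo P.hi)) (mhi (csHi Q.lo) (shHi P.hi)) : ℕ) : ℝ) /
      1073741824) : W * (sinh p * cos q) ≤ cosh p * sin q := by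
  have hs : 0 ≤ sinh p := sinh_nonneg_iff.2 p0
  have hc : 0 ≤ cos q := cos_nonneg_of_neg_pi_div_two_le_of_le (by linarith [pi_pos]) q1
  have hsn : 0 ≤ sin q := sin_nonneg_of_nonneg_of_le_pi q0 (by linarith [pi_pos])
  have hch := cosh_pos p
  rcases (mul_nonneg hs hc).lt_or_eq with h1 | h1
  swap
  · rw [← h1, mul_zero]
    positivity
  have hsp : 0 < sinh p := by
    rcases hs.lt_or_eq with h2 | h2
    · exact h2
    · rw [← h2, zero_mul] at h1
      exact absurd h1 (lt_irrefl _)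
  have hcp : 0 < cos q := by
    rcases hc.lt_or_eq with h2 | h2
    · exact h2
    · rw [← h2, mul_zero] at h1
      exact absurd h1 (lt_irrefl _)
  obtain ⟨P1, hP1⟩ : ∃ P1 : ℝ, P1 = (P.hi : ℝ) / 1073741824 := ⟨_, rfl⟩
  have eP1 : (P.hi : ℝ) = P1 * 1073741824 := by rw [hP1]; exact cast_n _
  have hpP : p ≤ P1 := by
    have := hP.2
    rw [eP1] at this
    linarith
  have hshP : 0 < sinh P1 := lt_of_lt_of_le hsp (sinh_le_sinh.2 hpP)
  have b1 : Lb (snLo Q.lo) (sin q) := snLo_mem q1 hQ.1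
  have b2 : Lb (chLo P.hi) (cosh P1) := chLo_mem eP1.le
  have b3 : Ub (cos q) (csHi Q.lo) := csHi_mem q1 hQ.1
  have b4 : Ub (sinh P1) (shHi P.hi) := shHi_mem (p0.trans hpP) eP1.ge gP
  have b5 := (b1.mul b2).div (b3.mul b4 hshP.le) (mul_pos hcp hshP)
  have b6 : W ≤ sin q * cosh P1 / (cos q * sinh P1) := by
    rw [hW, div_le_iff₀ (by norm_num)]
    exact b5
  have b7 : W * (sinh p * cos q) ≤ sin q * cosh P1 / (cos q * sinh P1) * (sinh p * cos q) :=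
    mul_le_mul_of_nonneg_right b6 h1.le
  refine b7.trans ?_
  rw [div_mul_eq_mul_div, div_le_iff₀ (mul_pos hcp hshP)]
  have b8 := sinh_cosh_le hpP
  have b9 := mul_le_mul_of_nonneg_left b8 (mul_nonneg hsn hcp.le)
  linarith

/-- The upper bound of `w₂ / w₁`. -/
theorem whi_sound (q0 : 0 ≤ q) (q1 : q ≤ π / 2) (hP : Mem p P) (hQ : Mem q Q)
    (gP : P.hi ≤ 2147483648) (gQ : Q.hi ≤ 3221225472)
    (hw : 0 < mlo (csLo Q.hi) (shLo P.lo)) {W : ℝ}
    (hW : W = ((dhi (mhi (snHi Q.hi) (chHi P.lo)) (mlo (csLo Q.hi) (shLo P.lo)) : ℕ) : ℝ) /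
      1073741824) : 0 < sinh p * cos q ∧ cosh p * sin q ≤ W * (sinh p * cos q) := by
  obtain ⟨P0, hP0⟩ : ∃ P0 : ℝ, P0 = (P.lo : ℝ) / 1073741824 := ⟨_, rfl⟩
  have eP0 : (P.lo : ℝ) = P0 * 1073741824 := by rw [hP0]; exact cast_n _
  have hpP : P0 ≤ p := by
    have := hP.1
    rw [eP0] at this
    linarith
  have hP00 : 0 ≤ P0 := by rw [hP0]; positivity
  have g0 : P.lo ≤ 2147483648 := by
    have h2 : (P.lo : ℝ) ≤ P.hi := hP.1.trans hP.2
    have : P.lo ≤ P.hi := by exact_mod_cast h2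
    omega
  have b1 : Ub (sin q) (snHi Q.hi) := snHi_mem q0 hQ.2
  have b2 : Ub (cosh P0) (chHi P.lo) := chHi_mem hP00 eP0.ge g0
  have b3 : Lb (csLo Q.hi) (cos q) := csLo_mem q0 q1 hQ.2 gQ
  have b4 : Lb (shLo P.lo) (sinh P0) := shLo_mem eP0.le
  have b5 := b3.mul b4
  have b6 := b5.pos hw
  have hcq : 0 < cos q := by
    by_contra hc
    push Not at hc
    have := b4.nonneg
    nlinarith
  have hsP : 0 < sinh P0 := by
    by_contra hc
    push Not at hc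
    nlinarith
  have hsp : 0 < sinh p := lt_of_lt_of_le hsP (sinh_le_sinh.2 hpP)
  refine ⟨mul_pos hsp hcq, ?_⟩
  have b7 := (b1.mul b2 (cosh_pos _).le).div b5 hw
  have b8 : sin q * cosh P0 / (cos q * sinh P0) ≤ W := by
    rw [hW, le_div_iff₀ (by norm_num)]
    exact b7
  have b9 := mul_le_mul_of_nonneg_right b8 (mul_pos hsp hcq).le
  refine le_trans ?_ b9
  rw [div_mul_eq_mul_div, le_div_iff₀ (mul_pos hcq hsP)]
  have hsn : 0 ≤ sin q := sin_nonneg_of_nonneg_of_le_pi q0 (by linarith [pi_pos])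
  have c1 := mul_le_mul_of_nonneg_left (sinh_cosh_le hpP) (mul_nonneg hsn hcq.le)
  linarith

theorem ub_self (n : ℕ) : Ub ((n : ℝ) / 1073741824) n := by
  unfold Ub
  rw [div_mul_cancel₀ _ (by norm_num)]

theorem lb_self (n : ℕ) : Lb n ((n : ℝ) / 1073741824) := by
  unfold Lb
  rw [div_mul_cancel₀ _ (by norm_num)]

theorem slE_sound (hd : SDat m r R I p q) (hP : Mem p P) (hQ : Mem q Q)
    (gP : P.hi ≤ 2147483648) (gQ : Q.hi ≤ 3221225472) (hR0 : 0 < R) (hR1 : R < π / 2) (hI : 0 < I)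
    {dl nl glo ghi scl tlo thi : ℕ}
    (hgl : 0 < dl → Lb glo ((cos R ^ 2 + sinh I ^ 2) / (sin R ^ 2 + sinh I ^ 2)))
    (hgh : 0 < nl → Ub ((cos R ^ 2 + sinh I ^ 2) / (sin R ^ 2 + sinh I ^ 2)) ghi)
    (htl : Lb tlo (sinh I * cosh I / (sin R * cos R)))
    (hth : 0 < scl → Ub (sinh I * cosh I / (sin R * cos R)) thi)
    (h : slE m r P Q dl nl glo ghi scl tlo thi = true) : False := by
  have hsR : 0 < sin R := sin_pos_of_pos_of_lt_pi hR0 (by linarith [pi_pos])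
  have hcR : 0 < cos R := cos_pos_of_mem_Ioo ⟨by linarith [pi_pos], hR1⟩
  have hsI : 0 < sinh I := sinh_pos_iff.2 hI
  have hcI := cosh_pos I
  have hN : 0 < sin R ^ 2 + sinh I ^ 2 := by positivity
  have hs : 0 < sin R * cos R := mul_pos hsR hcR
  have hh : 0 < sinh I * cosh I := mul_pos hsI hcI
  have hm : m ≠ Md.o := by
    rintro rfl
    exact Bool.false_ne_true h
  obtain ⟨x, y, hr, hw, ex, ey⟩ := hd.d hm
  have hnorm := SDat.norm hm ex ey hN
  have hsp : 0 ≤ sinh p := sinh_nonneg_iff.2 hd.p0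
  have hcq : 0 ≤ cos q := cos_nonneg_of_neg_pi_div_two_le_of_le (by linarith [pi_pos, hd.q0]) hd.q1
  have hsq : 0 ≤ sin q := sin_nonneg_of_nonneg_of_le_pi hd.q0 (by linarith [pi_pos, hd.q1])
  have hw1 : 0 ≤ sinh p * cos q := mul_nonneg hsp hcq
  have hw2 : 0 ≤ cosh p * sin q := mul_nonneg (cosh_pos p).le hsq
  have h' : slE1 m r dl nl glo ghi scl tlo thi P.lo P.hi Q.lo Q.hi = true := by
    cases m with
    | o => exact absurd rfl hm
    | a => exact h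
    | s => exact h
    | n => exact h
  unfold slE1 slE2 at h'
  rw [Bool.or_eq_true] at h'
  rcases h' with h' | h'
  · -- the size
    unfold kEx at h'
    rw [Bool.or_eq_true, Bool.and_eq_true, Bool.and_eq_true] at h'
    have b1 : Lb (shLo P.lo) (sinh p) := shLo_mem hP.1
    have b2 : Lb (snLo Q.lo) (sin q) := snLo_mem hd.q1 hQ.1
    have b3 : Ub (sinh p) (shHi P.hi) := shHi_mem hd.p0 hP.2 gP
    have b4 : Ub (sin q) (snHi Q.hi) := snHi_mem hd.q0 hQ.2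
    have e1 : sinh p * sinh p + sin q * sin q = sinh p ^ 2 + sin q ^ 2 := by ring
    have hG : 0 < (cos R ^ 2 + sinh I ^ 2) / (sin R ^ 2 + sinh I ^ 2) := by positivity
    rcases h' with h' | h'
    · have c1 := ((b1.mul b1).add (b2.mul b2)).mul (hgl (ble_one h'.1))
      have c2 := lt_of_LU (ku_mem r.k1) c1 h'.2
      rw [e1, ← hnorm] at c2
      linarith [hr.hi]
    · have c1 := ((b3.mul b3 hsp).add (b4.mul b4 hsq)).mul (hgh (ble_one h'.1)) hG.le
      have c2 := lt_of_LU c1 (kl_mem r.k0) h'.2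
      rw [e1, ← hnorm] at c2
      linarith [hr.lo]
  · -- the slope
    obtain ⟨W0, hW0⟩ : ∃ W0 : ℝ, W0 = ((dlo (mlo (snLo Q.lo) (chLo P.hi))
      (mhi (csHi Q.lo) (shHi P.hi)) : ℕ) : ℝ) / 1073741824 := ⟨_, rfl⟩
    obtain ⟨W1, hW1⟩ : ∃ W1 : ℝ, W1 = ((dhi (mhi (snHi Q.hi) (chHi P.lo))
      (mlo (csLo Q.hi) (shLo P.lo)) : ℕ) : ℝ) / 1073741824 := ⟨_, rfl⟩
    obtain ⟨T0, hT0⟩ : ∃ T0 : ℝ, T0 = (tlo : ℝ) / 1073741824 := ⟨_, rfl⟩
    obtain ⟨T1, hT1⟩ : ∃ T1 : ℝ, T1 = (thi : ℝ) / 1073741824 := ⟨_, rfl⟩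
    have pW0 : 0 ≤ W0 := by rw [hW0]; positivity
    have pW1 : 0 ≤ W1 := by rw [hW1]; positivity
    have pT0 : 0 ≤ T0 := by rw [hT0]; positivity
    have pT1 : 0 ≤ T1 := by rw [hT1]; positivity
    have LW0 := lb_self (dlo (mlo (snLo Q.lo) (chLo P.hi)) (mhi (csHi Q.lo) (shHi P.hi)))
    have UW0 := ub_self (dlo (mlo (snLo Q.lo) (chLo P.hi)) (mhi (csHi Q.lo) (shHi P.hi)))
    rw [← hW0] at LW0 UW0
    have LW1 := lb_self (dhi (mhi (snHi Q.hi) (chHi P.lo)) (mlo (csLo Q.hi) (shLo P.lo)))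
    have UW1 := ub_self (dhi (mhi (snHi Q.hi) (chHi P.lo)) (mlo (csLo Q.hi) (shLo P.lo)))
    rw [← hW1] at LW1 UW1
    have LT0 := lb_self tlo
    have UT0 := ub_self tlo
    rw [← hT0] at LT0 UT0
    have LT1 := lb_self thi
    have UT1 := ub_self thi
    rw [← hT1] at LT1 UT1
    have w0 := wlo_sound hd.p0 hd.q0 hd.q1 hP hQ gP hW0
    have w1 := fun hw => whi_sound hd.q0 hd.q1 hP hQ gP gQ hw hW1
    have t0 : T0 * (sin R * cos R) ≤ sinh I * cosh I := by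
      have : T0 ≤ sinh I * cosh I / (sin R * cos R) := by
        rw [hT0, div_le_iff₀ (by norm_num)]
        exact htl
      rwa [le_div_iff₀ hs] at this
    have t1 : 0 < scl → sinh I * cosh I ≤ T1 * (sin R * cos R) := by
      intro h0
      have : sinh I * cosh I / (sin R * cos R) ≤ T1 := by
        rw [hT1, le_div_iff₀ (by norm_num)]
        exact hth h0
      rwa [div_le_iff₀ hs] at this
    have q0 : (0 : ℝ) ≤ (r.t0 : ℝ) / 1000 := by positivity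
    have q1 : (0 : ℝ) ≤ (r.t1 : ℝ) / 1000 := by positivity
    have hr0 := mul_le_mul_of_nonneg_right hr.a0 hN.le
    have hr1 := mul_le_mul_of_nonneg_right hr.a1 hN.le
    rw [mul_assoc, ex, ey] at hr0 hr1
    cases m with
    | o => exact absurd rfl hm
    | a =>
      simp only [eqx, eqy] at hr0 hr1
      have h' : tA r scl tlo thi (mlo (csLo Q.hi) (shLo P.lo))
        (dlo (mlo (snLo Q.lo) (chLo P.hi)) (mhi (csHi Q.lo) (shHi P.hi)))
        (dhi (mhi (snHi Q.hi) (chHi P.lo)) (mlo (csLo Q.hi) (shLo P.lo))) = true := h'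
      have hww : 0 < sinh p * cos q ∨ 0 < cosh p * sin q := by
        rcases hw with hw | hw
        · exact Or.inl hw
        · exact Or.inr hw.2
      unfold tA at h'
      rw [Bool.or_eq_true, Bool.and_eq_true, Bool.and_eq_true] at h'
      rcases h' with ⟨h1, h2⟩ | ⟨h1, h2⟩
      · have k := lt_of_LU ((UT1.add (tu_mem r.t1)).add ((tu_mem r.t1).mul (UT1.mul UW0 pW0)
          (mul_nonneg pT1 pW0))) LW0 h2
        linarith [aHi hs hw1 hw2 hww w0 (t1 (ble_one h1)) q1 pW0 pT1 k]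
      · obtain ⟨w3, w4⟩ := w1 (ble_one h1)
        have k := lt_of_LU UW1 ((LT0.add (tl_mem r.t0)).add ((tl_mem r.t0).mul (LT0.mul LW1))) h2
        linarith [aLo hs w3 hw2 w4 t0 q0 pT0 k]
    | s =>
      simp only [eqx, eqy] at hr0 hr1
      have h' : tS r scl tlo thi (mlo (csLo Q.hi) (shLo P.lo))
        (dlo (mlo (snLo Q.lo) (chLo P.hi)) (mhi (csHi Q.lo) (shHi P.hi)))
        (dhi (mhi (snHi Q.hi) (chHi P.lo)) (mlo (csLo Q.hi) (shLo P.lo))) = true := h'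
      have hww : 0 < sinh p * cos q := by
        rcases hw with hw | hw
        · exact hw
        · exact absurd hw.1 (by intro h; cases h)
      unfold tS at h'
      rw [Bool.or_eq_true, Bool.and_eq_true, Bool.and_eq_true] at h'
      rcases h' with ⟨h1, h2⟩ | ⟨h1, h2⟩
      · obtain ⟨w3, w4⟩ := w1 (ble_one h1)
        have k := lt_of_LU (((tu_mem r.t1).add UW1).add ((tu_mem r.t1).mul (UT0.mul UW1 pW1)
          (mul_nonneg pT0 pW1))) LT0 h2
        linarith [sHi hs w3 w4 hh.le t0 q1 pW1 pT0 k]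
      · have k := lt_of_LU UT1 (((tl_mem r.t0).add LW0).add ((tl_mem r.t0).mul (LT1.mul LW0))) h2
        linarith [sLo hs hww w0 hh.le (t1 (ble_one h1)) q0 pW0 k]
    | n =>
      simp only [eqx, eqy] at hr0 hr1
      have h' : tN r scl tlo thi (mlo (csLo Q.hi) (shLo P.lo))
        (dlo (mlo (snLo Q.lo) (chLo P.hi)) (mhi (csHi Q.lo) (shHi P.hi)))
        (dhi (mhi (snHi Q.hi) (chHi P.lo)) (mlo (csLo Q.hi) (shLo P.lo))) = true := h'
      have hww : 0 < sinh p * cos q := by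
        rcases hw with hw | hw
        · exact hw
        · exact absurd hw.1 (by intro h; cases h)
      unfold tN at h'
      rw [Bool.or_eq_true, Bool.and_eq_true, Bool.and_eq_true] at h'
      rcases h' with h2 | ⟨⟨h1, h3⟩, h2⟩
      · have k := lt_of_LU (tu_mem r.t1) ((LT0.add LW0).add ((tl_mem r.t1).mul (LT0.mul LW0))) h2
        linarith [nHi hs hww w0 t0 q1 pW0 pT0 k]
      · obtain ⟨w3, w4⟩ := w1 (ble_one h3)
        have k := lt_of_LU ((UT1.add UW1).add ((tu_mem r.t0).mul (UT1.mul UW1 pW1)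
          (mul_nonneg pT1 pW1))) (tl_mem r.t0) h2
        linarith [nLo hs w3 hw2 w4 hh.le (t1 (ble_one h1)) q0 k]

end slot

end Pool.Agent.S5.E.VX
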