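import Pool.Agent.S5.G.Sh
import Pool.Agent.S5.I.VDefs
import Pool.Agent.S3.Gr1

/-!
# The parameters of a slot in terms of `q` and `z`

`A = sinh (q + i z)`, `B = sinh (q - i z)`, `exp (2 π i y) = A / B`.
-/

set_option autoImplicit false

namespace Pool.Agent.S5.E.VX

open Complex Pool.Agent.S3 Pool.Agent.S5.G
open scoped ComplexConjugate

theorem slot_ne {q z : ℂ} (h : Slot q z) : sinh (q - I * z) ≠ 0 := by
  intro h0
  have := h.rt
  rw [h0] at this
  simp at this

theorem slot_neA {q z : ℂ} (h : Slot q z) : sinh (q + I * z) ≠ 0 := by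
  intro h0
  have := h.up
  rw [h0] at this
  simp at this

theorem exp_sy {q z : ℂ} (h : Slot q z) :
    exp (2 * Real.pi * I * sy q z) * sinh (q - I * z) = sinh (q + I * z) := by
  rw [sy_mul, exp_sub, h.eA, h.eB, div_mul_cancel₀ _ (slot_ne h)]

/-- `sin (π y) sinh q cos z = cos (π y) cosh q sin z`. -/
theorem sy_crit {q z : ℂ} (h : Slot q z) :
    sin (Real.pi * sy q z) * (sinh q * cos z) = cos (Real.pi * sy q z) * (cosh q * sin z) := by
  have h1 := exp_sy h
  have e0 : (2 * Real.pi * I * sy q z : ℂ) = (Real.pi * sy q z) * I + (Real.pi * sy q z) * I := by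
    ring
  rw [e0, exp_add, sinh_addI, sinh_subI] at h1
  have hI : (I : ℂ) ^ 2 = -1 := I_sq
  obtain ⟨s, hs⟩ : ∃ s, s = sin (Real.pi * sy q z) := ⟨_, rfl⟩
  obtain ⟨c, hc⟩ : ∃ c, c = cos (Real.pi * sy q z) := ⟨_, rfl⟩
  have hE : exp ((Real.pi * sy q z) * I) = c + s * I := by
    rw [hs, hc, Complex.exp_mul_I]
  have hsc : s ^ 2 + c ^ 2 = 1 := by rw [hs, hc]; exact Complex.sin_sq_add_cos_sq _
  rw [← hs, ← hc]
  rw [hE] at h1
  have hne : (c + s * I) ≠ 0 := by
    rw [← hE]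
    exact Complex.exp_ne_zero _
  have key : (c + s * I) * (2 * I) * (s * (sinh q * cos z) - c * (cosh q * sin z)) = 0 := by
    linear_combination h1 + (-(sinh q * cos z) - I * (cosh q * sin z)) * hsc +
      (sinh q * cos z * s ^ 2 + I * (cosh q * sin z) * s ^ 2) * hI
  have h2I : (2 * I : ℂ) ≠ 0 := by simp
  rcases mul_eq_zero.1 key with h3 | h3
  · exact absurd h3 (mul_ne_zero hne h2I)
  · linear_combination h3

/-- `Λ = 2 p`, `λ = log (|sinh q|² / |sin z|²)`. -/
theorem slot_log {q z : ℂ} (h : Slot q z) (hq : sinh q ≠ 0) :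
    Lamv (sy q z) (z / Real.pi) = 2 * q.re ∧
      lamv (sy q z) (z / Real.pi) = Real.log (‖sinh q‖ ^ 2 / ‖sin z‖ ^ 2) := by
  obtain ⟨s1, s2⟩ := sin_quad h.z0 h.z1 h.zi
  have hsz : sin z ≠ 0 := fun h => by rw [h] at s1; simp at s1
  have hcz : cos z ≠ 0 := by
    intro h0
    have h1 : 0 < (cos z).re := by
      rw [cos_re]
      exact mul_pos (Real.cos_pos_of_mem_Ioo ⟨by linarith [Real.pi_pos, h.z0], h.z1⟩)
        (Real.cosh_pos _)
    rw [h0] at h1
    simp at h1
  have hk := sy_crit h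
  obtain ⟨s, hs⟩ : ∃ s, s = sin (Real.pi * sy q z) := ⟨_, rfl⟩
  obtain ⟨c, hc⟩ : ∃ c, c = cos (Real.pi * sy q z) := ⟨_, rfl⟩
  have hsc : s ^ 2 + c ^ 2 = 1 := by rw [hs, hc]; exact Complex.sin_sq_add_cos_sq _
  rw [← hs, ← hc] at hk
  have hc0 : c ≠ 0 := by
    intro h0
    rw [h0, zero_mul] at hk
    rcases mul_eq_zero.1 hk with h1 | h1
    · rw [h0, h1] at hsc
      simp at hsc
    · exact (mul_ne_zero hq hcz) h1
  have hpz : (Real.pi : ℂ) * (z / Real.pi) = z := by
    have := Pool.Agent.S3.G.pi_ne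
    field_simp
  -- the sines
  have eP : sin (Real.pi * (sy q z + z / Real.pi)) = s * cos z + c * sin z := by
    rw [mul_add, hpz, sin_add, ← hs, ← hc]
  have eM : sin (Real.pi * (sy q z - z / Real.pi)) = s * cos z - c * sin z := by
    rw [mul_sub, hpz, sin_sub, ← hs, ← hc]
  have hch : cosh q + sinh q = exp q := Complex.cosh_add_sinh q
  have hch' : cosh q - sinh q = exp (-q) := Complex.cosh_sub_sinh q
  have k1 : (s * cos z + c * sin z) * sinh q = c * sin z * exp q := by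
    rw [← hch]
    linear_combination hk
  have k2 : (s * cos z - c * sin z) * sinh q = c * sin z * exp (-q) := by
    rw [← hch']
    linear_combination hk
  have n1 : s * cos z + c * sin z ≠ 0 := by
    intro h0
    rw [h0, zero_mul] at k1
    exact (mul_ne_zero (mul_ne_zero hc0 hsz) (exp_ne_zero _)) k1.symm
  have n2 : s * cos z - c * sin z ≠ 0 := by
    intro h0
    rw [h0, zero_mul] at k2
    exact (mul_ne_zero (mul_ne_zero hc0 hsz) (exp_ne_zero _)) k2.symm
  have L1 : Lg ((sy q z).im - (z / Real.pi).im) ((sy q z).re - (z / Real.pi).re) =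
      Real.log (2 * ‖s * cos z - c * sin z‖) := by
    unfold Lg
    rw [← eM, norm_mul, Complex.norm_ofNat]
    congr 4
    apply Complex.ext <;> simp
  have L2 : Lg ((sy q z).im + (z / Real.pi).im) ((sy q z).re + (z / Real.pi).re) =
      Real.log (2 * ‖s * cos z + c * sin z‖) := by
    unfold Lg
    rw [← eP, norm_mul, Complex.norm_ofNat]
    congr 4
    apply Complex.ext <;> simp
  have L3 : Lg (sy q z).im (1 / 2 - (sy q z).re) = Real.log (2 * ‖c‖) := by
    unfold Lg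
    rw [norm_mul, Complex.norm_ofNat]
    congr 2
    have e1 : (Real.pi : ℂ) * (((1 / 2 - (sy q z).re : ℝ) : ℂ) + (sy q z).im * I) =
        Real.pi / 2 - conj (Real.pi * sy q z) := by
      (apply Complex.ext <;> simp) <;> ring
    rw [e1, sin_pi_div_two_sub, Complex.cos_conj, Complex.norm_conj, ← hc]
  have p1 : 0 < ‖s * cos z + c * sin z‖ := norm_pos_iff.2 n1
  have p2 : 0 < ‖s * cos z - c * sin z‖ := norm_pos_iff.2 n2
  have p3 : 0 < ‖c‖ := norm_pos_iff.2 hc0
  have p4 : 0 < ‖sin z‖ := norm_pos_iff.2 hsz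
  have p5 : 0 < ‖sinh q‖ := norm_pos_iff.2 hq
  have m1 := congrArg norm k1
  have m2 := congrArg norm k2
  rw [norm_mul, norm_mul, norm_mul, Complex.norm_exp] at m1 m2
  rw [neg_re] at m2
  have l1 := congrArg Real.log m1
  have l2 := congrArg Real.log m2
  rw [Real.log_mul p1.ne' p5.ne', Real.log_mul (mul_pos p3 p4).ne' (Real.exp_pos _).ne',
    Real.log_mul p3.ne' p4.ne', Real.log_exp] at l1
  rw [Real.log_mul p2.ne' p5.ne', Real.log_mul (mul_pos p3 p4).ne' (Real.exp_pos _).ne',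
    Real.log_mul p3.ne' p4.ne', Real.log_exp] at l2
  unfold lamv Lamv
  rw [L1, L2, L3, Real.log_mul two_ne_zero p1.ne', Real.log_mul two_ne_zero p2.ne',
    Real.log_mul two_ne_zero p3.ne', Real.log_div (pow_pos p5 2).ne' (pow_pos p4 2).ne',
    Real.log_pow, Real.log_pow]
  push_cast
  constructor
  · linarith
  · linarith

/-- `4 π η = log (|B|² / |A|²)`. -/
theorem slot_im {q z : ℂ} (h : Slot q z) : 4 * Real.pi * (sy q z).im =
    Real.log (‖sinh (q - I * z)‖ ^ 2 / ‖sinh (q + I * z)‖ ^ 2) := by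
  have e1 := congrArg Complex.re (sy_mul q z)
  rw [two_pi_I_mul_re, sub_re] at e1
  unfold lA lB at e1
  rw [log_re, log_re] at e1
  have p1 : 0 < ‖sinh (q - I * z)‖ := norm_pos_iff.2 (slot_ne h)
  have p2 : 0 < ‖sinh (q + I * z)‖ := norm_pos_iff.2 (slot_neA h)
  rw [Real.log_div (pow_pos p1 2).ne' (pow_pos p2 2).ne', Real.log_pow, Real.log_pow]
  push_cast
  linarith

/-- The argument of `A conj B`. -/
theorem slot_arg {q z : ℂ} (h : Slot q z) : ∃ c : ℝ, 0 < c ∧
    (sinh (q + I * z) * conj (sinh (q - I * z))).re = c * Real.cos (2 * Real.pi * (sy q z).re) ∧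
    (sinh (q + I * z) * conj (sinh (q - I * z))).im = c * Real.sin (2 * Real.pi * (sy q z).re) := by
  have p1 : 0 < ‖sinh (q - I * z)‖ := norm_pos_iff.2 (slot_ne h)
  have p2 : 0 < ‖sinh (q + I * z)‖ := norm_pos_iff.2 (slot_neA h)
  refine ⟨‖sinh (q + I * z)‖ * ‖sinh (q - I * z)‖, mul_pos p2 p1, ?_, ?_⟩
  · rw [re_mul_conj, sy_re_eq, lA_im_eq, lB_im_eq]
  · rw [im_mul_conj, sy_re_eq, lA_im_eq, lB_im_eq]

theorem norm_sinh_sq' (w : ℂ) : ‖sinh w‖ ^ 2 = Real.sinh w.re ^ 2 + Real.sin w.im ^ 2 := by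
  rw [← normSq_eq_norm_sq, normSq_apply, G.sinh_re, G.sinh_im]
  have h1 := Real.cosh_sq w.re
  have h2 := Real.sin_sq_add_cos_sq w.im
  nlinarith

theorem norm_sin_sq' (z : ℂ) : ‖sin z‖ ^ 2 = Real.sin z.re ^ 2 + Real.sinh z.im ^ 2 := by
  rw [← normSq_eq_norm_sq, normSq_apply, Pool.Agent.S5.G.sin_re, Pool.Agent.S5.G.sin_im]
  have h1 := Real.cosh_sq z.im
  have h2 := Real.sin_sq_add_cos_sq z.re
  nlinarith

/-- `A conj B` in real terms. -/
theorem ab_re (q z : ℂ) : (sinh (q + I * z) * conj (sinh (q - I * z))).re =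
    Real.sinh (q.re - z.im) * Real.cos (z.re + q.im) *
      (Real.sinh (q.re + z.im) * Real.cos (z.re - q.im)) -
    Real.cosh (q.re - z.im) * Real.sin (z.re + q.im) *
      (Real.cosh (q.re + z.im) * Real.sin (z.re - q.im)) := by
  rw [mul_re, conj_re, conj_im, G.sinh_re, G.sinh_im, G.sinh_re, G.sinh_im, addI_re, addI_im, subI_re,
    subI_im, show q.im - z.re = -(z.re - q.im) by ring, Real.cos_neg, Real.sin_neg,
    add_comm q.im z.re]
  ring

theorem ab_im (q z : ℂ) : (sinh (q + I * z) * conj (sinh (q - I * z))).im =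
    Real.sinh (q.re - z.im) * Real.cos (z.re + q.im) *
      (Real.cosh (q.re + z.im) * Real.sin (z.re - q.im)) +
    Real.cosh (q.re - z.im) * Real.sin (z.re + q.im) *
      (Real.sinh (q.re + z.im) * Real.cos (z.re - q.im)) := by
  rw [mul_im, conj_re, conj_im, G.sinh_re, G.sinh_im, G.sinh_re, G.sinh_im, addI_re, addI_im, subI_re,
    subI_im, show q.im - z.re = -(z.re - q.im) by ring, Real.cos_neg, Real.sin_neg,
    add_comm q.im z.re]
  ring

/-- The angle from below. -/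
theorem slot_lo {q z : ℂ} (h : Slot q z) {ψ : ℝ} (h0 : 0 ≤ ψ)
    (hc : (sinh (q + I * z) * conj (sinh (q - I * z))).re * Real.cos ψ ≤
      (sinh (q + I * z) * conj (sinh (q - I * z))).im * Real.sin ψ) :
    Real.pi / 2 - ψ ≤ 2 * Real.pi * (sy q z).re := by
  obtain ⟨c, c0, e1, e2⟩ := slot_arg h
  obtain ⟨t0, t1⟩ := h.sy_re
  have hpi := Real.pi_pos
  rw [e1, e2] at hc
  have h2 : Real.cos (2 * Real.pi * (sy q z).re + ψ) ≤ 0 := by
    rw [Real.cos_add]
    by_contra hn
    push Not at hn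
    have := mul_pos c0 hn
    nlinarith
  by_contra hn
  push Not at hn
  have h3 : 0 < 2 * Real.pi * (sy q z).re := by positivity
  have := Real.cos_pos_of_mem_Ioo (x := 2 * Real.pi * (sy q z).re + ψ)
    ⟨by linarith, by linarith⟩
  linarith

/-- The angle from below, beyond `π / 2`. -/
theorem slot_lo' {q z : ℂ} (h : Slot q z) {ψ : ℝ} (h1 : ψ < Real.pi / 2)
    (hc : (sinh (q + I * z) * conj (sinh (q - I * z))).re * Real.cos ψ +
      (sinh (q + I * z) * conj (sinh (q - I * z))).im * Real.sin ψ ≤ 0) :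
    Real.pi / 2 + ψ ≤ 2 * Real.pi * (sy q z).re := by
  obtain ⟨c, c0, e1, e2⟩ := slot_arg h
  obtain ⟨t0, t1⟩ := h.sy_re
  have hpi := Real.pi_pos
  rw [e1, e2] at hc
  have h2 : Real.cos (2 * Real.pi * (sy q z).re - ψ) ≤ 0 := by
    rw [Real.cos_sub]
    by_contra hn
    push Not at hn
    have := mul_pos c0 hn
    nlinarith
  by_contra hn
  push Not at hn
  have h3 : 0 < 2 * Real.pi * (sy q z).re := by positivity
  have := Real.cos_pos_of_mem_Ioo (x := 2 * Real.pi * (sy q z).re - ψ)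
    ⟨by linarith, by linarith⟩
  linarith

/-- The angle from above. -/
theorem slot_hi {q z : ℂ} (h : Slot q z) {ψ : ℝ} (h0 : 0 ≤ ψ)
    (hc : 0 ≤ (sinh (q + I * z) * conj (sinh (q - I * z))).re * Real.cos ψ +
      (sinh (q + I * z) * conj (sinh (q - I * z))).im * Real.sin ψ) :
    2 * Real.pi * (sy q z).re ≤ Real.pi / 2 + ψ := by
  obtain ⟨c, c0, e1, e2⟩ := slot_arg h
  obtain ⟨t0, t1⟩ := h.sy_re
  have hpi := Real.pi_pos
  rw [e1, e2] at hc
  have h2 : 0 ≤ Real.cos (2 * Real.pi * (sy q z).re - ψ) := by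
    rw [Real.cos_sub]
    by_contra hn
    push Not at hn
    have := mul_neg_of_pos_of_neg c0 hn
    nlinarith
  by_contra hn
  push Not at hn
  have h3 : 2 * Real.pi * (sy q z).re ≤ Real.pi := by nlinarith
  have := Real.cos_neg_of_pi_div_two_lt_of_lt (x := 2 * Real.pi * (sy q z).re - ψ)
    (by linarith) (by linarith)
  linarith

end Pool.Agent.S5.E.VX
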