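import Pool.Agent.S5.E.VX.VUc
import Pool.Agent.S5.E.T.TabF
import Pool.Agent.S5.E.T.Chk2P

/-!
# The region of the slots of open nodes: extra instances, the tables
-/

set_option autoImplicit false

namespace Pool.Agent.S5.E.VX

open Pool.Agent.S5.E.B2

/-- Extra instances at the special vertices. -/
def exU : List D2P :=
  [⟨⟨860, 886, 86, 121, 0⟩, ⟨913, 1000, 0, 50, 0⟩, ⟨901, 970, 559, 630, 0⟩, ⟨0, 966, 0, 612, 0⟩, ⟨4292, 6029, 0, 2499⟩⟩,
    ⟨⟨860, 886, 86, 121, 0⟩, ⟨901, 1000, 0, 61, 0⟩, ⟨901, 970, 559, 636, 0⟩, ⟨0, 967, 0, 617, 0⟩, ⟨4292, 6029, 0, 3048⟩⟩]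

set_option maxRecDepth 100000 in
theorem exU_ok : chkLP 60 true exU = true := by decide +kernel

/-- Extra instances. -/
def EXU : List Inst := exU.map (D2P.I true)

theorem EXU_ok : ∀ y ∈ EXU, y.Ok := chkLP_sound exU_ok

/-- The special vertices. -/
def spU : List Vt := [⟨2, false, some true⟩, ⟨2, true, some false⟩]

/-- The regions of the special vertices by both neighbours. -/
def VU9 (I : Vt) : Vt → Vt → Rg := bif I.s then (fun J M => V9S M J) else V9S

end Pool.Agent.S5.E.VX
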