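import Pool.Agent.S5.E.VX.VUc

/-!
# The region of the slots of open nodes: instances
-/

set_option autoImplicit false

namespace Pool.Agent.S5.E.VX

open Pool.Agent.S5.E.B2

def lu5SS_2 : List (ℕ × Inst) :=
  [(9, ⟨5, true, some true, ⟨795, 887, 364, 530, 0⟩, ⟨651, 939, 117, 681, 0⟩, ⟨823, 880, 128, 193, 0⟩, ⟨0, 0, 0, 0, 0⟩⟩)]

set_option maxRecDepth 100000 in
theorem lu5SS_2_ok : lu5SS_2.all chkU = true := by decide +kernel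

def lu5AS_2 : List (ℕ × Inst) :=
  [(1, ⟨5, false, some true, ⟨649, 664, 897, 927, 0⟩, ⟨779, 951, 33, 674, 0⟩, ⟨845, 881, 76, 108, 0⟩, ⟨0, 0, 0, 0, 0⟩⟩),
    (1, ⟨5, false, some true, ⟨649, 664, 897, 927, 0⟩, ⟨661, 685, 371, 409, 0⟩, ⟨846, 878, 77, 108, 0⟩, ⟨0, 0, 0, 0, 0⟩⟩),
    (1, ⟨5, false, some true, ⟨649, 664, 897, 927, 0⟩, ⟨748, 767, 153, 178, 0⟩, ⟨856, 881, 76, 108, 0⟩, ⟨0, 0, 0, 0, 0⟩⟩),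
    (1, ⟨5, false, some true, ⟨649, 664, 897, 927, 0⟩, ⟨893, 1000, 0, 62, 0⟩, ⟨863, 881, 77, 108, 0⟩, ⟨0, 0, 0, 0, 0⟩⟩),
    (8, ⟨5, false, some true, ⟨789, 883, 179, 464, 0⟩, ⟨661, 1000, 0, 674, 0⟩, ⟨847, 896, 87, 144, 0⟩, ⟨0, 0, 0, 0, 0⟩⟩)]

set_option maxRecDepth 100000 in
theorem lu5AS_2_ok : lu5AS_2.all chkU = true := by decide +kernel

def lu5AS_3 : List (ℕ × Inst) :=
  [(2, ⟨5, false, some true, ⟨677, 702, 313, 350, 0⟩, ⟨779, 1000, 0, 674, 0⟩, ⟨842, 882, 95, 134, 0⟩, ⟨0, 0, 0, 0, 0⟩⟩),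
    (2, ⟨5, false, some true, ⟨677, 702, 313, 350, 0⟩, ⟨661, 685, 371, 409, 0⟩, ⟨846, 878, 95, 134, 0⟩, ⟨0, 0, 0, 0, 0⟩⟩),
    (2, ⟨5, false, some true, ⟨677, 702, 313, 350, 0⟩, ⟨748, 767, 153, 178, 0⟩, ⟨856, 882, 95, 133, 0⟩, ⟨0, 0, 0, 0, 0⟩⟩)]

set_option maxRecDepth 100000 in
theorem lu5AS_3_ok : lu5AS_3.all chkU = true := by decide +kernel

end Pool.Agent.S5.E.VX
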