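import Pool.Agent.S5.E.VX.VUc

/-!
# The region of the slots of open nodes: instances
-/

set_option autoImplicit false

namespace Pool.Agent.S5.E.VX

open Pool.Agent.S5.E.B2

def lu8S0_0 : List (ℕ × Inst) :=
  [(0, ⟨8, true, none, ⟨795, 1006, 393, 624, 0⟩, ⟨0, 0, 0, 0, 0⟩, ⟨905, 1000, 0, 29, 0⟩, ⟨0, 0, 0, 0, 0⟩⟩),
    (7, ⟨8, true, none, ⟨794, 900, 240, 364, 0⟩, ⟨0, 0, 0, 0, 0⟩, ⟨905, 1000, 0, 29, 0⟩, ⟨0, 0, 0, 0, 0⟩⟩),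
    (7, ⟨8, true, none, ⟨814, 900, 341, 478, 0⟩, ⟨0, 0, 0, 0, 0⟩, ⟨905, 1000, 0, 29, 0⟩, ⟨0, 0, 0, 0, 0⟩⟩),
    (3, ⟨8, true, none, ⟨684, 711, 363, 390, 0⟩, ⟨0, 0, 0, 0, 0⟩, ⟨905, 1000, 0, 29, 0⟩, ⟨0, 0, 0, 0, 0⟩⟩),
    (9, ⟨8, true, none, ⟨832, 881, 139, 213, 0⟩, ⟨0, 0, 0, 0, 0⟩, ⟨905, 1000, 0, 29, 0⟩, ⟨0, 0, 0, 0, 0⟩⟩),
    (9, ⟨8, true, none, ⟨819, 881, 198, 278, 0⟩, ⟨0, 0, 0, 0, 0⟩, ⟨905, 1000, 0, 29, 0⟩, ⟨0, 0, 0, 0, 0⟩⟩),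
    (5, ⟨8, true, none, ⟨759, 779, 154, 178, 0⟩, ⟨0, 0, 0, 0, 0⟩, ⟨905, 1000, 0, 29, 0⟩, ⟨0, 0, 0, 0, 0⟩⟩),
    (0, ⟨8, true, none, ⟨867, 897, 78, 131, 0⟩, ⟨0, 0, 0, 0, 0⟩, ⟨905, 1000, 0, 29, 0⟩, ⟨0, 0, 0, 0, 0⟩⟩),
    (0, ⟨8, true, none, ⟨849, 893, 116, 164, 0⟩, ⟨0, 0, 0, 0, 0⟩, ⟨905, 1000, 0, 29, 0⟩, ⟨0, 0, 0, 0, 0⟩⟩),
    (0, ⟨8, true, none, ⟨826, 840, 76, 92, 0⟩, ⟨0, 0, 0, 0, 0⟩, ⟨905, 1000, 0, 29, 0⟩, ⟨0, 0, 0, 0, 0⟩⟩),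
    (0, ⟨8, true, none, ⟨882, 919, 42, 88, 0⟩, ⟨0, 0, 0, 0, 0⟩, ⟨905, 1000, 0, 29, 0⟩, ⟨0, 0, 0, 0, 0⟩⟩),
    (0, ⟨8, true, none, ⟨867, 912, 60, 110, 0⟩, ⟨0, 0, 0, 0, 0⟩, ⟨905, 1000, 0, 29, 0⟩, ⟨0, 0, 0, 0, 0⟩⟩),
    (0, ⟨8, true, none, ⟨863, 884, 34, 58, 0⟩, ⟨0, 0, 0, 0, 0⟩, ⟨905, 1000, 0, 29, 0⟩, ⟨0, 0, 0, 0, 0⟩⟩),
    (0, ⟨8, true, none, ⟨903, 936, 23, 62, 0⟩, ⟨0, 0, 0, 0, 0⟩, ⟨905, 1000, 0, 29, 0⟩, ⟨0, 0, 0, 0, 0⟩⟩),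
    (0, ⟨8, true, none, ⟨889, 929, 33, 77, 0⟩, ⟨0, 0, 0, 0, 0⟩, ⟨905, 1000, 0, 29, 0⟩, ⟨0, 0, 0, 0, 0⟩⟩),
    (0, ⟨8, true, none, ⟨893, 913, 15, 39, 0⟩, ⟨0, 0, 0, 0, 0⟩, ⟨905, 1000, 0, 29, 0⟩, ⟨0, 0, 0, 0, 0⟩⟩),
    (0, ⟨8, true, none, ⟨913, 1000, 0, 50, 0⟩, ⟨0, 0, 0, 0, 0⟩, ⟨905, 1000, 0, 29, 0⟩, ⟨0, 0, 0, 0, 0⟩⟩),
    (0, ⟨8, true, none, ⟨901, 1000, 0, 61, 0⟩, ⟨0, 0, 0, 0, 0⟩, ⟨905, 1000, 0, 29, 0⟩, ⟨0, 0, 0, 0, 0⟩⟩),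
    (0, ⟨8, true, none, ⟨905, 1000, 0, 29, 0⟩, ⟨0, 0, 0, 0, 0⟩, ⟨905, 1000, 0, 29, 0⟩, ⟨0, 0, 0, 0, 0⟩⟩)]

set_option maxRecDepth 100000 in
theorem lu8S0_0_ok : lu8S0_0.all chkU = true := by decide +kernel

end Pool.Agent.S5.E.VX
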