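import Pool.Agent.S5.E.VX.VUc

/-!
# The region of the slots of open nodes: instances
-/

set_option autoImplicit false

namespace Pool.Agent.S5.E.VX

open Pool.Agent.S5.E.B2

def lu5AS_0 : List (ℕ × Inst) :=
  [(0, ⟨5, false, some true, ⟨771, 967, 383, 617, 0⟩, ⟨661, 951, 34, 674, 0⟩, ⟨849, 894, 86, 136, 0⟩, ⟨0, 0, 0, 0, 0⟩⟩)]

set_option maxRecDepth 100000 in
theorem lu5AS_0_ok : lu5AS_0.all chkU = true := by decide +kernel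

def lu6SS_0 : List (ℕ × Inst) :=
  [(0, ⟨6, true, some true, ⟨781, 954, 407, 662, 0⟩, ⟨668, 1000, 0, 662, 0⟩, ⟨850, 908, 61, 127, 0⟩, ⟨0, 0, 0, 0, 0⟩⟩),
    (7, ⟨6, true, some true, ⟨785, 890, 243, 506, 0⟩, ⟨668, 1000, 0, 662, 0⟩, ⟨850, 908, 61, 127, 0⟩, ⟨0, 0, 0, 0, 0⟩⟩),
    (3, ⟨6, true, some true, ⟨668, 692, 366, 402, 0⟩, ⟨668, 1000, 0, 662, 0⟩, ⟨850, 899, 57, 111, 0⟩, ⟨0, 0, 0, 0, 0⟩⟩),
    (9, ⟨6, true, some true, ⟨812, 873, 138, 285, 0⟩, ⟨668, 1000, 0, 662, 0⟩, ⟨850, 908, 58, 127, 0⟩, ⟨0, 0, 0, 0, 0⟩⟩)]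

set_option maxRecDepth 100000 in
theorem lu6SS_0_ok : lu6SS_0.all chkU = true := by decide +kernel

end Pool.Agent.S5.E.VX
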