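import Pool.Agent.S5.E.VX.VUc

/-!
# The region of the slots of open nodes: instances
-/

set_option autoImplicit false

namespace Pool.Agent.S5.E.VX

open Pool.Agent.S5.E.B2

def lu6AS_0 : List (ℕ × Inst) :=
  [(0, ⟨6, false, some true, ⟨776, 982, 390, 648, 0⟩, ⟨668, 1000, 0, 651, 0⟩, ⟨875, 919, 43, 92, 0⟩, ⟨0, 0, 0, 0, 0⟩⟩),
    (1, ⟨6, false, some true, ⟨662, 675, 933, 964, 0⟩, ⟨668, 1000, 0, 651, 0⟩, ⟨879, 909, 37, 69, 0⟩, ⟨0, 0, 0, 0, 0⟩⟩),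
    (6, ⟨6, false, some true, ⟨793, 889, 234, 470, 0⟩, ⟨668, 1000, 0, 651, 0⟩, ⟨869, 919, 43, 95, 0⟩, ⟨0, 0, 0, 0, 0⟩⟩),
    (2, ⟨6, false, some true, ⟨682, 704, 334, 365, 0⟩, ⟨668, 1000, 0, 651, 0⟩, ⟨869, 915, 47, 95, 0⟩, ⟨0, 0, 0, 0, 0⟩⟩),
    (8, ⟨6, false, some true, ⟨816, 877, 125, 263, 0⟩, ⟨668, 1000, 0, 651, 0⟩, ⟨869, 916, 47, 101, 0⟩, ⟨0, 0, 0, 0, 0⟩⟩),
    (4, ⟨6, false, some true, ⟨763, 779, 142, 161, 0⟩, ⟨755, 1000, 0, 651, 0⟩, ⟨871, 916, 54, 101, 0⟩, ⟨0, 0, 0, 0, 0⟩⟩)]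

set_option maxRecDepth 100000 in
theorem lu6AS_0_ok : lu6AS_0.all chkU = true := by decide +kernel

def lu5AS_1 : List (ℕ × Inst) :=
  [(0, ⟨5, false, some true, ⟨771, 970, 383, 659, 0⟩, ⟨748, 1000, 0, 290, 0⟩, ⟨860, 897, 86, 133, 0⟩, ⟨0, 0, 0, 0, 0⟩⟩),
    (0, ⟨5, false, some true, ⟨901, 955, 575, 659, 0⟩, ⟨779, 951, 246, 674, 0⟩, ⟨860, 888, 86, 121, 0⟩, ⟨0, 0, 0, 0, 0⟩⟩),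
    (0, ⟨5, false, some true, ⟨921, 970, 559, 618, 0⟩, ⟨781, 888, 246, 516, 0⟩, ⟨860, 888, 86, 121, 0⟩, ⟨0, 0, 0, 0, 0⟩⟩),
    (0, ⟨5, false, some true, ⟨901, 970, 559, 659, 0⟩, ⟨661, 685, 371, 409, 0⟩, ⟨860, 878, 86, 121, 0⟩, ⟨0, 0, 0, 0, 0⟩⟩)]

set_option maxRecDepth 100000 in
theorem lu5AS_1_ok : lu5AS_1.all chkU = true := by decide +kernel

def lu6S0_0 : List (ℕ × Inst) :=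
  [(0, ⟨6, true, none, ⟨781, 951, 403, 641, 0⟩, ⟨0, 0, 0, 0, 0⟩, ⟨846, 878, 32, 62, 0⟩, ⟨0, 0, 0, 0, 0⟩⟩),
    (7, ⟨6, true, none, ⟨787, 886, 240, 491, 0⟩, ⟨0, 0, 0, 0, 0⟩, ⟨846, 878, 32, 62, 0⟩, ⟨0, 0, 0, 0, 0⟩⟩),
    (3, ⟨6, true, none, ⟨673, 685, 363, 379, 0⟩, ⟨0, 0, 0, 0, 0⟩, ⟨850, 870, 25, 47, 0⟩, ⟨0, 0, 0, 0, 0⟩⟩),
    (9, ⟨6, true, none, ⟨813, 876, 138, 279, 0⟩, ⟨0, 0, 0, 0, 0⟩, ⟨846, 880, 30, 62, 0⟩, ⟨0, 0, 0, 0, 0⟩⟩),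
    (5, ⟨6, true, none, ⟨756, 770, 151, 169, 0⟩, ⟨0, 0, 0, 0, 0⟩, ⟨858, 880, 30, 56, 0⟩, ⟨0, 0, 0, 0, 0⟩⟩),
    (0, ⟨6, true, none, ⟨823, 1000, 0, 164, 0⟩, ⟨0, 0, 0, 0, 0⟩, ⟨858, 884, 30, 58, 0⟩, ⟨0, 0, 0, 0, 0⟩⟩)]

set_option maxRecDepth 100000 in
theorem lu6S0_0_ok : lu6S0_0.all chkU = true := by decide +kernel

end Pool.Agent.S5.E.VX
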