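import Pool.Agent.S5.E.VX.VUc

/-!
# The region of the slots of open nodes: instances
-/

set_option autoImplicit false

namespace Pool.Agent.S5.E.VX

open Pool.Agent.S5.E.B2

def lu5AA_0 : List (ℕ × Inst) :=
  [(0, ⟨5, false, some false, ⟨775, 977, 387, 642, 0⟩, ⟨659, 1000, 0, 956, 0⟩, ⟨870, 905, 55, 110, 0⟩, ⟨0, 0, 0, 0, 0⟩⟩),
    (1, ⟨5, false, some false, ⟨659, 669, 915, 956, 0⟩, ⟨763, 1000, 0, 642, 0⟩, ⟨869, 895, 55, 88, 0⟩, ⟨0, 0, 0, 0, 0⟩⟩),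
    (1, ⟨5, false, some false, ⟨659, 669, 915, 956, 0⟩, ⟨659, 669, 915, 956, 0⟩, ⟨869, 895, 46, 88, 0⟩, ⟨0, 0, 0, 0, 0⟩⟩),
    (1, ⟨5, false, some false, ⟨659, 669, 915, 956, 0⟩, ⟨679, 702, 324, 358, 0⟩, ⟨869, 893, 59, 88, 0⟩, ⟨0, 0, 0, 0, 0⟩⟩),
    (8, ⟨5, false, some false, ⟨789, 885, 125, 467, 0⟩, ⟨659, 1000, 0, 956, 0⟩, ⟨865, 904, 55, 122, 0⟩, ⟨0, 0, 0, 0, 0⟩⟩)]

set_option maxRecDepth 100000 in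
theorem lu5AA_0_ok : lu5AA_0.all chkU = true := by decide +kernel

def lu6SA_0 : List (ℕ × Inst) :=
  [(0, ⟨6, true, some false, ⟨786, 965, 403, 651, 0⟩, ⟨662, 1000, 0, 964, 0⟩, ⟨869, 916, 41, 101, 0⟩, ⟨0, 0, 0, 0, 0⟩⟩),
    (7, ⟨6, true, some false, ⟨785, 889, 243, 376, 0⟩, ⟨662, 1000, 0, 964, 0⟩, ⟨869, 916, 41, 101, 0⟩, ⟨0, 0, 0, 0, 0⟩⟩),
    (7, ⟨6, true, some false, ⟨804, 890, 351, 506, 0⟩, ⟨682, 1000, 0, 648, 0⟩, ⟨869, 916, 43, 101, 0⟩, ⟨0, 0, 0, 0, 0⟩⟩),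
    (7, ⟨6, true, some false, ⟨804, 890, 351, 506, 0⟩, ⟨662, 675, 933, 964, 0⟩, ⟨879, 909, 41, 69, 0⟩, ⟨0, 0, 0, 0, 0⟩⟩),
    (3, ⟨6, true, some false, ⟨668, 692, 366, 402, 0⟩, ⟨662, 1000, 0, 964, 0⟩, ⟨869, 909, 37, 89, 0⟩, ⟨0, 0, 0, 0, 0⟩⟩),
    (9, ⟨6, true, some false, ⟨812, 876, 138, 285, 0⟩, ⟨662, 1000, 0, 964, 0⟩, ⟨869, 917, 39, 101, 0⟩, ⟨0, 0, 0, 0, 0⟩⟩)]

set_option maxRecDepth 100000 in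
theorem lu6SA_0_ok : lu6SA_0.all chkU = true := by decide +kernel

def lu6AA_1 : List (ℕ × Inst) :=
  [(0, ⟨6, false, some false, ⟨828, 1000, 0, 155, 0⟩, ⟨667, 1000, 0, 976, 0⟩, ⟨885, 923, 37, 83, 0⟩, ⟨0, 0, 0, 0, 0⟩⟩)]

set_option maxRecDepth 100000 in
theorem lu6AA_1_ok : lu6AA_1.all chkU = true := by decide +kernel

end Pool.Agent.S5.E.VX
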