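import Pool.Agent.S5.E.VX.VUc

/-!
# The region of the slots of open nodes: instances
-/

set_option autoImplicit false

namespace Pool.Agent.S5.E.VX

open Pool.Agent.S5.E.B2

def lu6AA_0 : List (ℕ × Inst) :=
  [(0, ⟨6, false, some false, ⟨778, 987, 392, 634, 0⟩, ⟨667, 1000, 0, 976, 0⟩, ⟨884, 928, 25, 79, 0⟩, ⟨0, 0, 0, 0, 0⟩⟩),
    (1, ⟨6, false, some false, ⟨667, 682, 936, 976, 0⟩, ⟨667, 1000, 0, 976, 0⟩, ⟨890, 928, 25, 66, 0⟩, ⟨0, 0, 0, 0, 0⟩⟩),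
    (6, ⟨6, false, some false, ⟨793, 889, 234, 470, 0⟩, ⟨667, 1000, 0, 976, 0⟩, ⟨884, 926, 28, 79, 0⟩, ⟨0, 0, 0, 0, 0⟩⟩),
    (2, ⟨6, false, some false, ⟨682, 704, 334, 365, 0⟩, ⟨667, 1000, 0, 976, 0⟩, ⟨884, 926, 28, 79, 0⟩, ⟨0, 0, 0, 0, 0⟩⟩),
    (8, ⟨6, false, some false, ⟨821, 878, 130, 268, 0⟩, ⟨667, 1000, 0, 976, 0⟩, ⟨884, 926, 28, 83, 0⟩, ⟨0, 0, 0, 0, 0⟩⟩),
    (4, ⟨6, false, some false, ⟨763, 779, 142, 161, 0⟩, ⟨667, 1000, 0, 976, 0⟩, ⟨885, 923, 37, 83, 0⟩, ⟨0, 0, 0, 0, 0⟩⟩)]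

set_option maxRecDepth 100000 in
theorem lu6AA_0_ok : lu6AA_0.all chkU = true := by decide +kernel

def lu5SS_3 : List (ℕ × Inst) :=
  [(9, ⟨5, true, some true, ⟨795, 887, 364, 530, 0⟩, ⟨814, 1000, 0, 140, 0⟩, ⟨840, 880, 128, 169, 0⟩, ⟨0, 0, 0, 0, 0⟩⟩),
    (3, ⟨5, true, some true, ⟨651, 684, 376, 426, 0⟩, ⟨773, 939, 30, 681, 0⟩, ⟨818, 869, 121, 175, 0⟩, ⟨0, 0, 0, 0, 0⟩⟩),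
    (3, ⟨5, true, some true, ⟨651, 684, 376, 426, 0⟩, ⟨651, 684, 376, 426, 0⟩, ⟨818, 869, 121, 175, 0⟩, ⟨0, 0, 0, 0, 0⟩⟩),
    (3, ⟨5, true, some true, ⟨651, 684, 376, 426, 0⟩, ⟨737, 762, 152, 185, 0⟩, ⟨833, 869, 121, 165, 0⟩, ⟨0, 0, 0, 0, 0⟩⟩),
    (3, ⟨5, true, some true, ⟨651, 684, 376, 426, 0⟩, ⟨893, 1000, 0, 62, 0⟩, ⟨845, 869, 121, 164, 0⟩, ⟨0, 0, 0, 0, 0⟩⟩)]

set_option maxRecDepth 100000 in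
theorem lu5SS_3_ok : lu5SS_3.all chkU = true := by decide +kernel

def lu6AS_1 : List (ℕ × Inst) :=
  [(4, ⟨6, false, some true, ⟨763, 779, 142, 161, 0⟩, ⟨668, 692, 366, 402, 0⟩, ⟨871, 909, 54, 89, 0⟩, ⟨0, 0, 0, 0, 0⟩⟩),
    (0, ⟨6, false, some true, ⟨828, 1000, 0, 155, 0⟩, ⟨668, 1000, 0, 651, 0⟩, ⟨871, 916, 54, 101, 0⟩, ⟨0, 0, 0, 0, 0⟩⟩)]

set_option maxRecDepth 100000 in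
theorem lu6AS_1_ok : lu6AS_1.all chkU = true := by decide +kernel

def lu6A0_0 : List (ℕ × Inst) :=
  [(0, ⟨6, false, none, ⟨775, 1000, 0, 635, 0⟩, ⟨0, 0, 0, 0, 0⟩, ⟨869, 899, 18, 54, 0⟩, ⟨0, 0, 0, 0, 0⟩⟩),
    (1, ⟨6, false, none, ⟨664, 669, 974, 987, 0⟩, ⟨0, 0, 0, 0, 0⟩, ⟨882, 894, 14, 26, 0⟩, ⟨0, 0, 0, 0, 0⟩⟩),
    (6, ⟨6, false, none, ⟨793, 889, 239, 475, 0⟩, ⟨0, 0, 0, 0, 0⟩, ⟨869, 899, 18, 50, 0⟩, ⟨0, 0, 0, 0, 0⟩⟩),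
    (2, ⟨6, false, none, ⟨681, 696, 346, 365, 0⟩, ⟨0, 0, 0, 0, 0⟩, ⟨870, 899, 18, 49, 0⟩, ⟨0, 0, 0, 0, 0⟩⟩),
    (8, ⟨6, false, none, ⟨821, 878, 130, 268, 0⟩, ⟨0, 0, 0, 0, 0⟩, ⟨869, 892, 26, 50, 0⟩, ⟨0, 0, 0, 0, 0⟩⟩),
    (4, ⟨6, false, none, ⟨762, 778, 146, 164, 0⟩, ⟨0, 0, 0, 0, 0⟩, ⟨869, 892, 26, 50, 0⟩, ⟨0, 0, 0, 0, 0⟩⟩)]

set_option maxRecDepth 100000 in
theorem lu6A0_0_ok : lu6A0_0.all chkU = true := by decide +kernel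

end Pool.Agent.S5.E.VX
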