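import Pool.Agent.S5.E.VX.VUc

/-!
# The region of the slots of open nodes: instances
-/

set_option autoImplicit false

namespace Pool.Agent.S5.E.VX

open Pool.Agent.S5.E.B2

def lu5AS_4 : List (ℕ × Inst) :=
  [(8, ⟨5, false, some true, ⟨832, 876, 120, 198, 0⟩, ⟨748, 951, 75, 674, 0⟩, ⟨848, 891, 104, 150, 0⟩, ⟨0, 0, 0, 0, 0⟩⟩),
    (8, ⟨5, false, some true, ⟨832, 876, 120, 198, 0⟩, ⟨661, 685, 371, 409, 0⟩, ⟨848, 878, 104, 137, 0⟩, ⟨0, 0, 0, 0, 0⟩⟩),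
    (8, ⟨5, false, some true, ⟨832, 876, 120, 198, 0⟩, ⟨863, 1000, 0, 133, 0⟩, ⟨863, 891, 104, 133, 0⟩, ⟨0, 0, 0, 0, 0⟩⟩),
    (0, ⟨5, false, some true, ⟨762, 1000, 0, 153, 0⟩, ⟨661, 1000, 0, 674, 0⟩, ⟨844, 894, 104, 159, 0⟩, ⟨0, 0, 0, 0, 0⟩⟩)]

set_option maxRecDepth 100000 in
theorem lu5AS_4_ok : lu5AS_4.all chkU = true := by decide +kernel

def lu5SA_1 : List (ℕ × Inst) :=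
  [(9, ⟨5, true, some false, ⟨799, 888, 356, 516, 0⟩, ⟨677, 1000, 0, 659, 0⟩, ⟨846, 888, 86, 151, 0⟩, ⟨0, 0, 0, 0, 0⟩⟩),
    (9, ⟨5, true, some false, ⟨799, 888, 356, 516, 0⟩, ⟨649, 664, 897, 927, 0⟩, ⟨846, 881, 80, 108, 0⟩, ⟨0, 0, 0, 0, 0⟩⟩),
    (3, ⟨5, true, some false, ⟨661, 685, 371, 409, 0⟩, ⟨677, 1000, 0, 659, 0⟩, ⟨846, 878, 86, 137, 0⟩, ⟨0, 0, 0, 0, 0⟩⟩),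
    (3, ⟨5, true, some false, ⟨661, 685, 371, 409, 0⟩, ⟨649, 664, 897, 927, 0⟩, ⟨846, 878, 77, 108, 0⟩, ⟨0, 0, 0, 0, 0⟩⟩),
    (0, ⟨5, true, some false, ⟨748, 929, 33, 178, 0⟩, ⟨649, 1000, 0, 927, 0⟩, ⟨855, 894, 76, 140, 0⟩, ⟨0, 0, 0, 0, 0⟩⟩),
    (0, ⟨5, true, some false, ⟨893, 1000, 0, 62, 0⟩, ⟨649, 1000, 0, 927, 0⟩, ⟨863, 897, 77, 133, 0⟩, ⟨0, 0, 0, 0, 0⟩⟩)]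

set_option maxRecDepth 100000 in
theorem lu5SA_1_ok : lu5SA_1.all chkU = true := by decide +kernel

def lu8AA_0 : List (ℕ × Inst) :=
  [(0, ⟨8, false, some false, ⟨784, 1001, 394, 615, 0⟩, ⟨679, 1010, 0, 1000, 0⟩, ⟨924, 1000, 0, 42, 0⟩, ⟨0, 0, 0, 0, 0⟩⟩),
    (0, ⟨8, false, some false, ⟨949, 1010, 562, 634, 0⟩, ⟨679, 1010, 0, 1000, 0⟩, ⟨924, 1000, 0, 42, 0⟩, ⟨0, 0, 0, 0, 0⟩⟩),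
    (1, ⟨8, false, some false, ⟨679, 708, 958, 1000, 0⟩, ⟨679, 1010, 0, 1000, 0⟩, ⟨924, 1000, 0, 42, 0⟩, ⟨0, 0, 0, 0, 0⟩⟩),
    (6, ⟨8, false, some false, ⟨798, 898, 239, 353, 0⟩, ⟨679, 1010, 0, 1000, 0⟩, ⟨924, 1000, 0, 42, 0⟩, ⟨0, 0, 0, 0, 0⟩⟩),
    (6, ⟨8, false, some false, ⟨816, 901, 332, 474, 0⟩, ⟨679, 1010, 0, 1000, 0⟩, ⟨924, 1000, 0, 42, 0⟩, ⟨0, 0, 0, 0, 0⟩⟩),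
    (2, ⟨8, false, some false, ⟨688, 714, 351, 381, 0⟩, ⟨679, 1010, 0, 1000, 0⟩, ⟨924, 1000, 0, 42, 0⟩, ⟨0, 0, 0, 0, 0⟩⟩),
    (8, ⟨8, false, some false, ⟨836, 882, 135, 207, 0⟩, ⟨679, 1010, 0, 1000, 0⟩, ⟨924, 1000, 0, 42, 0⟩, ⟨0, 0, 0, 0, 0⟩⟩),
    (8, ⟨8, false, some false, ⟨825, 881, 194, 270, 0⟩, ⟨679, 1010, 0, 1000, 0⟩, ⟨924, 1000, 0, 42, 0⟩, ⟨0, 0, 0, 0, 0⟩⟩),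
    (4, ⟨8, false, some false, ⟨764, 782, 151, 172, 0⟩, ⟨679, 1010, 0, 1000, 0⟩, ⟨924, 1000, 0, 42, 0⟩, ⟨0, 0, 0, 0, 0⟩⟩),
    (0, ⟨8, false, some false, ⟨868, 898, 75, 127, 0⟩, ⟨679, 1010, 0, 1000, 0⟩, ⟨924, 1000, 0, 42, 0⟩, ⟨0, 0, 0, 0, 0⟩⟩),
    (0, ⟨8, false, some false, ⟨849, 894, 112, 159, 0⟩, ⟨679, 1010, 0, 1000, 0⟩, ⟨924, 1000, 0, 42, 0⟩, ⟨0, 0, 0, 0, 0⟩⟩),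
    (0, ⟨8, false, some false, ⟨829, 842, 74, 89, 0⟩, ⟨679, 1010, 0, 1000, 0⟩, ⟨924, 1000, 0, 42, 0⟩, ⟨0, 0, 0, 0, 0⟩⟩),
    (0, ⟨8, false, some false, ⟨885, 923, 37, 83, 0⟩, ⟨679, 1010, 0, 1000, 0⟩, ⟨924, 1000, 0, 42, 0⟩, ⟨0, 0, 0, 0, 0⟩⟩),
    (0, ⟨8, false, some false, ⟨871, 916, 54, 102, 0⟩, ⟨679, 1010, 0, 1000, 0⟩, ⟨924, 1000, 0, 42, 0⟩, ⟨0, 0, 0, 0, 0⟩⟩),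
    (0, ⟨8, false, some false, ⟨869, 889, 33, 54, 0⟩, ⟨679, 1010, 0, 1000, 0⟩, ⟨924, 1000, 0, 42, 0⟩, ⟨0, 0, 0, 0, 0⟩⟩),
    (0, ⟨8, false, some false, ⟨909, 938, 23, 57, 0⟩, ⟨679, 1010, 0, 1000, 0⟩, ⟨924, 1000, 0, 42, 0⟩, ⟨0, 0, 0, 0, 0⟩⟩),
    (0, ⟨8, false, some false, ⟨900, 931, 32, 67, 0⟩, ⟨679, 1010, 0, 1000, 0⟩, ⟨924, 1000, 0, 42, 0⟩, ⟨0, 0, 0, 0, 0⟩⟩),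
    (0, ⟨8, false, some false, ⟨899, 920, 14, 36, 0⟩, ⟨679, 1010, 0, 1000, 0⟩, ⟨924, 1000, 0, 42, 0⟩, ⟨0, 0, 0, 0, 0⟩⟩),
    (0, ⟨8, false, some false, ⟨924, 1000, 0, 42, 0⟩, ⟨679, 1010, 0, 1000, 0⟩, ⟨924, 1000, 0, 42, 0⟩, ⟨0, 0, 0, 0, 0⟩⟩),
    (0, ⟨8, false, some false, ⟨913, 1000, 0, 50, 0⟩, ⟨679, 1010, 0, 1000, 0⟩, ⟨924, 1000, 0, 42, 0⟩, ⟨0, 0, 0, 0, 0⟩⟩),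
    (0, ⟨8, false, some false, ⟨920, 1000, 0, 27, 0⟩, ⟨679, 1010, 0, 1000, 0⟩, ⟨924, 1000, 0, 42, 0⟩, ⟨0, 0, 0, 0, 0⟩⟩)]

set_option maxRecDepth 100000 in
theorem lu8AA_0_ok : lu8AA_0.all chkU = true := by decide +kernel

def lu8AS_0 : List (ℕ × Inst) :=
  [(0, ⟨8, false, some true, ⟨784, 1001, 394, 615, 0⟩, ⟨681, 1009, 0, 630, 0⟩, ⟨913, 1000, 0, 50, 0⟩, ⟨0, 0, 0, 0, 0⟩⟩),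
    (0, ⟨8, false, some true, ⟨945, 1010, 559, 636, 0⟩, ⟨681, 1009, 0, 630, 0⟩, ⟨913, 1000, 0, 50, 0⟩, ⟨0, 0, 0, 0, 0⟩⟩),
    (1, ⟨8, false, some true, ⟨675, 708, 951, 1000, 0⟩, ⟨681, 1009, 0, 630, 0⟩, ⟨913, 1000, 0, 50, 0⟩, ⟨0, 0, 0, 0, 0⟩⟩),
    (6, ⟨8, false, some true, ⟨798, 898, 239, 353, 0⟩, ⟨681, 1009, 0, 630, 0⟩, ⟨913, 1000, 0, 50, 0⟩, ⟨0, 0, 0, 0, 0⟩⟩),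
    (6, ⟨8, false, some true, ⟨816, 901, 332, 474, 0⟩, ⟨681, 1009, 0, 630, 0⟩, ⟨913, 1000, 0, 50, 0⟩, ⟨0, 0, 0, 0, 0⟩⟩),
    (2, ⟨8, false, some true, ⟨688, 714, 351, 381, 0⟩, ⟨681, 1009, 0, 630, 0⟩, ⟨913, 1000, 0, 50, 0⟩, ⟨0, 0, 0, 0, 0⟩⟩),
    (8, ⟨8, false, some true, ⟨836, 882, 135, 207, 0⟩, ⟨681, 1009, 0, 630, 0⟩, ⟨913, 1000, 0, 50, 0⟩, ⟨0, 0, 0, 0, 0⟩⟩),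
    (8, ⟨8, false, some true, ⟨825, 881, 194, 270, 0⟩, ⟨681, 1009, 0, 630, 0⟩, ⟨913, 1000, 0, 50, 0⟩, ⟨0, 0, 0, 0, 0⟩⟩),
    (4, ⟨8, false, some true, ⟨764, 782, 151, 172, 0⟩, ⟨681, 1009, 0, 630, 0⟩, ⟨913, 1000, 0, 50, 0⟩, ⟨0, 0, 0, 0, 0⟩⟩),
    (0, ⟨8, false, some true, ⟨868, 898, 75, 127, 0⟩, ⟨681, 1009, 0, 630, 0⟩, ⟨913, 1000, 0, 50, 0⟩, ⟨0, 0, 0, 0, 0⟩⟩),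
    (0, ⟨8, false, some true, ⟨849, 894, 112, 159, 0⟩, ⟨681, 1009, 0, 630, 0⟩, ⟨913, 1000, 0, 50, 0⟩, ⟨0, 0, 0, 0, 0⟩⟩),
    (0, ⟨8, false, some true, ⟨829, 842, 74, 89, 0⟩, ⟨681, 1009, 0, 630, 0⟩, ⟨913, 1000, 0, 50, 0⟩, ⟨0, 0, 0, 0, 0⟩⟩),
    (0, ⟨8, false, some true, ⟨885, 923, 37, 83, 0⟩, ⟨681, 1009, 0, 630, 0⟩, ⟨913, 1000, 0, 50, 0⟩, ⟨0, 0, 0, 0, 0⟩⟩),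
    (0, ⟨8, false, some true, ⟨871, 916, 54, 102, 0⟩, ⟨681, 1009, 0, 630, 0⟩, ⟨913, 1000, 0, 50, 0⟩, ⟨0, 0, 0, 0, 0⟩⟩),
    (0, ⟨8, false, some true, ⟨869, 889, 33, 54, 0⟩, ⟨681, 1009, 0, 630, 0⟩, ⟨913, 1000, 0, 50, 0⟩, ⟨0, 0, 0, 0, 0⟩⟩),
    (0, ⟨8, false, some true, ⟨909, 938, 23, 57, 0⟩, ⟨681, 1009, 0, 630, 0⟩, ⟨913, 1000, 0, 50, 0⟩, ⟨0, 0, 0, 0, 0⟩⟩),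
    (0, ⟨8, false, some true, ⟨900, 931, 32, 67, 0⟩, ⟨681, 1009, 0, 630, 0⟩, ⟨913, 1000, 0, 50, 0⟩, ⟨0, 0, 0, 0, 0⟩⟩),
    (0, ⟨8, false, some true, ⟨899, 920, 14, 36, 0⟩, ⟨681, 1009, 0, 630, 0⟩, ⟨913, 1000, 0, 50, 0⟩, ⟨0, 0, 0, 0, 0⟩⟩),
    (0, ⟨8, false, some true, ⟨924, 1000, 0, 42, 0⟩, ⟨681, 1009, 0, 630, 0⟩, ⟨913, 1000, 0, 50, 0⟩, ⟨0, 0, 0, 0, 0⟩⟩),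
    (0, ⟨8, false, some true, ⟨913, 1000, 0, 50, 0⟩, ⟨681, 1009, 0, 630, 0⟩, ⟨913, 1000, 0, 50, 0⟩, ⟨0, 0, 0, 0, 0⟩⟩),
    (0, ⟨8, false, some true, ⟨920, 1000, 0, 27, 0⟩, ⟨681, 1009, 0, 630, 0⟩, ⟨913, 1000, 0, 50, 0⟩, ⟨0, 0, 0, 0, 0⟩⟩)]

set_option maxRecDepth 100000 in
theorem lu8AS_0_ok : lu8AS_0.all chkU = true := by decide +kernel

def lu8A0_0 : List (ℕ × Inst) :=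
  [(0, ⟨8, false, none, ⟨785, 1001, 398, 614, 0⟩, ⟨0, 0, 0, 0, 0⟩, ⟨920, 1000, 0, 27, 0⟩, ⟨0, 0, 0, 0, 0⟩⟩),
    (0, ⟨8, false, none, ⟨949, 1010, 567, 634, 0⟩, ⟨0, 0, 0, 0, 0⟩, ⟨920, 1000, 0, 27, 0⟩, ⟨0, 0, 0, 0, 0⟩⟩),
    (1, ⟨8, false, none, ⟨678, 708, 973, 1000, 0⟩, ⟨0, 0, 0, 0, 0⟩, ⟨920, 1000, 0, 27, 0⟩, ⟨0, 0, 0, 0, 0⟩⟩),
    (6, ⟨8, false, none, ⟨798, 898, 239, 353, 0⟩, ⟨0, 0, 0, 0, 0⟩, ⟨920, 1000, 0, 27, 0⟩, ⟨0, 0, 0, 0, 0⟩⟩),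
    (6, ⟨8, false, none, ⟨816, 901, 332, 474, 0⟩, ⟨0, 0, 0, 0, 0⟩, ⟨920, 1000, 0, 27, 0⟩, ⟨0, 0, 0, 0, 0⟩⟩),
    (2, ⟨8, false, none, ⟨689, 712, 358, 381, 0⟩, ⟨0, 0, 0, 0, 0⟩, ⟨920, 1000, 0, 27, 0⟩, ⟨0, 0, 0, 0, 0⟩⟩),
    (8, ⟨8, false, none, ⟨836, 882, 135, 207, 0⟩, ⟨0, 0, 0, 0, 0⟩, ⟨920, 1000, 0, 27, 0⟩, ⟨0, 0, 0, 0, 0⟩⟩),
    (8, ⟨8, false, none, ⟨825, 881, 194, 270, 0⟩, ⟨0, 0, 0, 0, 0⟩, ⟨920, 1000, 0, 27, 0⟩, ⟨0, 0, 0, 0, 0⟩⟩),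
    (4, ⟨8, false, none, ⟨764, 782, 151, 172, 0⟩, ⟨0, 0, 0, 0, 0⟩, ⟨920, 1000, 0, 27, 0⟩, ⟨0, 0, 0, 0, 0⟩⟩),
    (0, ⟨8, false, none, ⟨868, 898, 75, 127, 0⟩, ⟨0, 0, 0, 0, 0⟩, ⟨920, 1000, 0, 27, 0⟩, ⟨0, 0, 0, 0, 0⟩⟩),
    (0, ⟨8, false, none, ⟨849, 894, 112, 159, 0⟩, ⟨0, 0, 0, 0, 0⟩, ⟨920, 1000, 0, 27, 0⟩, ⟨0, 0, 0, 0, 0⟩⟩),
    (0, ⟨8, false, none, ⟨829, 842, 74, 89, 0⟩, ⟨0, 0, 0, 0, 0⟩, ⟨920, 1000, 0, 27, 0⟩, ⟨0, 0, 0, 0, 0⟩⟩),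
    (0, ⟨8, false, none, ⟨885, 923, 37, 83, 0⟩, ⟨0, 0, 0, 0, 0⟩, ⟨920, 1000, 0, 27, 0⟩, ⟨0, 0, 0, 0, 0⟩⟩),
    (0, ⟨8, false, none, ⟨871, 916, 54, 102, 0⟩, ⟨0, 0, 0, 0, 0⟩, ⟨920, 1000, 0, 27, 0⟩, ⟨0, 0, 0, 0, 0⟩⟩),
    (0, ⟨8, false, none, ⟨869, 889, 33, 54, 0⟩, ⟨0, 0, 0, 0, 0⟩, ⟨920, 1000, 0, 27, 0⟩, ⟨0, 0, 0, 0, 0⟩⟩),
    (0, ⟨8, false, none, ⟨909, 938, 23, 57, 0⟩, ⟨0, 0, 0, 0, 0⟩, ⟨920, 1000, 0, 27, 0⟩, ⟨0, 0, 0, 0, 0⟩⟩),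
    (0, ⟨8, false, none, ⟨900, 931, 32, 67, 0⟩, ⟨0, 0, 0, 0, 0⟩, ⟨920, 1000, 0, 27, 0⟩, ⟨0, 0, 0, 0, 0⟩⟩),
    (0, ⟨8, false, none, ⟨899, 920, 14, 36, 0⟩, ⟨0, 0, 0, 0, 0⟩, ⟨920, 1000, 0, 27, 0⟩, ⟨0, 0, 0, 0, 0⟩⟩),
    (0, ⟨8, false, none, ⟨924, 1000, 0, 42, 0⟩, ⟨0, 0, 0, 0, 0⟩, ⟨920, 1000, 0, 27, 0⟩, ⟨0, 0, 0, 0, 0⟩⟩),
    (0, ⟨8, false, none, ⟨913, 1000, 0, 50, 0⟩, ⟨0, 0, 0, 0, 0⟩, ⟨920, 1000, 0, 27, 0⟩, ⟨0, 0, 0, 0, 0⟩⟩),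
    (0, ⟨8, false, none, ⟨920, 1000, 0, 27, 0⟩, ⟨0, 0, 0, 0, 0⟩, ⟨920, 1000, 0, 27, 0⟩, ⟨0, 0, 0, 0, 0⟩⟩)]

set_option maxRecDepth 100000 in
theorem lu8A0_0_ok : lu8A0_0.all chkU = true := by decide +kernel

def lu5A0_0 : List (ℕ × Inst) :=
  [(0, ⟨5, false, none, ⟨760, 966, 14, 651, 0⟩, ⟨0, 0, 0, 0, 0⟩, ⟨828, 861, 44, 85, 0⟩, ⟨0, 0, 0, 0, 0⟩⟩),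
    (1, ⟨5, false, none, ⟨648, 652, 962, 970, 0⟩, ⟨0, 0, 0, 0, 0⟩, ⟨842, 850, 31, 38, 0⟩, ⟨0, 0, 0, 0, 0⟩⟩),
    (8, ⟨5, false, none, ⟨788, 879, 125, 471, 0⟩, ⟨0, 0, 0, 0, 0⟩, ⟨829, 853, 50, 77, 0⟩, ⟨0, 0, 0, 0, 0⟩⟩),
    (2, ⟨5, false, none, ⟨673, 687, 334, 352, 0⟩, ⟨0, 0, 0, 0, 0⟩, ⟨831, 842, 48, 59, 0⟩, ⟨0, 0, 0, 0, 0⟩⟩),
    (0, ⟨5, false, none, ⟨913, 1000, 0, 50, 0⟩, ⟨0, 0, 0, 0, 0⟩, ⟨829, 842, 74, 89, 0⟩, ⟨0, 0, 0, 0, 0⟩⟩)]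

set_option maxRecDepth 100000 in
theorem lu5A0_0_ok : lu5A0_0.all chkU = true := by decide +kernel

def lu7S0_0 : List (ℕ × Inst) :=
  [(0, ⟨7, true, none, ⟨790, 1000, 0, 628, 0⟩, ⟨0, 0, 0, 0, 0⟩, ⟨884, 913, 12, 39, 0⟩, ⟨0, 0, 0, 0, 0⟩⟩),
    (7, ⟨7, true, none, ⟨787, 887, 240, 482, 0⟩, ⟨0, 0, 0, 0, 0⟩, ⟨884, 909, 12, 39, 0⟩, ⟨0, 0, 0, 0, 0⟩⟩),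
    (3, ⟨7, true, none, ⟨680, 693, 364, 382, 0⟩, ⟨0, 0, 0, 0, 0⟩, ⟨884, 909, 12, 39, 0⟩, ⟨0, 0, 0, 0, 0⟩⟩),
    (9, ⟨7, true, none, ⟨813, 876, 138, 279, 0⟩, ⟨0, 0, 0, 0, 0⟩, ⟨884, 913, 12, 39, 0⟩, ⟨0, 0, 0, 0, 0⟩⟩),
    (5, ⟨7, true, none, ⟨756, 770, 151, 169, 0⟩, ⟨0, 0, 0, 0, 0⟩, ⟨893, 913, 15, 39, 0⟩, ⟨0, 0, 0, 0, 0⟩⟩)]

set_option maxRecDepth 100000 in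
theorem lu7S0_0_ok : lu7S0_0.all chkU = true := by decide +kernel

end Pool.Agent.S5.E.VX
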