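import Pool.Agent.S5.E.VX.VUc

/-!
# The region of the slots of open nodes: instances
-/

set_option autoImplicit false

namespace Pool.Agent.S5.E.VX

open Pool.Agent.S5.E.B2

def lu7AA_0 : List (ℕ × Inst) :=
  [(0, ⟨7, false, some false, ⟨782, 992, 394, 632, 0⟩, ⟨676, 1000, 0, 986, 0⟩, ⟨908, 941, 17, 55, 0⟩, ⟨0, 0, 0, 0, 0⟩⟩),
    (1, ⟨7, false, some false, ⟨676, 685, 960, 986, 0⟩, ⟨676, 1000, 0, 986, 0⟩, ⟨915, 938, 15, 40, 0⟩, ⟨0, 0, 0, 0, 0⟩⟩),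
    (6, ⟨7, false, some false, ⟨793, 892, 234, 470, 0⟩, ⟨676, 1000, 0, 986, 0⟩, ⟨908, 941, 17, 55, 0⟩, ⟨0, 0, 0, 0, 0⟩⟩),
    (2, ⟨7, false, some false, ⟨686, 704, 345, 370, 0⟩, ⟨676, 1000, 0, 986, 0⟩, ⟨908, 941, 17, 55, 0⟩, ⟨0, 0, 0, 0, 0⟩⟩),
    (8, ⟨7, false, some false, ⟨821, 878, 130, 268, 0⟩, ⟨676, 1000, 0, 986, 0⟩, ⟨908, 941, 17, 55, 0⟩, ⟨0, 0, 0, 0, 0⟩⟩),
    (4, ⟨7, false, some false, ⟨762, 778, 146, 164, 0⟩, ⟨676, 1000, 0, 986, 0⟩, ⟨909, 938, 23, 57, 0⟩, ⟨0, 0, 0, 0, 0⟩⟩),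
    (0, ⟨7, false, some false, ⟨828, 1000, 0, 159, 0⟩, ⟨676, 1000, 0, 986, 0⟩, ⟨909, 938, 23, 57, 0⟩, ⟨0, 0, 0, 0, 0⟩⟩)]

set_option maxRecDepth 100000 in
theorem lu7AA_0_ok : lu7AA_0.all chkU = true := by decide +kernel

def lu5SA_0 : List (ℕ × Inst) :=
  [(0, ⟨5, true, some false, ⟨779, 951, 411, 674, 0⟩, ⟨762, 1000, 0, 659, 0⟩, ⟨844, 886, 86, 159, 0⟩, ⟨0, 0, 0, 0, 0⟩⟩),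
    (0, ⟨5, true, some false, ⟨779, 951, 411, 674, 0⟩, ⟨649, 664, 897, 927, 0⟩, ⟨845, 881, 85, 108, 0⟩, ⟨0, 0, 0, 0, 0⟩⟩),
    (0, ⟨5, true, some false, ⟨779, 951, 413, 674, 0⟩, ⟨677, 702, 313, 350, 0⟩, ⟨842, 882, 95, 134, 0⟩, ⟨0, 0, 0, 0, 0⟩⟩),
    (9, ⟨5, true, some false, ⟨781, 887, 138, 383, 0⟩, ⟨649, 1000, 0, 927, 0⟩, ⟨846, 891, 78, 151, 0⟩, ⟨0, 0, 0, 0, 0⟩⟩)]

set_option maxRecDepth 100000 in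
theorem lu5SA_0_ok : lu5SA_0.all chkU = true := by decide +kernel

def lu5SS_4 : List (ℕ × Inst) :=
  [(0, ⟨5, true, some true, ⟨737, 929, 30, 185, 0⟩, ⟨651, 1000, 0, 681, 0⟩, ⟨833, 889, 116, 169, 0⟩, ⟨0, 0, 0, 0, 0⟩⟩),
    (0, ⟨5, true, some true, ⟨893, 1000, 0, 62, 0⟩, ⟨651, 1000, 0, 681, 0⟩, ⟨845, 893, 116, 164, 0⟩, ⟨0, 0, 0, 0, 0⟩⟩)]

set_option maxRecDepth 100000 in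
theorem lu5SS_4_ok : lu5SS_4.all chkU = true := by decide +kernel

def lu7A0_0 : List (ℕ × Inst) :=
  [(0, ⟨7, false, none, ⟨781, 1000, 0, 635, 0⟩, ⟨0, 0, 0, 0, 0⟩, ⟨899, 926, 7, 36, 0⟩, ⟨0, 0, 0, 0, 0⟩⟩),
    (1, ⟨7, false, none, ⟨673, 681, 973, 994, 0⟩, ⟨0, 0, 0, 0, 0⟩, ⟨906, 926, 7, 27, 0⟩, ⟨0, 0, 0, 0, 0⟩⟩),
    (6, ⟨7, false, none, ⟨793, 889, 239, 475, 0⟩, ⟨0, 0, 0, 0, 0⟩, ⟨899, 923, 9, 36, 0⟩, ⟨0, 0, 0, 0, 0⟩⟩),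
    (2, ⟨7, false, none, ⟨686, 699, 354, 370, 0⟩, ⟨0, 0, 0, 0, 0⟩, ⟨901, 923, 9, 33, 0⟩, ⟨0, 0, 0, 0, 0⟩⟩),
    (8, ⟨7, false, none, ⟨821, 878, 130, 268, 0⟩, ⟨0, 0, 0, 0, 0⟩, ⟨899, 920, 14, 36, 0⟩, ⟨0, 0, 0, 0, 0⟩⟩),
    (4, ⟨7, false, none, ⟨762, 778, 146, 164, 0⟩, ⟨0, 0, 0, 0, 0⟩, ⟨899, 920, 14, 36, 0⟩, ⟨0, 0, 0, 0, 0⟩⟩)]

set_option maxRecDepth 100000 in
theorem lu7A0_0_ok : lu7A0_0.all chkU = true := by decide +kernel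

end Pool.Agent.S5.E.VX
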