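import Pool.Agent.S5.E.VX.VUc

/-!
# The region of the slots of open nodes: instances
-/

set_option autoImplicit false

namespace Pool.Agent.S5.E.VX

open Pool.Agent.S5.E.B2

def lu7SA_0 : List (ℕ × Inst) :=
  [(0, ⟨7, true, some false, ⟨793, 973, 399, 635, 0⟩, ⟨673, 1000, 0, 980, 0⟩, ⟨897, 933, 21, 66, 0⟩, ⟨0, 0, 0, 0, 0⟩⟩),
    (7, ⟨7, true, some false, ⟨791, 890, 242, 367, 0⟩, ⟨673, 1000, 0, 980, 0⟩, ⟨897, 933, 21, 66, 0⟩, ⟨0, 0, 0, 0, 0⟩⟩),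
    (7, ⟨7, true, some false, ⟨810, 892, 347, 492, 0⟩, ⟨686, 1000, 0, 632, 0⟩, ⟨897, 933, 25, 66, 0⟩, ⟨0, 0, 0, 0, 0⟩⟩),
    (7, ⟨7, true, some false, ⟨810, 892, 347, 492, 0⟩, ⟨673, 682, 956, 980, 0⟩, ⟨906, 929, 21, 45, 0⟩, ⟨0, 0, 0, 0, 0⟩⟩),
    (3, ⟨7, true, some false, ⟨677, 697, 367, 396, 0⟩, ⟨673, 1000, 0, 980, 0⟩, ⟨897, 933, 21, 66, 0⟩, ⟨0, 0, 0, 0, 0⟩⟩),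
    (9, ⟨7, true, some false, ⟨813, 876, 138, 279, 0⟩, ⟨673, 1000, 0, 980, 0⟩, ⟨897, 935, 21, 66, 0⟩, ⟨0, 0, 0, 0, 0⟩⟩),
    (5, ⟨7, true, some false, ⟨755, 772, 154, 175, 0⟩, ⟨673, 1000, 0, 980, 0⟩, ⟨903, 935, 23, 62, 0⟩, ⟨0, 0, 0, 0, 0⟩⟩),
    (0, ⟨7, true, some false, ⟨823, 1000, 0, 164, 0⟩, ⟨673, 1000, 0, 980, 0⟩, ⟨903, 935, 23, 62, 0⟩, ⟨0, 0, 0, 0, 0⟩⟩)]

set_option maxRecDepth 100000 in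
theorem lu7SA_0_ok : lu7SA_0.all chkU = true := by decide +kernel

def lu7AS_0 : List (ℕ × Inst) :=
  [(0, ⟨7, false, some true, ⟨782, 992, 394, 632, 0⟩, ⟨677, 1000, 0, 635, 0⟩, ⟨902, 935, 25, 61, 0⟩, ⟨0, 0, 0, 0, 0⟩⟩),
    (1, ⟨7, false, some true, ⟨673, 682, 956, 980, 0⟩, ⟨677, 1000, 0, 635, 0⟩, ⟨906, 929, 21, 45, 0⟩, ⟨0, 0, 0, 0, 0⟩⟩),
    (6, ⟨7, false, some true, ⟨793, 892, 234, 470, 0⟩, ⟨677, 1000, 0, 635, 0⟩, ⟨897, 935, 25, 64, 0⟩, ⟨0, 0, 0, 0, 0⟩⟩),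
    (2, ⟨7, false, some true, ⟨686, 704, 345, 370, 0⟩, ⟨677, 1000, 0, 635, 0⟩, ⟨897, 932, 26, 64, 0⟩, ⟨0, 0, 0, 0, 0⟩⟩),
    (8, ⟨7, false, some true, ⟨821, 878, 130, 268, 0⟩, ⟨677, 1000, 0, 635, 0⟩, ⟨897, 932, 26, 64, 0⟩, ⟨0, 0, 0, 0, 0⟩⟩),
    (4, ⟨7, false, some true, ⟨762, 778, 146, 164, 0⟩, ⟨677, 1000, 0, 635, 0⟩, ⟨897, 932, 26, 64, 0⟩, ⟨0, 0, 0, 0, 0⟩⟩),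
    (0, ⟨7, false, some true, ⟨828, 1000, 0, 159, 0⟩, ⟨677, 1000, 0, 635, 0⟩, ⟨900, 931, 32, 66, 0⟩, ⟨0, 0, 0, 0, 0⟩⟩)]

set_option maxRecDepth 100000 in
theorem lu7AS_0_ok : lu7AS_0.all chkU = true := by decide +kernel

def lu6SA_1 : List (ℕ × Inst) :=
  [(5, ⟨6, true, some false, ⟨755, 772, 154, 175, 0⟩, ⟨682, 1000, 0, 648, 0⟩, ⟨876, 917, 43, 90, 0⟩, ⟨0, 0, 0, 0, 0⟩⟩),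
    (5, ⟨6, true, some false, ⟨755, 772, 154, 175, 0⟩, ⟨662, 675, 933, 964, 0⟩, ⟨879, 909, 39, 69, 0⟩, ⟨0, 0, 0, 0, 0⟩⟩),
    (0, ⟨6, true, some false, ⟨823, 1000, 0, 164, 0⟩, ⟨662, 1000, 0, 964, 0⟩, ⟨876, 919, 39, 90, 0⟩, ⟨0, 0, 0, 0, 0⟩⟩)]

set_option maxRecDepth 100000 in
theorem lu6SA_1_ok : lu6SA_1.all chkU = true := by decide +kernel

def lu8SA_0 : List (ℕ × Inst) :=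
  [(0, ⟨8, true, some false, ⟨797, 1009, 393, 630, 0⟩, ⟨675, 1010, 0, 1000, 0⟩, ⟨913, 1000, 0, 50, 0⟩, ⟨0, 0, 0, 0, 0⟩⟩),
    (7, ⟨8, true, some false, ⟨794, 900, 240, 364, 0⟩, ⟨675, 1010, 0, 1000, 0⟩, ⟨913, 1000, 0, 50, 0⟩, ⟨0, 0, 0, 0, 0⟩⟩),
    (7, ⟨8, true, some false, ⟨813, 901, 341, 487, 0⟩, ⟨675, 1010, 0, 1000, 0⟩, ⟨913, 1000, 0, 50, 0⟩, ⟨0, 0, 0, 0, 0⟩⟩),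
    (3, ⟨8, true, some false, ⟨681, 711, 363, 399, 0⟩, ⟨675, 1010, 0, 1000, 0⟩, ⟨913, 1000, 0, 50, 0⟩, ⟨0, 0, 0, 0, 0⟩⟩),
    (9, ⟨8, true, some false, ⟨832, 881, 139, 213, 0⟩, ⟨675, 1010, 0, 1000, 0⟩, ⟨913, 1000, 0, 50, 0⟩, ⟨0, 0, 0, 0, 0⟩⟩),
    (9, ⟨8, true, some false, ⟨819, 881, 198, 278, 0⟩, ⟨675, 1010, 0, 1000, 0⟩, ⟨913, 1000, 0, 50, 0⟩, ⟨0, 0, 0, 0, 0⟩⟩),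
    (5, ⟨8, true, some false, ⟨759, 779, 154, 178, 0⟩, ⟨675, 1010, 0, 1000, 0⟩, ⟨913, 1000, 0, 50, 0⟩, ⟨0, 0, 0, 0, 0⟩⟩),
    (0, ⟨8, true, some false, ⟨867, 897, 78, 131, 0⟩, ⟨675, 1010, 0, 1000, 0⟩, ⟨913, 1000, 0, 50, 0⟩, ⟨0, 0, 0, 0, 0⟩⟩),
    (0, ⟨8, true, some false, ⟨849, 893, 116, 164, 0⟩, ⟨675, 1010, 0, 1000, 0⟩, ⟨913, 1000, 0, 50, 0⟩, ⟨0, 0, 0, 0, 0⟩⟩),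
    (0, ⟨8, true, some false, ⟨826, 840, 76, 92, 0⟩, ⟨675, 1010, 0, 1000, 0⟩, ⟨913, 1000, 0, 50, 0⟩, ⟨0, 0, 0, 0, 0⟩⟩),
    (0, ⟨8, true, some false, ⟨882, 919, 42, 88, 0⟩, ⟨675, 1010, 0, 1000, 0⟩, ⟨913, 1000, 0, 50, 0⟩, ⟨0, 0, 0, 0, 0⟩⟩),
    (0, ⟨8, true, some false, ⟨867, 912, 60, 110, 0⟩, ⟨675, 1010, 0, 1000, 0⟩, ⟨913, 1000, 0, 50, 0⟩, ⟨0, 0, 0, 0, 0⟩⟩),
    (0, ⟨8, true, some false, ⟨863, 884, 34, 58, 0⟩, ⟨675, 1010, 0, 1000, 0⟩, ⟨913, 1000, 0, 50, 0⟩, ⟨0, 0, 0, 0, 0⟩⟩),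
    (0, ⟨8, true, some false, ⟨903, 936, 23, 62, 0⟩, ⟨675, 1010, 0, 1000, 0⟩, ⟨913, 1000, 0, 50, 0⟩, ⟨0, 0, 0, 0, 0⟩⟩),
    (0, ⟨8, true, some false, ⟨889, 929, 33, 77, 0⟩, ⟨675, 1010, 0, 1000, 0⟩, ⟨913, 1000, 0, 50, 0⟩, ⟨0, 0, 0, 0, 0⟩⟩),
    (0, ⟨8, true, some false, ⟨893, 913, 15, 39, 0⟩, ⟨675, 1010, 0, 1000, 0⟩, ⟨913, 1000, 0, 50, 0⟩, ⟨0, 0, 0, 0, 0⟩⟩),
    (0, ⟨8, true, some false, ⟨913, 1000, 0, 50, 0⟩, ⟨675, 1010, 0, 1000, 0⟩, ⟨913, 1000, 0, 50, 0⟩, ⟨0, 0, 0, 0, 0⟩⟩),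
    (0, ⟨8, true, some false, ⟨901, 1000, 0, 61, 0⟩, ⟨675, 1010, 0, 1000, 0⟩, ⟨913, 1000, 0, 50, 0⟩, ⟨0, 0, 0, 0, 0⟩⟩),
    (0, ⟨8, true, some false, ⟨905, 1000, 0, 29, 0⟩, ⟨675, 1010, 0, 1000, 0⟩, ⟨913, 1000, 0, 50, 0⟩, ⟨0, 0, 0, 0, 0⟩⟩)]

set_option maxRecDepth 100000 in
theorem lu8SA_0_ok : lu8SA_0.all chkU = true := by decide +kernel

end Pool.Agent.S5.E.VX
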