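import Pool.Agent.S5.E.VX.VUc

/-!
# The region of the slots of open nodes: instances
-/

set_option autoImplicit false

namespace Pool.Agent.S5.E.VX

open Pool.Agent.S5.E.B2

def lu5SS_1 : List (ℕ × Inst) :=
  [(0, ⟨5, true, some true, ⟨849, 887, 624, 681, 0⟩, ⟨651, 939, 205, 681, 0⟩, ⟨818, 880, 130, 203, 0⟩, ⟨0, 0, 0, 0, 0⟩⟩),
    (0, ⟨5, true, some true, ⟨773, 939, 420, 666, 0⟩, ⟨651, 684, 376, 426, 0⟩, ⟨818, 869, 130, 175, 0⟩, ⟨0, 0, 0, 0, 0⟩⟩),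
    (0, ⟨5, true, some true, ⟨773, 939, 419, 681, 0⟩, ⟨737, 1000, 0, 228, 0⟩, ⟨832, 880, 130, 177, 0⟩, ⟨0, 0, 0, 0, 0⟩⟩),
    (9, ⟨5, true, some true, ⟨776, 886, 141, 390, 0⟩, ⟨651, 1000, 0, 681, 0⟩, ⟨828, 884, 118, 184, 0⟩, ⟨0, 0, 0, 0, 0⟩⟩)]

set_option maxRecDepth 100000 in
theorem lu5SS_1_ok : lu5SS_1.all chkU = true := by decide +kernel

def lu7SS_0 : List (ℕ × Inst) :=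
  [(0, ⟨7, true, some true, ⟨790, 966, 401, 641, 0⟩, ⟨677, 1000, 0, 641, 0⟩, ⟨884, 927, 29, 80, 0⟩, ⟨0, 0, 0, 0, 0⟩⟩),
    (7, ⟨7, true, some true, ⟨791, 892, 242, 492, 0⟩, ⟨677, 1000, 0, 641, 0⟩, ⟨884, 927, 29, 80, 0⟩, ⟨0, 0, 0, 0, 0⟩⟩),
    (3, ⟨7, true, some true, ⟨677, 697, 367, 396, 0⟩, ⟨677, 1000, 0, 641, 0⟩, ⟨884, 927, 29, 80, 0⟩, ⟨0, 0, 0, 0, 0⟩⟩),
    (9, ⟨7, true, some true, ⟨813, 876, 138, 279, 0⟩, ⟨677, 1000, 0, 641, 0⟩, ⟨889, 929, 33, 77, 0⟩, ⟨0, 0, 0, 0, 0⟩⟩),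
    (5, ⟨7, true, some true, ⟨755, 772, 154, 175, 0⟩, ⟨677, 1000, 0, 641, 0⟩, ⟨884, 927, 29, 80, 0⟩, ⟨0, 0, 0, 0, 0⟩⟩),
    (0, ⟨7, true, some true, ⟨823, 1000, 0, 164, 0⟩, ⟨677, 1000, 0, 641, 0⟩, ⟨889, 929, 33, 77, 0⟩, ⟨0, 0, 0, 0, 0⟩⟩)]

set_option maxRecDepth 100000 in
theorem lu7SS_0_ok : lu7SS_0.all chkU = true := by decide +kernel

def lu6SS_1 : List (ℕ × Inst) :=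
  [(5, ⟨6, true, some true, ⟨748, 767, 153, 178, 0⟩, ⟨748, 1000, 0, 662, 0⟩, ⟨860, 908, 58, 112, 0⟩, ⟨0, 0, 0, 0, 0⟩⟩),
    (5, ⟨6, true, some true, ⟨748, 767, 153, 178, 0⟩, ⟨668, 692, 366, 402, 0⟩, ⟨860, 899, 58, 111, 0⟩, ⟨0, 0, 0, 0, 0⟩⟩),
    (0, ⟨6, true, some true, ⟨820, 1000, 0, 165, 0⟩, ⟨668, 1000, 0, 662, 0⟩, ⟨860, 912, 58, 112, 0⟩, ⟨0, 0, 0, 0, 0⟩⟩)]

set_option maxRecDepth 100000 in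
theorem lu6SS_1_ok : lu6SS_1.all chkU = true := by decide +kernel

def lu8SS_0 : List (ℕ × Inst) :=
  [(0, ⟨8, true, some true, ⟨794, 1010, 393, 636, 0⟩, ⟨681, 1010, 0, 636, 0⟩, ⟨901, 1000, 0, 61, 0⟩, ⟨0, 0, 0, 0, 0⟩⟩),
    (7, ⟨8, true, some true, ⟨794, 900, 240, 364, 0⟩, ⟨681, 1010, 0, 636, 0⟩, ⟨901, 1000, 0, 61, 0⟩, ⟨0, 0, 0, 0, 0⟩⟩),
    (7, ⟨8, true, some true, ⟨813, 901, 341, 487, 0⟩, ⟨681, 1010, 0, 636, 0⟩, ⟨901, 1000, 0, 61, 0⟩, ⟨0, 0, 0, 0, 0⟩⟩),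
    (3, ⟨8, true, some true, ⟨681, 711, 363, 399, 0⟩, ⟨681, 1010, 0, 636, 0⟩, ⟨901, 1000, 0, 61, 0⟩, ⟨0, 0, 0, 0, 0⟩⟩),
    (9, ⟨8, true, some true, ⟨832, 881, 139, 213, 0⟩, ⟨681, 1010, 0, 636, 0⟩, ⟨901, 1000, 0, 61, 0⟩, ⟨0, 0, 0, 0, 0⟩⟩),
    (9, ⟨8, true, some true, ⟨819, 881, 198, 278, 0⟩, ⟨681, 1010, 0, 636, 0⟩, ⟨901, 1000, 0, 61, 0⟩, ⟨0, 0, 0, 0, 0⟩⟩),
    (5, ⟨8, true, some true, ⟨759, 779, 154, 178, 0⟩, ⟨681, 1010, 0, 636, 0⟩, ⟨901, 1000, 0, 61, 0⟩, ⟨0, 0, 0, 0, 0⟩⟩),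
    (0, ⟨8, true, some true, ⟨867, 897, 78, 131, 0⟩, ⟨681, 1010, 0, 636, 0⟩, ⟨901, 1000, 0, 61, 0⟩, ⟨0, 0, 0, 0, 0⟩⟩),
    (0, ⟨8, true, some true, ⟨849, 893, 116, 164, 0⟩, ⟨681, 1010, 0, 636, 0⟩, ⟨901, 1000, 0, 61, 0⟩, ⟨0, 0, 0, 0, 0⟩⟩),
    (0, ⟨8, true, some true, ⟨826, 840, 76, 92, 0⟩, ⟨681, 1010, 0, 636, 0⟩, ⟨901, 1000, 0, 61, 0⟩, ⟨0, 0, 0, 0, 0⟩⟩),
    (0, ⟨8, true, some true, ⟨882, 919, 42, 88, 0⟩, ⟨681, 1010, 0, 636, 0⟩, ⟨901, 1000, 0, 61, 0⟩, ⟨0, 0, 0, 0, 0⟩⟩),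
    (0, ⟨8, true, some true, ⟨867, 912, 60, 110, 0⟩, ⟨681, 1010, 0, 636, 0⟩, ⟨901, 1000, 0, 61, 0⟩, ⟨0, 0, 0, 0, 0⟩⟩),
    (0, ⟨8, true, some true, ⟨863, 884, 34, 58, 0⟩, ⟨681, 1010, 0, 636, 0⟩, ⟨901, 1000, 0, 61, 0⟩, ⟨0, 0, 0, 0, 0⟩⟩),
    (0, ⟨8, true, some true, ⟨903, 936, 23, 62, 0⟩, ⟨681, 1010, 0, 636, 0⟩, ⟨901, 1000, 0, 61, 0⟩, ⟨0, 0, 0, 0, 0⟩⟩),
    (0, ⟨8, true, some true, ⟨889, 929, 33, 77, 0⟩, ⟨681, 1010, 0, 636, 0⟩, ⟨901, 1000, 0, 61, 0⟩, ⟨0, 0, 0, 0, 0⟩⟩),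
    (0, ⟨8, true, some true, ⟨893, 913, 15, 39, 0⟩, ⟨681, 1010, 0, 636, 0⟩, ⟨901, 1000, 0, 61, 0⟩, ⟨0, 0, 0, 0, 0⟩⟩),
    (0, ⟨8, true, some true, ⟨913, 1000, 0, 50, 0⟩, ⟨681, 1010, 0, 636, 0⟩, ⟨901, 1000, 0, 61, 0⟩, ⟨0, 0, 0, 0, 0⟩⟩),
    (0, ⟨8, true, some true, ⟨901, 1000, 0, 61, 0⟩, ⟨681, 1010, 0, 636, 0⟩, ⟨901, 1000, 0, 61, 0⟩, ⟨0, 0, 0, 0, 0⟩⟩),
    (0, ⟨8, true, some true, ⟨905, 1000, 0, 29, 0⟩, ⟨681, 1010, 0, 636, 0⟩, ⟨901, 1000, 0, 61, 0⟩, ⟨0, 0, 0, 0, 0⟩⟩)]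

set_option maxRecDepth 100000 in
theorem lu8SS_0_ok : lu8SS_0.all chkU = true := by decide +kernel

end Pool.Agent.S5.E.VX
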