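import Pool.Agent.S5.E.VX.VL1
import Pool.Agent.S5.E.VX.VL2
import Pool.Agent.S5.E.VX.VL3
import Pool.Agent.S5.E.VX.VL4
import Pool.Agent.S5.E.VX.VL5
import Pool.Agent.S5.E.VX.VL6
import Pool.Agent.S5.E.VX.VL7
import Pool.Agent.S5.E.VX.VL8
import Pool.Agent.S5.E.VX.VL9
import Pool.Agent.S5.E.VX.VL10
import Pool.Agent.S5.E.VX.VL11

/-!
# The region of the slots of open nodes: all instances
-/

set_option autoImplicit false

namespace Pool.Agent.S5.E.VX

open Pool.Agent.S5.E.B2

/-- The instances of the vertex `J`. -/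
def LU (J : Vt) : List (ℕ × Inst) :=
  match J.a, J.s, J.o with
  | 5, false, none => lu5A0_0
  | 5, false, some false => lu5AA_0 ++ lu5AA_1
  | 5, false, some true => lu5AS_0 ++ lu5AS_1 ++ lu5AS_2 ++ lu5AS_3 ++ lu5AS_4
  | 5, true, none => lu5S0_0
  | 5, true, some false => lu5SA_0 ++ lu5SA_1
  | 5, true, some true => lu5SS_0 ++ lu5SS_1 ++ lu5SS_2 ++ lu5SS_3 ++ lu5SS_4
  | 6, false, none => lu6A0_0
  | 6, false, some false => lu6AA_0 ++ lu6AA_1
  | 6, false, some true => lu6AS_0 ++ lu6AS_1
  | 6, true, none => lu6S0_0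
  | 6, true, some false => lu6SA_0 ++ lu6SA_1
  | 6, true, some true => lu6SS_0 ++ lu6SS_1
  | 7, false, none => lu7A0_0
  | 7, false, some false => lu7AA_0
  | 7, false, some true => lu7AS_0
  | 7, true, none => lu7S0_0
  | 7, true, some false => lu7SA_0
  | 7, true, some true => lu7SS_0
  | 8, false, none => lu8A0_0
  | 8, false, some false => lu8AA_0
  | 8, false, some true => lu8AS_0
  | 8, true, none => lu8S0_0
  | 8, true, some false => lu8SA_0
  | 8, true, some true => lu8SS_0
  | _, _, _ => []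

theorem LU_ok (J : Vt) : ∀ x ∈ LU J, chkU x = true := by
  intro x hx
  unfold LU at hx
  split at hx
  · exact List.all_eq_true.1 lu5A0_0_ok x hx
  · simp only [List.mem_append] at hx
    rcases hx with hx | hx
    · exact List.all_eq_true.1 lu5AA_0_ok x hx
    · exact List.all_eq_true.1 lu5AA_1_ok x hx
  · simp only [List.mem_append] at hx
    rcases hx with (((hx | hx) | hx) | hx) | hx
    · exact List.all_eq_true.1 lu5AS_0_ok x hx
    · exact List.all_eq_true.1 lu5AS_1_ok x hx
    · exact List.all_eq_true.1 lu5AS_2_ok x hx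
    · exact List.all_eq_true.1 lu5AS_3_ok x hx
    · exact List.all_eq_true.1 lu5AS_4_ok x hx
  · exact List.all_eq_true.1 lu5S0_0_ok x hx
  · simp only [List.mem_append] at hx
    rcases hx with hx | hx
    · exact List.all_eq_true.1 lu5SA_0_ok x hx
    · exact List.all_eq_true.1 lu5SA_1_ok x hx
  · simp only [List.mem_append] at hx
    rcases hx with (((hx | hx) | hx) | hx) | hx
    · exact List.all_eq_true.1 lu5SS_0_ok x hx
    · exact List.all_eq_true.1 lu5SS_1_ok x hx
    · exact List.all_eq_true.1 lu5SS_2_ok x hx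
    · exact List.all_eq_true.1 lu5SS_3_ok x hx
    · exact List.all_eq_true.1 lu5SS_4_ok x hx
  · exact List.all_eq_true.1 lu6A0_0_ok x hx
  · simp only [List.mem_append] at hx
    rcases hx with hx | hx
    · exact List.all_eq_true.1 lu6AA_0_ok x hx
    · exact List.all_eq_true.1 lu6AA_1_ok x hx
  · simp only [List.mem_append] at hx
    rcases hx with hx | hx
    · exact List.all_eq_true.1 lu6AS_0_ok x hx
    · exact List.all_eq_true.1 lu6AS_1_ok x hx
  · exact List.all_eq_true.1 lu6S0_0_ok x hx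
  · simp only [List.mem_append] at hx
    rcases hx with hx | hx
    · exact List.all_eq_true.1 lu6SA_0_ok x hx
    · exact List.all_eq_true.1 lu6SA_1_ok x hx
  · simp only [List.mem_append] at hx
    rcases hx with hx | hx
    · exact List.all_eq_true.1 lu6SS_0_ok x hx
    · exact List.all_eq_true.1 lu6SS_1_ok x hx
  · exact List.all_eq_true.1 lu7A0_0_ok x hx
  · exact List.all_eq_true.1 lu7AA_0_ok x hx
  · exact List.all_eq_true.1 lu7AS_0_ok x hx
  · exact List.all_eq_true.1 lu7S0_0_ok x hx
  · exact List.all_eq_true.1 lu7SA_0_ok x hx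
  · exact List.all_eq_true.1 lu7SS_0_ok x hx
  · exact List.all_eq_true.1 lu8A0_0_ok x hx
  · exact List.all_eq_true.1 lu8AA_0_ok x hx
  · exact List.all_eq_true.1 lu8AS_0_ok x hx
  · exact List.all_eq_true.1 lu8S0_0_ok x hx
  · exact List.all_eq_true.1 lu8SA_0_ok x hx
  · exact List.all_eq_true.1 lu8SS_0_ok x hx
  · simp at hx

end Pool.Agent.S5.E.VX
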