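import Pool.Agent.S5.E.VX.VUc

/-!
# The region of the slots of open nodes: instances
-/

set_option autoImplicit false

namespace Pool.Agent.S5.E.VX

open Pool.Agent.S5.E.B2

def lu5SS_0 : List (ℕ × Inst) :=
  [(0, ⟨5, true, some true, ⟨773, 939, 420, 666, 0⟩, ⟨773, 939, 205, 681, 0⟩, ⟨818, 880, 130, 203, 0⟩, ⟨0, 0, 0, 0, 0⟩⟩)]

set_option maxRecDepth 100000 in
theorem lu5SS_0_ok : lu5SS_0.all chkU = true := by decide +kernel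

def lu5AA_1 : List (ℕ × Inst) :=
  [(2, ⟨5, false, some false, ⟨679, 702, 324, 358, 0⟩, ⟨679, 1000, 0, 642, 0⟩, ⟨865, 893, 59, 107, 0⟩, ⟨0, 0, 0, 0, 0⟩⟩),
    (2, ⟨5, false, some false, ⟨679, 702, 324, 358, 0⟩, ⟨659, 669, 915, 956, 0⟩, ⟨869, 893, 59, 88, 0⟩, ⟨0, 0, 0, 0, 0⟩⟩),
    (0, ⟨5, false, some false, ⟨763, 1000, 0, 156, 0⟩, ⟨659, 1000, 0, 956, 0⟩, ⟨865, 898, 66, 127, 0⟩, ⟨0, 0, 0, 0, 0⟩⟩)]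

set_option maxRecDepth 100000 in
theorem lu5AA_1_ok : lu5AA_1.all chkU = true := by decide +kernel

def lu5S0_0 : List (ℕ × Inst) :=
  [(0, ⟨5, true, none, ⟨768, 908, 414, 664, 0⟩, ⟨0, 0, 0, 0, 0⟩, ⟨790, 815, 78, 108, 0⟩, ⟨0, 0, 0, 0, 0⟩⟩),
    (0, ⟨5, true, none, ⟨840, 928, 562, 652, 0⟩, ⟨0, 0, 0, 0, 0⟩, ⟨790, 815, 78, 108, 0⟩, ⟨0, 0, 0, 0, 0⟩⟩),
    (9, ⟨5, true, none, ⟨777, 877, 138, 507, 0⟩, ⟨0, 0, 0, 0, 0⟩, ⟨797, 830, 73, 101, 0⟩, ⟨0, 0, 0, 0, 0⟩⟩),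
    (3, ⟨5, true, none, ⟨658, 673, 361, 382, 0⟩, ⟨0, 0, 0, 0, 0⟩, ⟨801, 811, 66, 77, 0⟩, ⟨0, 0, 0, 0, 0⟩⟩),
    (0, ⟨5, true, none, ⟨748, 936, 15, 165, 0⟩, ⟨0, 0, 0, 0, 0⟩, ⟨814, 836, 66, 92, 0⟩, ⟨0, 0, 0, 0, 0⟩⟩),
    (0, ⟨5, true, none, ⟨901, 1000, 0, 61, 0⟩, ⟨0, 0, 0, 0, 0⟩, ⟨826, 840, 76, 92, 0⟩, ⟨0, 0, 0, 0, 0⟩⟩)]

set_option maxRecDepth 100000 in
theorem lu5S0_0_ok : lu5S0_0.all chkU = true := by decide +kernel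

end Pool.Agent.S5.E.VX
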