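import Pool.Agent.S5.E.VX.VL
import Pool.Agent.S5.E.VX.VE

/-!
# The region of the slots of open nodes: the cover
-/

set_option autoImplicit false

namespace Pool.Agent.S5.E.VX

open Pool.Agent.S5.E.B2

/-- All slots of the vertex `J`. -/
def covUJ (J : Vt) : Bool := (types J.s).all fun I => covUE Tfin VU9 spU EXU (LU J) J I

set_option maxRecDepth 100000 in
theorem cu5AA : covUJ ⟨5, false, some false⟩ = true := by decide +kernel

set_option maxRecDepth 100000 in
theorem cu5AS : covUJ ⟨5, false, some true⟩ = true := by decide +kernel

set_option maxRecDepth 100000 in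
theorem cu5A0 : covUJ ⟨5, false, none⟩ = true := by decide +kernel

set_option maxRecDepth 100000 in
theorem cu5SA : covUJ ⟨5, true, some false⟩ = true := by decide +kernel

set_option maxRecDepth 100000 in
theorem cu5SS : covUJ ⟨5, true, some true⟩ = true := by decide +kernel

set_option maxRecDepth 100000 in
theorem cu5S0 : covUJ ⟨5, true, none⟩ = true := by decide +kernel

set_option maxRecDepth 100000 in
theorem cu6AA : covUJ ⟨6, false, some false⟩ = true := by decide +kernel

set_option maxRecDepth 100000 in
theorem cu6AS : covUJ ⟨6, false, some true⟩ = true := by decide +kernel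

set_option maxRecDepth 100000 in
theorem cu6A0 : covUJ ⟨6, false, none⟩ = true := by decide +kernel

set_option maxRecDepth 100000 in
theorem cu6SA : covUJ ⟨6, true, some false⟩ = true := by decide +kernel

set_option maxRecDepth 100000 in
theorem cu6SS : covUJ ⟨6, true, some true⟩ = true := by decide +kernel

set_option maxRecDepth 100000 in
theorem cu6S0 : covUJ ⟨6, true, none⟩ = true := by decide +kernel

set_option maxRecDepth 100000 in
theorem cu7AA : covUJ ⟨7, false, some false⟩ = true := by decide +kernel

set_option maxRecDepth 100000 in
theorem cu7AS : covUJ ⟨7, false, some true⟩ = true := by decide +kernel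

set_option maxRecDepth 100000 in
theorem cu7A0 : covUJ ⟨7, false, none⟩ = true := by decide +kernel

set_option maxRecDepth 100000 in
theorem cu7SA : covUJ ⟨7, true, some false⟩ = true := by decide +kernel

set_option maxRecDepth 100000 in
theorem cu7SS : covUJ ⟨7, true, some true⟩ = true := by decide +kernel

set_option maxRecDepth 100000 in
theorem cu7S0 : covUJ ⟨7, true, none⟩ = true := by decide +kernel

set_option maxRecDepth 100000 in
theorem cu8AA : covUJ ⟨8, false, some false⟩ = true := by decide +kernel

set_option maxRecDepth 100000 in
theorem cu8AS : covUJ ⟨8, false, some true⟩ = true := by decide +kernel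

set_option maxRecDepth 100000 in
theorem cu8A0 : covUJ ⟨8, false, none⟩ = true := by decide +kernel

set_option maxRecDepth 100000 in
theorem cu8SA : covUJ ⟨8, true, some false⟩ = true := by decide +kernel

set_option maxRecDepth 100000 in
theorem cu8SS : covUJ ⟨8, true, some true⟩ = true := by decide +kernel

set_option maxRecDepth 100000 in
theorem cu8S0 : covUJ ⟨8, true, none⟩ = true := by decide +kernel

theorem covU_mem {s : Bool} {J : Vt} (hJ : J ∈ types s) (h5 : Nat.ble 5 J.a = true) :
    covUJ J = true := by
  unfold types at hJ
  simp only [List.mem_flatMap, List.mem_cons, List.not_mem_nil, or_false] at hJ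
  obtain ⟨a, ha, hJ⟩ := hJ
  rcases ha with rfl | rfl | rfl | rfl | rfl | rfl | rfl
  · rcases hJ with rfl | rfl | rfl <;> exact absurd h5 Bool.false_ne_true
  · rcases hJ with rfl | rfl | rfl <;> exact absurd h5 Bool.false_ne_true
  · rcases hJ with rfl | rfl | rfl <;> exact absurd h5 Bool.false_ne_true
  · cases s
    · rcases hJ with rfl | rfl | rfl
      · exact cu5AA
      · exact cu5AS
      · exact cu5A0
    · rcases hJ with rfl | rfl | rfl
      · exact cu5SA
      · exact cu5SS
      · exact cu5S0
  · cases s
    · rcases hJ with rfl | rfl | rfl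
      · exact cu6AA
      · exact cu6AS
      · exact cu6A0
    · rcases hJ with rfl | rfl | rfl
      · exact cu6SA
      · exact cu6SS
      · exact cu6S0
  · cases s
    · rcases hJ with rfl | rfl | rfl
      · exact cu7AA
      · exact cu7AS
      · exact cu7A0
    · rcases hJ with rfl | rfl | rfl
      · exact cu7SA
      · exact cu7SS
      · exact cu7S0
  · cases s
    · rcases hJ with rfl | rfl | rfl
      · exact cu8AA
      · exact cu8AS
      · exact cu8A0
    · rcases hJ with rfl | rfl | rfl
      · exact cu8SA
      · exact cu8SS
      · exact cu8S0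

theorem types_s {s : Bool} {J : Vt} (hJ : J ∈ types s) : J.s = s := by
  unfold types at hJ
  simp only [List.mem_flatMap, List.mem_cons, List.not_mem_nil, or_false] at hJ
  obtain ⟨a, -, hJ⟩ := hJ
  rcases hJ with rfl | rfl | rfl <;> rfl

theorem covU_all (s : Bool) : ((types s).all fun J => !(Nat.ble 5 J.a) ||
    (types s).all fun I => covUE Tfin VU9 spU EXU (LU J) J I) = true := by
  rw [List.all_eq_true]
  intro J hJ
  rw [Bool.or_eq_true]
  by_cases h5 : Nat.ble 5 J.a = true
  · right
    have h1 := covU_mem hJ h5
    unfold covUJ at h1
    rwa [types_s hJ] at h1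
  · left
    rw [Bool.not_eq_true] at h5
    rw [h5]
    rfl

end Pool.Agent.S5.E.VX
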