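import Pool.Agent.S5.E.VX.RunW

/-!
# Vertices with eight or more half twists: elementary bounds
-/

set_option autoImplicit false

namespace Pool.Agent.S5.E.VX

open Real Pool.Agent.S3.NI Pool.Agent.S5.E.B2

section

variable {m : Md} {g : Rg} {R I p q : ℝ}

/-- `sinh² p ≤ ρ² |tan z|²`. -/
theorem SDat.sinh_le (h : SDat m g R I p q) (hN : 0 < sin R ^ 2 + sinh I ^ 2)
    (hD : 0 < cos R ^ 2 + sinh I ^ 2) :
    sinh p ^ 2 * (cos R ^ 2 + sinh I ^ 2) ≤ ((g.k1 : ℝ) / 1000) ^ 2 * (sin R ^ 2 + sinh I ^ 2) := by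
  by_cases hm : m = Md.o
  · rw [(h.o hm).1, sinh_zero]
    have : 0 ≤ ((g.k1 : ℝ) / 1000) ^ 2 * (sin R ^ 2 + sinh I ^ 2) := by positivity
    linarith
  · obtain ⟨x, y, hr, -, ex, ey⟩ := h.d hm
    have hn := SDat.norm hm ex ey hN
    have h1 := hr.hi
    rw [hn, ← mul_div_assoc, div_le_iff₀ hN] at h1
    have h2 : 0 ≤ sin q ^ 2 * (cos R ^ 2 + sinh I ^ 2) := by positivity
    nlinarith

theorem nd_sq (R I : ℝ) : (sin R * cos R) ^ 2 + (sinh I * cosh I) ^ 2 =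
    (sin R ^ 2 + sinh I ^ 2) * (cos R ^ 2 + sinh I ^ 2) := by
  have e1 := cosh_sq I
  have e2 := cos_sq' R
  rw [mul_pow, mul_pow, e1, e2]
  ring

/-- The real part of the product. -/
theorem SDat.re_ge (h : SDat m g R I p q) (hm : m ≠ Md.o) (hR0 : 0 < R) (hR1 : R < π / 2)
    (hI : 0 < I) : ∃ x, 0 ≤ x ∧ ((g.k0 : ℝ) / 1000) ^ 2 ≤ x ^ 2 * (1 + ((g.t1 : ℝ) / 1000) ^ 2) ∧
      x * (sin R * cos R - (g.t1 : ℝ) / 1000 * (sinh I * cosh I)) ≤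
        sinh p * (cos R ^ 2 + sinh I ^ 2) := by
  obtain ⟨x, y, hr, -, ex, ey⟩ := h.d hm
  have hsR : 0 < sin R := sin_pos_of_pos_of_lt_pi hR0 (by linarith [pi_pos])
  have hcR : 0 < cos R := cos_pos_of_mem_Ioo ⟨by linarith [pi_pos], hR1⟩
  have hsI : 0 < sinh I := sinh_pos_iff.2 hI
  have hcI := cosh_pos I
  have hN : 0 < sin R ^ 2 + sinh I ^ 2 := by positivity
  have hD : 0 < cos R ^ 2 + sinh I ^ 2 := by positivity
  have hs : 0 < sin R * cos R := mul_pos hsR hcR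
  have hh : 0 < sinh I * cosh I := mul_pos hsI hcI
  have hx0 := hr.x0
  have hy0 := hr.y0
  have h1 := hr.lo
  have h2 := hr.a1
  have ht : 0 ≤ (g.t1 : ℝ) / 1000 := by positivity
  refine ⟨x, hx0, ?_, ?_⟩
  · have h3 : y ^ 2 ≤ ((g.t1 : ℝ) / 1000 * x) ^ 2 := pow_le_pow_left₀ hy0 h2 2
    nlinarith
  · have key : x * (sin R * cos R) - y * (sinh I * cosh I) ≤
        sinh p * cos q * (cos R ^ 2 + sinh I ^ 2) := by
      have nd := nd_sq R I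
      have hyh : 0 ≤ y * (sinh I * cosh I) := mul_nonneg hy0 hh.le
      have e1 : (x * (sin R * cos R) - y * (sinh I * cosh I)) * (sin R ^ 2 + sinh I ^ 2) ≤
          (sinh p * cos q * (cos R ^ 2 + sinh I ^ 2)) * (sin R ^ 2 + sinh I ^ 2) := by
        have hyN : 0 ≤ y * (sinh I * cosh I) * (sin R ^ 2 + sinh I ^ 2) := mul_nonneg hyh hN.le
        cases m with
        | o => exact absurd rfl hm
        | a =>
          simp only [eqx, eqy] at ex ey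
          have : (x * (sin R * cos R) - y * (sinh I * cosh I)) * (sin R ^ 2 + sinh I ^ 2) =
              (sinh p * cos q * (cos R ^ 2 + sinh I ^ 2)) * (sin R ^ 2 + sinh I ^ 2) := by
            linear_combination (sin R * cos R) * ex - (sinh I * cosh I) * ey +
              (sinh p * cos q) * nd
          exact this.le
        | s =>
          simp only [eqx, eqy] at ex ey
          have : (x * (sin R * cos R) + y * (sinh I * cosh I)) * (sin R ^ 2 + sinh I ^ 2) =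
              (sinh p * cos q * (cos R ^ 2 + sinh I ^ 2)) * (sin R ^ 2 + sinh I ^ 2) := by
            linear_combination (sin R * cos R) * ex + (sinh I * cosh I) * ey +
              (sinh p * cos q) * nd
          linarith
        | n =>
          simp only [eqx, eqy] at ex ey
          have : (x * (sin R * cos R) + y * (sinh I * cosh I)) * (sin R ^ 2 + sinh I ^ 2) =
              (sinh p * cos q * (cos R ^ 2 + sinh I ^ 2)) * (sin R ^ 2 + sinh I ^ 2) := by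
            linear_combination (sin R * cos R) * ex + (sinh I * cosh I) * ey +
              (sinh p * cos q) * nd
          linarith
      exact le_of_mul_le_mul_right e1 hN
    have hp : 0 ≤ sinh p := sinh_nonneg_iff.2 h.p0
    have k1 : sinh p * cos q * (cos R ^ 2 + sinh I ^ 2) ≤ sinh p * (cos R ^ 2 + sinh I ^ 2) := by
      have := mul_le_mul_of_nonneg_left (cos_le_one q) hp
      nlinarith
    have k2 : y * (sinh I * cosh I) ≤ (g.t1 : ℝ) / 1000 * x * (sinh I * cosh I) :=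
      mul_le_mul_of_nonneg_right h2 hh.le
    nlinarith

end

/-- `sinh² x ≤ 1.1 x²` for `x ≤ 1/2`. -/
theorem sinh_sq_le {x : ℝ} (h0 : 0 ≤ x) (h1 : x ≤ 1 / 2) : sinh x ^ 2 ≤ 11 / 10 * x ^ 2 := by
  have h2 := sinh_le_U5 h0 (by linarith)
  have h3 : 0 ≤ sinh x := sinh_nonneg_iff.2 h0
  have h4 : sinh x ≤ x * (1044 / 1000) := by
    have e1 : x ^ 2 ≤ 1 / 4 := by nlinarith
    have e2 : 0 ≤ x ^ 2 := by positivity
    have e3 : x ^ 2 / 6 + 4 * (x ^ 2 * x ^ 2) / 120 ≤ 44 / 1000 := by nlinarith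
    have e4 := mul_le_mul_of_nonneg_left e3 h0
    nlinarith
  have h5 := pow_le_pow_left₀ h3 h4 2
  have e2 : 0 ≤ x ^ 2 := by positivity
  nlinarith

/-- `sinh² x ≤ 1.008 x²` for `x ≤ 0.15`. -/
theorem sinh_sq_le' {x : ℝ} (h0 : 0 ≤ x) (h1 : x ≤ 15 / 100) :
    sinh x ^ 2 ≤ 1008 / 1000 * x ^ 2 := by
  have h2 := sinh_le_U5 h0 (by linarith)
  have h3 : 0 ≤ sinh x := sinh_nonneg_iff.2 h0
  have h4 : sinh x ≤ x * (10038 / 10000) := by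
    have e1 : x ^ 2 ≤ 225 / 10000 := by nlinarith
    have e2 : 0 ≤ x ^ 2 := by positivity
    have e3 : x ^ 2 / 6 + 4 * (x ^ 2 * x ^ 2) / 120 ≤ 38 / 10000 := by nlinarith
    have e4 := mul_le_mul_of_nonneg_left e3 h0
    nlinarith
  have h5 := pow_le_pow_left₀ h3 h4 2
  have e2 : 0 ≤ x ^ 2 := by positivity
  nlinarith

/-- The sizes of a vertex with eight or more half twists. -/
structure V8 (ρ R I p₁ p₂ : ℝ) : Prop where
  I0 : 0 < I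
  R0 : 0 < R
  R1 : R < π / 2
  D0 : 81 / 100 ≤ cos R ^ 2 + sinh I ^ 2
  I1 : I ≤ 15 / 100
  u : 8 * I ≤ p₁ + p₂
  k : 64 * I ^ 2 * (cos R ^ 2 + sinh I ^ 2) ≤ ρ ^ 2 * (sin R ^ 2 + sinh I ^ 2)

theorem v8_of {a R I p₁ p₂ ρ₁ ρ₂ : ℝ} (h8 : 8 ≤ a) (eI : a * I = p₁ + p₂) (I0 : 0 < I)
    (R0 : 0 < R) (R1 : R < π / 2) (h₁ : 0 ≤ p₁) (h₂ : 0 ≤ p₂) (h₁' : p₁ ≤ 2) (h₂' : p₂ ≤ 2)
    (k₁ : sinh p₁ ^ 2 * (cos R ^ 2 + sinh I ^ 2) ≤ ρ₁ ^ 2 * (sin R ^ 2 + sinh I ^ 2))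
    (k₂ : sinh p₂ ^ 2 * (cos R ^ 2 + sinh I ^ 2) ≤ ρ₂ ^ 2 * (sin R ^ 2 + sinh I ^ 2))
    (r₁ : 0 ≤ ρ₁) (r₂ : 0 ≤ ρ₂) (hr : ρ₁ + ρ₂ ≤ 203 / 100)
    (D0 : 81 / 100 ≤ cos R ^ 2 + sinh I ^ 2) : V8 (ρ₁ + ρ₂) R I p₁ p₂ := by
  have hu : 8 * I ≤ p₁ + p₂ := by nlinarith
  obtain ⟨D, eD⟩ : ∃ D, D = cos R ^ 2 + sinh I ^ 2 := ⟨_, rfl⟩
  obtain ⟨N, eN⟩ : ∃ N, N = sin R ^ 2 + sinh I ^ 2 := ⟨_, rfl⟩
  have hsI : 0 < sinh I := sinh_pos_iff.2 I0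
  have hN : 0 < N := by rw [eN]; positivity
  have hD : 0 < D := by rw [eD]; linarith
  rw [← eD, ← eN] at k₁ k₂
  obtain ⟨u, eu⟩ : ∃ u, u = √(N / D) := ⟨_, rfl⟩
  have u0 : 0 ≤ u := by rw [eu]; exact sqrt_nonneg _
  have u2 : u ^ 2 * D = N := by
    rw [eu, sq_sqrt (by positivity)]
    exact div_mul_cancel₀ _ hD.ne'
  have key : ∀ {p ρ : ℝ}, 0 ≤ p → 0 ≤ ρ → sinh p ^ 2 * D ≤ ρ ^ 2 * N → p ≤ ρ * u := by
    intro p ρ hp hρ h
    have e1 : p ≤ sinh p := self_le_sinh_iff.2 hp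
    have e2 : sinh p ≤ ρ * u := by
      apply le_of_sq_le_sq _ (by positivity)
      have e3 : sinh p ^ 2 * D ≤ (ρ * u) ^ 2 * D := by
        rw [mul_pow, mul_assoc, u2]
        exact h
      exact le_of_mul_le_mul_right e3 hD
    exact e1.trans e2
  have a1 := key h₁ r₁ k₁
  have a2 := key h₂ r₂ k₂
  have a3 : 8 * I ≤ (ρ₁ + ρ₂) * u := by linarith
  have a4 : 64 * I ^ 2 * D ≤ (ρ₁ + ρ₂) ^ 2 * N := by
    have e1 := pow_le_pow_left₀ (by positivity) a3 2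
    have e2 := mul_le_mul_of_nonneg_right e1 hD.le
    rw [mul_pow (ρ₁ + ρ₂), mul_assoc ((ρ₁ + ρ₂) ^ 2), u2] at e2
    nlinarith
  have hI2 : I ≤ 1 / 2 := by linarith
  have hS := sinh_sq_le I0.le hI2
  have eND : N = 1 - D + 2 * sinh I ^ 2 := by
    rw [eN, eD]
    have := sin_sq_add_cos_sq R
    linarith
  refine ⟨I0, R0, R1, D0, ?_, hu, by rw [← eD, ← eN]; exact a4⟩
  have hq : (ρ₁ + ρ₂) ^ 2 ≤ 41209 / 10000 := by
    have := pow_le_pow_left₀ (by positivity) hr 2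
    norm_num at this
    exact this
  have hN0 : N ≤ 19 / 100 + 22 / 10 * I ^ 2 := by rw [eND]; linarith
  have e1 : (ρ₁ + ρ₂) ^ 2 * N ≤ 41209 / 10000 * (19 / 100 + 22 / 10 * I ^ 2) :=
    mul_le_mul hq hN0 hN.le (by norm_num)
  have e2 : 64 * I ^ 2 * (81 / 100) ≤ 64 * I ^ 2 * D :=
    mul_le_mul_of_nonneg_left (by rw [eD]; exact D0) (by positivity)
  nlinarith

namespace V8

variable {ρ R I p₁ p₂ : ℝ}

theorem nd (_ : V8 ρ R I p₁ p₂) : sin R ^ 2 + sinh I ^ 2 =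
    1 - (cos R ^ 2 + sinh I ^ 2) + 2 * sinh I ^ 2 := by
  have := sin_sq_add_cos_sq R
  linarith

theorem si (h : V8 ρ R I p₁ p₂) : sinh I ^ 2 ≤ 1008 / 1000 * I ^ 2 := sinh_sq_le' h.I0.le h.I1

/-- A bound for `I`, for all lower bounds `d` of `D`. -/
theorem i2 (h : V8 ρ R I p₁ p₂) {d : ℝ} (hd : d ≤ cos R ^ 2 + sinh I ^ 2) :
    (64 * d - 2016 / 1000 * ρ ^ 2) * I ^ 2 ≤ ρ ^ 2 * (1 - d) := by
  have h1 := h.k
  have h2 := h.si
  rw [h.nd] at h1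
  have h3 : 64 * I ^ 2 * d ≤ 64 * I ^ 2 * (cos R ^ 2 + sinh I ^ 2) :=
    mul_le_mul_of_nonneg_left hd (by positivity)
  have h4 : ρ ^ 2 * (1 - (cos R ^ 2 + sinh I ^ 2) + 2 * sinh I ^ 2) ≤
      ρ ^ 2 * (1 - d + 2016 / 1000 * I ^ 2) :=
    mul_le_mul_of_nonneg_left (by linarith) (by positivity)
  nlinarith

theorem i3 (h : V8 ρ R I p₁ p₂) (r0 : 0 ≤ ρ) (r1 : ρ ≤ 203 / 100) : I ^ 2 ≤ 18 / 1000 := by
  have h1 := h.i2 h.D0
  have hq : ρ ^ 2 ≤ 41209 / 10000 := by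
    have := pow_le_pow_left₀ r0 r1 2
    norm_num at this
    exact this
  have h0 : 0 ≤ I ^ 2 := by positivity
  have h2 : ρ ^ 2 * (19 / 100 + 2016 / 1000 * I ^ 2) ≤
      41209 / 10000 * (19 / 100 + 2016 / 1000 * I ^ 2) :=
    mul_le_mul_of_nonneg_right hq (by positivity)
  nlinarith

theorem i4 (h : V8 ρ R I p₁ p₂) (r0 : 0 ≤ ρ) (r1 : ρ ≤ 203 / 100) : I ≤ 1342 / 10000 := by
  have h1 := h.i3 r0 r1
  apply le_of_sq_le_sq _ (by norm_num)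
  norm_num
  linarith

/-- `R ≤ 1/2`. -/
theorem r (h : V8 ρ R I p₁ p₂) (r0 : 0 ≤ ρ) (r1 : ρ ≤ 203 / 100) : R ≤ 1 / 2 := by
  by_contra hn
  push Not at hn
  have h1 := h.i3 r0 r1
  have h2 := h.si
  have h3 : cos R < cos (1 / 2) := cos_lt_cos_of_nonneg_of_le_pi_div_two (by norm_num) h.R1.le hn
  have h4 := cos_le_T4 (x := 1 / 2) (by norm_num)
  have h5 : 0 ≤ cos R := cos_nonneg_of_mem_Icc ⟨by linarith [h.R0, pi_pos], h.R1.le⟩
  have h6 := h.D0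
  have h7 : cos R ^ 2 ≤ (8777 / 10000) ^ 2 := pow_le_pow_left₀ h5 (by norm_num at h4; linarith) 2
  norm_num at h7
  linarith

theorem hh (h : V8 ρ R I p₁ p₂) : (sinh I * cosh I) ^ 2 ≤ 1031 / 1000 * I ^ 2 := by
  have h1 := h.si
  have h2 := h.I1
  have h3 := h.I0
  rw [mul_pow, cosh_sq]
  have h4 : I ^ 2 ≤ 225 / 10000 := by nlinarith
  have h5 : 0 ≤ sinh I ^ 2 := by positivity
  have h6 : sinh I ^ 2 * sinh I ^ 2 ≤ (1008 / 1000 * I ^ 2) * (1008 / 1000 * (225 / 10000)) :=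
    mul_le_mul h1 (h1.trans (by linarith)) h5 (by positivity)
  nlinarith

/-- The slope of `tan z`: `h ≤ 0.336 s`. -/
theorem kap (h : V8 ρ R I p₁ p₂) (r0 : 0 ≤ ρ) (r1 : ρ ≤ 203 / 100) :
    sinh I * cosh I ≤ 336 / 1000 * (sin R * cos R) := by
  have hsR : 0 < sin R := sin_pos_of_pos_of_lt_pi h.R0 (by linarith [pi_pos, h.R1])
  have hcR : 0 < cos R := cos_pos_of_mem_Ioo ⟨by linarith [pi_pos, h.R0], h.R1⟩
  have hq : ρ ^ 2 ≤ 41209 / 10000 := by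
    have := pow_le_pow_left₀ r0 r1 2
    norm_num at this
    exact this
  apply le_of_sq_le_sq _ (by positivity)
  have h1 := h.k
  have h2 := h.hh
  have h3 := h.D0
  have e := nd_sq R I
  have hN : 0 ≤ sin R ^ 2 + sinh I ^ 2 := by positivity
  obtain ⟨D, eD⟩ : ∃ D, D = cos R ^ 2 + sinh I ^ 2 := ⟨_, rfl⟩
  obtain ⟨N, eN⟩ : ∃ N, N = sin R ^ 2 + sinh I ^ 2 := ⟨_, rfl⟩
  rw [← eD] at h1 h3 e
  rw [← eN] at h1 e hN
  have hI : 0 ≤ I ^ 2 := by positivity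
  -- `64 I² D ≤ 4.1209 N`
  have h4 : 64 * I ^ 2 * D ≤ 41209 / 10000 * N := h1.trans (mul_le_mul_of_nonneg_right hq hN)
  -- `I² ≤ c N D`
  have h5 : 64 * I ^ 2 * (81 / 100) ≤ 64 * I ^ 2 * D :=
    mul_le_mul_of_nonneg_left h3 (by positivity)
  have h6 : N * (81 / 100) ≤ N * D := mul_le_mul_of_nonneg_left h3 hN
  rw [mul_pow]
  nlinarith

/-- `|tan z|² ≤ 0.2802`. -/
theorem tn (h : V8 ρ R I p₁ p₂) (r0 : 0 ≤ ρ) (r1 : ρ ≤ 203 / 100) :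
    sin R ^ 2 + sinh I ^ 2 ≤ 2802 / 10000 * (cos R ^ 2 + sinh I ^ 2) := by
  have h1 := h.i3 r0 r1
  have h2 := h.si
  have h3 := h.D0
  rw [h.nd]
  linarith

end V8

end Pool.Agent.S5.E.VX
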