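import Pool.Agent.S5.E.VX.VUw

/-!
# The region of the slots of open nodes: the final form
-/

set_option autoImplicit false

namespace Pool.Agent.S5.E.VX

open Real Pool.Agent.S3.NI Pool.Agent.S5.E.B2 Pool.Agent.S5.G
open scoped ComplexConjugate

/-- `VU` with sharper bounds. -/
structure VUx (c0 c1 cl cx cn : ℝ) (ys vs : ℂ) : Prop extends VU ys vs where
  u0 : -c0 ≤ ys.im
  u1 : ys.im ≤ c1
  ul : lamv ys vs ≤ cl
  ux : vs.re ≤ cx
  un : vs.im ≤ cn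

theorem VUx.mono {c0 c1 cl cx cn d0 d1 dl dx dn : ℝ} {ys vs : ℂ} (h : VUx c0 c1 cl cx cn ys vs)
    (h0 : c0 ≤ d0) (h1 : c1 ≤ d1) (h2 : cl ≤ dl) (h3 : cx ≤ dx) (h4 : cn ≤ dn) :
    VUx d0 d1 dl dx dn ys vs :=
  ⟨h.toVU, by linarith [h.u0], by linarith [h.u1], by linarith [h.ul], by linarith [h.ux],
    by linarith [h.un]⟩

theorem SD.pos {R q : ℝ} {Rr Q : N} (mR : Mem R Rr) (mQ : Mem q Q) :
    SD (R + q) (R - q) (Nat.ble Rr.lo Q.hi) (Nat.add Rr.lo Q.lo) (Nat.add Rr.hi Q.hi)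
      (Nat.sub Rr.lo Q.hi) (Nat.sub Rr.hi Q.lo) (Nat.sub Q.hi Rr.lo) := by
  have lR : Lb Rr.lo R := mR.1
  have uR : Ub R Rr.hi := mR.2
  have lQ : Lb Q.lo q := mQ.1
  have uQ : Ub q Q.hi := mQ.2
  refine ⟨lR.add lQ, uR.add uQ, lR.subm uQ (le_max_right _ _) (le_max_left _ _),
    uR.subm lQ le_rfl, uQ.subm lR (by linarith), fun h => ?_⟩
  rw [← Bool.not_eq_true, Nat.ble_eq, not_le] at h
  have h0 : 0 ≤ R - q := by
    have h1 : (Q.hi : ℝ) ≤ Rr.lo := by exact_mod_cast h.le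
    unfold Lb at lR
    unfold Ub at uQ
    linarith
  exact ⟨h0, lR.subm uQ h0 le_rfl⟩

theorem SD.neg {R q : ℝ} {Rr Q : N} (mR : Mem R Rr) (mQ : Mem q Q) (hR : 0 ≤ R) (hq : 0 ≤ q)
    (h : Nat.ble Q.hi Rr.lo = true) :
    SD (R - q) (R + q) false (Nat.sub Rr.lo Q.hi) (Nat.sub Rr.hi Q.lo) (Nat.add Rr.lo Q.lo)
      (Nat.add Rr.hi Q.hi) 0 := by
  have lR : Lb Rr.lo R := mR.1
  have uR : Ub R Rr.hi := mR.2
  have lQ : Lb Q.lo q := mQ.1
  have uQ : Ub q Q.hi := mQ.2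
  rw [Nat.ble_eq] at h
  have h0 : 0 ≤ R - q := by
    have h1 : (Q.hi : ℝ) ≤ Rr.lo := by exact_mod_cast h
    unfold Lb at lR
    unfold Ub at uQ
    linarith
  have hd : max (R + q) 0 = R + q := max_eq_left (by linarith)
  refine ⟨lR.subm uQ h0 le_rfl, uR.subm lQ le_rfl, ?_, uR.add uQ, ?_, fun _ => ⟨by linarith,
    lR.add lQ⟩⟩
  · rw [hd]
    exact lR.add lQ
  · unfold Ub
    push_cast
    nlinarith

/-- The position of the vertex. -/
theorem uG_sound {k : UK} {P Rr Ir : N} {p R I : ℝ} (h : uG k P Rr Ir = true) (mP : Mem p P)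
    (mR : Mem R Rr) (mI : Mem I Ir) (hn : k.nh ≤ 296846829) :
    (Rr.hi ≤ 725250776 ∧ Ir.hi < P.lo) ∧ (R ≤ 215 / 1000 * π ∧ I ≤ 88 / 1000 * π) ∧
      (Ub R k.xh ∧ Ub I k.nh) ∧ (4 * I ≤ π * p ∧ 3 * I ≤ 8 * p * (28 / 100 * π - R)) := by
  unfold uG at h
  simp only [Bool.and_eq_true, Nat.ble_eq] at h
  obtain ⟨⟨⟨⟨g0, g00⟩, g2'⟩, g3, g4⟩, g5⟩ := h
  have g1 : Rr.hi ≤ 725250776 := g0.trans g00
  have g2 : Ir.hi ≤ 296846829 := g2'.trans hn
  have p1 := pi_lb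
  unfold Lb at p1
  push_cast at p1
  have lP : (P.lo : ℝ) ≤ p * 1073741824 := mP.1
  have uR : R * 1073741824 ≤ Rr.hi := mR.2
  have uI : I * 1073741824 ≤ Ir.hi := mI.2
  have r1 : (Rr.hi : ℝ) ≤ 725250776 := by exact_mod_cast g1
  have r2 : (Ir.hi : ℝ) ≤ 296846829 := by exact_mod_cast g2
  have r4 : (4294967296 : ℝ) * Ir.hi ≤ P.lo * 3373259426 := by
    have : (4294967296 * Ir.hi : ℕ) ≤ P.lo * 3373259426 := g4
    exact_mod_cast this
  have nP : (0 : ℝ) ≤ P.lo := P.lo.cast_nonneg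
  have q1 : (Rr.hi : ℝ) ≤ k.xh := by exact_mod_cast g0
  have q2 : (Ir.hi : ℝ) ≤ k.nh := by exact_mod_cast g2'
  refine ⟨⟨g1, g3⟩, ⟨by linarith, by linarith⟩, ⟨uR.trans q1, uI.trans q2⟩, ?_, ?_⟩
  · have k1 : (P.lo : ℝ) * 3373259426 ≤ P.lo * (π * 1073741824) :=
      mul_le_mul_of_nonneg_left p1 nP
    have k2 : (P.lo : ℝ) * (π * 1073741824) ≤ p * 1073741824 * (π * 1073741824) :=
      mul_le_mul_of_nonneg_right lP (by positivity)
    nlinarith
  · have r5 : (3221225472 : ℝ) * Ir.hi ≤ 8 * P.lo * ((Nat.sub 944512639 Rr.hi : ℕ) : ℝ) := by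
      have : (3221225472 * Ir.hi : ℕ) ≤ 8 * P.lo * Nat.sub 944512639 Rr.hi := g5
      exact_mod_cast this
    have hx : Nat.sub 944512639 Rr.hi + Rr.hi = 944512639 := by
      show 944512639 - Rr.hi + Rr.hi = 944512639
      omega
    have hx' : ((Nat.sub 944512639 Rr.hi : ℕ) : ℝ) + Rr.hi = 944512639 := by exact_mod_cast hx
    have k1 : ((Nat.sub 944512639 Rr.hi : ℕ) : ℝ) ≤ (28 / 100 * π - R) * 1073741824 := by linarith
    have k0 : (0 : ℝ) ≤ ((Nat.sub 944512639 Rr.hi : ℕ) : ℝ) := Nat.cast_nonneg _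
    have k2 : 8 * (P.lo : ℝ) * ((Nat.sub 944512639 Rr.hi : ℕ) : ℝ) ≤
        8 * (p * 1073741824) * ((28 / 100 * π - R) * 1073741824) :=
      mul_le_mul (by linarith) k1 k0 (by nlinarith)
    nlinarith

/-- **Soundness of the test.** -/
theorem accU_sound {k : UK} {e0 e1 l x n : ℝ} (hk : k.Ok e0 e1 l) (he0 : e0 ≤ 135 / 1000)
    (he1 : e1 ≤ 1 / 10) (hl : l ≤ 38 / 100) (hx : Lb k.xh (x * π)) (hn : Lb k.nh (n * π)) {m : Md} {P Q Rr Ir : N} {w z : ℂ} {q : ℝ}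
    (h : accU k m P Q Rr Ir = true) (hs : G.Slot w z) (hw : w.im = sq m q) (q0 : 0 ≤ q)
    (q1 : q ≤ π / 2) (mP : Mem w.re P) (mQ : Mem q Q) (mR : Mem z.re Rr) (mI : Mem z.im Ir) :
    VUx e0 e1 l x n (sy w z) (z / π) := by
  have hpi := pi_pos
  have habs : |w.im| = q := by
    rw [hw]
    cases m with
    | n => show |(-q)| = q; rw [abs_neg, abs_of_nonneg q0]
    | o => exact abs_of_nonneg q0
    | a => exact abs_of_nonneg q0
    | s => exact abs_of_nonneg q0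
  have mQ' : Mem |w.im| Q := by rw [habs]; exact mQ
  obtain ⟨ng, si0, si1, de0, de1, D, hG, hd, hB⟩ : ∃ (ng : Bool) (si0 si1 de0 de1 D : ℕ),
      uG k P Rr Ir = true ∧ SD (z.re + w.im) (z.re - w.im) ng si0 si1 de0 de1 D ∧
        uB' k P Q Rr Ir ng si0 si1 de0 de1 D = true := by
    unfold accU at h
    cases m with
    | o => exact absurd h (by simp)
    | n =>
      simp only [Bool.and_eq_true] at h
      obtain ⟨h1, h2, h3⟩ := h
      refine ⟨_, _, _, _, _, _, h1, ?_, h3⟩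
      rw [hw, show sq Md.n q = -q from rfl, ← sub_eq_add_neg, sub_neg_eq_add]
      exact SD.neg mR mQ hs.z0.le q0 h2
    | a =>
      simp only [Bool.and_eq_true] at h
      refine ⟨_, _, _, _, _, _, h.1, ?_, h.2⟩
      rw [hw]
      exact SD.pos mR mQ
    | s =>
      simp only [Bool.and_eq_true] at h
      refine ⟨_, _, _, _, _, _, h.1, ?_, h.2⟩
      rw [hw]
      exact SD.pos mR mQ
  obtain ⟨⟨gR, gI⟩, ⟨x1, n1⟩, ⟨xx, nn⟩, b1, b2⟩ := uG_sound hG mP mR mI hk.n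
  have lP : Lb P.lo w.re := mP.1
  have uP : Ub w.re P.hi := mP.2
  have lI : Lb Ir.lo z.im := mI.1
  have uI : Ub z.im Ir.hi := mI.2
  have hα : 0 < w.re - z.im := by
    have : (Ir.hi : ℝ) < P.lo := by exact_mod_cast gI
    unfold Lb at lP
    unfold Ub at uI
    linarith
  have hp : 0 < w.re := by linarith [hs.zi]
  have hPI : P.hi ≤ Nat.add P.hi Ir.hi := Nat.le_add_right _ _
  obtain ⟨⟨⟨t0, t1⟩, g, p⟩, ⟨f0, f1⟩, d, ll, l2⟩ := uB_sound hk hs hB mP mQ' mR mI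
    (lP.subm uI hα.le le_rfl) (uP.subm lI le_rfl) hα (lP.add lI) (uP.add uI)
    ((Nat.sub_le P.hi Ir.lo).trans hPI) hPI (Nat.le_add_left _ _) (by rw [habs]; exact q1) hd gR
  have hsw : Complex.sinh w ≠ 0 := by
    intro h0
    have h1 : 0 < ‖Complex.sinh w‖ ^ 2 := by
      rw [norm_sinh_sq']
      have := sinh_pos_iff.2 hp
      positivity
    rw [h0, norm_zero] at h1
    norm_num at h1
  obtain ⟨LamE, -⟩ := slot_log hs hsw
  have er : (z / (π : ℂ)).re * π = z.re := by rw [v_re]; exact div_mul_cancel₀ _ hpi.ne'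
  have ei : (z / (π : ℂ)).im * π = z.im := by rw [v_im]; exact div_mul_cancel₀ _ hpi.ne'
  have key : ∀ {x y : ℝ}, x * π ≤ y * π → x ≤ y := fun h => le_of_mul_le_mul_right h hpi
  refine ⟨⟨?_, ?_, ?_, ?_, ?_, ?_, ?_, ?_, by linarith, by linarith, ?_, by linarith, ?_, ?_, ?_⟩,
    f0, f1, ll, ?_, ?_⟩
  · rw [v_re]; exact div_pos hs.z0 hpi
  · apply key; rw [er]; exact x1
  · rw [v_im]; exact div_pos hs.zi hpi
  · apply key; rw [ei]; exact n1
  · apply key; rw [sub_mul, er]; linarith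
  · apply key; linarith
  · apply key; linarith
  · apply key; rw [add_mul, er]; linarith
  · rw [v_im]; exact d
  · rw [v_im]; exact l2
  · apply key
    rw [LamE, mul_assoc, ei]
    linarith
  · apply key
    rw [LamE, mul_assoc, ei, mul_assoc, sub_mul, er]
    linarith
  · apply key
    rw [er]
    unfold Ub at xx
    unfold Lb at hx
    linarith
  · apply key
    rw [ei]
    unfold Ub at nn
    unfold Lb at hn
    linarith

end Pool.Agent.S5.E.VX
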