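import Pool.Agent.S5.E.VX.W8b
import Pool.Agent.S5.E.T.Via

/-!
# The region of the slots of open nodes: from the tables
-/

set_option autoImplicit false

namespace Pool.Agent.S5.E.VX

open Real Pool.Agent.S3.NI Pool.Agent.S5.E.B2 Pool.Agent.S5.G
open Pool.Agent.S3.E (PP)

/-- The conclusion for the kind `c`. -/
def VUc (c : ℕ) (ys vs : ℂ) : Prop := VUx (KE0 c) (KE1 c) (KL c) (KX c) (KN c) ys vs

/-- The checker: a kind and an instance (first slot). -/
def chkU (x : ℕ × Inst) : Bool :=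
  bif Nat.beq x.2.a 8 then chk8 x
  else chkW 3 60 (fun m1 _ A B _ _ R I => accU (KU x.1) m1 A B R I) x.2

variable {ι : Type*}

theorem Fit.vu {a : ι → ℝ} {nl nr : ι → Option (ι × Bool)} {z : ι → ℂ} {x : ℕ × Inst}
    {i j : ι} {o : Option (ι × Bool)} (hf : Fit a nl nr z x.2 i j o)
    (h : Zr true a nl nr (gC a nl nr) 1 z) (hc : chkU x = true) {q : ℂ}
    (hq : q.re = PP (bo true 1 z (some (j, x.2.s₁)) * Complex.tan (z i)))
    (hq' : q.im = RS (bo true 1 z (some (j, x.2.s₁)) * Complex.tan (z i)))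
    (hs : G.Slot q (z i)) : VUc x.1 (sy q (z i)) (z i / π) := by
  unfold chkU at hc
  cases h8 : Nat.beq x.2.a 8 with
  | true =>
    rw [h8, cond_true] at hc
    exact chk8_sound hf h hc hq hq' hs
  | false =>
  rw [h8, cond_false] at hc
  obtain ⟨φ₁, φ₂, hv, h1, h2, ho⟩ := hf.vx h
  refine chkW_sound hc hv hf.a h1 h2 ho ?_
  intro ab m1 _ m2 _ q₁ q₂ e1 _ hV A B C D Rr Ir hk hA hB _ _ hR hI _ _
  exact accK_sound hk hs (hq'.trans e1) hV.s1.q0 hV.s1.q1 (by rw [hq]; exact hA) hB hR hI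

/-- The kind of the slot of `J` towards `I`. -/
def kU (J I : Vt) : ℕ :=
  match I.a, I.o with
  | 2, none => 1
  | 3, none => bif J.s then 3 else 2
  | 4, none => bif Nat.ble 6 J.a then (bif J.s then 5 else 4) else 0
  | 3, some _ => bif Nat.ble 6 J.a then (bif J.s then 7 else 6) else (bif J.s then 9 else 8)
  | 4, some _ => bif J.s then 9 else 8
  | _, _ => 0

/-- The instance `x` gives the slot of `J`; the neighbours are in `rI`, `rK`. -/
def hitU (J : Vt) (c : ℕ) (x : ℕ × Inst) (rI rK own : Rg) : Bool :=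
  (Nat.beq x.1 c && Nat.beq x.2.a J.a) && ((x.2.s₁ == J.s && x.2.s₂ == J.o) &&
    (Sb rI x.2.r₁ && (Sb rK x.2.r₂ && Sb own x.2.own)))

def hitU0 (J : Vt) (c : ℕ) (x : ℕ × Inst) (rI own : Rg) : Bool :=
  (Nat.beq x.1 c && Nat.beq x.2.a J.a) && ((x.2.s₁ == J.s && x.2.s₂ == none) &&
    (Sb rI x.2.r₁ && Sb own x.2.own))

/-- The instance gives the region of the vertex. -/
theorem hit_sound {a : ι → ℝ} {n : ι → ℕ} {nl nr : ι → Option (ι × Bool)} {z : ι → ℂ}
    (h : Zr true a nl nr (gC a nl nr) 1 z) (hC : Ch a nl nr) (h3 : In3 a nl nr z)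
    (hn : ChT a n nl nr) {x : Inst} (hx : x.Ok) {i j k : ι} {s s' : Bool}
    (hi : At nl nr i (some (j, s)) (some (k, s'))) {rI rK own out : Rg}
    (hown : InR own (Complex.cos (z i)).re (-(Complex.cos (z i)).im))
    (hrI : InR rI (Complex.cos (z j)).re (-(Complex.cos (z j)).im))
    (hrK : InR rK (Complex.cos (z k)).re (-(Complex.cos (z k)).im))
    (hh : hit x ⟨n i, s, some s'⟩ rI rK own out = true) :
    InR out (Complex.cos (z i)).re (-(Complex.cos (z i)).im) := by
  unfold hit at hh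
  simp only [Bool.and_eq_true, Bool.or_eq_true, Nat.beq_eq, beq_iff_eq] at hh
  rcases hh with ⟨e1, ⟨e2, e3, e4, e5⟩ | ⟨e2, e3, e4, e5⟩, e7, e6⟩
  · have := h.app hC h3 hx (i := i) (j := j) (o := some (k, s')) (by rw [e1]; exact hn.hA i)
      (by rw [e2]; exact hi) (by rw [e3]; rfl) (hown.sub e7) (hrI.sub e4) (by
        intro j' s'' e
        rw [Option.some.injEq, Prod.mk.injEq] at e
        rw [← e.1]
        exact hrK.sub e5)
    exact (InR.capR hown this).sub e6
  · have es : x.s₁ = s' := by simpa using e2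
    have := h.app hC h3 hx (i := i) (j := k) (o := some (j, s)) (by rw [e1]; exact hn.hA i)
      (by rw [es]; exact hi.sw) (by rw [e3]; rfl) (hown.sub e7) (hrK.sub e4) (by
        intro j' s'' e
        rw [Option.some.injEq, Prod.mk.injEq] at e
        rw [← e.1]
        exact hrI.sub e5)
    exact (InR.capR hown this).sub e6

/-- Directly, or by all neighbours of the neighbour. -/
def viaU (T : Vt → Vt → Rg) (V : Vt → Vt → Vt → Rg) (sp : List Vt) (E : List Inst) (J I : Vt)
    (rJ rI : Rg) (f : Rg → Bool) : Bool :=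
  f rI || (sp.contains I && match I.o with
    | none => false
    | some t => (types t).all fun M => !(M.ok && adm I J M) || (f (capR rI (V I J M)) ||
        E.any fun y => hit y I rJ (T M I.sw) (capR (T I J) (T I.sw M)) y.out &&
          f (capR (capR rI (V I J M)) y.out)))

/-- The check of one slot. -/
def covUE (T : Vt → Vt → Rg) (V : Vt → Vt → Vt → Rg) (sp : List Vt) (E : List Inst)
    (L : List (ℕ × Inst)) (J I : Vt) : Bool :=
  !(J.ok && I.ok) ||
    match J.o with
    | none => viaU T V sp E J I (T J I) (T I J) fun r =>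
        L.any fun x => hitU0 J (kU J I) x r (T J I)
    | some s' => (types s').all fun K => !(K.ok && adm J I K) ||
        viaU T V sp E J I (capR (T J I) (T J.sw K)) (T I J) fun r => L.any fun x =>
          hitU J (kU J I) x r (T K J.sw) (capR (T J I) (T J.sw K))

theorem viaU_sound {T : Vt → Vt → Rg} {V : Vt → Vt → Vt → Rg} {sp : List Vt} {E : List Inst}
    {a : ι → ℝ} {n : ι → ℕ} {nl nr : ι → Option (ι × Bool)} {z : ι → ℂ}
    (hz : Zr true a nl nr (gC a nl nr) 1 z) (hC : Ch a nl nr) (h3 : In3 a nl nr z)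
    (hn : ChT a n nl nr) (hT : Tab T n nl nr z)
    (hV : ∀ I ∈ sp, TabV I (V I) n nl nr z) (hE : ∀ y ∈ E, y.Ok) {i j : ι} {s : Bool}
    {o o' : Option (ι × Bool)} (hi : At nl nr i (some (j, s)) o)
    (hj : At nl nr j (some (i, s)) o') {rJ rI : Rg}
    (hrJ : InR rJ (Complex.cos (z i)).re (-(Complex.cos (z i)).im))
    (hrI : InR rI (Complex.cos (z j)).re (-(Complex.cos (z j)).im)) {f : Rg → Bool}
    (h : viaU T V sp E ⟨n i, s, kd o⟩ ⟨n j, s, kd o'⟩ rJ rI f = true) :
    ∃ r, InR r (Complex.cos (z j)).re (-(Complex.cos (z j)).im) ∧ f r = true := by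
  unfold viaU at h
  rw [Bool.or_eq_true] at h
  rcases h with h | h
  · exact ⟨rI, hrI, h⟩
  rw [Bool.and_eq_true, List.contains_iff_mem] at h
  obtain ⟨h1, h2⟩ := h
  cases o' with
  | none => simp [kd] at h2
  | some ms =>
    obtain ⟨m, t⟩ := ms
    have hm : ∃ o'', At nl nr m (some (j, t)) o'' := by
      have h3 : nl j = some (m, t) ∨ nr j = some (m, t) := by
        rcases hj with ⟨-, h4⟩ | ⟨h4, -⟩
        · exact Or.inr h4
        · exact Or.inl h4
      rcases hC.N.symm j m t h3 with h4 | h4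
      · exact ⟨_, Or.inl ⟨h4, rfl⟩⟩
      · exact ⟨_, Or.inr ⟨rfl, h4⟩⟩
    obtain ⟨o'', hm⟩ := hm
    have hM := hn.v m j t o'' hm
    have had := hn.d j i m s t o o'' hj hi hm
    have hrM := hT m j t o'' (some (i, s)) hm hj.sw
    have hown := InR.capR (hT j i s (some (m, t)) o hj hi) (hT j m t (some (i, s)) o'' hj.sw hm)
    simp only [kd, Option.map_some, List.all_eq_true] at h2 had h1 hrM hown
    have h4 := h2 ⟨n m, t, kd o''⟩ (mem_types hM)
    rw [hM] at h4
    simp only [kd, Vt.sw] at h4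
    rw [had, Bool.and_true, Bool.not_true, Bool.false_or, Bool.or_eq_true] at h4
    have h6 := hV _ h1 j i m t o o'' rfl rfl hj hi hm
    rcases h4 with h4 | h4
    · exact ⟨_, InR.capR hrI h6, h4⟩
    · rw [List.any_eq_true] at h4
      obtain ⟨y, hy, h5⟩ := h4
      rw [Bool.and_eq_true] at h5
      exact ⟨_, InR.capR (InR.capR hrI h6)
        (hit_sound hz hC h3 hn (hE y hy) hj hown hrJ hrM h5.1), h5.2⟩

/-- **The slots.** -/
theorem covUE_sound {T : Vt → Vt → Rg} {V : Vt → Vt → Vt → Rg} {sp : List Vt} {E : List Inst}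
    {L : List (ℕ × Inst)} {a : ι → ℝ} {n : ι → ℕ} {nl nr : ι → Option (ι × Bool)} {z : ι → ℂ}
    (h : Zr true a nl nr (gC a nl nr) 1 z) (hC : Ch a nl nr) (h3 : In3 a nl nr z)
    (hn : ChT a n nl nr) (hT : Tab T n nl nr z) (hV : ∀ I ∈ sp, TabV I (V I) n nl nr z)
    (hE : ∀ y ∈ E, y.Ok) (hL : ∀ x ∈ L, chkU x = true) {i j : ι} {s : Bool} {o o' : Option (ι × Bool)}
    (hi : At nl nr i (some (j, s)) o) (hj : At nl nr j (some (i, s)) o')
    (hc : covUE T V sp E L ⟨n i, s, kd o⟩ ⟨n j, s, kd o'⟩ = true) {q : ℂ}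
    (hq : q.re = PP (bo true 1 z (some (j, s)) * Complex.tan (z i)))
    (hq' : q.im = RS (bo true 1 z (some (j, s)) * Complex.tan (z i)))
    (hs : G.Slot q (z i)) :
    VUc (kU ⟨n i, s, kd o⟩ ⟨n j, s, kd o'⟩) (sy q (z i)) (z i / π) := by
  have hJ := hn.v i j s o hi
  have hI := hn.v j i s o' hj
  unfold covUE at hc
  rw [hJ, hI, Bool.and_true, Bool.not_true, Bool.false_or] at hc
  have hown := hT i j s o o' hi hj
  have hrI := hT j i s o' o hj hi
  generalize kU ⟨n i, s, kd o⟩ ⟨n j, s, kd o'⟩ = c at hc ⊢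
  cases o with
  | none =>
    simp only [kd, Option.map_none] at hc
    obtain ⟨r, hr, hf⟩ := viaU_sound h hC h3 hn hT hV hE hi hj hown hrI hc
    rw [List.any_eq_true] at hf
    obtain ⟨x, hx, hh⟩ := hf
    unfold hitU0 at hh
    simp only [Bool.and_eq_true, Nat.beq_eq, beq_iff_eq] at hh
    obtain ⟨⟨e0, e1⟩, ⟨e2, e3⟩, e4, e5⟩ := hh
    have hfit : Fit a nl nr z x.2 i j none := by
      refine ⟨by rw [e1]; exact hn.hA i, by rw [e2]; exact hi, by rw [e3]; rfl, hown.sub e5,
        hr.sub e4, ?_⟩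
      intro j' s' e
      simp at e
    have := hfit.vu h (hL x hx) (q := q) (by rw [e2]; exact hq) (by rw [e2]; exact hq') hs
    rwa [e0] at this
  | some ks =>
    obtain ⟨k, s'⟩ := ks
    have hk : ∃ o'', At nl nr k (some (i, s')) o'' := by
      have h1 : nl i = some (k, s') ∨ nr i = some (k, s') := by
        rcases hi with ⟨-, h2⟩ | ⟨h2, -⟩
        · exact Or.inr h2
        · exact Or.inl h2
      rcases hC.N.symm i k s' h1 with h2 | h2
      · exact ⟨_, Or.inl ⟨h2, rfl⟩⟩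
      · exact ⟨_, Or.inr ⟨rfl, h2⟩⟩
    obtain ⟨o'', hk⟩ := hk
    have hK := hn.v k i s' o'' hk
    have had := hn.d i j k s s' o' o'' hi hj hk
    have hrK := hT k i s' o'' (some (j, s)) hk hi.sw
    have hown' := InR.capR hown (hT i k s' (some (j, s)) o'' hi.sw hk)
    simp only [kd, Option.map_some, List.all_eq_true] at hc
    have h4 := hc ⟨n k, s', kd o''⟩ (mem_types hK)
    rw [hK] at h4
    simp only [kd, Option.map_some] at h4 had hrI hrK hown'
    rw [had, Bool.and_true, Bool.not_true, Bool.false_or] at h4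
    have h5 := viaU_sound h hC h3 hn hT hV hE (o := some (k, s')) hi hj hown' hrI h4
    obtain ⟨r, hr, hf⟩ := h5
    rw [List.any_eq_true] at hf
    obtain ⟨x, hx, hh⟩ := hf
    unfold hitU at hh
    simp only [Bool.and_eq_true, Nat.beq_eq, beq_iff_eq, Vt.sw] at hh
    obtain ⟨⟨e0, e1⟩, ⟨e2, e3⟩, e4, e5, e6⟩ := hh
    have hfit : Fit a nl nr z x.2 i j (some (k, s')) := by
      refine ⟨by rw [e1]; exact hn.hA i, by rw [e2]; exact hi, by rw [e3]; rfl, hown'.sub e6,
        hr.sub e4, ?_⟩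
      intro j' s'' e
      rw [Option.some.injEq, Prod.mk.injEq] at e
      rw [← e.1]
      exact hrK.sub e5
    have := hfit.vu h (hL x hx) (q := q) (by rw [e2]; exact hq) (by rw [e2]; exact hq') hs
    rwa [e0] at this

end Pool.Agent.S5.E.VX
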