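import Pool.Agent.S5.E.VX.VUc
import Pool.Agent.S5.Ctx

/-!
# The region of the slots of open nodes: in the chain
-/

set_option autoImplicit false

namespace Pool.Agent.S5

open Pool.Agent.S5.E (Vt kd aF nlF nrF nF vL vR)
open Pool.Agent.S5.E.VX (VUc kU covUE chkU)
open Pool.Agent.S5.G (sy)

/-- The regions by both neighbours, seen from the `S` edge. -/
theorem TabV_sw {ι : Type*} {V : Vt → Vt → E.B2.Rg} {n : ι → ℕ}
    {nl nr : ι → Option (ι × Bool)} {z : ι → ℂ}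
    (h : E.TabV ⟨2, false, some true⟩ V n nl nr z) :
    E.TabV ⟨2, true, some false⟩ (fun I K => V K I) n nl nr z := by
  intro i j k s' o₁ o₂ eo ea hi hj hk
  rw [Option.some.injEq] at eo
  subst eo
  exact h i k j true o₂ o₁ rfl ea hi.sw hk hj

/-- The check of all slots of the vertices with five or more half twists. -/
structure HVU (T : Vt → Vt → E.B2.Rg) (V : Vt → Vt → Vt → E.B2.Rg) (sp : List Vt)
    (EX : List E.Inst) (L : Vt → List (ℕ × E.Inst)) : Prop where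
  e : ∀ y ∈ EX, y.Ok
  l : ∀ J, ∀ x ∈ L J, chkU x = true
  c : ∀ s : Bool, ((E.types s).all fun J => !(Nat.ble 5 J.a) ||
    (E.types s).all fun I => covUE T V sp EX (L J) J I) = true

theorem HVU.cov {T : Vt → Vt → E.B2.Rg} {V : Vt → Vt → Vt → E.B2.Rg} {sp : List Vt}
    {EX : List E.Inst} {L : Vt → List (ℕ × E.Inst)} (h : HVU T V sp EX L) {J I : Vt} (hJ : J.ok = true)
    (hI : I.ok = true) (hs : I.s = J.s) (h5 : 5 ≤ J.a) : covUE T V sp EX (L J) J I = true := by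
  have h1 := List.all_eq_true.1 (h.c J.s) J (E.mem_types hJ)
  have h6 : Nat.ble 5 J.a = true := by rw [Nat.ble_eq]; exact h5
  rw [h6, Bool.not_true, Bool.false_or] at h1
  exact List.all_eq_true.1 h1 I (by rw [← hs]; exact E.mem_types hI)

namespace Ctx

variable {T : Vt → Vt → E.B2.Rg} {V : Vt → Vt → Vt → E.B2.Rg} {sp : List Vt}
  {EX : List E.Inst} {L : Vt → List (ℕ × E.Inst)} {R : ℕ} {a : ℕ → ℕ} {S : ℕ → Bool} {r : ℕ → ℤ}
  {z ql qr : ℕ → ℂ} {zF : Fin (R + 1) → ℂ}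

/-- The right slot. -/
theorem vuR (h : Ctx T R a S r z ql qr zF) (hU : HVU T V sp EX L)
    (hV : ∀ I ∈ sp, E.TabV I (V I) (nF R a) (nlF R S) (nrF R S) zF) {i : ℕ} (hi : i < R)
    (h5 : 5 ≤ a i) :
    VUc (kU (vR a S i) (vL R a S (i + 1))) (sy (qr i) (z i)) (z i / Real.pi) := by
  have e1 := Pre.vR_eq' (R := R) (a := a) (S := S) hi
  have e2 := Pre.vL_eq' (R := R) (a := a) (S := S) hi
  have en : nrF R S (⟨i, by omega⟩ : Fin (R + 1)) =
    some ((⟨i + 1, by omega⟩ : Fin (R + 1)), S i) := E.nrF_iff.2 ⟨rfl, rfl⟩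
  have ez : z i = zF ⟨i, by omega⟩ := h.sol.ez ⟨i, by omega⟩
  have er : qr i = E.as (E.bo true 1 zF (nrF R S ⟨i, by omega⟩) *
    Complex.tan (zF ⟨i, by omega⟩)) := h.sol.er ⟨i, by omega⟩
  rw [en] at er
  have hc := hU.cov (J := vR a S i) (I := vL R a S (i + 1)) (h.ok_r hi) (h.ok_l hi) (by
    rw [← e1, ← e2]) (by
      rw [← e1]
      show 5 ≤ min (a i) 8
      omega)
  rw [← e1, ← e2] at hc ⊢
  rw [ez]
  refine E.VX.covUE_sound h.sol.zr (E.ch_of_adm h.adm.toAdm)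
    (h.sol.in3 h.adm.toAdm) (E.chT_of_adm h.adm) h.tab hV hU.e (hU.l _) (Pre.at_l hi) (Pre.at_r hi) hc ?_ ?_ ?_
  · rw [er, E.as_re]
  · rw [er, E.as_im]
  · rw [← ez]
    exact (h.sdr hi).slot

/-- The left slot. -/
theorem vuL (h : Ctx T R a S r z ql qr zF) (hU : HVU T V sp EX L)
    (hV : ∀ I ∈ sp, E.TabV I (V I) (nF R a) (nlF R S) (nrF R S) zF) {i : ℕ} (hi : i < R)
    (h5 : 5 ≤ a (i + 1)) :
    VUc (kU (vL R a S (i + 1)) (vR a S i)) (sy (ql (i + 1)) (z (i + 1)))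
      (z (i + 1) / Real.pi) := by
  have e1 := Pre.vR_eq' (R := R) (a := a) (S := S) hi
  have e2 := Pre.vL_eq' (R := R) (a := a) (S := S) hi
  have en : nlF R S (⟨i + 1, by omega⟩ : Fin (R + 1)) =
    some ((⟨i, by omega⟩ : Fin (R + 1)), S i) := E.nlF_iff.2 ⟨rfl, rfl⟩
  have ez : z (i + 1) = zF ⟨i + 1, by omega⟩ := h.sol.ez ⟨i + 1, by omega⟩
  have el : ql (i + 1) = E.as (E.bo true 1 zF (nlF R S ⟨i + 1, by omega⟩) *
    Complex.tan (zF ⟨i + 1, by omega⟩)) := h.sol.el ⟨i + 1, by omega⟩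
  rw [en] at el
  have hc := hU.cov (J := vL R a S (i + 1)) (I := vR a S i) (h.ok_l hi) (h.ok_r hi) (by
    rw [← e1, ← e2]) (by
      rw [← e2]
      show 5 ≤ min (a (i + 1)) 8
      omega)
  rw [← e1, ← e2] at hc ⊢
  rw [ez]
  refine E.VX.covUE_sound h.sol.zr (E.ch_of_adm h.adm.toAdm)
    (h.sol.in3 h.adm.toAdm) (E.chT_of_adm h.adm) h.tab hV hU.e (hU.l _) (Pre.at_r hi) (Pre.at_l hi) hc ?_ ?_ ?_
  · rw [el, E.as_re]
  · rw [el, E.as_im]
  · rw [← ez]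
    exact (h.sdl hi).slot

end Ctx

end Pool.Agent.S5
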