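import Pool.Agent.S5.E.VX.VUf
import Pool.Agent.S5.E.VX.VLc
import Pool.Agent.S5.E.T.VFin

/-!
# The region of the slots of open nodes: the final table
-/

set_option autoImplicit false

namespace Pool.Agent.S5

open Pool.Agent.S5.E (Vt kd aF nlF nrF nF vL vR Tfin V9S)
open Pool.Agent.S5.E.VX (VUc kU)
open Pool.Agent.S5.G (sy)

/-- All slots of the vertices with five or more half twists are checked. -/
theorem hvu : HVU Tfin E.VX.VU9 E.VX.spU E.VX.EXU E.VX.LU :=
  ⟨E.VX.EXU_ok, E.VX.LU_ok, E.VX.covU_all⟩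

theorem hvu_V {ι : Type*} {n : ι → ℕ} {nl nr : ι → Option (ι × Bool)} {z : ι → ℂ}
    (h : E.TabV ⟨2, false, some true⟩ V9S n nl nr z) :
    ∀ I ∈ E.VX.spU, E.TabV I (E.VX.VU9 I) n nl nr z := by
  intro I hI
  unfold E.VX.spU at hI
  rw [List.mem_cons, List.mem_singleton] at hI
  rcases hI with rfl | rfl
  · exact h
  · exact TabV_sw h

namespace Ctx

variable {R : ℕ} {a : ℕ → ℕ} {S : ℕ → Bool} {r : ℕ → ℤ} {z ql qr : ℕ → ℂ}
  {zF : Fin (R + 1) → ℂ}

/-- The table of the special vertices. -/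
theorem tabVS (h : Ctx Tfin R a S r z ql qr zF) :
    E.TabV ⟨2, false, some true⟩ V9S (nF R a) (nlF R S) (nrF R S) zF :=
  E.tabV_S h.sol.zr (E.ch_of_adm h.adm.toAdm) (h.sol.in3 h.adm.toAdm) (E.chT_of_adm h.adm) h.tab

/-- The right slot of a node with five or more half twists, for the final table. -/
theorem vu_r (h : Ctx Tfin R a S r z ql qr zF) {i : ℕ} (hi : i < R) (h5 : 5 ≤ a i) :
    VUc (kU (vR a S i) (vL R a S (i + 1))) (sy (qr i) (z i)) (z i / Real.pi) :=
  h.vuR hvu (hvu_V h.tabVS) hi h5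

/-- The left slot of a node with five or more half twists, for the final table. -/
theorem vu_l (h : Ctx Tfin R a S r z ql qr zF) {i : ℕ} (hi : i < R) (h5 : 5 ≤ a (i + 1)) :
    VUc (kU (vL R a S (i + 1)) (vR a S i)) (sy (ql (i + 1)) (z (i + 1)))
      (z (i + 1) / Real.pi) :=
  h.vuL hvu (hvu_V h.tabVS) hi h5

end Ctx

end Pool.Agent.S5
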