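import Pool.Agent.S5.E.VX.VUa

/-!
# The region of the slots of open nodes: the kinds
-/

set_option autoImplicit false

namespace Pool.Agent.S5.E.VX

open Real Pool.Agent.S3.NI Pool.Agent.S5.E.B2 Pool.Agent.S5.G

theorem exp_le_q {x U : ℝ} (h0 : 0 ≤ x) (h1 : x ≤ 2)
    (hU : ∑ m ∈ Finset.range 12, (x / 2) ^ m / m.factorial +
      (x / 2) ^ 12 * (12 + 1) / (Nat.factorial 12 * 12) ≤ U) : exp x ≤ U ^ 2 := by
  have h2 := Real.exp_bound' (x := x / 2) (by linarith) (by linarith) (n := 12) (by norm_num)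
  have h3 : exp (x / 2) ≤ U := h2.trans (by exact_mod_cast hU)
  have h4 : exp x = exp (x / 2) ^ 2 := by
    rw [← exp_nat_mul]
    congr 1
    push_cast
    ring
  rw [h4]
  exact pow_le_pow_left₀ (exp_pos _).le h3 2

theorem exp_neg_ge {x U c : ℝ} (h0 : 0 ≤ x) (h1 : x ≤ 2)
    (hU : ∑ m ∈ Finset.range 12, (x / 2) ^ m / m.factorial +
      (x / 2) ^ 12 * (12 + 1) / (Nat.factorial 12 * 12) ≤ U) (hc : c * U ^ 2 ≤ 1) (hc0 : 0 ≤ c) :
    c ≤ exp (-x) := by
  have h2 := exp_le_q h0 h1 hU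
  rw [exp_neg, ← one_div, le_div_iff₀ (exp_pos _)]
  exact (mul_le_mul_of_nonneg_left h2 hc0).trans hc

theorem lb_exp_pos {n : ℕ} {e y : ℝ} (he : 0 ≤ e) (hy0 : 0 ≤ y) (hy : y ≤ 4 * 3.141592 * e)
    (h : (n : ℝ) / 1073741824 ≤ ∑ i ∈ Finset.range 14, y ^ i / i.factorial) :
    Lb n (exp (4 * π * e)) := by
  have h1 := exp_ge_sum 14 hy0 h
  have h2 : exp y ≤ exp (4 * π * e) := by
    apply exp_le_exp.2
    have := pi_gt_d6
    nlinarith
  unfold Lb
  rw [← div_le_iff₀ (by norm_num)]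
  exact h1.trans h2

theorem lb_exp_neg {n : ℕ} {e y U : ℝ} (he : 0 ≤ e) (hy : 4 * 3.141593 * e ≤ y) (h2 : y ≤ 2)
    (hU : ∑ m ∈ Finset.range 12, (y / 2) ^ m / m.factorial +
      (y / 2) ^ 12 * (12 + 1) / (Nat.factorial 12 * 12) ≤ U)
    (hc : (n : ℝ) / 1073741824 * U ^ 2 ≤ 1) : Lb n (exp (4 * π * -e)) := by
  have h1 := exp_neg_ge (by nlinarith) h2 hU hc (by positivity)
  have h3 : exp (-y) ≤ exp (4 * π * -e) := by
    apply exp_le_exp.2
    have := pi_lt_d6
    nlinarith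
  unfold Lb
  rw [← div_le_iff₀ (by norm_num)]
  exact h1.trans h3

theorem lb_mul_pi {n : ℕ} {x : ℝ} (hx : 0 ≤ x) (h : (n : ℝ) ≤ x * 3373259426) : Lb n (x * π) := by
  have := pi_lb
  unfold Lb at *
  push_cast at this
  nlinarith

/-- The constants of the kinds. -/
def KU (c : ℕ) : UK :=
  match c with
  | 0 => ⟨3772676291, 3772676291, 1570112982, 725250776, 296846829⟩
  | 1 => ⟨5500152173, 346516176, 667742659, 657785588, 202395565⟩
  | 2 => ⟨2282177010, 794179863, 749122752, 657785588, 236128159⟩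
  | 3 => ⟨649529356, 2399823754, 764256036, 715130998, 269860754⟩
  | 4 => ⟨1666908230, 1217514257, 870356466, 586947140, 192275787⟩
  | 5 => ⟨1073741824, 1666908230, 870356466, 586947140, 192275787⟩
  | 6 => ⟨2755572915, 1143369303, 1210638104, 607186696, 209142084⟩
  | 7 => ⟨1073741824, 2861438549, 1210638104, 607186696, 209142084⟩
  | 8 => ⟨2755572915, 1143369303, 1570112982, 725250776, 296846829⟩
  | _ => ⟨1073741824, 2934265683, 1570112982, 725250776, 296846829⟩

/-- `-e0` is the lower bound of `η`. -/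
noncomputable def KE0 (c : ℕ) : ℝ :=
  match c with
  | 0 => (100 / 1000 : ℝ)
  | 1 => (130 / 1000 : ℝ)
  | 2 => (60 / 1000 : ℝ)
  | 3 => (-(40 / 1000) : ℝ)
  | 4 => (35 / 1000 : ℝ)
  | 5 => (0 / 1000 : ℝ)
  | 6 => (75 / 1000 : ℝ)
  | 7 => (0 / 1000 : ℝ)
  | 8 => (75 / 1000 : ℝ)
  | _ => (0 / 1000 : ℝ)

/-- The upper bound of `η`. -/
noncomputable def KE1 (c : ℕ) : ℝ :=
  match c with
  | 0 => (100 / 1000 : ℝ)
  | 1 => (-(90 / 1000) : ℝ)
  | 2 => (-(24 / 1000) : ℝ)
  | 3 => (64 / 1000 : ℝ)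
  | 4 => (10 / 1000 : ℝ)
  | 5 => (35 / 1000 : ℝ)
  | 6 => (5 / 1000 : ℝ)
  | 7 => (78 / 1000 : ℝ)
  | 8 => (5 / 1000 : ℝ)
  | _ => (80 / 1000 : ℝ)

/-- The upper bound of `λ`. -/
noncomputable def KL (c : ℕ) : ℝ :=
  match c with
  | 0 => (380 / 1000 : ℝ)
  | 1 => (-(475 / 1000) : ℝ)
  | 2 => (-(360 / 1000) : ℝ)
  | 3 => (-(340 / 1000) : ℝ)
  | 4 => (-(210 / 1000) : ℝ)
  | 5 => (-(210 / 1000) : ℝ)
  | 6 => (120 / 1000 : ℝ)
  | 7 => (120 / 1000 : ℝ)
  | 8 => (380 / 1000 : ℝ)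
  | _ => (380 / 1000 : ℝ)

/-- The upper bound of `x`. -/
noncomputable def KX (c : ℕ) : ℝ :=
  match c with
  | 0 => (215 / 1000 : ℝ)
  | 1 => (195 / 1000 : ℝ)
  | 2 => (195 / 1000 : ℝ)
  | 3 => (212 / 1000 : ℝ)
  | 4 => (174 / 1000 : ℝ)
  | 5 => (174 / 1000 : ℝ)
  | 6 => (180 / 1000 : ℝ)
  | 7 => (180 / 1000 : ℝ)
  | 8 => (215 / 1000 : ℝ)
  | _ => (215 / 1000 : ℝ)

/-- The upper bound of `ν`. -/
noncomputable def KN (c : ℕ) : ℝ :=
  match c with
  | 0 => (88 / 1000 : ℝ)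
  | 1 => (60 / 1000 : ℝ)
  | 2 => (70 / 1000 : ℝ)
  | 3 => (80 / 1000 : ℝ)
  | 4 => (57 / 1000 : ℝ)
  | 5 => (57 / 1000 : ℝ)
  | 6 => (62 / 1000 : ℝ)
  | 7 => (62 / 1000 : ℝ)
  | 8 => (88 / 1000 : ℝ)
  | _ => (88 / 1000 : ℝ)

theorem KU_ok0 : (KU 0).Ok (KE0 0) (KE1 0) (KL 0) := by
  refine ⟨?_, ?_, ?_, ?_⟩
  · show Lb 3772676291 (exp (4 * π * (100 / 1000 : ℝ)))
    exact lb_exp_pos (y := 1.2566368) (by norm_num) (by norm_num) (by norm_num)
      (by norm_num [Finset.sum_range_succ, Nat.factorial])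
  · show Lb 3772676291 (exp (4 * π * (100 / 1000 : ℝ)))
    exact lb_exp_pos (y := 1.2566368) (by norm_num) (by norm_num) (by norm_num)
      (by norm_num [Finset.sum_range_succ, Nat.factorial])
  · show Lb 1570112982 (exp (380 / 1000 : ℝ))
    exact by
      unfold Lb
      rw [← div_le_iff₀ (by norm_num)]
      refine exp_ge_sum 10 (by norm_num) ?_
      norm_num [Finset.sum_range_succ, Nat.factorial]
  · show 296846829 ≤ 296846829
    norm_num

theorem KU_ok1 : (KU 1).Ok (KE0 1) (KE1 1) (KL 1) := by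
  refine ⟨?_, ?_, ?_, ?_⟩
  · show Lb 5500152173 (exp (4 * π * (130 / 1000 : ℝ)))
    exact lb_exp_pos (y := 1.63362784) (by norm_num) (by norm_num) (by norm_num)
      (by norm_num [Finset.sum_range_succ, Nat.factorial])
  · show Lb 346516176 (exp (4 * π * (-(90 / 1000) : ℝ)))
    exact lb_exp_neg (y := 1.13097348) (U := 1.760304386) (by norm_num) (by norm_num) (by norm_num)
      (by norm_num [Finset.sum_range_succ, Nat.factorial]) (by norm_num)
  · show Lb 667742659 (exp (-(475 / 1000) : ℝ))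
    exact by
      unfold Lb
      rw [← div_le_iff₀ (by norm_num)]
      exact exp_neg_ge (U := 1.268074998) (by norm_num) (by norm_num)
        (by norm_num [Finset.sum_range_succ, Nat.factorial]) (by norm_num) (by norm_num)
  · show 202395565 ≤ 296846829
    norm_num

theorem KU_ok2 : (KU 2).Ok (KE0 2) (KE1 2) (KL 2) := by
  refine ⟨?_, ?_, ?_, ?_⟩
  · show Lb 2282177010 (exp (4 * π * (60 / 1000 : ℝ)))
    exact lb_exp_pos (y := 0.75398208) (by norm_num) (by norm_num) (by norm_num)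
      (by norm_num [Finset.sum_range_succ, Nat.factorial])
  · show Lb 794179863 (exp (4 * π * (-(24 / 1000) : ℝ)))
    exact lb_exp_neg (y := 0.301592928) (U := 1.162759971) (by norm_num) (by norm_num) (by norm_num)
      (by norm_num [Finset.sum_range_succ, Nat.factorial]) (by norm_num)
  · show Lb 749122752 (exp (-(360 / 1000) : ℝ))
    exact by
      unfold Lb
      rw [← div_le_iff₀ (by norm_num)]
      exact exp_neg_ge (U := 1.197217364) (by norm_num) (by norm_num)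
        (by norm_num [Finset.sum_range_succ, Nat.factorial]) (by norm_num) (by norm_num)
  · show 236128159 ≤ 296846829
    norm_num

theorem KU_ok3 : (KU 3).Ok (KE0 3) (KE1 3) (KL 3) := by
  refine ⟨?_, ?_, ?_, ?_⟩
  · show Lb 649529356 (exp (4 * π * (-(40 / 1000) : ℝ)))
    exact lb_exp_neg (y := 0.50265488) (U := 1.285731016) (by norm_num) (by norm_num) (by norm_num)
      (by norm_num [Finset.sum_range_succ, Nat.factorial]) (by norm_num)
  · show Lb 2399823754 (exp (4 * π * (64 / 1000 : ℝ)))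
    exact lb_exp_pos (y := 0.804247552) (by norm_num) (by norm_num) (by norm_num)
      (by norm_num [Finset.sum_range_succ, Nat.factorial])
  · show Lb 764256036 (exp (-(340 / 1000) : ℝ))
    exact by
      unfold Lb
      rw [← div_le_iff₀ (by norm_num)]
      exact exp_neg_ge (U := 1.185304852) (by norm_num) (by norm_num)
        (by norm_num [Finset.sum_range_succ, Nat.factorial]) (by norm_num) (by norm_num)
  · show 269860754 ≤ 296846829
    norm_num

theorem KU_ok4 : (KU 4).Ok (KE0 4) (KE1 4) (KL 4) := by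
  refine ⟨?_, ?_, ?_, ?_⟩
  · show Lb 1666908230 (exp (4 * π * (35 / 1000 : ℝ)))
    exact lb_exp_pos (y := 0.43982288) (by norm_num) (by norm_num) (by norm_num)
      (by norm_num [Finset.sum_range_succ, Nat.factorial])
  · show Lb 1217514257 (exp (4 * π * (10 / 1000 : ℝ)))
    exact lb_exp_pos (y := 0.12566368) (by norm_num) (by norm_num) (by norm_num)
      (by norm_num [Finset.sum_range_succ, Nat.factorial])
  · show Lb 870356466 (exp (-(210 / 1000) : ℝ))
    exact by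
      unfold Lb
      rw [← div_le_iff₀ (by norm_num)]
      exact exp_neg_ge (U := 1.110710611) (by norm_num) (by norm_num)
        (by norm_num [Finset.sum_range_succ, Nat.factorial]) (by norm_num) (by norm_num)
  · show 192275787 ≤ 296846829
    norm_num

theorem KU_ok5 : (KU 5).Ok (KE0 5) (KE1 5) (KL 5) := by
  refine ⟨?_, ?_, ?_, ?_⟩
  · show Lb 1073741824 (exp (4 * π * (0 / 1000 : ℝ)))
    exact by rw [show (4 : ℝ) * π * (0 / 1000) = 0 by ring, exp_zero]; unfold Lb; norm_num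
  · show Lb 1666908230 (exp (4 * π * (35 / 1000 : ℝ)))
    exact lb_exp_pos (y := 0.43982288) (by norm_num) (by norm_num) (by norm_num)
      (by norm_num [Finset.sum_range_succ, Nat.factorial])
  · show Lb 870356466 (exp (-(210 / 1000) : ℝ))
    exact by
      unfold Lb
      rw [← div_le_iff₀ (by norm_num)]
      exact exp_neg_ge (U := 1.110710611) (by norm_num) (by norm_num)
        (by norm_num [Finset.sum_range_succ, Nat.factorial]) (by norm_num) (by norm_num)
  · show 192275787 ≤ 296846829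
    norm_num

theorem KU_ok6 : (KU 6).Ok (KE0 6) (KE1 6) (KL 6) := by
  refine ⟨?_, ?_, ?_, ?_⟩
  · show Lb 2755572915 (exp (4 * π * (75 / 1000 : ℝ)))
    exact lb_exp_pos (y := 0.9424776) (by norm_num) (by norm_num) (by norm_num)
      (by norm_num [Finset.sum_range_succ, Nat.factorial])
  · show Lb 1143369303 (exp (4 * π * (5 / 1000 : ℝ)))
    exact lb_exp_pos (y := 0.06283184) (by norm_num) (by norm_num) (by norm_num)
      (by norm_num [Finset.sum_range_succ, Nat.factorial])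
  · show Lb 1210638104 (exp (120 / 1000 : ℝ))
    exact by
      unfold Lb
      rw [← div_le_iff₀ (by norm_num)]
      refine exp_ge_sum 10 (by norm_num) ?_
      norm_num [Finset.sum_range_succ, Nat.factorial]
  · show 209142084 ≤ 296846829
    norm_num

theorem KU_ok7 : (KU 7).Ok (KE0 7) (KE1 7) (KL 7) := by
  refine ⟨?_, ?_, ?_, ?_⟩
  · show Lb 1073741824 (exp (4 * π * (0 / 1000 : ℝ)))
    exact by rw [show (4 : ℝ) * π * (0 / 1000) = 0 by ring, exp_zero]; unfold Lb; norm_num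
  · show Lb 2861438549 (exp (4 * π * (78 / 1000 : ℝ)))
    exact lb_exp_pos (y := 0.980176704) (by norm_num) (by norm_num) (by norm_num)
      (by norm_num [Finset.sum_range_succ, Nat.factorial])
  · show Lb 1210638104 (exp (120 / 1000 : ℝ))
    exact by
      unfold Lb
      rw [← div_le_iff₀ (by norm_num)]
      refine exp_ge_sum 10 (by norm_num) ?_
      norm_num [Finset.sum_range_succ, Nat.factorial]
  · show 209142084 ≤ 296846829
    norm_num

theorem KU_ok8 : (KU 8).Ok (KE0 8) (KE1 8) (KL 8) := by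
  refine ⟨?_, ?_, ?_, ?_⟩
  · show Lb 2755572915 (exp (4 * π * (75 / 1000 : ℝ)))
    exact lb_exp_pos (y := 0.9424776) (by norm_num) (by norm_num) (by norm_num)
      (by norm_num [Finset.sum_range_succ, Nat.factorial])
  · show Lb 1143369303 (exp (4 * π * (5 / 1000 : ℝ)))
    exact lb_exp_pos (y := 0.06283184) (by norm_num) (by norm_num) (by norm_num)
      (by norm_num [Finset.sum_range_succ, Nat.factorial])
  · show Lb 1570112982 (exp (380 / 1000 : ℝ))
    exact by
      unfold Lb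
      rw [← div_le_iff₀ (by norm_num)]
      refine exp_ge_sum 10 (by norm_num) ?_
      norm_num [Finset.sum_range_succ, Nat.factorial]
  · show 296846829 ≤ 296846829
    norm_num

theorem KU_ok9 : (KU 9).Ok (KE0 9) (KE1 9) (KL 9) := by
  refine ⟨?_, ?_, ?_, ?_⟩
  · show Lb 1073741824 (exp (4 * π * (0 / 1000 : ℝ)))
    exact by rw [show (4 : ℝ) * π * (0 / 1000) = 0 by ring, exp_zero]; unfold Lb; norm_num
  · show Lb 2934265683 (exp (4 * π * (80 / 1000 : ℝ)))
    exact lb_exp_pos (y := 1.00530944) (by norm_num) (by norm_num) (by norm_num)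
      (by norm_num [Finset.sum_range_succ, Nat.factorial])
  · show Lb 1570112982 (exp (380 / 1000 : ℝ))
    exact by
      unfold Lb
      rw [← div_le_iff₀ (by norm_num)]
      refine exp_ge_sum 10 (by norm_num) ?_
      norm_num [Finset.sum_range_succ, Nat.factorial]
  · show 296846829 ≤ 296846829
    norm_num

theorem KU_ok (c : ℕ) : (KU c).Ok (KE0 c) (KE1 c) (KL c) := by
  match c with
  | 0 => exact KU_ok0
  | 1 => exact KU_ok1
  | 2 => exact KU_ok2
  | 3 => exact KU_ok3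
  | 4 => exact KU_ok4
  | 5 => exact KU_ok5
  | 6 => exact KU_ok6
  | 7 => exact KU_ok7
  | 8 => exact KU_ok8
  | _ + 9 => exact KU_ok9

theorem KE0_le (c : ℕ) : KE0 c ≤ 135 / 1000 := by
  match c with
  | 0 => show (100 / 1000 : ℝ) ≤ 135 / 1000; norm_num
  | 1 => show (130 / 1000 : ℝ) ≤ 135 / 1000; norm_num
  | 2 => show (60 / 1000 : ℝ) ≤ 135 / 1000; norm_num
  | 3 => show (-(40 / 1000) : ℝ) ≤ 135 / 1000; norm_num
  | 4 => show (35 / 1000 : ℝ) ≤ 135 / 1000; norm_num
  | 5 => show (0 / 1000 : ℝ) ≤ 135 / 1000; norm_num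
  | 6 => show (75 / 1000 : ℝ) ≤ 135 / 1000; norm_num
  | 7 => show (0 / 1000 : ℝ) ≤ 135 / 1000; norm_num
  | 8 => show (75 / 1000 : ℝ) ≤ 135 / 1000; norm_num
  | _ + 9 => show (0 / 1000 : ℝ) ≤ 135 / 1000; norm_num

theorem KE1_le (c : ℕ) : KE1 c ≤ 1 / 10 := by
  match c with
  | 0 => show (100 / 1000 : ℝ) ≤ 1 / 10; norm_num
  | 1 => show (-(90 / 1000) : ℝ) ≤ 1 / 10; norm_num
  | 2 => show (-(24 / 1000) : ℝ) ≤ 1 / 10; norm_num
  | 3 => show (64 / 1000 : ℝ) ≤ 1 / 10; norm_num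
  | 4 => show (10 / 1000 : ℝ) ≤ 1 / 10; norm_num
  | 5 => show (35 / 1000 : ℝ) ≤ 1 / 10; norm_num
  | 6 => show (5 / 1000 : ℝ) ≤ 1 / 10; norm_num
  | 7 => show (78 / 1000 : ℝ) ≤ 1 / 10; norm_num
  | 8 => show (5 / 1000 : ℝ) ≤ 1 / 10; norm_num
  | _ + 9 => show (80 / 1000 : ℝ) ≤ 1 / 10; norm_num

theorem KL_le (c : ℕ) : KL c ≤ 38 / 100 := by
  match c with
  | 0 => show (380 / 1000 : ℝ) ≤ 38 / 100; norm_num
  | 1 => show (-(475 / 1000) : ℝ) ≤ 38 / 100; norm_num
  | 2 => show (-(360 / 1000) : ℝ) ≤ 38 / 100; norm_num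
  | 3 => show (-(340 / 1000) : ℝ) ≤ 38 / 100; norm_num
  | 4 => show (-(210 / 1000) : ℝ) ≤ 38 / 100; norm_num
  | 5 => show (-(210 / 1000) : ℝ) ≤ 38 / 100; norm_num
  | 6 => show (120 / 1000 : ℝ) ≤ 38 / 100; norm_num
  | 7 => show (120 / 1000 : ℝ) ≤ 38 / 100; norm_num
  | 8 => show (380 / 1000 : ℝ) ≤ 38 / 100; norm_num
  | _ + 9 => show (380 / 1000 : ℝ) ≤ 38 / 100; norm_num

theorem KX_lb (c : ℕ) : Lb (KU c).xh (KX c * π) := by
  match c with
  | 0 => exact lb_mul_pi (n := 725250776) (x := 215 / 1000) (by norm_num) (by norm_num)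
  | 1 => exact lb_mul_pi (n := 657785588) (x := 195 / 1000) (by norm_num) (by norm_num)
  | 2 => exact lb_mul_pi (n := 657785588) (x := 195 / 1000) (by norm_num) (by norm_num)
  | 3 => exact lb_mul_pi (n := 715130998) (x := 212 / 1000) (by norm_num) (by norm_num)
  | 4 => exact lb_mul_pi (n := 586947140) (x := 174 / 1000) (by norm_num) (by norm_num)
  | 5 => exact lb_mul_pi (n := 586947140) (x := 174 / 1000) (by norm_num) (by norm_num)
  | 6 => exact lb_mul_pi (n := 607186696) (x := 180 / 1000) (by norm_num) (by norm_num)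
  | 7 => exact lb_mul_pi (n := 607186696) (x := 180 / 1000) (by norm_num) (by norm_num)
  | 8 => exact lb_mul_pi (n := 725250776) (x := 215 / 1000) (by norm_num) (by norm_num)
  | _ + 9 => exact lb_mul_pi (n := 725250776) (x := 215 / 1000) (by norm_num) (by norm_num)

theorem KN_lb (c : ℕ) : Lb (KU c).nh (KN c * π) := by
  match c with
  | 0 => exact lb_mul_pi (n := 296846829) (x := 88 / 1000) (by norm_num) (by norm_num)
  | 1 => exact lb_mul_pi (n := 202395565) (x := 60 / 1000) (by norm_num) (by norm_num)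
  | 2 => exact lb_mul_pi (n := 236128159) (x := 70 / 1000) (by norm_num) (by norm_num)
  | 3 => exact lb_mul_pi (n := 269860754) (x := 80 / 1000) (by norm_num) (by norm_num)
  | 4 => exact lb_mul_pi (n := 192275787) (x := 57 / 1000) (by norm_num) (by norm_num)
  | 5 => exact lb_mul_pi (n := 192275787) (x := 57 / 1000) (by norm_num) (by norm_num)
  | 6 => exact lb_mul_pi (n := 209142084) (x := 62 / 1000) (by norm_num) (by norm_num)
  | 7 => exact lb_mul_pi (n := 209142084) (x := 62 / 1000) (by norm_num) (by norm_num)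
  | 8 => exact lb_mul_pi (n := 296846829) (x := 88 / 1000) (by norm_num) (by norm_num)
  | _ + 9 => exact lb_mul_pi (n := 296846829) (x := 88 / 1000) (by norm_num) (by norm_num)

/-- Soundness for the kind `c`. -/
theorem accK_sound {c : ℕ} {m : Md} {P Q Rr Ir : N} {w z : ℂ} {q : ℝ}
    (h : accU (KU c) m P Q Rr Ir = true) (hs : G.Slot w z) (hw : w.im = sq m q) (q0 : 0 ≤ q)
    (q1 : q ≤ π / 2) (mP : Mem w.re P) (mQ : Mem q Q) (mR : Mem z.re Rr) (mI : Mem z.im Ir) :
    VUx (KE0 c) (KE1 c) (KL c) (KX c) (KN c) (sy w z) (z / π) :=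
  accU_sound (KU_ok c) (KE0_le c) (KE1_le c) (KL_le c) (KX_lb c) (KN_lb c) h hs hw q0 q1 mP mQ mR mI

end Pool.Agent.S5.E.VX
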