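import Pool.Agent.S5.E.VX.VUt

/-!
# The region of the slots of open nodes: real inequalities
-/

set_option autoImplicit false

namespace Pool.Agent.S5.E.VX

open Real Pool.Agent.S3.NI Pool.Agent.S5.E.B2

section real

variable {a b s d a1 b1 s0 d0 a0 b0 s1 d1 D c : ℝ}

theorem ang_lo (ha : 0 < a) (hb : 0 < b) (hs : 0 ≤ s) (hd : 0 ≤ d) (haa : a ≤ a1) (hbb : b ≤ b1)
    (hss : s0 ≤ s) (hdd : d0 ≤ d) (h0 : 0 ≤ s0) (hc : 0 ≤ c)
    (hF : a1 * b1 ≤ s0 * d0 + c * (a1 * d0 + b1 * s0)) : a * b ≤ s * d + c * (a * d + b * s) := by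
  have ha1 : 0 < a1 := lt_of_lt_of_le ha haa
  rcases le_total (b - c * d) 0 with h | h
  · have k1 := mul_nonneg ha.le (sub_nonneg.2 (show b ≤ c * d by linarith))
    have k2 : 0 ≤ s * (d + c * b) := by positivity
    nlinarith
  · have k1 : a * (b - c * d) ≤ a1 * (b - c * d) := mul_le_mul_of_nonneg_right haa h
    have k2 : s0 * (d + c * b) ≤ s * (d + c * b) :=
      mul_le_mul_of_nonneg_right hss (by positivity)
    rcases le_total (a1 - c * s0) 0 with h' | h'
    · have k3 : b * (a1 - c * s0) ≤ 0 := mul_nonpos_of_nonneg_of_nonpos hb.le h'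
      have k4 : 0 ≤ d * (c * a1 + s0) := by positivity
      nlinarith
    · have k3 : b * (a1 - c * s0) ≤ b1 * (a1 - c * s0) := mul_le_mul_of_nonneg_right hbb h'
      have k4 : d0 * (c * a1 + s0) ≤ d * (c * a1 + s0) :=
        mul_le_mul_of_nonneg_right hdd (by positivity)
      nlinarith

theorem ang_lon (ha : 0 < a) (hs : 0 ≤ s) (haa : a ≤ a1) (hb0 : 0 < b0) (hbb : b0 ≤ b)
    (hss : s0 ≤ s) (hdd : -D ≤ d) (hD : 0 ≤ D) (h0 : 0 ≤ s0) (hc : 0 ≤ c)
    (hF : a1 * b0 + s0 * D + c * (a1 * D) ≤ c * (b0 * s0)) :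
    a * b ≤ s * d + c * (a * d + b * s) := by
  have ha1 : 0 < a1 := lt_of_lt_of_le ha haa
  have hb : 0 < b := lt_of_lt_of_le hb0 hbb
  -- reduce to `d = -D`
  have k0 : -(D * (s + c * a)) ≤ d * (s + c * a) := by
    have := mul_le_mul_of_nonneg_right hdd (show 0 ≤ s + c * a by positivity)
    linarith
  -- the sign of `D - c b0`
  have h1 : D - c * b0 ≤ 0 := by
    by_contra hn
    push Not at hn
    have k1 : 0 ≤ s0 * (D - c * b0) := mul_nonneg h0 hn.le
    have k2 : 0 < a1 * b0 := mul_pos ha1 hb0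
    have k3 : 0 ≤ c * (a1 * D) := by positivity
    nlinarith
  have h2 : D - c * b ≤ 0 := by
    have := mul_le_mul_of_nonneg_left hbb hc
    linarith
  have k1 : a * (b + c * D) ≤ a1 * (b + c * D) := mul_le_mul_of_nonneg_right haa (by positivity)
  have k2 : s * (D - c * b) ≤ s0 * (D - c * b) := by
    have := mul_le_mul_of_nonpos_right hss h2
    linarith
  have h3 : a1 - c * s0 ≤ 0 := by
    by_contra hn
    push Not at hn
    have k1 : 0 < b0 * (a1 - c * s0) := mul_pos hb0 hn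
    have k2 : 0 ≤ D * (s0 + c * a1) := by positivity
    nlinarith
  have k3 : b * (a1 - c * s0) ≤ b0 * (a1 - c * s0) := mul_le_mul_of_nonpos_right hbb h3
  nlinarith

theorem ang_lom (ha : 0 < a) (hb : 0 < b) (hd : 0 ≤ d) (haa : a ≤ a1) (hbb : b ≤ b1)
    (hss : s0 ≤ s) (hdd : d0 ≤ d) (h0 : 0 ≤ s0) (h0' : 0 ≤ d0) (hc : 0 ≤ c)
    (hF : a1 * b1 + c * (a1 * d0 + b1 * s0) ≤ s0 * d0) :
    a * b + c * (a * d + b * s) ≤ s * d := by
  have ha1 : 0 < a1 := lt_of_lt_of_le ha haa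
  have hb1 : 0 < b1 := lt_of_lt_of_le hb hbb
  have h1 : 0 < s0 * (d0 - c * b1) := by
    have : 0 < a1 * b1 := mul_pos ha1 hb1
    have : 0 ≤ c * (a1 * d0) := by positivity
    nlinarith
  have h2 : 0 ≤ d0 - c * b1 := by
    by_contra hn
    push Not at hn
    have := mul_nonpos_of_nonneg_of_nonpos h0 hn.le
    linarith
  have h3 : 0 ≤ d - c * b := by
    have := mul_le_mul_of_nonneg_left hbb hc
    linarith
  have k1 : a * (b + c * d) ≤ a1 * (b + c * d) := mul_le_mul_of_nonneg_right haa (by positivity)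
  have k2 : s0 * (d - c * b) ≤ s * (d - c * b) := mul_le_mul_of_nonneg_right hss h3
  have h4 : 0 ≤ s0 - c * a1 := by
    by_contra hn
    push Not at hn
    have : 0 < b1 * (a1 + c * s0) := by positivity
    have : d0 * (s0 - c * a1) ≤ 0 := mul_nonpos_of_nonneg_of_nonpos h0' hn.le
    nlinarith
  have k3 : b * (a1 + c * s0) ≤ b1 * (a1 + c * s0) := mul_le_mul_of_nonneg_right hbb (by positivity)
  have k4 : d0 * (s0 - c * a1) ≤ d * (s0 - c * a1) := mul_le_mul_of_nonneg_right hdd h4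
  nlinarith

theorem ang_hi (ha0 : 0 ≤ a0) (hb0 : 0 ≤ b0) (hs : 0 ≤ s) (hd : 0 ≤ d) (haa : a0 ≤ a)
    (hbb : b0 ≤ b) (hss : s ≤ s1) (hdd : d ≤ d1) (hc : 0 ≤ c)
    (hF : s1 * d1 ≤ a0 * b0 + c * (a0 * d1 + b0 * s1)) :
    s * d ≤ a * b + c * (a * d + b * s) := by
  have ha : 0 ≤ a := ha0.trans haa
  have hb : 0 ≤ b := hb0.trans hbb
  have hs1 : 0 ≤ s1 := hs.trans hss
  rcases le_total (d - c * b) 0 with h | h
  · have k1 : s * (d - c * b) ≤ 0 := mul_nonpos_of_nonneg_of_nonpos hs h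
    have k2 : 0 ≤ a * (b + c * d) := by positivity
    nlinarith
  · have k1 : a0 * (b + c * d) ≤ a * (b + c * d) := mul_le_mul_of_nonneg_right haa (by positivity)
    have k2 : s * (d - c * b) ≤ s1 * (d - c * b) := mul_le_mul_of_nonneg_right hss h
    rcases le_total (s1 - c * a0) 0 with h' | h'
    · have k3 : d * (s1 - c * a0) ≤ 0 := mul_nonpos_of_nonneg_of_nonpos hd h'
      have k4 : 0 ≤ b * (a0 + c * s1) := by positivity
      nlinarith
    · have k3 : d * (s1 - c * a0) ≤ d1 * (s1 - c * a0) := mul_le_mul_of_nonneg_right hdd h'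
      have k4 : b0 * (a0 + c * s1) ≤ b * (a0 + c * s1) :=
        mul_le_mul_of_nonneg_right hbb (by positivity)
      nlinarith

end real

/-! ### The tests of the angles -/

section nat

variable {a b s d C : ℝ} {a0 a1 b0 b1 s0 s1 d0 d1 D c Rh : ℕ}

theorem lb_v {n : ℕ} {x : ℝ} (h : Lb n x) : (n : ℝ) / 1073741824 ≤ x := by
  rw [div_le_iff₀ (by norm_num)]
  exact h

theorem ub_v {n : ℕ} {x : ℝ} (h : Ub x n) : x ≤ (n : ℝ) / 1073741824 := by
  rw [le_div_iff₀ (by norm_num)]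
  exact h

theorem v_nn (n : ℕ) : (0 : ℝ) ≤ (n : ℝ) / 1073741824 := by positivity

theorem uT_sound (h : uT a1 b1 s0 d0 c = true) (ha : 0 < a) (hb : 0 < b) (hs : 0 ≤ s) (hd : 0 ≤ d)
    (ua : Ub a a1) (ub : Ub b b1) (ls : Lb s0 s) (ld : Lb d0 d) (lc : Lb c C) :
    a * b ≤ s * d + C * (a * d + b * s) := by
  have k := le_of_LU ((ub_self a1).mul (ub_self b1) (v_nn _)) (((lb_self s0).mul (lb_self d0)).add
    ((lb_self c).mul (((lb_self a1).mul (lb_self d0)).add ((lb_self b1).mul (lb_self s0))))) h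
  have k2 := ang_lo ha hb hs hd (ub_v ua) (ub_v ub) (lb_v ls) (lb_v ld) (v_nn _) (v_nn _) k
  have k3 : (c : ℝ) / 1073741824 * (a * d + b * s) ≤ C * (a * d + b * s) :=
    mul_le_mul_of_nonneg_right (lb_v lc) (by positivity)
  linarith

theorem uTn_sound (h : uTn a1 b0 s0 D c = true) (ha : 0 < a) (hs : 0 ≤ s)
    (ua : Ub a a1) (lb : Lb b0 b) (ls : Lb s0 s) {D' : ℝ} (hD : -D' ≤ d) (uD : Ub D' D)
    (lc : Lb c C) (hY : 0 ≤ a * d + b * s) :
    a * b ≤ s * d + C * (a * d + b * s) := by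
  unfold uTn at h
  rw [Bool.and_eq_true] at h
  have hb0 : (0 : ℝ) < (b0 : ℝ) / 1073741824 := by
    have : (0 : ℝ) < b0 := by exact_mod_cast ble_one h.1
    positivity
  have k := le_of_LU ((((ub_self a1).mul (ub_self b0) (v_nn _)).add
    ((ub_self s0).mul (ub_self D) (v_nn _))).add ((ub_self c).mul ((ub_self a1).mul (ub_self D)
      (v_nn _)) (mul_nonneg (v_nn _) (v_nn _))))
    ((lb_self c).mul ((lb_self b0).mul (lb_self s0))) h.2
  have k2 := ang_lon ha hs (ub_v ua) hb0 (lb_v lb) (lb_v ls)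
    (show -((D : ℝ) / 1073741824) ≤ d by linarith [ub_v uD]) (v_nn _) (v_nn _) (v_nn _) k
  have k3 : (c : ℝ) / 1073741824 * (a * d + b * s) ≤ C * (a * d + b * s) :=
    mul_le_mul_of_nonneg_right (lb_v lc) hY
  linarith

theorem uTm_sound (h : uTm a1 b1 s0 d0 c = true) (ha : 0 < a) (hb : 0 < b) (hs : 0 ≤ s)
    (hd : 0 ≤ d) (ua : Ub a a1) (ub : Ub b b1) (ls : Lb s0 s) (ld : Lb d0 d) (uc : Ub C c) :
    a * b + C * (a * d + b * s) ≤ s * d := by
  have k := le_of_LU (((ub_self a1).mul (ub_self b1) (v_nn _)).add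
    ((ub_self c).mul (((ub_self a1).mul (ub_self d0) (v_nn _)).add ((ub_self b1).mul (ub_self s0)
      (v_nn _))) (by have := v_nn a1; have := v_nn d0; have := v_nn b1; have := v_nn s0; positivity)))
    ((lb_self s0).mul (lb_self d0)) h
  have k2 := ang_lom ha hb hd (ub_v ua) (ub_v ub) (lb_v ls) (lb_v ld) (v_nn _) (v_nn _) (v_nn _) k
  have k3 : C * (a * d + b * s) ≤ (c : ℝ) / 1073741824 * (a * d + b * s) :=
    mul_le_mul_of_nonneg_right (ub_v uc) (by positivity)
  linarith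

theorem uTh_sound (h : uTh a0 b0 s1 d1 c = true) (hs : 0 ≤ s) (hd : 0 ≤ d)
    (la : Lb a0 a) (lb : Lb b0 b) (us : Ub s s1) (ud : Ub d d1) (lc : Lb c C) :
    s * d ≤ a * b + C * (a * d + b * s) := by
  have k := le_of_LU ((ub_self s1).mul (ub_self d1) (v_nn _)) (((lb_self a0).mul (lb_self b0)).add
    ((lb_self c).mul (((lb_self a0).mul (lb_self d1)).add ((lb_self b0).mul (lb_self s1))))) h
  have k2 := ang_hi (v_nn a0) (v_nn b0) hs hd (lb_v la) (lb_v lb) (ub_v us) (ub_v ud) (v_nn _) k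
  have ha : 0 ≤ a := (v_nn a0).trans (lb_v la)
  have hb : 0 ≤ b := (v_nn b0).trans (lb_v lb)
  have k3 : (c : ℝ) / 1073741824 * (a * d + b * s) ≤ C * (a * d + b * s) :=
    mul_le_mul_of_nonneg_right (lb_v lc) (by positivity)
  linarith

end nat

/-! ### Tangents -/

theorem taLo_mem {x : ℝ} {n : ℕ} (h0 : 0 ≤ x) (h1 : x < π / 2) (h : Lb n x) :
    Lb (taLo n) (tan x) := by
  have hc : 0 < cos x := cos_pos_of_mem_Ioo ⟨by linarith [pi_pos], h1⟩
  rw [tan_eq_sin_div_cos]
  exact Lb.div (snLo_mem h1.le h) (csHi_mem h1.le h) hc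

theorem taHi_mem {x : ℝ} {n : ℕ} (h0 : 0 ≤ x) (h1 : x ≤ π / 2) (h : Ub x n)
    (hn : n ≤ 3221225472) (hc : 0 < csLo n) : Ub (tan x) (taHi n) := by
  rw [tan_eq_sin_div_cos]
  exact Ub.div (snHi_mem h0 h) (csLo_mem h0 h1 h hn) hc

theorem tanh_mono' {x y : ℝ} (h : x ≤ y) : tanh x ≤ tanh y := by
  rw [tanh_eq_sinh_div_cosh, tanh_eq_sinh_div_cosh, div_le_div_iff₀ (cosh_pos _) (cosh_pos _)]
  have := sinh_cosh_le h
  linarith

theorem thLo_mem {x : ℝ} {n : ℕ} (h : Lb n x) (hn : n ≤ 2147483648) : Lb (thLo n) (tanh x) := by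
  have h1 := tanh_mono' (lb_v h)
  have h2 : Lb (thLo n) (tanh ((n : ℝ) / 1073741824)) := by
    rw [tanh_eq_sinh_div_cosh]
    exact Lb.div (shLo_mem (lb_self n)) (chHi_mem (v_nn n) (ub_self n) hn) (cosh_pos _)
  unfold Lb at *
  linarith

theorem thHi_mem {x : ℝ} {n : ℕ} (h : Ub x n) (hn : n ≤ 2147483648)
    (hc : 0 < chLo n) : Ub (tanh x) (thHi n) := by
  have h1 := tanh_mono' (ub_v h)
  have h2 : Ub (tanh ((n : ℝ) / 1073741824)) (thHi n) := by
    rw [tanh_eq_sinh_div_cosh]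
    exact Ub.div (shHi_mem (v_nn n) (ub_self n) hn) (chLo_mem (lb_self n)) hc
  unfold Ub at *
  linarith

/-! ### Logarithms -/

theorem log_le_gp {x : ℝ} (hx : 0 < x) : log x ≤ x * (x + 14) / (4 * x + 2) - 5 / 2 := by
  have hd : ∀ y, 0 < y → HasDerivAt (fun y : ℝ => y * (y + 14) / (4 * y + 2) - 5 / 2 - log y)
      ((y - 1) ^ 3 / (y * (2 * y + 1) ^ 2)) y := by
    intro y hy
    have h1 : (4 * y + 2) ≠ 0 := by positivity
    have := ((((hasDerivAt_id' y).mul ((hasDerivAt_id' y).add_const (14 : ℝ))).div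
      (((hasDerivAt_id' y).const_mul (4 : ℝ)).add_const (2 : ℝ)) h1).sub_const (5 / 2 : ℝ)).sub
      (hasDerivAt_log hy.ne')
    refine this.congr_deriv ?_
    have h2 : (2 * y + 1) ≠ 0 := by positivity
    have h3 : y ≠ 0 := hy.ne'
    simp only [Pi.mul_apply]
    field_simp
    ring
  have hco : ContinuousOn (fun y : ℝ => y * (y + 14) / (4 * y + 2) - 5 / 2 - log y)
      (Set.Ioi 0) := fun y hy => (hd y hy).continuousAt.continuousWithinAt
  rcases le_total x 1 with h | h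
  · have hm : AntitoneOn (fun y : ℝ => y * (y + 14) / (4 * y + 2) - 5 / 2 - log y)
        (Set.Icc x 1) := by
      apply antitoneOn_of_deriv_nonpos (convex_Icc x 1)
      · exact hco.mono (fun y hy => lt_of_lt_of_le hx hy.1)
      · intro y hy
        rw [interior_Icc] at hy
        exact (hd y (hx.trans hy.1)).differentiableAt.differentiableWithinAt
      · intro y hy
        rw [interior_Icc] at hy
        have hy0 := hx.trans hy.1
        rw [(hd y hy0).deriv]
        apply div_nonpos_of_nonpos_of_nonneg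
        · have : 0 ≤ (1 - y) ^ 3 := pow_nonneg (by linarith [hy.2]) 3
          nlinarith
        · positivity
    have := hm ⟨le_rfl, h⟩ ⟨h, le_rfl⟩ h
    simp only [log_one] at this
    norm_num at this
    linarith
  · have hm : MonotoneOn (fun y : ℝ => y * (y + 14) / (4 * y + 2) - 5 / 2 - log y)
        (Set.Icc 1 x) := by
      apply monotoneOn_of_deriv_nonneg (convex_Icc 1 x)
      · exact hco.mono (fun y hy => lt_of_lt_of_le one_pos hy.1)
      · intro y hy
        rw [interior_Icc] at hy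
        exact (hd y (one_pos.trans hy.1)).differentiableAt.differentiableWithinAt
      · intro y hy
        rw [interior_Icc] at hy
        have hy0 := one_pos.trans hy.1
        rw [(hd y hy0).deriv]
        have : 0 ≤ (y - 1) ^ 3 := pow_nonneg (by linarith [hy.1]) 3
        positivity
    have := hm ⟨le_rfl, h⟩ ⟨h, le_rfl⟩ h
    simp only [log_one] at this
    norm_num at this
    linarith

theorem gp_mono {x y : ℝ} (hx : 0 ≤ x) (h : x ≤ y) :
    x * (x + 14) / (4 * x + 2) ≤ y * (y + 14) / (4 * y + 2) := by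
  have hy : 0 ≤ y := hx.trans h
  rw [div_le_div_iff₀ (by positivity) (by positivity)]
  have h1 : 0 ≤ y - x := by linarith
  have h2 : 0 ≤ (y - x) * (x * y) := by positivity
  have h3 : 0 ≤ (y - x) * (x + y) := by positivity
  nlinarith

theorem gp_mem {x : ℝ} {n : ℕ} (hx : 0 ≤ x) (h : Ub x n) :
    Ub (x * (x + 14) / (4 * x + 2)) (gp n) := by
  have h1 := gp_mono hx (ub_v h)
  have u14 : Ub 14 15032385536 := by unfold Ub; norm_num
  have l2 : Lb 2147483648 2 := by unfold Lb; norm_num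
  have l4 : Lb (Nat.mul 4 n) (4 * ((n : ℝ) / 1073741824)) := by
    unfold Lb
    rw [cast_mul']
    push_cast
    linarith [cast_n n]
  have h0 := v_nn n
  have h2 : Ub ((n : ℝ) / 1073741824 * ((n : ℝ) / 1073741824 + 14) /
      (4 * ((n : ℝ) / 1073741824) + 2)) (gp n) := by
    refine Ub.div ((ub_self n).mul ((ub_self n).add u14) (by positivity)) (l4.add l2) ?_
    show 0 < Nat.mul 4 n + 2147483648
    omega
  unfold Ub at *
  linarith

/-! ### Constants -/

theorem exp_ge_sum {x y : ℝ} (n : ℕ) (hx : 0 ≤ x) (h : y ≤ ∑ i ∈ Finset.range n, x ^ i / i.factorial) :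
    y ≤ exp x := h.trans (Real.sum_le_exp_of_nonneg hx n)

theorem c_d : Lb 8538394984 (exp (66 / 100 * π)) := by
  unfold Lb
  have h1 : (7.952 : ℝ) ≤ exp (66 / 100 * 3.14158) := by
    apply exp_ge_sum 14 (by norm_num)
    norm_num [Finset.sum_range_succ, Nat.factorial]
  have h2 : exp (66 / 100 * 3.14158) ≤ exp (66 / 100 * π) := by
    apply exp_le_exp.2
    have := pi_gt_d6
    linarith
  push_cast
  linarith

theorem c_t0 : Lb 33743695 (tan (1 / 100 * π)) := by
  have h : Lb 33732594 (1 / 100 * π) := by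
    have := pi_lb
    unfold Lb at *
    push_cast at *
    linarith
  have h2 := taLo_mem (by positivity) (by linarith [pi_pos]) h
  have h3 : taLo 33732594 = 33743695 := by decide +kernel
  rwa [h3] at h2

theorem c_t1 : Lb 700497695 (tan (184 / 1000 * π)) := by
  have h : Lb 620679734 (184 / 1000 * π) := by
    have := pi_lb
    unfold Lb at *
    push_cast at *
    linarith
  have h2 := taLo_mem (by positivity) (by linarith [pi_pos]) h
  have h3 : taLo 620679734 = 700497695 := by decide +kernel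
  rwa [h3] at h2

end Pool.Agent.S5.E.VX
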