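import Pool.Agent.S5.E.VX.VUr

/-!
# The region of the slots of open nodes: soundness
-/

set_option autoImplicit false

namespace Pool.Agent.S5.E.VX

open Real Pool.Agent.S3.NI Pool.Agent.S5.E.B2 Pool.Agent.S5.G
open scoped ComplexConjugate

/-- The bounds of `σ = R + r` and `δ = R - r`. -/
structure SD (σ δ : ℝ) (ng : Bool) (si0 si1 de0 de1 D : ℕ) : Prop where
  s0 : Lb si0 σ
  s1 : Ub σ si1
  d0 : Lb de0 (max δ 0)
  d1 : Ub δ de1
  n : Ub (-δ) D
  g : ng = false → 0 ≤ δ ∧ Lb de0 δ

theorem ub_max0 {x : ℝ} {n : ℕ} (h : Ub x n) : Ub (max x 0) n := by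
  unfold Ub at *
  rcases le_total x 0 with h0 | h0
  · rw [max_eq_right h0, zero_mul]
    exact Nat.cast_nonneg n
  · rwa [max_eq_left h0]

/-- The angles. -/
theorem uA'_sound {w z : ℂ} (hs : G.Slot w z) {ng : Bool}
    {al0 al1 be0 be1 si0 si1 de0 de1 D Rh : ℕ}
    (h : uA' ng al0 al1 be0 be1 si0 si1 de0 de1 D Rh = true)
    (la : Lb al0 (w.re - z.im)) (ua : Ub (w.re - z.im) al1) (hα : 0 < w.re - z.im)
    (lb : Lb be0 (w.re + z.im)) (ub : Ub (w.re + z.im) be1)
    (hab : al1 ≤ be1) (gb : be1 ≤ 2147483648) (gs : si1 ≤ 1610612736)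
    (gd : de1 ≤ 1610612736) (gD : D ≤ 1610612736)
    (hd : SD (z.re + w.im) (z.re - w.im) ng si0 si1 de0 de1 D) (hR : Ub z.re Rh)
    (gR : Rh ≤ 725250776) :
    (49 / 100 * π ≤ 2 * π * (sy w z).re ∧ 2 * π * (sy w z).re ≤ 684 / 1000 * π) ∧
      (2 * z.re + 15 / 100 * π ≤ 2 * π * (sy w z).re ∧
        2 * π * (sy w z).re ≤ 109 / 100 * π - 2 * z.re) := by
  have hpi := pi_pos
  have hpi3 := pi_gt_three
  have hβ : 0 < w.re + z.im := by linarith [hs.zi]
  have v15 : ∀ {x : ℝ} {n : ℕ}, Ub x n → n ≤ 1610612736 → x < π / 2 := by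
    intro x n hx hn
    have h1 := ub_v hx
    have h2 : (n : ℝ) ≤ 1610612736 := by exact_mod_cast hn
    have h3 : (n : ℝ) / 1073741824 ≤ 3 / 2 := by
      rw [div_le_iff₀ (by norm_num)]
      linarith
    linarith
  have hσ0 : 0 ≤ z.re + w.im := hd.s0.nonneg
  have hσ1 : z.re + w.im < π / 2 := v15 hd.s1 gs
  have hδ1 : z.re - w.im < π / 2 := v15 hd.d1 gd
  have hδ2 : -(π / 2) < z.re - w.im := by
    have := v15 hd.n gD
    linarith
  have cσ : 0 < cos (z.re + w.im) := cos_pos_of_mem_Ioo ⟨by linarith, hσ1⟩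
  have cδ : 0 < cos (z.re - w.im) := cos_pos_of_mem_Ioo ⟨hδ2, hδ1⟩
  have ca := cosh_pos (w.re - z.im)
  have cb := cosh_pos (w.re + z.im)
  -- the tangents
  obtain ⟨a, ea⟩ : ∃ a, a = tanh (w.re - z.im) := ⟨_, rfl⟩
  obtain ⟨b, eb⟩ : ∃ b, b = tanh (w.re + z.im) := ⟨_, rfl⟩
  obtain ⟨s, es⟩ : ∃ s, s = tan (z.re + w.im) := ⟨_, rfl⟩
  obtain ⟨d, ed⟩ : ∃ d, d = tan (z.re - w.im) := ⟨_, rfl⟩
  obtain ⟨K, eK⟩ : ∃ K, K = cosh (w.re - z.im) * cosh (w.re + z.im) * (cos (z.re + w.im) *
    cos (z.re - w.im)) := ⟨_, rfl⟩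
  have K0 : 0 < K := by rw [eK]; positivity
  have f1 : sinh (w.re - z.im) = a * cosh (w.re - z.im) := by
    rw [ea, tanh_eq_sinh_div_cosh, div_mul_cancel₀ _ ca.ne']
  have f2 : sinh (w.re + z.im) = b * cosh (w.re + z.im) := by
    rw [eb, tanh_eq_sinh_div_cosh, div_mul_cancel₀ _ cb.ne']
  have f3 : sin (z.re + w.im) = s * cos (z.re + w.im) := by
    rw [es, tan_eq_sin_div_cos, div_mul_cancel₀ _ cσ.ne']
  have f4 : sin (z.re - w.im) = d * cos (z.re - w.im) := by
    rw [ed, tan_eq_sin_div_cos, div_mul_cancel₀ _ cδ.ne']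
  have eX : (Complex.sinh (w + Complex.I * z) * conj (Complex.sinh (w - Complex.I * z))).re =
      K * (a * b - s * d) := by
    rw [ab_re, f1, f2, f3, f4, eK]
    ring
  have eY : (Complex.sinh (w + Complex.I * z) * conj (Complex.sinh (w - Complex.I * z))).im =
      K * (a * d + b * s) := by
    rw [ab_im, f1, f2, f3, f4, eK]
    ring
  have ha : 0 < a := by
    rw [ea, tanh_eq_sinh_div_cosh]
    exact div_pos (sinh_pos_iff.2 hα) ca
  have hb : 0 < b := by
    rw [eb, tanh_eq_sinh_div_cosh]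
    exact div_pos (sinh_pos_iff.2 hβ) cb
  have hs0 : 0 ≤ s := by
    rw [es]
    exact tan_nonneg_of_nonneg_of_le_pi_div_two hσ0 hσ1.le
  have hY : 0 < a * d + b * s := by
    have h1 := hs.yp.resolve_left (by
      intro h0
      rw [h0] at hα
      simp at hα
      linarith [hs.zi])
    rw [eY] at h1
    by_contra hn
    push Not at hn
    have := mul_nonpos_of_nonneg_of_nonpos K0.le hn
    linarith
  -- the bounds
  unfold uA' uA at h
  simp only [Bool.and_eq_true] at h
  obtain ⟨⟨⟨g1, g2⟩, g3, g4, g5⟩, ⟨h1, h2⟩, h3, h4⟩ := h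
  have La : Lb (thLo al0) a := by
    rw [ea]
    refine thLo_mem la ?_
    have h0 : (al0 : ℝ) ≤ be1 := by
      have : (al1 : ℝ) ≤ be1 := by exact_mod_cast hab
      exact (la.trans ua).trans this
    have : al0 ≤ be1 := by exact_mod_cast h0
    omega
  have Ua : Ub a (thHi al1) := by
    rw [ea]
    exact thHi_mem ua (by omega) (ble_one g1)
  have LB : Lb (thLo be0) b := by
    rw [eb]
    refine thLo_mem lb ?_
    have h0 : (be0 : ℝ) ≤ be1 := lb.trans ub
    have : be0 ≤ be1 := by exact_mod_cast h0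
    omega
  have UB : Ub b (thHi be1) := by
    rw [eb]
    exact thHi_mem ub gb (ble_one g2)
  have Ls : Lb (taLo si0) s := by
    rw [es]
    exact taLo_mem hσ0 hσ1 hd.s0
  have Us : Ub s (taHi si1) := by
    rw [es]
    exact taHi_mem hσ0 hσ1.le hd.s1 (by omega) (ble_one g3)
  have Ld : ng = false → 0 ≤ d ∧ Lb (taLo de0) d := by
    intro h0
    obtain ⟨k1, k2⟩ := hd.g h0
    rw [ed]
    exact ⟨tan_nonneg_of_nonneg_of_le_pi_div_two k1 hδ1.le, taLo_mem k1 hδ1 k2⟩
  -- the negative part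
  have hDm : -(tan (max (-(z.re - w.im)) 0)) ≤ d := by
    rw [ed, ← tan_neg]
    have k1 : -(max (-(z.re - w.im)) 0) ≤ z.re - w.im := by
      have := le_max_left (-(z.re - w.im)) 0
      linarith
    rcases k1.eq_or_lt with k2 | k2
    · rw [k2]
    · refine (tan_lt_tan_of_lt_of_lt_pi_div_two ?_ hδ1 k2).le
      have : max (-(z.re - w.im)) 0 < π / 2 := max_lt (by linarith) (by linarith)
      linarith
  have UD : Ub (tan (max (-(z.re - w.im)) 0)) (taHi D) :=
    taHi_mem (le_max_right _ _) (max_le (by linarith) (by linarith)) (ub_max0 hd.n) (by omega)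
      (ble_one g5)
  -- from below
  have low : ∀ {c : ℕ} {ψ : ℝ}, 0 ≤ ψ → ψ < π / 2 → Lb c (tan ψ) →
      uL ng (thHi al1) (thLo be0) (thHi be1) (taLo si0) (taLo de0) (taHi D) c = true →
      π / 2 - ψ ≤ 2 * π * (sy w z).re := by
    intro c ψ p0 p1 hc hk
    apply slot_lo hs p0
    have hcψ : 0 < cos ψ := cos_pos_of_mem_Ioo ⟨by linarith, p1⟩
    have key : a * b ≤ s * d + tan ψ * (a * d + b * s) := by
      unfold uL at hk
      cases ng with
      | true =>
        rw [Bool.cond_true] at hk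
        exact uTn_sound hk ha hs0 Ua LB Ls hDm UD hc hY.le
      | false =>
        rw [Bool.cond_false] at hk
        obtain ⟨k1, k2⟩ := Ld rfl
        exact uT_sound hk ha hb hs0 k1 Ua UB Ls k2 hc
    rw [eX, eY]
    have e1 : sin ψ = tan ψ * cos ψ := by rw [tan_eq_sin_div_cos, div_mul_cancel₀ _ hcψ.ne']
    rw [e1]
    have k1 : K * cos ψ * (a * b - s * d - tan ψ * (a * d + b * s)) ≤ 0 :=
      mul_nonpos_of_nonneg_of_nonpos (mul_pos K0 hcψ).le (by linarith)
    linarith
  -- from above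
  have high : ∀ {c : ℕ} {ψ : ℝ}, 0 ≤ ψ → ψ < π / 2 → Lb c (tan ψ) →
      uTh (thLo al0) (thLo be0) (taHi si1) (taHi de1) c = true →
      2 * π * (sy w z).re ≤ π / 2 + ψ := by
    intro c ψ p0 p1 hc hk
    have hcψ : 0 < cos ψ := cos_pos_of_mem_Ioo ⟨by linarith, p1⟩
    rcases le_total 0 (z.re - w.im) with hδ | hδ
    · have hd0 : 0 ≤ d := by
        rw [ed]
        exact tan_nonneg_of_nonneg_of_le_pi_div_two hδ hδ1.le
      have Ud : Ub d (taHi de1) := by
        rw [ed]
        exact taHi_mem hδ hδ1.le hd.d1 (by omega) (ble_one g4)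
      have key := uTh_sound hk hs0 hd0 La LB Us Ud hc
      apply slot_hi hs p0
      rw [eX, eY]
      have e1 : sin ψ = tan ψ * cos ψ := by rw [tan_eq_sin_div_cos, div_mul_cancel₀ _ hcψ.ne']
      rw [e1]
      have k1 : 0 ≤ K * cos ψ * (a * b - s * d + tan ψ * (a * d + b * s)) :=
        mul_nonneg (mul_pos K0 hcψ).le (by linarith)
      linarith
    · have hd0 : d ≤ 0 := by
        rw [ed]
        exact tan_nonpos_of_nonpos_of_neg_pi_div_two_le hδ hδ2.le
      have k1 := slot_hi hs (ψ := 0) le_rfl (by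
        rw [eX, eY, cos_zero, sin_zero, mul_one, mul_zero, add_zero]
        have : s * d ≤ 0 := mul_nonpos_of_nonneg_of_nonpos hs0 hd0
        have : 0 ≤ a * b := by positivity
        exact mul_nonneg K0.le (by linarith))
      linarith
  -- beyond the right angle
  have low' : ∀ {ψ : ℝ}, 0 ≤ ψ → ψ < π / 2 → a * b + tan ψ * (a * d + b * s) ≤ s * d →
      π / 2 + ψ ≤ 2 * π * (sy w z).re := by
    intro ψ p0 p1 hk
    have hcψ : 0 < cos ψ := cos_pos_of_mem_Ioo ⟨by linarith, p1⟩
    apply slot_lo' hs p1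
    rw [eX, eY]
    have e1 : sin ψ = tan ψ * cos ψ := by rw [tan_eq_sin_div_cos, div_mul_cancel₀ _ hcψ.ne']
    rw [e1]
    have k1 : K * cos ψ * (a * b - s * d + tan ψ * (a * d + b * s)) ≤ 0 :=
      mul_nonpos_of_nonneg_of_nonpos (mul_pos K0 hcψ).le (by linarith)
    linarith
  have pl := pi_lb
  have pu := pi_ub
  unfold Lb at pl
  unfold Ub at pu
  push_cast at pl pu
  have H1 := low (ψ := 1 / 100 * π) (by positivity) (by linarith) c_t0 h1
  have H2 := high (ψ := 184 / 1000 * π) (by positivity) (by linarith) c_t1 h2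
  refine ⟨⟨by linarith, by linarith⟩, ?_, ?_⟩
  · -- the gap
    unfold ugT at h3
    rcases Nat.lt_or_ge 1180640799 (2 * Rh) with hk | hk
    rotate_left
    · have e : Nat.ble (Nat.mul 2 Rh) 1180640799 = true := by
        rw [Nat.ble_eq]
        exact hk
      rw [e, Bool.cond_true] at h3
      have c1 : Lb (Nat.sub 1180640799 (Nat.mul 2 Rh)) (35 / 100 * π - 2 * z.re) := by
        have hx : Nat.sub 1180640799 (Nat.mul 2 Rh) + 2 * Rh = 1180640799 := by
          show 1180640799 - 2 * Rh + 2 * Rh = 1180640799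
          omega
        have hx' : ((Nat.sub 1180640799 (Nat.mul 2 Rh) : ℕ) : ℝ) + 2 * Rh = 1180640799 := by
          exact_mod_cast hx
        unfold Lb
        unfold Ub at hR
        linarith
      have c2 := c1.nonneg
      have c3 := low (ψ := 35 / 100 * π - 2 * z.re) c2 (by linarith [hs.z0])
        (taLo_mem c2 (by linarith [hs.z0]) c1) h3
      linarith
    · have e : Nat.ble (Nat.mul 2 Rh) 1180640799 = false := by
        rw [← Bool.not_eq_true, Nat.ble_eq]
        show ¬ (2 * Rh ≤ 1180640799)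
        omega
      rw [e, Bool.cond_false] at h3
      cases ng with
      | true => exact absurd h3 (by simp)
      | false =>
        obtain ⟨k1, k2⟩ := Ld rfl
        have c1 : Ub (max (2 * z.re - 35 / 100 * π) 0) (Nat.sub (Nat.mul 2 Rh) 1180640799) := by
          apply ub_max0
          have hx : Nat.sub (Nat.mul 2 Rh) 1180640799 + 1180640799 = 2 * Rh := by
            show 2 * Rh - 1180640799 + 1180640799 = 2 * Rh
            omega
          have hx' : ((Nat.sub (Nat.mul 2 Rh) 1180640799 : ℕ) : ℝ) + 1180640799 = 2 * Rh := by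
            exact_mod_cast hx
          unfold Ub at hR ⊢
          linarith
        have c0 : 0 ≤ max (2 * z.re - 35 / 100 * π) 0 := le_max_right _ _
        have c4 : max (2 * z.re - 35 / 100 * π) 0 < π / 2 := by
          have hz := ub_v hR
          have hz' : (Rh : ℝ) / 1073741824 ≤ 7 / 10 := by
            have : (Rh : ℝ) ≤ 725250776 := by exact_mod_cast gR
            rw [div_le_iff₀ (by norm_num)]
            linarith
          apply max_lt _ (by linarith)
          linarith
        rw [Bool.cond_false, Bool.and_eq_true] at h3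
        have hn : Nat.sub (Nat.mul 2 Rh) 1180640799 ≤ 3221225472 := by
          show 2 * Rh - 1180640799 ≤ 3221225472
          omega
        have c5 := taHi_mem c0 c4.le c1 hn (ble_one h3.1)
        have key := uTm_sound h3.2 ha hb hs0 k1 Ua UB Ls k2 c5
        have k3 := low' c0 c4 key
        have k4 := le_max_left (2 * z.re - 35 / 100 * π) 0
        linarith
  · -- the sum
    unfold upT at h4
    rw [Bool.or_eq_true, Nat.ble_eq] at h4
    rcases h4 with h4 | h4
    · have h5 : (Rh : ℝ) ≤ 684771663 := by exact_mod_cast h4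
      unfold Ub at hR
      linarith
    · have c1 : Lb (Nat.sub 1990223061 (Nat.mul 2 Rh)) (59 / 100 * π - 2 * z.re) := by
        have hx : Nat.sub 1990223061 (Nat.mul 2 Rh) + 2 * Rh = 1990223061 := by
          show 1990223061 - 2 * Rh + 2 * Rh = 1990223061
          omega
        have hx' : ((Nat.sub 1990223061 (Nat.mul 2 Rh) : ℕ) : ℝ) + 2 * Rh = 1990223061 := by
          exact_mod_cast hx
        unfold Lb
        unfold Ub at hR
        linarith
      have c2 := c1.nonneg
      rcases lt_or_ge (59 / 100 * π - 2 * z.re) (π / 2) with c6 | c6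
      · have c3 := high (ψ := 59 / 100 * π - 2 * z.re) c2 c6 (taLo_mem c2 c6 c1) h4
        linarith
      · linarith

end Pool.Agent.S5.E.VX
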