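import Pool.Agent.S5.E.VX.Lin
import Pool.Agent.S5.E.VX.SyF

/-!
# The region of the slots of open nodes: the test

`α = p - I`, `β = p + I`, `σ = R + r`, `δ = R - r`.
-/

set_option autoImplicit false

namespace Pool.Agent.S5.E.VX

open Real Pool.Agent.S3.NI Pool.Agent.S5.E.B2

def taLo (n : ℕ) : ℕ := dlo (snLo n) (csHi n)
def taHi (n : ℕ) : ℕ := dhi (snHi n) (csLo n)
def thLo (n : ℕ) : ℕ := dlo (shLo n) (chHi n)
def thHi (n : ℕ) : ℕ := dhi (shHi n) (chLo n)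

/-! ### Angles -/

/-- From below, `δ ≥ 0`. -/
def uT (a1 b1 s0 d0 c : ℕ) : Bool :=
  Nat.ble (mhi a1 b1) (Nat.add (mlo s0 d0) (mlo c (Nat.add (mlo a1 d0) (mlo b1 s0))))

/-- From below, `δ ≥ -D`. -/
def uTn (a1 b0 s0 D c : ℕ) : Bool :=
  Nat.ble 1 b0 && Nat.ble (Nat.add (Nat.add (mhi a1 b0) (mhi s0 D)) (mhi c (mhi a1 D)))
    (mlo c (mlo b0 s0))

/-- From below, beyond the right angle. -/
def uTm (a1 b1 s0 d0 c : ℕ) : Bool :=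
  Nat.ble (Nat.add (mhi a1 b1) (mhi c (Nat.add (mhi a1 d0) (mhi b1 s0)))) (mlo s0 d0)

/-- From above. -/
def uTh (a0 b0 s1 d1 c : ℕ) : Bool :=
  Nat.ble (mhi s1 d1) (Nat.add (mlo a0 b0) (mlo c (Nat.add (mlo a0 d1) (mlo b0 s1))))

/-- Both signs of `δ`. -/
def uL (ng : Bool) (a1 b0 b1 s0 d0 D c : ℕ) : Bool :=
  bif ng then uTn a1 b0 s0 D c else uT a1 b1 s0 d0 c

def ugT (ng : Bool) (a1 b0 b1 s0 d0 D Rh : ℕ) : Bool :=
  bif Nat.ble (Nat.mul 2 Rh) 1180640799 then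
    uL ng a1 b0 b1 s0 d0 D (taLo (Nat.sub 1180640799 (Nat.mul 2 Rh)))
  else (bif ng then false else
    (Nat.ble 1 (csLo (Nat.sub (Nat.mul 2 Rh) 1180640799)) &&
      uTm a1 b1 s0 d0 (taHi (Nat.sub (Nat.mul 2 Rh) 1180640799))))

def upT (a0 b0 s1 d1 Rh : ℕ) : Bool :=
  Nat.ble Rh 684771663 || uTh a0 b0 s1 d1 (taLo (Nat.sub 1990223061 (Nat.mul 2 Rh)))

/-- All angles. -/
def uA (ng : Bool) (a0 a1 b0 b1 s0 s1 d0 d1 D Rh : ℕ) : Bool :=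
  (uL ng a1 b0 b1 s0 d0 D 33743695 && uTh a0 b0 s1 d1 700497695) &&
    (ugT ng a1 b0 b1 s0 d0 D Rh && upT a0 b0 s1 d1 Rh)

def uA' (ng : Bool) (al0 al1 be0 be1 si0 si1 de0 de1 D Rh : ℕ) : Bool :=
  ((Nat.ble 1 (chLo al1) && Nat.ble 1 (chLo be1)) && (Nat.ble 1 (csLo si1) &&
    (Nat.ble 1 (csLo de1) && Nat.ble 1 (csLo D)))) &&
  uA ng (thLo al0) (thHi al1) (thLo be0) (thHi be1) (taLo si0) (taHi si1) (taLo de0) (taHi de1)
    (taHi D) Rh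

/-! ### Sizes -/

def gp (x : ℕ) : ℕ := dhi (mhi x (Nat.add x 15032385536)) (Nat.add (Nat.mul 4 x) 2147483648)

/-- Constants: `exp (4 π e0)`, `exp (4 π e1)`, `exp l`, where `-e0 ≤ η ≤ e1`, `λ ≤ l`, and the
bounds of `R`, `I`. -/
structure UK where
  c0 : ℕ
  c1 : ℕ
  cl : ℕ
  xh : ℕ
  nh : ℕ

def uS2 (k : UK) (N0 S1 A0 A1 B0 B1 e Ih : ℕ) : Bool :=
  (Nat.ble S1 (mlo N0 k.cl) && (Nat.ble A1 (mlo B0 k.c0) &&
    (Nat.ble B1 (mlo A0 k.c1) && Nat.ble (mhi A1 (mhi e e)) (mlo B0 8538394984)))) &&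
    ((Nat.ble 1 N0 && Nat.ble 1 A0) &&
      Nat.ble (Nat.add (Nat.add (mhi 6746518856 (gp (dhi S1 N0))) (gp (dhi B1 A0))) (Nat.mul 2 Ih))
        22923911116)

def uS1 (k : UK) (N0 S1 A0 A1 B0 B1 x Ih : ℕ) : Bool := uS2 k N0 S1 A0 A1 B0 B1 (mhi x x) Ih

def mx (a b : ℕ) : ℕ := bif Nat.ble a b then b else a

def uS (k : UK) (P Q R I : N) (al0 al1 be0 be1 si0 si1 d0 D : ℕ) : Bool :=
  uS1 k (Nat.add (mlo (snLo R.lo) (snLo R.lo)) (mlo (shLo I.lo) (shLo I.lo)))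
    (Nat.add (mhi (shHi P.hi) (shHi P.hi)) (mhi (snHi Q.hi) (snHi Q.hi)))
    (Nat.add (mlo (shLo al0) (shLo al0)) (mlo (snLo si0) (snLo si0)))
    (Nat.add (mhi (shHi al1) (shHi al1)) (mhi (snHi si1) (snHi si1)))
    (Nat.add (mlo (shLo be0) (shLo be0)) (mlo (snLo d0) (snLo d0)))
    (Nat.add (mhi (shHi be1) (shHi be1)) (mhi (snHi D) (snHi D)))
    (Nat.add (shHi I.hi) (chHi I.hi)) I.hi

/-! ### The test -/

def uB (k : UK) (P Q R I : N) (ng : Bool) (al0 al1 be0 be1 si0 si1 de0 de1 D : ℕ) : Bool :=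
  ((Nat.ble be1 2147483648 && Nat.ble si1 1610612736) &&
    (Nat.ble de1 1610612736 && Nat.ble D 1610612736)) &&
  (uS k P Q R I al0 al1 be0 be1 si0 si1 de0 (mx de1 D) &&
    uA' ng al0 al1 be0 be1 si0 si1 de0 de1 D R.hi)

/-- `ng`: `δ` may be negative. -/
def uB' (k : UK) (P Q R I : N) (ng : Bool) (si0 si1 de0 de1 D : ℕ) : Bool :=
  uB k P Q R I ng (Nat.sub P.lo I.hi) (Nat.sub P.hi I.lo) (Nat.add P.lo I.lo) (Nat.add P.hi I.hi)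
    si0 si1 de0 de1 D

def uG (k : UK) (P R I : N) : Bool :=
  (((Nat.ble R.hi k.xh && Nat.ble k.xh 725250776) && Nat.ble I.hi k.nh) &&
    (Nat.ble (Nat.succ I.hi) P.lo &&
    Nat.ble (Nat.mul 4294967296 I.hi) (Nat.mul P.lo 3373259426))) &&
  Nat.ble (Nat.mul 3221225472 I.hi) (Nat.mul (Nat.mul 8 P.lo) (Nat.sub 944512639 R.hi))

/-- The test of the slot with the mode `m`. -/
def accU (k : UK) (m : Md) (P Q R I : N) : Bool :=
  match m with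
  | .o => false
  | .n => uG k P R I && (Nat.ble Q.hi R.lo &&
      uB' k P Q R I false (Nat.sub R.lo Q.hi) (Nat.sub R.hi Q.lo) (Nat.add R.lo Q.lo)
        (Nat.add R.hi Q.hi) 0)
  | _ => uG k P R I && uB' k P Q R I (Nat.ble R.lo Q.hi) (Nat.add R.lo Q.lo) (Nat.add R.hi Q.hi)
      (Nat.sub R.lo Q.hi) (Nat.sub R.hi Q.lo) (Nat.sub Q.hi R.lo)

/-- The acceptance test for the first slot. -/
def accU1 (k : UK) (m1 _m2 : Md) (A B _C _D R I : N) : Bool := accU k m1 A B R I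

end Pool.Agent.S5.E.VX
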