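import Pool.Agent.S5.E.VX.VUs

/-!
# The region of the slots of open nodes: sizes, and the region `VU`
-/

set_option autoImplicit false

namespace Pool.Agent.S5.E.VX

open Real Pool.Agent.S3.NI Pool.Agent.S5.E.B2 Pool.Agent.S5.G
open scoped ComplexConjugate

theorem u_2pi : Ub (2 * π) 6746518856 := by
  have := pi_ub
  unfold Ub at *
  push_cast at *
  linarith

theorem exp_four {I : ℝ} {x : ℕ} (h : Ub (exp I) x) : Ub (exp (4 * I)) (mhi (mhi x x) (mhi x x)) := by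
  have e : exp (4 * I) = exp I * exp I * (exp I * exp I) := by
    rw [← exp_add, ← exp_add]
    ring_nf
  rw [e]
  have h0 := (exp_pos I).le
  have h1 := h.mul h h0
  exact h1.mul h1 (mul_nonneg h0 h0)

/-- The meaning of the constants. -/
structure UK.Ok (k : UK) (e0 e1 l : ℝ) : Prop where
  c0 : Lb k.c0 (exp (4 * π * e0))
  c1 : Lb k.c1 (exp (4 * π * e1))
  cl : Lb k.cl (exp l)
  n : k.nh ≤ 296846829

/-- The sizes. -/
theorem uS2_sound {k : UK} {e0 e1 l : ℝ} (hk : k.Ok e0 e1 l) {w z : ℂ} (hs : G.Slot w z)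
    (hp : 0 < w.re) {N0 S1 A0 A1 B0 B1 x Ih : ℕ}
    (h : uS2 k N0 S1 A0 A1 B0 B1 (mhi x x) Ih = true)
    (hN : Lb N0 (‖Complex.sin z‖ ^ 2)) (hS : Ub (‖Complex.sinh w‖ ^ 2) S1)
    (hA0 : Lb A0 (‖Complex.sinh (w + Complex.I * z)‖ ^ 2))
    (hA1 : Ub (‖Complex.sinh (w + Complex.I * z)‖ ^ 2) A1)
    (hB0 : Lb B0 (‖Complex.sinh (w - Complex.I * z)‖ ^ 2))
    (hB1 : Ub (‖Complex.sinh (w - Complex.I * z)‖ ^ 2) B1)
    (hx : Ub (exp z.im) x) (hI : Ub z.im Ih) :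
    (-e0 ≤ (sy w z).im ∧ (sy w z).im ≤ e1) ∧
      (z.im / π - (sy w z).im ≤ 165 / 1000 ∧ (lamv (sy w z) (z / π) ≤ l ∧
        lamv (sy w z) (z / π) + 2 * (sy w z).im + z.im / π ≤ 1 / 2)) := by
  have hpi := pi_pos
  have hsw : Complex.sinh w ≠ 0 := by
    intro h0
    have h1 : 0 < ‖Complex.sinh w‖ ^ 2 := by
      rw [norm_sinh_sq']
      have := sinh_pos_iff.2 hp
      positivity
    rw [h0, norm_zero] at h1
    norm_num at h1
  have hsz : Complex.sin z ≠ 0 := by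
    obtain ⟨s1, s2⟩ := sin_quad hs.z0 hs.z1 hs.zi
    intro h
    rw [h] at s1
    simp at s1
  obtain ⟨LamE, lamE⟩ := slot_log hs hsw
  have imE := slot_im hs
  obtain ⟨S, eS⟩ : ∃ S, S = ‖Complex.sinh w‖ ^ 2 := ⟨_, rfl⟩
  obtain ⟨Nn, eN⟩ : ∃ Nn, Nn = ‖Complex.sin z‖ ^ 2 := ⟨_, rfl⟩
  obtain ⟨A, eA⟩ : ∃ A, A = ‖Complex.sinh (w + Complex.I * z)‖ ^ 2 := ⟨_, rfl⟩
  obtain ⟨B, eB⟩ : ∃ B, B = ‖Complex.sinh (w - Complex.I * z)‖ ^ 2 := ⟨_, rfl⟩
  have S0 : 0 < S := by rw [eS]; exact pow_pos (norm_pos_iff.2 hsw) 2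
  have N00 : 0 < Nn := by rw [eN]; exact pow_pos (norm_pos_iff.2 hsz) 2
  have A00 : 0 < A := by rw [eA]; exact pow_pos (norm_pos_iff.2 (slot_neA hs)) 2
  have B00 : 0 < B := by rw [eB]; exact pow_pos (norm_pos_iff.2 (slot_ne hs)) 2
  rw [← eA] at hA0 hA1
  rw [← eB] at hB0 hB1
  rw [← eS] at hS
  rw [← eN] at hN
  rw [← eS, ← eN] at lamE
  rw [← eA, ← eB, log_div B00.ne' A00.ne'] at imE
  unfold uS2 at h
  simp only [Bool.and_eq_true] at h
  obtain ⟨⟨h1, h2, h3, h4⟩, ⟨h5, h6⟩, h7⟩ := h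
  have k1 := le_of_LU hS (hN.mul hk.cl) h1
  have k2 := le_of_LU hA1 (hB0.mul hk.c0) h2
  have k3 := le_of_LU hB1 (hA0.mul hk.c1) h3
  have k4 := le_of_LU (hA1.mul (exp_four hx) (exp_pos _).le) (hB0.mul c_d) h4
  have l1 : log S ≤ log Nn + l := by
    have := log_le_log S0 k1
    rwa [log_mul N00.ne' (exp_pos _).ne', log_exp] at this
  have l2 : log A ≤ log B + 4 * π * e0 := by
    have := log_le_log A00 k2
    rwa [log_mul B00.ne' (exp_pos _).ne', log_exp] at this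
  have l3 : log B ≤ log A + 4 * π * e1 := by
    have := log_le_log B00 k3
    rwa [log_mul A00.ne' (exp_pos _).ne', log_exp] at this
  have l4 : log A + 4 * z.im ≤ log B + 66 / 100 * π := by
    have := log_le_log (mul_pos A00 (exp_pos _)) k4
    rwa [log_mul B00.ne' (exp_pos _).ne', log_mul A00.ne' (exp_pos _).ne', log_exp, log_exp] at this
  have q1 : Ub (S / Nn) (dhi S1 N0) := hS.div hN (ble_one h5)
  have q2 : Ub (B / A) (dhi B1 A0) := hB1.div hA0 (ble_one h6)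
  have g1 := gp_mem (div_pos S0 N00).le q1
  have g2 := gp_mem (div_pos B00 A00).le q2
  have two_I : Ub (2 * z.im) (Nat.mul 2 Ih) := by
    unfold Ub at *
    rw [cast_mul']
    push_cast
    linarith
  have tot : Lb 22923911116 (6 * π + 5 / 2) := by
    have := pi_lb
    unfold Lb at *
    push_cast at *
    linarith
  have k5 := le_of_LU ((u_2pi.mul g1 (by positivity)).add g2 |>.add two_I) tot h7
  have m1 := log_le_gp (div_pos S0 N00)
  have m2 := log_le_gp (div_pos B00 A00)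
  rw [log_div B00.ne' A00.ne'] at m2
  have l5 : 2 * π * log (S / Nn) + (log B - log A) + 2 * z.im ≤ π := by
    have := mul_le_mul_of_nonneg_left m1 (show 0 ≤ 2 * π by positivity)
    linarith
  have e1 : z.im / π * π = z.im := div_mul_cancel₀ _ hpi.ne'
  refine ⟨⟨?_, ?_⟩, ?_, ?_, ?_⟩
  · by_contra hn
    push Not at hn
    have := mul_lt_mul_of_pos_left hn (show 0 < 4 * π by positivity)
    linarith
  · by_contra hn
    push Not at hn
    have := mul_lt_mul_of_pos_left hn (show 0 < 4 * π by positivity)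
    linarith
  · by_contra hn
    push Not at hn
    have := mul_lt_mul_of_pos_left hn (show 0 < 4 * π by positivity)
    have e2 : 4 * π * (z.im / π - (sy w z).im) = 4 * (z.im / π * π) - 4 * π * (sy w z).im := by ring
    rw [e2, e1] at this
    linarith
  · rw [lamE, log_div S0.ne' N00.ne']
    linarith
  · rw [lamE]
    by_contra hn
    push Not at hn
    have := mul_lt_mul_of_pos_left hn (show 0 < 2 * π by positivity)
    have e2 : 2 * π * (log (S / Nn) + 2 * (sy w z).im + z.im / π) =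
      2 * π * log (S / Nn) + 4 * π * (sy w z).im + 2 * (z.im / π * π) := by ring
    rw [e2, e1] at this
    linarith

theorem mx_l (a b : ℕ) : a ≤ mx a b := by
  unfold mx
  rcases h : Nat.ble a b with _ | _
  · simp
  · simp only [cond_true]
    exact Nat.le_of_ble_eq_true h

theorem mx_r (a b : ℕ) : b ≤ mx a b := by
  unfold mx
  rcases h : Nat.ble a b with _ | _
  · simp only [cond_false]
    rw [← Bool.not_eq_true, Nat.ble_eq] at h
    omega
  · simp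

/-- Everything but the position of the vertex. -/
theorem uB_sound {k : UK} {e0 e1 l : ℝ} (hk : k.Ok e0 e1 l) {w z : ℂ} (hs : G.Slot w z) {P Q Rr Ir : N} {ng : Bool}
    {al0 al1 be0 be1 si0 si1 de0 de1 D : ℕ}
    (h : uB k P Q Rr Ir ng al0 al1 be0 be1 si0 si1 de0 de1 D = true)
    (mP : Mem w.re P) (mQ : Mem |w.im| Q) (mR : Mem z.re Rr) (mI : Mem z.im Ir)
    (la : Lb al0 (w.re - z.im)) (ua : Ub (w.re - z.im) al1) (hα : 0 < w.re - z.im)
    (lb : Lb be0 (w.re + z.im)) (ub : Ub (w.re + z.im) be1)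
    (hab : al1 ≤ be1) (hP : P.hi ≤ be1) (hI : Ir.hi ≤ be1) (hq : |w.im| ≤ π / 2)
    (hd : SD (z.re + w.im) (z.re - w.im) ng si0 si1 de0 de1 D) (gR : Rr.hi ≤ 725250776) :
    ((49 / 100 * π ≤ 2 * π * (sy w z).re ∧ 2 * π * (sy w z).re ≤ 684 / 1000 * π) ∧
      (2 * z.re + 15 / 100 * π ≤ 2 * π * (sy w z).re ∧
        2 * π * (sy w z).re ≤ 109 / 100 * π - 2 * z.re)) ∧
    ((-e0 ≤ (sy w z).im ∧ (sy w z).im ≤ e1) ∧
      (z.im / π - (sy w z).im ≤ 165 / 1000 ∧ (lamv (sy w z) (z / π) ≤ l ∧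
        lamv (sy w z) (z / π) + 2 * (sy w z).im + z.im / π ≤ 1 / 2))) := by
  unfold uB at h
  simp only [Bool.and_eq_true] at h
  obtain ⟨⟨⟨g1, g2⟩, g3, g4⟩, h1, h2⟩ := h
  rw [Nat.ble_eq] at g1 g2 g3 g4
  have hpi := pi_pos
  have hpi3 := pi_gt_three
  refine ⟨uA'_sound hs h2 la ua hα lb ub hab g1 g2 g3 g4 hd mR.2 gR, ?_⟩
  have v15 : ∀ {x : ℝ} {n : ℕ}, Ub x n → n ≤ 1610612736 → x < π / 2 := by
    intro x n hx hn
    have h1 := ub_v hx
    have h2 : (n : ℝ) ≤ 1610612736 := by exact_mod_cast hn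
    have h3 : (n : ℝ) / 1073741824 ≤ 3 / 2 := by
      rw [div_le_iff₀ (by norm_num)]
      linarith
    linarith
  have hβ : 0 < w.re + z.im := by linarith [hs.zi]
  have hσ0 : 0 ≤ z.re + w.im := hd.s0.nonneg
  have hσ1 : z.re + w.im < π / 2 := v15 hd.s1 g2
  have hδ1 : z.re - w.im < π / 2 := v15 hd.d1 g3
  have hδ2 := v15 hd.n g4
  have u1 : Ub |z.re - w.im| (mx de1 D) := by
    have k1 : ((mx de1 D : ℕ) : ℝ) ≥ de1 := by exact_mod_cast mx_l de1 D
    have k2 : ((mx de1 D : ℕ) : ℝ) ≥ D := by exact_mod_cast mx_r de1 D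
    have k3 := hd.d1
    have k4 := hd.n
    unfold Ub at *
    rcases abs_cases (z.re - w.im) with ⟨e, _⟩ | ⟨e, _⟩
    · rw [e]
      linarith
    · rw [e]
      linarith
  have l1 : Lb de0 |z.re - w.im| := by
    have k1 := hd.d0
    have k2 : max (z.re - w.im) 0 ≤ |z.re - w.im| := max_le (le_abs_self _) (abs_nonneg _)
    unfold Lb at *
    linarith
  have hδa : |z.re - w.im| ≤ π / 2 := abs_le.2 ⟨by linarith, hδ1.le⟩
  have sq_abs_sin : ∀ x : ℝ, sin |x| * sin |x| = sin x ^ 2 := by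
    intro x
    rcases abs_cases x with ⟨e, _⟩ | ⟨e, _⟩
    · rw [e]
      ring
    · rw [e, sin_neg]
      ring
  have nn : ∀ {x : ℝ}, 0 ≤ x → x ≤ π / 2 → 0 ≤ sin x := fun h0 h1 =>
    sin_nonneg_of_nonneg_of_le_pi h0 (by linarith)
  have gI : Ir.hi ≤ 2147483648 := hI.trans g1
  have hI0 := hs.zi
  have hp : 0 < w.re := by linarith
  have ns : 0 ≤ sinh w.re := sinh_nonneg_iff.2 hp.le
  have b1 : Lb (snLo Rr.lo) (sin z.re) := snLo_mem hs.z1.le mR.1
  have b2 : Lb (shLo Ir.lo) (sinh z.im) := shLo_mem mI.1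
  have b3 : Ub (sinh w.re) (shHi P.hi) := shHi_mem hp.le mP.2 (hP.trans g1)
  have b4 : Ub (sin |w.im|) (snHi Q.hi) := snHi_mem (abs_nonneg _) mQ.2
  have b5 : Lb (shLo al0) (sinh (w.re - z.im)) := shLo_mem la
  have b6 : Lb (snLo si0) (sin (z.re + w.im)) := snLo_mem hσ1.le hd.s0
  have b7 : Ub (sinh (w.re - z.im)) (shHi al1) := shHi_mem hα.le ua (hab.trans g1)
  have b8 : Ub (sin (z.re + w.im)) (snHi si1) := snHi_mem hσ0 hd.s1
  have b9 : Lb (shLo be0) (sinh (w.re + z.im)) := shLo_mem lb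
  have b10 : Lb (snLo de0) (sin |z.re - w.im|) := snLo_mem hδa l1
  have b11 : Ub (sinh (w.re + z.im)) (shHi be1) := shHi_mem hβ.le ub g1
  have b12 : Ub (sin |z.re - w.im|) (snHi (mx de1 D)) := snHi_mem (abs_nonneg _) u1
  have b13 : Ub (exp z.im) (Nat.add (shHi Ir.hi) (chHi Ir.hi)) := by
    have e : exp z.im = sinh z.im + cosh z.im := by rw [sinh_add_cosh]
    rw [e]
    exact Ub.add (shHi_mem hI0.le mI.2 gI) (chHi_mem hI0.le mI.2 gI)
  unfold uS uS1 at h1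
  refine uS2_sound hk hs hp h1 ?_ ?_ ?_ ?_ ?_ ?_ b13 mI.2
  · rw [norm_sin_sq', pow_two, pow_two]
    exact (b1.mul b1).add (b2.mul b2)
  · rw [norm_sinh_sq', ← sq_abs_sin, pow_two]
    exact (b3.mul b3 ns).add (b4.mul b4 (nn (abs_nonneg _) hq))
  · rw [norm_sinh_sq', addI_re, addI_im, add_comm w.im, pow_two, pow_two]
    exact (b5.mul b5).add (b6.mul b6)
  · rw [norm_sinh_sq', addI_re, addI_im, add_comm w.im, pow_two, pow_two]
    exact (b7.mul b7 (sinh_nonneg_iff.2 hα.le)).add (b8.mul b8 (nn hσ0 hσ1.le))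
  · rw [norm_sinh_sq', subI_re, subI_im, ← neg_sub z.re w.im, sin_neg, neg_pow_two, ← sq_abs_sin,
      pow_two]
    exact (b9.mul b9).add (b10.mul b10)
  · rw [norm_sinh_sq', subI_re, subI_im, ← neg_sub z.re w.im, sin_neg, neg_pow_two, ← sq_abs_sin,
      pow_two]
    exact (b11.mul b11 (sinh_nonneg_iff.2 hβ.le)).add (b12.mul b12 (nn (abs_nonneg _) hδa))

end Pool.Agent.S5.E.VX
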