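import Pool.Agent.S5.E.VX.VU8

/-!
# Vertices with eight or more half twists: a test in `|b|²`, the slope of `b`, and `Re tan² z`

`b = x ± i y`, `A = |b|²`, `T = y / x`, `tan² z = X + i Y`, `0 ≤ Y ≤ κ X`, `K = |1 + b² tan² z|`.
-/

set_option autoImplicit false

namespace Pool.Agent.S5.E.VX

open Real Pool.Agent.S3.NI Pool.Agent.S5.E.B2

/-- Data: `S` edge, sign needed, lower bound needed, and the two constants. -/
structure W8 where
  S : Bool
  sg : Bool
  lo : Bool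
  tu : ℕ
  tl : ℕ

def w8e (w : W8) (A0 A1 Kl Kh u0 Z1 : ℕ) (sc : Bool) (sl sh E1 : ℕ) : Bool :=
  (Nat.ble E1 (mlo (mlo w.tu w.tu) (mlo sl sl)) &&
    (!w.lo || Nat.ble (mhi (mhi w.tl w.tl) (mhi sh sh))
      (Nat.mul 2 (mlo A0 (Nat.sub (Nat.add Kl u0) (Nat.add 1073741824 Z1)))))) &&
  ((!w.sg || sc) &&
    ((Nat.ble A1 Kl || Nat.ble (mhi (Nat.sub A1 Kl) (Nat.sub A1 Kl))
      (mlo 1059333 (Nat.sub (mlo sl sl) E1))) &&
    (Nat.ble Kh A0 || Nat.ble (mhi (Nat.sub Kh A0) (Nat.sub Kh A0))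
      (mlo 320500000 (Nat.sub (mlo sl sl) E1)))))

def w8d (w : W8) (A0 A1 Kl Kh u0 u1 Z0 Z1 : ℕ) (sc : Bool) : Bool :=
  w8e w A0 A1 Kl Kh u0 Z1 sc (Nat.add A0 Kl) (Nat.add A1 Kh)
    (Nat.mul 2 (mhi A1 (Nat.sub (Nat.add Kh u1) (Nat.add 1073741824 Z0))))

/-- The lower bound of `K` from `K² ≥ 1 - n`. -/
def kLo (n : ℕ) : ℕ := Nat.sub 1073741824 (Nat.div (Nat.add (Nat.add (Nat.mul 3 n) (mhi n n)) 5) 6)

/-- The upper bound of `K` from `K² ≤ 1 + z`. -/
def kHi (z : ℕ) : ℕ := bif Nat.ble z 4294967296 then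
    Nat.div (Nat.add (Nat.sub (Nat.add (Nat.add 17179869184 (Nat.mul 8 z))
      (mhi (mhi z z) z)) (Nat.mul 2 (mlo z z))) 15) 16
  else Nat.add 1073741824 z

/-- An `A` edge: `g = u₁ + κ s₁`. -/
def w8A2 (w : W8) (A0 A1 u0 u1 Z0 Z1 Y1 g n : ℕ) (sc : Bool) : Bool :=
  bif Nat.ble g 1073741824 then
    w8d w A0 A1 (Nat.add 1073741824 (mlo Z0 (Nat.sub 1073741824 g)))
      (kHi (Nat.add (Nat.add (Nat.mul 2 (mhi Z1 (Nat.sub 1073741824 u0))) (mhi Z1 Z1))
        (bif sc then 0 else mhi Y1 Y1))) u0 u1 Z0 Z1 sc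
  else (sc && Nat.ble n 493921239) && w8d w A0 A1 (kLo n)
      (kHi (Nat.add (Nat.mul 2 (mhi Z1 (Nat.sub 1073741824 u0))) (mhi Z1 Z1))) u0 u1 Z0 Z1 sc

def w8A1 (w : W8) (A0 A1 u0 u1 Z0 Z1 Y1 g : ℕ) (sc : Bool) : Bool :=
  w8A2 w A0 A1 u0 u1 Z0 Z1 Y1 g (Nat.sub (Nat.mul 2 (mhi Z1 (Nat.sub g 1073741824)))
    (mlo (mlo Z0 Z0) 1689797720)) sc

/-- An `S` edge. -/
def w8S (w : W8) (A0 A1 u0 u1 Z0 Z1 Y1 s1 : ℕ) : Bool :=
  Nat.ble u1 1073741824 && w8d w A0 A1 (Nat.add 1073741824 (mlo Z0 (Nat.sub 1073741824 u1)))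
    (kHi (Nat.add (Nat.add (Nat.mul 2 (Nat.add (mhi Z1 (Nat.sub 1073741824 u0)) (mhi s1 Y1)))
      (mhi Z1 Z1)) (mhi Y1 Y1))) u0 u1 Z0 Z1 false

def w8c (w : W8) (A0 A1 T0 q1 s1 u0 u1 Z0 Z1 Y1 : ℕ) : Bool :=
  bif w.S then w8S w A0 A1 u0 u1 Z0 Z1 Y1 s1
  else w8A1 w A0 A1 u0 u1 Z0 Z1 Y1 (Nat.add u1 (mhi s1 813466806))
    (Nat.ble (mhi (Nat.add 1073741824 q1) Y1) (Nat.mul 2 T0))

/-- Upper bound of `2 T / (1 + T²)`. -/
def s8 (T1 : ℕ) : ℕ :=
  bif Nat.ble T1 1073741824 then dhi (Nat.mul 2 T1) (Nat.add 1073741824 (mlo T1 T1))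
  else 1073741824

def w8b (w : W8) (A0 A1 T0 T1 q0 q1 Z0 Z1 : ℕ) : Bool :=
  w8c w A0 A1 T0 q1 (s8 T1) (dlo (Nat.mul 2 q0) (Nat.add 1073741824 q0))
    (dhi (Nat.mul 2 q1) (Nat.add 1073741824 q1)) Z0 Z1 (mhi Z1 813466806)

/-- The test of a cell. -/
def w8 (w : W8) (A T X _D : N) : Bool :=
  w8b w A.lo A.hi T.lo T.hi (mlo T.lo T.lo) (mhi T.hi T.hi) (mlo A.lo X.lo) (mhi A.hi X.hi)

/-! ### Soundness -/

/-- The sign of an edge. -/
def sg8 (S : Bool) : ℝ := bif S then 1 else -1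

/-- `1 - cos 2 φ` and `sin 2 φ` where `tan φ = T`. -/
noncomputable def uu (T : ℝ) : ℝ := 2 * T ^ 2 / (1 + T ^ 2)
noncomputable def ss (T : ℝ) : ℝ := 2 * T / (1 + T ^ 2)

/-- The conclusion. -/
structure W8R (w : W8) (A K E V s : ℝ) : Prop where
  u : E ≤ ((w.tu : ℝ) / 1073741824) ^ 2 * (A + K) ^ 2
  l : w.lo = true → ((w.tl : ℝ) / 1073741824) ^ 2 * (A + K) ^ 2 ≤ E
  s : w.sg = true → w.S = false → V ≤ s
  t0 : A ≤ K ∨ (A - K) ^ 2 ≤ 1059333 / 1073741824 * ((A + K) ^ 2 - E)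
  t1 : K ≤ A ∨ (K - A) ^ 2 ≤ 320500000 / 1073741824 * ((A + K) ^ 2 - E)

theorem lub {x y : ℝ} {a b : ℕ} (h1 : Ub x a) (h2 : Lb b y) (h : a ≤ b) : x ≤ y := by
  have : (a : ℝ) ≤ b := by exact_mod_cast h
  unfold Lb Ub at *
  linarith only [this, h2, h1]

theorem Lb.two {a : ℕ} {x : ℝ} (h : Lb a x) : Lb (Nat.mul 2 a) (2 * x) := by
  unfold Lb at *
  rw [cast_mul']
  push_cast
  linarith only [h]

theorem Ub.two {a : ℕ} {x : ℝ} (h : Ub x a) : Ub (2 * x) (Nat.mul 2 a) := by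
  unfold Ub at *
  rw [cast_mul']
  push_cast
  linarith only [h]

theorem lb_one : Lb 1073741824 1 := by unfold Lb; norm_num

theorem ub_one : Ub 1 1073741824 := by unfold Ub; norm_num

theorem w8d_sound {w : W8} {A0 A1 Kl Kh u0 u1 Z0 Z1 : ℕ} {sc : Bool} {A K u Z V s E : ℝ}
    (h : w8d w A0 A1 Kl Kh u0 u1 Z0 Z1 sc = true) (hA0 : Lb A0 A) (hA1 : Ub A A1)
    (hK0 : Lb Kl K) (hK1 : Ub K Kh) (hu0 : Lb u0 u) (hu1 : Ub u u1) (hZ0 : Lb Z0 Z)
    (hZ1 : Ub Z Z1) (hE : E = 2 * A * (K + u - 1 - Z)) (hE0 : 0 ≤ E)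
    (hsc : sc = true → V ≤ s) : W8R w A K E V s := by
  have A00 := hA0.nonneg
  have K00 := hK0.nonneg
  unfold w8d w8e at h
  simp only [Bool.and_eq_true, Bool.or_eq_true, Bool.not_eq_true', Nat.ble_eq] at h
  obtain ⟨⟨h1, h2⟩, h3, h4, h5⟩ := h
  -- `E`
  have kE1 : Ub E (Nat.mul 2 (mhi A1 (Nat.sub (Nat.add Kh u1) (Nat.add 1073741824 Z0)))) := by
    have e1 : Ub (K + u - (1 + Z)) (Nat.sub (Nat.add Kh u1) (Nat.add 1073741824 Z0)) :=
      (hK1.add hu1).subm (lb_one.add hZ0) le_rfl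
    by_cases hs : 0 ≤ K + u - (1 + Z)
    · have := (hA1.mul e1 hs).two
      rwa [show 2 * (A * (K + u - (1 + Z))) = E by rw [hE]; ring] at this
    · push Not at hs
      have : E ≤ 0 := by rw [hE]; linarith only [mul_nonneg (sub_nonneg.2 A00) (sub_nonneg.2 hs.le)]
      unfold Ub
      have h0 : (0 : ℝ) ≤ ((Nat.mul 2 (mhi A1 (Nat.sub (Nat.add Kh u1) (Nat.add 1073741824 Z0))) :
        ℕ) : ℝ) := Nat.cast_nonneg _
      linarith only [this]
  have kE0 : Lb (Nat.mul 2 (mlo A0 (Nat.sub (Nat.add Kl u0) (Nat.add 1073741824 Z1)))) E := by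
    by_cases hs : 0 ≤ K + u - (1 + Z)
    · have e1 : Lb (Nat.sub (Nat.add Kl u0) (Nat.add 1073741824 Z1)) (K + u - (1 + Z)) :=
        (hK0.add hu0).subm (ub_one.add hZ1) hs le_rfl
      have := (hA0.mul e1).two
      rwa [show 2 * (A * (K + u - (1 + Z))) = E by rw [hE]; ring] at this
    · push Not at hs
      have e1 : Lb (Nat.sub (Nat.add Kl u0) (Nat.add 1073741824 Z1)) 0 :=
        (hK0.add hu0).subm (ub_one.add hZ1) le_rfl (by linarith only [hs])
      have := (hA0.mul e1).two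
      rw [mul_zero, mul_zero] at this
      unfold Lb at *
      linarith only [this, hE0]
  have kl := hA0.add hK0
  have kh := hA1.add hK1
  have kll := kl.mul kl
  have khh := kh.mul kh (by positivity)
  have kS := kll.subm kE1 (z := (A + K) ^ 2 - E)
  have hsq : (A + K) * (A + K) = (A + K) ^ 2 := by ring
  refine ⟨?_, ?_, ?_, ?_, ?_⟩
  · have := lub kE1 (((lb_self w.tu).mul (lb_self w.tu)).mul kll) h1
    linarith only [this]
  · intro hl
    rcases h2 with h2 | h2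
    · rw [hl] at h2
      exact absurd h2 (by simp)
    · have := lub (((ub_self w.tl).mul (ub_self w.tl) (by positivity)).mul khh (by positivity))
        kE0 h2
      linarith only [this]
  · intro hs _
    rcases h3 with h3 | h3
    · rw [hs] at h3
      exact absurd h3 (by simp)
    · exact hsc h3
  · rcases h4 with h4 | h4
    · left
      exact lub hA1 hK0 h4
    · by_cases hc : A ≤ K
      · exact Or.inl hc
      · right
        push Not at hc
        have e1 : Ub (A - K) (Nat.sub A1 Kl) := hA1.subm hK0 le_rfl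
        have e2 := e1.mul e1 (by linarith only [hc])
        by_cases hS : 0 ≤ (A + K) ^ 2 - E
        · have := lub e2 ((lb_self 1059333).mul (kS hS (by linarith only []))) h4
          push_cast at this
          linarith only [this]
        · push Not at hS
          have e3 : Lb (Nat.sub (mlo (Nat.add A0 Kl) (Nat.add A0 Kl)) (Nat.mul 2 (mhi A1
            (Nat.sub (Nat.add Kh u1) (Nat.add 1073741824 Z0))))) 0 :=
            kll.subm kE1 le_rfl (by linarith only [hS])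
          have := lub e2 ((lb_self 1059333).mul e3) h4
          rw [mul_zero] at this
          linarith only [this, mul_pos (sub_pos.2 hc) (sub_pos.2 hc)]
  · rcases h5 with h5 | h5
    · left
      exact lub hK1 hA0 h5
    · by_cases hc : K ≤ A
      · exact Or.inl hc
      · right
        push Not at hc
        have e1 : Ub (K - A) (Nat.sub Kh A0) := hK1.subm hA0 le_rfl
        have e2 := e1.mul e1 (by linarith only [hc])
        by_cases hS : 0 ≤ (A + K) ^ 2 - E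
        · have := lub e2 ((lb_self 320500000).mul (kS hS (by linarith only []))) h5
          push_cast at this
          linarith only [this]
        · push Not at hS
          have e3 : Lb (Nat.sub (mlo (Nat.add A0 Kl) (Nat.add A0 Kl)) (Nat.mul 2 (mhi A1
            (Nat.sub (Nat.add Kh u1) (Nat.add 1073741824 Z0))))) 0 :=
            kll.subm kE1 le_rfl (by linarith only [hS])
          have := lub e2 ((lb_self 320500000).mul e3) h5
          rw [mul_zero] at this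
          linarith only [this, mul_pos (sub_pos.2 hc) (sub_pos.2 hc)]

theorem kLo_sound {K : ℝ} {n : ℕ} {x : ℝ} (hK : 0 ≤ K) (h : 1 - x ≤ K ^ 2) (hx : Ub x n)
    (hn : n ≤ 493921239) : Lb (kLo n) K := by
  have hn' : (n : ℝ) ≤ 493921239 := by exact_mod_cast hn
  obtain ⟨y, ey⟩ : ∃ y, y = (n : ℝ) / 1073741824 := ⟨_, rfl⟩
  have y0 : 0 ≤ y := by rw [ey]; positivity
  have y1 : y ≤ 46 / 100 := by rw [ey, div_le_iff₀ (by norm_num)]; linarith only [hn']
  have hxy : x ≤ y := by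
    rw [ey, le_div_iff₀ (by norm_num)]
    exact hx
  have h1 : 1 - y ≤ K ^ 2 := by linarith only [hxy, h]
  have h2 : 1 - y / 2 - y ^ 2 / 6 ≤ K := by
    apply le_of_sq_le_sq _ hK
    nlinarith [mul_nonneg y0 y0, mul_nonneg (mul_nonneg y0 y0) y0]
  unfold Lb kLo
  have h3 := (ub_self n).mul (ub_self n) (by positivity)
  rw [← ey] at h3
  unfold Ub at h3
  have h4 : ((3 * n + mhi n n : ℕ) : ℝ) ≤ 6 * (((3 * n + mhi n n + 5) / 6 : ℕ) : ℝ) := by
    have : 3 * n + mhi n n ≤ 6 * ((3 * n + mhi n n + 5) / 6) := by omega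
    exact_mod_cast this
  have h5 : (n : ℝ) = y * 1073741824 := by rw [ey, div_mul_cancel₀ _ (by norm_num)]
  have e : Nat.div (Nat.add (Nat.add (Nat.mul 3 n) (mhi n n)) 5) 6 =
    (3 * n + mhi n n + 5) / 6 := rfl
  rw [e]
  apply nsub_le _ (by positivity)
  push_cast at h4 ⊢
  linarith only [h4, h3, h2, ey]

theorem kHi_sound {K : ℝ} {n : ℕ} {x : ℝ} (h : K ^ 2 ≤ 1 + x) (hx : Ub x n) :
    Ub K (kHi n) := by
  obtain ⟨y, ey⟩ : ∃ y, y = (n : ℝ) / 1073741824 := ⟨_, rfl⟩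
  have y0 : 0 ≤ y := by rw [ey]; positivity
  have hxy : x ≤ y := by
    rw [ey, le_div_iff₀ (by norm_num)]
    exact hx
  have h5 : (n : ℝ) = y * 1073741824 := by rw [ey, div_mul_cancel₀ _ (by norm_num)]
  unfold kHi
  cases hn : Nat.ble n 4294967296 with
  | false =>
    rw [cond_false]
    have h2 : K ≤ 1 + y := by
      apply le_of_sq_le_sq _ (by linarith only [y0])
      linarith only [hxy, y0, h, mul_nonneg (sub_nonneg.2 y0) (sub_nonneg.2 y0)]
    unfold Ub
    rw [cast_add']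
    push_cast
    linarith only [h2, ey]
  | true =>
  rw [cond_true]
  rw [Nat.ble_eq] at hn
  have hn' : (n : ℝ) ≤ 4294967296 := by exact_mod_cast hn
  have y1 : y ≤ 4 := by rw [ey, div_le_iff₀ (by norm_num)]; linarith only [hn']
  have h2 : K ≤ 1 + y / 2 - y ^ 2 / 8 + y ^ 3 / 16 := by
    apply le_of_sq_le_sq _ (by (refine le_of_not_gt fun hng => ?_; linarith only [hng,
                                 pow_nonneg y0 3, y0,
                                 mul_nonneg (sub_nonneg.2 hng.le) (sub_nonneg.2 y0),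
                                 mul_nonneg (mul_self_nonneg (y)) (sub_nonneg.2 (pow_nonneg y0 3)),
                                 mul_nonneg (mul_self_nonneg (y)) (sub_nonneg.2 hng.le)]))
    have e : (1 + y / 2 - y ^ 2 / 8 + y ^ 3 / 16) ^ 2 = 1 + y + y ^ 4 * (5 / 64 - y / 64) +
        y ^ 6 / 256 := by ring
    have e2 : 0 ≤ y ^ 4 * (5 / 64 - y / 64) := mul_nonneg (by positivity) (by linarith only [hn',
                                                                                ey])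
    have e3 : 0 ≤ y ^ 6 / 256 := by positivity
    rw [e]
    linarith only [e3, e2, hxy, h]
  have h3 := ((ub_self n).mul (ub_self n) (by positivity)).mul (ub_self n) (by positivity)
  have h4 := (lb_self n).mul (lb_self n)
  rw [← ey] at h3 h4
  unfold Ub at h3
  unfold Lb at h4
  unfold Ub
  obtain ⟨m, em⟩ : ∃ m, m = Nat.sub (Nat.add (Nat.add 17179869184 (Nat.mul 8 n))
    (mhi (mhi n n) n)) (Nat.mul 2 (mlo n n)) := ⟨_, rfl⟩
  have h6 : 16 * K * 1073741824 ≤ (m : ℝ) := by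
    rw [em]
    apply le_nsub
    rw [cast_add', cast_add', cast_mul', cast_mul']
    push_cast
    linarith only [h4, h3, h2, ey]
  rw [← em]
  have h7 : (m : ℝ) ≤ 16 * ((Nat.div (Nat.add m 15) 16 : ℕ) : ℝ) := by
    have : m ≤ 16 * ((m + 15) / 16) := by omega
    exact_mod_cast this
  linarith only [h7, h6]

/-- The bound for `Im tan² z / Re tan² z`. -/
noncomputable def kp8 : ℝ := 813466806 / 1073741824

theorem kp8_ub : Ub kp8 813466806 := by
  unfold Ub kp8
  norm_num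

/-- The point: `V = |b|² Im tan² z`. -/
structure P8 (S : Bool) (A T X V K : ℝ) : Prop where
  A0 : 0 < A
  T0 : 0 ≤ T
  X0 : 0 ≤ X
  V0 : 0 ≤ V
  V1 : V ≤ kp8 * (A * X)
  K0 : 0 ≤ K
  K2 : K ^ 2 = 1 + 2 * ((1 - uu T) * (A * X) + sg8 S * (ss T * V)) + (A * X) ^ 2 + V ^ 2
  E0 : 0 ≤ 2 * A * (K + uu T - 1 - A * X)

theorem Lb.mono {n : ℕ} {x y : ℝ} (h : Lb n x) (hxy : x ≤ y) : Lb n y := by
  unfold Lb at *
  linarith only [hxy, h]

theorem Ub.mono {n : ℕ} {x y : ℝ} (h : Ub y n) (hxy : x ≤ y) : Ub x n := by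
  unfold Ub at *
  linarith only [hxy, h]

theorem ub_max {n : ℕ} {x : ℝ} (h : Ub x n) : Ub (max x 0) n := by
  rcases le_total x 0 with h0 | h0
  · rw [max_eq_right h0]
    unfold Ub
    rw [zero_mul]
    exact Nat.cast_nonneg _
  · rw [max_eq_left h0]
    exact h

section

variable {w : W8} {A0 A1 u0 u1 Z0 Z1 Y1 : ℕ} {A T X V K c s u Z : ℝ}

theorem w8A_sound {g n : ℕ} {sc : Bool} (h : w8A2 w A0 A1 u0 u1 Z0 Z1 Y1 g n sc = true)
    (hA0 : Lb A0 A) (hA1 : Ub A A1) (hu0 : Lb u0 u) (hu1 : Ub u u1) (hZ0 : Lb Z0 Z)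
    (hZ1 : Ub Z Z1) (hY : Ub (kp8 * Z) Y1) (hg : Ub (u + s * kp8) g)
    (hn : n = Nat.sub (Nat.mul 2 (mhi Z1 (Nat.sub g 1073741824))) (mlo (mlo Z0 Z0) 1689797720))
    (hsc : sc = true → kp8 * Z ≤ s) (Zn : 0 ≤ Z) (u0' : 0 ≤ u) (s0 : 0 ≤ s) (V0 : 0 ≤ V)
    (V1 : V ≤ kp8 * Z) (K0 : 0 ≤ K)
    (K2 : K ^ 2 = 1 + 2 * ((1 - u) * Z - s * V) + Z ^ 2 + V ^ 2)
    (E0 : 0 ≤ 2 * A * (K + u - 1 - Z)) : W8R w A K (2 * A * (K + u - 1 - Z)) V s := by
  have hk0 : 0 < kp8 := by unfold kp8; norm_num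
  have hcp : Ub (max (1 - u) 0) (Nat.sub 1073741824 u0) := ub_max (ub_one.subm hu0 le_rfl)
  have hcp0 : 0 ≤ max (1 - u) 0 := le_max_right _ _
  have hcp1 : 1 - u ≤ max (1 - u) 0 := le_max_left _ _
  have h1 : (1 - u) * Z ≤ max (1 - u) 0 * Z := mul_le_mul_of_nonneg_right hcp1 Zn
  have a1 := (hZ1.mul hcp hcp0).two
  have a2 := hZ1.mul hZ1 Zn
  have hsc' : sc = true → V ≤ s := fun h => V1.trans (hsc h)
  unfold w8A2 at h
  cases hb : Nat.ble g 1073741824 with
  | true =>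
    rw [hb, cond_true] at h
    rw [Nat.ble_eq] at hb
    have g1 : u + s * kp8 ≤ 1 := lub hg lb_one hb
    have eK : Lb (Nat.add 1073741824 (mlo Z0 (Nat.sub 1073741824 g))) K := by
      have e1 : Lb (Nat.sub 1073741824 g) (1 - (u + s * kp8)) :=
        lb_one.subm hg (by linarith only [g1]) le_rfl
      refine (lb_one.add (hZ0.mul e1)).mono ?_
      apply le_of_sq_le_sq _ K0
      rw [K2]
      have e2 : 0 ≤ s * (kp8 * Z - V) := mul_nonneg s0 (by linarith only [V1])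
      have e3 : (1 - (u + s * kp8)) ^ 2 ≤ 1 := by
        have : 0 ≤ s * kp8 := by positivity
        apply pow_le_one₀ (by linarith only [g1]) (by linarith only [this, u0'])
      have e4 : Z ^ 2 * (1 - (u + s * kp8)) ^ 2 ≤ Z ^ 2 * 1 :=
        mul_le_mul_of_nonneg_left e3 (by positivity)
      linarith only [sq_nonneg V, e4, e2]
    refine w8d_sound h hA0 hA1 eK (kHi_sound (x := 2 * (Z * max (1 - u) 0) + Z * Z +
      (bif sc then 0 else (kp8 * Z) * (kp8 * Z))) ?_ ?_) hu0 hu1 hZ0 hZ1 rfl E0 hsc'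
    · rw [K2]
      cases sc with
      | true =>
        have := hsc' rfl
        simp only [cond_true]
        linarith only [h1, mul_nonneg (sub_nonneg.2 V0) (sub_nonneg.2 this),
          mul_nonneg (sub_nonneg.2 s0) (sub_nonneg.2 V0)]
      | false =>
        simp only [cond_false]
        have e1 := mul_le_mul V1 V1 V0 (by positivity)
        have e2 : 0 ≤ s * V := mul_nonneg s0 V0
        linarith only [e2, e1, h1]
    · refine (a1.add a2).add ?_
      cases sc with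
      | true =>
        simp only [cond_true]
        unfold Ub
        norm_num
      | false =>
        simp only [cond_false]
        exact hY.mul hY (by positivity)
  | false =>
    rw [hb, cond_false] at h
    simp only [Bool.and_eq_true, Nat.ble_eq] at h
    obtain ⟨⟨h2, h3⟩, h⟩ := h
    have hV := hsc' h2
    have hkz := hsc h2
    refine w8d_sound h hA0 hA1 (kLo_sound (x := 2 * (Z * (u + s * kp8 - 1)) -
      Z * Z * (1689797720 / 1073741824)) K0 ?_ ?_ h3) (kHi_sound (x := 2 * (Z * max (1 - u) 0) +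
        Z * Z) ?_ (a1.add a2)) hu0 hu1 hZ0 hZ1 rfl E0 hsc'
    · rw [K2]
      have e1 : 0 ≤ (kp8 * Z - V) * (2 * s - (kp8 * Z + V)) :=
        mul_nonneg (by linarith only [V1]) (by linarith only [hkz, V1])
      have e2 : 1689797720 / 1073741824 ≤ 1 + kp8 ^ 2 := by
        unfold kp8
        norm_num
      have e3 := mul_le_mul_of_nonneg_left e2 (mul_nonneg Zn Zn)
      linarith only [e3, e1]
    · rw [hn]
      by_cases hc : 0 ≤ u + s * kp8 - 1
      · have e1 : Ub (u + s * kp8 - 1) (Nat.sub g 1073741824) := hg.subm lb_one le_rfl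
        exact (hZ1.mul e1 hc).two.subm ((hZ0.mul hZ0).mul (lb_self 1689797720)) (by
          push_cast
          linarith only [])
      · push Not at hc
        have e1 : 2 * (Z * (u + s * kp8 - 1)) - Z * Z * (1689797720 / 1073741824) ≤ 0 := by
          have := mul_nonneg Zn Zn
          linarith only [mul_self_nonneg (Z), mul_nonneg (sub_nonneg.2 Zn) (sub_nonneg.2 hc.le)]
        unfold Ub
        have : (0 : ℝ) ≤ ((Nat.sub (Nat.mul 2 (mhi Z1 (Nat.sub g 1073741824)))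
          (mlo (mlo Z0 Z0) 1689797720) : ℕ) : ℝ) := Nat.cast_nonneg _
        linarith only [e1]
    · rw [K2]
      linarith only [h1, mul_nonneg (sub_nonneg.2 V0) (sub_nonneg.2 hV),
        mul_nonneg (sub_nonneg.2 s0) (sub_nonneg.2 V0)]

theorem w8S_sound {s1 : ℕ} (h : w8S w A0 A1 u0 u1 Z0 Z1 Y1 s1 = true) (hs1 : Ub s s1)
    (hA0 : Lb A0 A) (hA1 : Ub A A1) (hu0 : Lb u0 u) (hu1 : Ub u u1) (hZ0 : Lb Z0 Z)
    (hZ1 : Ub Z Z1) (hY : Ub (kp8 * Z) Y1) (Zn : 0 ≤ Z) (u0' : 0 ≤ u) (s0 : 0 ≤ s) (V0 : 0 ≤ V)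
    (V1 : V ≤ kp8 * Z) (K0 : 0 ≤ K)
    (K2 : K ^ 2 = 1 + 2 * ((1 - u) * Z + s * V) + Z ^ 2 + V ^ 2)
    (E0 : 0 ≤ 2 * A * (K + u - 1 - Z)) : W8R w A K (2 * A * (K + u - 1 - Z)) V s := by
  have hk0 : 0 < kp8 := by unfold kp8; norm_num
  have hcp : Ub (max (1 - u) 0) (Nat.sub 1073741824 u0) := ub_max (ub_one.subm hu0 le_rfl)
  have hcp0 : 0 ≤ max (1 - u) 0 := le_max_right _ _
  have hcp1 : 1 - u ≤ max (1 - u) 0 := le_max_left _ _
  have h1 : (1 - u) * Z ≤ max (1 - u) 0 * Z := mul_le_mul_of_nonneg_right hcp1 Zn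
  unfold w8S at h
  rw [Bool.and_eq_true, Nat.ble_eq] at h
  obtain ⟨hb, h⟩ := h
  have hu : u ≤ 1 := lub hu1 lb_one hb
  have hsV : 0 ≤ s * V := mul_nonneg s0 V0
  have eK : Lb (Nat.add 1073741824 (mlo Z0 (Nat.sub 1073741824 u1))) K := by
    have e1 : Lb (Nat.sub 1073741824 u1) (1 - u) := lb_one.subm hu1 (by linarith only [hu]) le_rfl
    refine (lb_one.add (hZ0.mul e1)).mono ?_
    apply le_of_sq_le_sq _ K0
    rw [K2]
    have e3 : (1 - u) ^ 2 ≤ 1 := pow_le_one₀ (by linarith only [hu]) (by linarith only [u0'])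
    have e4 : Z ^ 2 * (1 - u) ^ 2 ≤ Z ^ 2 * 1 := mul_le_mul_of_nonneg_left e3 (by positivity)
    linarith only [sq_nonneg V, e4, hsV]
  refine w8d_sound h hA0 hA1 eK (kHi_sound (x := 2 * (Z * max (1 - u) 0 + s * (kp8 * Z)) + Z * Z +
    (kp8 * Z) * (kp8 * Z)) ?_ ?_) hu0 hu1 hZ0 hZ1 rfl E0 (by simp)
  · rw [K2]
    have e1 := mul_le_mul V1 V1 V0 (by positivity)
    have e2 := mul_le_mul_of_nonneg_left V1 s0
    linarith only [e2, e1, h1]
  · exact ((((hZ1.mul hcp hcp0).add (hs1.mul hY (by positivity))).two).add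
      (hZ1.mul hZ1 Zn)).add (hY.mul hY (by positivity))

end

theorem uu_mono {x y : ℝ} (hx : 0 ≤ x) (h : x ≤ y) : 2 * x / (1 + x) ≤ 2 * y / (1 + y) := by
  rw [div_le_div_iff₀ (by linarith only [hx]) (by linarith only [h, hx])]
  linarith only [h]

theorem ss_ub {T : ℝ} {n : ℕ} (h0 : 0 ≤ T) (h : Ub T n) : Ub (ss T) (s8 n) := by
  unfold ss s8
  cases hn : Nat.ble n 1073741824 with
  | false =>
    rw [cond_false]
    refine ub_one.mono ?_
    rw [div_le_one (by positivity)]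
    linarith only [sq_nonneg (T - 1)]
  | true =>
    rw [cond_true]
    rw [Nat.ble_eq] at hn
    have hn' : (n : ℝ) ≤ 1073741824 := by exact_mod_cast hn
    obtain ⟨y, ey⟩ : ∃ y, y = (n : ℝ) / 1073741824 := ⟨_, rfl⟩
    have y0 : 0 ≤ y := by rw [ey]; positivity
    have y1 : y ≤ 1 := by rw [ey, div_le_iff₀ (by norm_num)]; linarith only [hn']
    have hxy : T ≤ y := by
      rw [ey, le_div_iff₀ (by norm_num)]
      exact h
    have k1 := ub_self n
    have k2 := lb_self n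
    rw [← ey] at k1 k2
    have k3 := k1.two.div (lb_one.add (k2.mul k2)) (by
      show 0 < 1073741824 + mlo n n
      omega)
    refine k3.mono ?_
    rw [div_le_div_iff₀ (by positivity) (by positivity)]
    have : 0 ≤ (y - T) * (1 - T * y) := mul_nonneg (by linarith only [hxy]) (by nlinarith)
    linarith only [this]

/-- **Soundness of the test of a cell.** -/
theorem w8_sound {w : W8} {A' T' X' D' : N} {A T X V K : ℝ} (h : w8 w A' T' X' D' = true)
    (mA : Mem A A') (mT : Mem T T') (mX : Mem X X') (hp : P8 w.S A T X V K) :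
    W8R w A K (2 * A * (K + uu T - 1 - A * X)) V (ss T) := by
  have hk0 : 0 < kp8 := by unfold kp8; norm_num
  have A00 := hp.A0
  have X00 := hp.X0
  have T00 := hp.T0
  have lA : Lb A'.lo A := mA.1
  have uA : Ub A A'.hi := mA.2
  have lT : Lb T'.lo T := mT.1
  have uT : Ub T T'.hi := mT.2
  have lX : Lb X'.lo X := mX.1
  have uX : Ub X X'.hi := mX.2
  have lZ := lA.mul lX
  have uZ := uA.mul uX X00
  have uY := (uZ.mul kp8_ub hk0.le).mono (x := kp8 * (A * X)) (by rw [mul_comm])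
  have lq := lT.mul lT
  have uq := uT.mul uT T00
  have l0 : Lb (dlo (Nat.mul 2 (mlo T'.lo T'.lo)) (Nat.add 1073741824 (mlo T'.lo T'.lo))) (uu T) := by
    have k1 := lb_self (mlo T'.lo T'.lo)
    have k2 := ub_self (mlo T'.lo T'.lo)
    have k3 := k1.two.div (ub_one.add k2) (by positivity)
    refine k3.mono ?_
    unfold uu
    refine uu_mono (by positivity) ?_
    rw [div_le_iff₀ (by norm_num)]
    unfold Lb at lq
    linarith only [lq]
  have u1 : Ub (uu T) (dhi (Nat.mul 2 (mhi T'.hi T'.hi)) (Nat.add 1073741824 (mhi T'.hi T'.hi))) := by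
    have k1 := ub_self (mhi T'.hi T'.hi)
    have k2 := lb_self (mhi T'.hi T'.hi)
    have k3 := k1.two.div (lb_one.add k2) (by
      show 0 < 1073741824 + mhi T'.hi T'.hi
      omega)
    refine k3.mono ?_
    unfold uu
    refine uu_mono (by positivity) ?_
    rw [le_div_iff₀ (by norm_num)]
    unfold Ub at uq
    linarith only [uq]
  have us := ss_ub T00 uT
  have s0 : 0 ≤ ss T := by unfold ss; positivity
  have u0 : 0 ≤ uu T := by unfold uu; positivity
  have Zn : 0 ≤ A * X := by positivity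
  have K2 := hp.K2
  have E0 := hp.E0
  have V1 := hp.V1
  unfold w8 w8b w8c at h
  cases hS : w.S with
  | true =>
    rw [hS, cond_true] at h
    rw [hS] at K2
    refine w8S_sound h us lA uA l0 u1 lZ uZ uY Zn u0 s0 hp.V0 V1 hp.K0 ?_ E0
    rw [K2]
    simp only [sg8, cond_true]
    ring
  | false =>
    rw [hS, cond_false] at h
    rw [hS] at K2
    refine w8A_sound (n := _) h lA uA l0 u1 lZ uZ uY (u1.add (us.mul kp8_ub hk0.le)) rfl ?_ Zn u0
      s0 hp.V0 V1 hp.K0 ?_ E0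
    · intro hsc
      rw [Nat.ble_eq] at hsc
      have k1 := lub (((ub_one.add uq).mul uY (by positivity))) lT.two hsc
      unfold ss
      rw [le_div_iff₀ (by positivity)]
      linarith only [k1]
    · rw [K2]
      simp only [sg8, cond_false]
      ring

/-! ### The run -/

/-- The region of `b` in the units of the test. -/
def w8r (w : W8) (k0 k1 t0 t1 : ℕ) (n : ℕ) : Bool :=
  bbw (w8 w) 1 1 1 0 n
    ⟨Nat.div (Nat.mul (Nat.mul k0 k0) 1073741824) 1000000,
      Nat.succ (Nat.div (Nat.mul (Nat.mul k1 k1) 1073741824) 1000000)⟩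
    ⟨Nat.div (Nat.mul t0 1073741824) 1000, Nat.succ (Nat.div (Nat.mul t1 1073741824) 1000)⟩
    ⟨0, 300862461⟩ ⟨0, 0⟩

theorem mem_units {x : ℝ} {a b c : ℕ} (hc : 0 < c) (h0 : (a : ℝ) ≤ x * c) (h1 : x * c ≤ b) :
    Mem x (⟨Nat.div (Nat.mul a 1073741824) c, Nat.succ (Nat.div (Nat.mul b 1073741824) c)⟩ : N) := by
  have hc' : (0 : ℝ) < c := by exact_mod_cast hc
  constructor
  · show ((Nat.div (Nat.mul a 1073741824) c : ℕ) : ℝ) ≤ x * 1073741824
    refine (nat_div_le _ _).trans ?_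
    rw [div_le_iff₀ hc', cast_mul']
    push_cast
    linarith only [h0]
  · show x * 1073741824 ≤ ((Nat.succ (Nat.div (Nat.mul b 1073741824) c) : ℕ) : ℝ)
    refine le_trans ?_ (le_succ_div _ hc)
    rw [le_div_iff₀ hc', cast_mul']
    push_cast
    linarith only [h1]

/-- **Soundness of the run.** -/
theorem w8r_sound {w : W8} {k0 k1 t0 t1 n : ℕ} (h : w8r w k0 k1 t0 t1 n = true)
    {A T X V K : ℝ} (hp : P8 w.S A T X V K) (hA0 : ((k0 : ℝ) / 1000) ^ 2 ≤ A)
    (hA1 : A ≤ ((k1 : ℝ) / 1000) ^ 2) (hT0 : (t0 : ℝ) / 1000 ≤ T) (hT1 : T ≤ (t1 : ℝ) / 1000)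
    (hX : X ≤ 2802 / 10000) : W8R w A K (2 * A * (K + uu T - 1 - A * X)) V (ss T) := by
  refine bbw_sound (test := w8 w) (P := fun A T X _ => P8 w.S A T X V K →
    W8R w A K (2 * A * (K + uu T - 1 - A * X)) V (ss T)) (fun A' T' X' D' ht A T X D mA mT mX _ hp =>
    w8_sound ht mA mT mX hp) 1 1 1 0 n _ _ _ _ h A T X 0 ?_ ?_ ?_ ?_ hp
  · refine mem_units (by norm_num) ?_ ?_
    · rw [cast_mul']
      push_cast
      linarith only [hA0]
    · rw [cast_mul']
      push_cast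
      linarith only [hA1]
  · refine mem_units (by norm_num) ?_ ?_
    · push_cast
      linarith only [hT0]
    · push_cast
      linarith only [hT1]
  · have := hp.X0
    constructor
    · push_cast
      linarith only [this]
    · push_cast
      linarith only [hX]
  · constructor <;> simp

end Pool.Agent.S5.E.VX
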