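import Pool.Agent.S5.E.VX.W8s
import Pool.Agent.S5.E.VX.RunW

/-!
# Vertices with eight or more half twists: the region of the slots
-/

set_option autoImplicit false

namespace Pool.Agent.S5.E.VX

open Real Pool.Agent.S3.NI Pool.Agent.S5.E.B2 Pool.Agent.S5.G
open Pool.Agent.S3.E (PP)
open scoped ComplexConjugate

/-- `4 I ≤ π p₁`. -/
theorem V8.b {ρ ρ₂ k t R I p₁ p₂ : ℝ} (h : V8 ρ R I p₁ p₂) (r0 : 0 ≤ ρ) (r1 : ρ ≤ 203 / 100)
    (h₁ : 0 ≤ p₁) (h₂ : 0 ≤ p₂)
    (k₂ : sinh p₂ ^ 2 * (cos R ^ 2 + sinh I ^ 2) ≤ ρ₂ ^ 2 * (sin R ^ 2 + sinh I ^ 2))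
    (r₂ : 0 ≤ ρ₂) (r₂' : ρ₂ ≤ 104 / 100) (t0 : 0 ≤ t) (t1 : t ≤ 104 / 100) (k0 : 0 ≤ k)
    (hk : 2209 / 10000 * (1 + t ^ 2) ≤ k ^ 2)
    (hx : ∃ x, 0 ≤ x ∧ k ^ 2 ≤ x ^ 2 * (1 + t ^ 2) ∧
      x * (sin R * cos R - t * (sinh I * cosh I)) ≤ sinh p₁ * (cos R ^ 2 + sinh I ^ 2)) :
    4 * I ≤ π * p₁ := by
  by_contra hn
  push Not at hn
  have hI := h.I0
  have hI1 := h.i4 r0 r1
  have hsI := h.si
  have hh := h.hh
  have hD0 := h.D0
  have e := nd_sq R I
  have hsR : 0 < sin R := sin_pos_of_pos_of_lt_pi h.R0 (by linarith only [h.R1, pi_pos])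
  have hcR : 0 < cos R := cos_pos_of_mem_Ioo ⟨by linarith only [h.R0, pi_pos], h.R1⟩
  have hsc : 0 ≤ sin R * cos R := by positivity
  have hsh : 0 < sinh I := sinh_pos_iff.2 hI
  have hsh' : 0 ≤ sinh I * cosh I := by positivity
  have hD1 : cos R ^ 2 + sinh I ^ 2 ≤ 1019 / 1000 := by
    have h1 := sin_sq_add_cos_sq R
    have h2 := h.i3 r0 r1
    linarith only [sq_nonneg (sin R), h2, h1, hsI, hI1, hI]
  obtain ⟨D, eD⟩ : ∃ D, D = cos R ^ 2 + sinh I ^ 2 := ⟨_, rfl⟩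
  obtain ⟨N, eN⟩ : ∃ N, N = sin R ^ 2 + sinh I ^ 2 := ⟨_, rfl⟩
  obtain ⟨s, es⟩ : ∃ s, s = sin R * cos R := ⟨_, rfl⟩
  obtain ⟨y, ey⟩ : ∃ y, y = sinh I * cosh I := ⟨_, rfl⟩
  have hN : 0 < N := by rw [eN]; positivity
  rw [← eD] at hD0 k₂ e hx hD1
  rw [← eN] at k₂ e
  rw [← es] at e hx hsc
  rw [← ey] at e hx hh hsh'
  have hD : 0 < D := by linarith only [hD0, hI1, hI]
  obtain ⟨u, eu⟩ : ∃ u, u = √(N / D) := ⟨_, rfl⟩
  have u0 : 0 < u := by rw [eu]; exact sqrt_pos.2 (by positivity)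
  have u2 : u ^ 2 * D = N := by
    rw [eu, sq_sqrt (by positivity)]
    exact div_mul_cancel₀ _ hD.ne'
  -- `p₁` is small
  have hp1 : p₁ ≤ 12733 / 10000 * I := by
    have := pi_gt_d6
    by_contra hc
    push Not at hc
    have h1 : 3.141592 * p₁ ≤ π * p₁ := mul_le_mul_of_nonneg_right this.le h₁
    linarith only [h1, hc, hI, hn]
  have hu := h.u
  have hp2 : 67267 / 10000 * I ≤ p₂ := by linarith only [hu, hp1]
  have hp2' : p₂ ≤ 104 / 100 * u := by
    have e1 : p₂ ≤ sinh p₂ := self_le_sinh_iff.2 h₂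
    have e2 : sinh p₂ ≤ ρ₂ * u := by
      apply le_of_sq_le_sq _ (by positivity)
      have e3 : sinh p₂ ^ 2 * D ≤ (ρ₂ * u) ^ 2 * D := by
        rw [mul_pow, mul_assoc, u2]
        exact k₂
      exact le_of_mul_le_mul_right e3 hD
    have e3 : ρ₂ * u ≤ 104 / 100 * u := mul_le_mul_of_nonneg_right r₂' u0.le
    linarith only [e3, e2, e1]
  have hIu : I ≤ 15461 / 100000 * u := by linarith only [hp2', hu, hp1, hI]
  -- `h`, `s`
  have hy : y ≤ 1570 / 10000 * u := by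
    apply le_of_sq_le_sq _ (by positivity)
    have := pow_le_pow_left₀ hI.le hIu 2
    linarith only [this, hh, sq_nonneg (1 * I)]
  have hs : 7940 / 10000 * u ≤ s := by
    apply le_of_sq_le_sq _ hsc
    have e1 := pow_le_pow_left₀ hsh' hy 2
    have e2 : u ^ 2 * (6561 / 10000) ≤ N * D := by
      rw [← u2]
      have : (6561 / 10000 : ℝ) ≤ D * D := by (refine le_of_not_gt fun hng => ?_; linarith only [eD,
                                                hD0,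
                                                mul_nonneg (sub_nonneg.2 hD1) (sub_nonneg.2 eD.le),
                                                mul_nonneg (sub_nonneg.2 hD1) (sub_nonneg.2 eD.ge),
                                                mul_nonneg (sub_nonneg.2 hng.le) (sub_nonneg.2 hI1),
                                                mul_pos (sub_pos.2 hng) (sub_pos.2 hI),
                                                mul_nonneg (sq_nonneg (cos R)) (sub_nonneg.2 hD0),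
                                                mul_nonneg (sq_nonneg (sinh I)) (sub_nonneg.2 hD0)])
      linarith only [mul_nonneg (sq_nonneg (u)) (sub_nonneg.2 this)]
    linarith only [e2, e1, e, sq_nonneg (s)]
  obtain ⟨x, x0, x1, x2⟩ := hx
  have hx' : 47 / 100 ≤ x := by
    apply le_of_sq_le_sq _ x0
    have : 2209 / 10000 * (1 + t ^ 2) ≤ x ^ 2 * (1 + t ^ 2) := hk.trans x1
    have := le_of_mul_le_mul_right this (by positivity)
    norm_num
    linarith only [this]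
  have h3 : 6307 / 10000 * u ≤ s - t * y := by
    have : t * y ≤ 104 / 100 * (1570 / 10000 * u) := mul_le_mul t1 hy hsh' (by norm_num)
    linarith only [this, hs, hp2', hu, hp1, hI]
  have h4 : 47 / 100 * (6307 / 10000 * u) ≤ x * (s - t * y) :=
    mul_le_mul hx' h3 (by positivity) x0
  have hs1 : 0 ≤ sinh p₁ := sinh_nonneg_iff.2 h₁
  have h5 : sinh p₁ * D ≤ sinh p₁ * (1019 / 1000) := mul_le_mul_of_nonneg_left hD1 hs1
  have h6 : sinh p₁ ≤ 1049 / 1000 * p₁ := by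
    apply le_of_sq_le_sq _ (by positivity)
    have := sinh_sq_le h₁ (by linarith only [hp1, hI1, hI])
    linarith only [sq_nonneg p₁, this]
  linarith only [h6, h5, h4, x2, hp2', hu, hp1, hI]

/-! ### The kinds -/

theorem KE0_le8 (c : ℕ) (h : c ≠ 1) : KE0 c ≤ 12 / 100 := by
  match c, h with
  | 0, _ => show (100 / 1000 : ℝ) ≤ 12 / 100; norm_num
  | 1, h => exact absurd rfl h
  | 2, _ => show (60 / 1000 : ℝ) ≤ 12 / 100; norm_num
  | 3, _ => show (-(40 / 1000) : ℝ) ≤ 12 / 100; norm_num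
  | 4, _ => show (35 / 1000 : ℝ) ≤ 12 / 100; norm_num
  | 5, _ => show (0 / 1000 : ℝ) ≤ 12 / 100; norm_num
  | 6, _ => show (75 / 1000 : ℝ) ≤ 12 / 100; norm_num
  | 7, _ => show (0 / 1000 : ℝ) ≤ 12 / 100; norm_num
  | 8, _ => show (75 / 1000 : ℝ) ≤ 12 / 100; norm_num
  | _ + 9, _ => show (0 / 1000 : ℝ) ≤ 12 / 100; norm_num

theorem KE0_le1 : KE0 1 ≤ 13 / 100 := by show (130 / 1000 : ℝ) ≤ 13 / 100; norm_num

theorem KX_ge (c : ℕ) : 16 / 100 ≤ KX c := by
  match c with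
  | 0 => show (16 / 100 : ℝ) ≤ 215 / 1000; norm_num
  | 1 => show (16 / 100 : ℝ) ≤ 195 / 1000; norm_num
  | 2 => show (16 / 100 : ℝ) ≤ 195 / 1000; norm_num
  | 3 => show (16 / 100 : ℝ) ≤ 212 / 1000; norm_num
  | 4 => show (16 / 100 : ℝ) ≤ 174 / 1000; norm_num
  | 5 => show (16 / 100 : ℝ) ≤ 174 / 1000; norm_num
  | 6 => show (16 / 100 : ℝ) ≤ 180 / 1000; norm_num
  | 7 => show (16 / 100 : ℝ) ≤ 180 / 1000; norm_num
  | 8 => show (16 / 100 : ℝ) ≤ 215 / 1000; norm_num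
  | _ + 9 => show (16 / 100 : ℝ) ≤ 215 / 1000; norm_num

theorem KN_ge (c : ℕ) : 43 / 1000 ≤ KN c := by
  match c with
  | 0 => show (43 / 1000 : ℝ) ≤ 88 / 1000; norm_num
  | 1 => show (43 / 1000 : ℝ) ≤ 60 / 1000; norm_num
  | 2 => show (43 / 1000 : ℝ) ≤ 70 / 1000; norm_num
  | 3 => show (43 / 1000 : ℝ) ≤ 80 / 1000; norm_num
  | 4 => show (43 / 1000 : ℝ) ≤ 57 / 1000; norm_num
  | 5 => show (43 / 1000 : ℝ) ≤ 57 / 1000; norm_num
  | 6 => show (43 / 1000 : ℝ) ≤ 62 / 1000; norm_num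
  | 7 => show (43 / 1000 : ℝ) ≤ 62 / 1000; norm_num
  | 8 => show (43 / 1000 : ℝ) ≤ 88 / 1000; norm_num
  | _ + 9 => show (43 / 1000 : ℝ) ≤ 88 / 1000; norm_num

/-- `λ = log (|b|² / |cos z|²)`. -/
theorem lam_eq {q z b : ℂ} (hs : G.Slot q z) (hq : Complex.sinh q ≠ 0)
    (hb : Complex.sinh q = b * Complex.tan z) (hc : Complex.cos z ≠ 0) :
    lamv (sy q z) (z / π) = log (Complex.normSq b / Complex.normSq (Complex.cos z)) ∧
      Lamv (sy q z) (z / π) = 2 * q.re := by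
  obtain ⟨h1, h2⟩ := slot_log hs hq
  refine ⟨?_, h1⟩
  rw [h2]
  have hsz : Complex.sin z ≠ 0 := by
    obtain ⟨s1, s2⟩ := sin_quad hs.z0 hs.z1 hs.zi
    intro h
    rw [h] at s1
    simp at s1
  congr 1
  rw [hb, norm_mul, Complex.tan_eq_sin_div_cos, norm_div, Complex.normSq_eq_norm_sq,
    Complex.normSq_eq_norm_sq]
  have p1 : 0 < ‖Complex.sin z‖ := norm_pos_iff.2 hsz
  have p2 : 0 < ‖Complex.cos z‖ := norm_pos_iff.2 hc
  field_simp

/-- The square of `tan z`. -/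
theorem tan_sq_parts {z : ℂ} {D : ℝ} (hD : D = cos z.re ^ 2 + sinh z.im ^ 2) (hD0 : 0 < D) :
    (Complex.tan z ^ 2).re * D ^ 2 = (sin z.re * cos z.re) ^ 2 - (sinh z.im * cosh z.im) ^ 2 ∧
      (Complex.tan z ^ 2).im * D ^ 2 = 2 * (sin z.re * cos z.re) * (sinh z.im * cosh z.im) := by
  have hcz : (Complex.cos z) * conj (Complex.cos z) = (D : ℂ) := by
    rw [Complex.mul_conj, Complex.normSq_apply, Pool.Agent.S5.G.cos_re, Pool.Agent.S5.G.cos_im, hD]
    congr 1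
    have h1 := cosh_sq z.im
    have h2 := sin_sq_add_cos_sq z.re
    linarith only [h2, h1, mul_nonneg (sq_nonneg (cosh z.im)) (sub_nonneg.2 h2.le),
      mul_nonneg (sq_nonneg (cosh z.im)) (sub_nonneg.2 h2.ge),
      mul_nonneg (sq_nonneg (sin z.re)) (sub_nonneg.2 h1.le),
      mul_nonneg (sq_nonneg (sin z.re)) (sub_nonneg.2 h1.ge)]
  have hc0 : Complex.cos z ≠ 0 := by
    intro h
    rw [h, zero_mul] at hcz
    have : D = 0 := by exact_mod_cast hcz.symm
    linarith only [this, hD0]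
  have hsc : Complex.sin z * conj (Complex.cos z) =
      ((sin z.re * cos z.re : ℝ) : ℂ) + ((sinh z.im * cosh z.im : ℝ) : ℂ) * Complex.I := by
    have h1 := cosh_sq z.im
    have h2 := sin_sq_add_cos_sq z.re
    apply Complex.ext
    · rw [Complex.mul_re, Complex.conj_re, Complex.conj_im, Pool.Agent.S5.G.cos_re,
        Pool.Agent.S5.G.cos_im, Pool.Agent.S5.G.sin_re, Pool.Agent.S5.G.sin_im]
      simp [-Complex.ofReal_mul, -Complex.ofReal_sin, -Complex.ofReal_cos, -Complex.ofReal_sinh,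
        -Complex.ofReal_cosh]
      linear_combination (sin z.re * cos z.re) * h1
    · rw [Complex.mul_im, Complex.conj_re, Complex.conj_im, Pool.Agent.S5.G.cos_re,
        Pool.Agent.S5.G.cos_im, Pool.Agent.S5.G.sin_re, Pool.Agent.S5.G.sin_im]
      simp [-Complex.ofReal_mul, -Complex.ofReal_sin, -Complex.ofReal_cos, -Complex.ofReal_sinh,
        -Complex.ofReal_cosh]
      linear_combination (sinh z.im * cosh z.im) * h2
  have ht : Complex.tan z * (D : ℂ) =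
      ((sin z.re * cos z.re : ℝ) : ℂ) + ((sinh z.im * cosh z.im : ℝ) : ℂ) * Complex.I := by
    rw [← hsc, ← hcz, Complex.tan_eq_sin_div_cos]
    field_simp
  have ht2 : Complex.tan z ^ 2 * ((D ^ 2 : ℝ) : ℂ) =
      (((sin z.re * cos z.re : ℝ) : ℂ) + ((sinh z.im * cosh z.im : ℝ) : ℂ) * Complex.I) ^ 2 := by
    rw [← ht]
    push_cast
    ring
  have h1 := congrArg Complex.re ht2
  have h2 := congrArg Complex.im ht2
  rw [Complex.re_mul_ofReal] at h1
  rw [Complex.im_mul_ofReal] at h2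
  constructor
  · rw [h1, pow_two, Complex.mul_re]
    simp [-Complex.ofReal_mul, -Complex.ofReal_sin, -Complex.ofReal_cos, -Complex.ofReal_sinh,
      -Complex.ofReal_cosh]
    ring
  · rw [h2, pow_two, Complex.mul_im]
    simp [-Complex.ofReal_mul, -Complex.ofReal_sin, -Complex.ofReal_cos, -Complex.ofReal_sinh,
      -Complex.ofReal_cosh]
    ring

end Pool.Agent.S5.E.VX
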