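import Pool.Agent.S5.E.VX.W8a

/-!
# Vertices with eight or more half twists: the check of an instance
-/

set_option autoImplicit false

namespace Pool.Agent.S5.E.VX

open Real Pool.Agent.S3.NI Pool.Agent.S5.E.B2 Pool.Agent.S5.G
open Pool.Agent.S3.E (PP)
open scoped ComplexConjugate

def cu8 (c : ℕ) (S : Bool) : ℕ := bif S then (KU c).c1 else (KU c).c0
def cl8 (c : ℕ) (S : Bool) : ℕ := bif S then (KU c).c0 else (KU c).c1

/-- Sizes. -/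
def chk8a (c : ℕ) (k0 k1 t1 g1 ok P : ℕ) : Bool :=
  ((Nat.ble 900 ok && Nat.ble P 2030) && (Nat.ble g1 1040 && Nat.ble t1 1040)) &&
  ((Nat.ble (Nat.mul 2209 (Nat.add 1000000 (Nat.mul t1 t1))) (Nat.mul 10000 (Nat.mul k0 k0)) &&
    (Nat.ble (Nat.mul (Nat.mul k1 k1) 1073741824) (Nat.mul (Nat.mul ok ok) (KU c).cl) &&
      Nat.ble (Nat.mul 1000 (Nat.mul k1 k1)) (Nat.mul 1292 (Nat.mul ok ok)))) &&
    (!(Nat.beq c 1) || Nat.ble (Nat.add (Nat.mul 1000 (Nat.mul (Nat.mul P P)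
        (Nat.sub 1000000 (Nat.mul ok ok)))) (Nat.mul 12080 (Nat.mul 2016 (Nat.mul P P))))
      (Nat.mul 12080 (Nat.mul 64000 (Nat.mul ok ok)))))

/-- The check: a kind and an instance (first slot). -/
def chk8 (x : ℕ × Inst) : Bool :=
  ((Nat.beq x.2.a 8 && Sb x.2.own rS3) && (Nat.ble x.2.r₁.k1 1200 &&
    chk8a x.1 x.2.r₁.k0 x.2.r₁.k1 x.2.r₁.t1 x.2.r₂.k1 x.2.own.k0
      (Nat.add x.2.r₁.k1 x.2.r₂.k1))) &&
  (Nat.ble 1073741824 (cu8 x.1 x.2.s₁) &&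
    w8r (w8K x.2.s₁ (cu8 x.1 x.2.s₁) (cl8 x.1 x.2.s₁)) x.2.r₁.k0 x.2.r₁.k1 x.2.r₁.t0 x.2.r₁.t1 40)

theorem exp_l2 : (1292 : ℝ) / 1000 ≤ exp (2562 / 10000) :=
  exp_ge_sum 8 (by norm_num) (by norm_num [Finset.sum_range_succ, Nat.factorial])

theorem V8.parts {ρ R I p₁ p₂ : ℝ} (h : V8 ρ R I p₁ p₂) (r0 : 0 ≤ ρ) (r1 : ρ ≤ 203 / 100)
    {z : ℂ} (eR : z.re = R) (eI : z.im = I) : 0 ≤ (Complex.tan z ^ 2).re ∧
      (Complex.tan z ^ 2).re ≤ 2802 / 10000 ∧ 0 ≤ (Complex.tan z ^ 2).im ∧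
      (Complex.tan z ^ 2).im ≤ kp8 * (Complex.tan z ^ 2).re := by
  have hk := h.kap r0 r1
  have hn := h.tn r0 r1
  have e := nd_sq R I
  obtain ⟨D, eD⟩ : ∃ D, D = cos R ^ 2 + sinh I ^ 2 := ⟨_, rfl⟩
  have hD0 : 0 < D := by rw [eD]; linarith [h.D0]
  obtain ⟨h1, h2⟩ := tan_sq_parts (z := z) (D := D) (by rw [eR, eI]; exact eD) hD0
  rw [eR, eI] at h1 h2
  have hsR : 0 < sin R := sin_pos_of_pos_of_lt_pi h.R0 (by linarith [pi_pos, h.R1])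
  have hcR : 0 < cos R := cos_pos_of_mem_Ioo ⟨by linarith [pi_pos, h.R0], h.R1⟩
  have hs0 : 0 < sin R * cos R := by positivity
  have hsI : 0 < sinh I := sinh_pos_iff.2 h.I0
  have hh0 : 0 < sinh I * cosh I := mul_pos hsI (cosh_pos I)
  obtain ⟨s, es⟩ : ∃ s, s = sin R * cos R := ⟨_, rfl⟩
  obtain ⟨y, ey⟩ : ∃ y, y = sinh I * cosh I := ⟨_, rfl⟩
  rw [← es] at hk e h1 h2 hs0
  rw [← ey] at hk e h1 h2 hh0
  rw [← eD] at e hn
  have hD2 : 0 < D ^ 2 := by positivity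
  have y2 : y ^ 2 ≤ (336 / 1000 * s) ^ 2 := pow_le_pow_left₀ hh0.le hk 2
  have sy2 : s * y ≤ s * (336 / 1000 * s) := mul_le_mul_of_nonneg_left hk hs0.le
  have hs2 : 0 < s ^ 2 := by positivity
  have hkp : 7575 / 10000 ≤ kp8 := by unfold kp8; norm_num
  have hkp' : 2 * (336 / 1000) ≤ kp8 * (1 - (336 / 1000) ^ 2) := by unfold kp8; norm_num
  have x0 : 0 ≤ (Complex.tan z ^ 2).re := by
    have : 0 ≤ (Complex.tan z ^ 2).re * D ^ 2 := by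
      rw [h1]
      nlinarith
    exact nonneg_of_mul_nonneg_left this hD2
  refine ⟨x0, ?_, ?_, ?_⟩
  · have e3 : (Complex.tan z ^ 2).re * D ^ 2 ≤ 2802 / 10000 * D ^ 2 := by
      rw [h1]
      have : (sin R ^ 2 + sinh I ^ 2) * D ≤ 2802 / 10000 * D * D :=
        mul_le_mul_of_nonneg_right hn hD0.le
      nlinarith
    exact le_of_mul_le_mul_right e3 hD2
  · have : 0 ≤ (Complex.tan z ^ 2).im * D ^ 2 := by
      rw [h2]
      positivity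
    exact nonneg_of_mul_nonneg_left this hD2
  · have e3 : (Complex.tan z ^ 2).im * D ^ 2 ≤ kp8 * (Complex.tan z ^ 2).re * D ^ 2 := by
      rw [h2, mul_assoc kp8, h1]
      have k0 : 0 ≤ kp8 := by unfold kp8; norm_num
      have k1 : kp8 * y ^ 2 ≤ kp8 * (336 / 1000 * s) ^ 2 := mul_le_mul_of_nonneg_left y2 k0
      have k2 := mul_le_mul_of_nonneg_right hkp' hs2.le
      nlinarith
    exact le_of_mul_le_mul_right e3 hD2

/-! ### Numbers -/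

theorem n8_D {k : ℕ} {D : ℝ} (h : 900 ≤ k) (hk : ((k : ℝ) / 1000) ^ 2 ≤ D) : 81 / 100 ≤ D := by
  have h' : (900 : ℝ) ≤ k := by exact_mod_cast h
  nlinarith

theorem n8_k {t k : ℕ} (h : 2209 * (1000000 + t * t) ≤ 10000 * (k * k)) :
    2209 / 10000 * (1 + ((t : ℝ) / 1000) ^ 2) ≤ ((k : ℝ) / 1000) ^ 2 := by
  have h' : (2209 : ℝ) * (1000000 + t * t) ≤ 10000 * (k * k) := by exact_mod_cast h
  nlinarith

theorem n8_l {k1 ok cl : ℕ} {D n : ℝ} (h : (k1 * k1) * 1073741824 ≤ (ok * ok) * cl)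
    (hn : n ≤ ((k1 : ℝ) / 1000) ^ 2) (hD : ((ok : ℝ) / 1000) ^ 2 ≤ D) :
    n ≤ (cl : ℝ) / 1073741824 * D := by
  have h' : ((k1 : ℝ) * k1) * 1073741824 ≤ (ok * ok) * cl := by exact_mod_cast h
  have e3 : ((k1 : ℝ) / 1000) ^ 2 ≤ (cl : ℝ) / 1073741824 * ((ok : ℝ) / 1000) ^ 2 := by
    rw [div_mul_eq_mul_div, le_div_iff₀ (by norm_num)]
    nlinarith
  have e4 : (cl : ℝ) / 1073741824 * ((ok : ℝ) / 1000) ^ 2 ≤ (cl : ℝ) / 1073741824 * D :=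
    mul_le_mul_of_nonneg_left hD (by positivity)
  linarith

theorem n8_l2 {k1 ok : ℕ} {D n : ℝ} (h : 1000 * (k1 * k1) ≤ 1292 * (ok * ok))
    (hn : n ≤ ((k1 : ℝ) / 1000) ^ 2) (hD : ((ok : ℝ) / 1000) ^ 2 ≤ D) :
    n ≤ 1292 / 1000 * D := by
  have h' : (1000 : ℝ) * (k1 * k1) ≤ 1292 * (ok * ok) := by exact_mod_cast h
  nlinarith

theorem n8_i {P k : ℕ} {I : ℝ} (hk : 900 ≤ k) (hP : P ≤ 2030)
    (h : 1000 * (P * P * (1000000 - k * k)) + 12080 * (2016 * (P * P)) ≤ 12080 * (64000 * (k * k)))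
    (hI : (64 * ((k : ℝ) / 1000) ^ 2 - 2016 / 1000 * ((P : ℝ) / 1000) ^ 2) * I ^ 2 ≤
      ((P : ℝ) / 1000) ^ 2 * (1 - ((k : ℝ) / 1000) ^ 2)) : I ≤ 10991 / 100000 := by
  have hk' : (900 : ℝ) ≤ k := by exact_mod_cast hk
  have hP' : (P : ℝ) ≤ 2030 := by exact_mod_cast hP
  have hP0 : (0 : ℝ) ≤ P := P.cast_nonneg
  have c11 : (1000 : ℝ) * ((P : ℝ) * P * ((1000000 - k * k : ℕ) : ℝ)) + 12080 * (2016 *
      ((P : ℝ) * P)) ≤ 12080 * (64000 * ((k : ℝ) * k)) := by exact_mod_cast h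
  have hsub : (1000000 : ℝ) - (k : ℝ) * k ≤ ((1000000 - k * k : ℕ) : ℝ) := by
    have := sub_le_nsub 1000000 (k * k)
    push_cast at this
    exact this
  have h1 : (P : ℝ) * P * (1000000 - k * k) ≤ P * P * ((1000000 - k * k : ℕ) : ℝ) :=
    mul_le_mul_of_nonneg_left hsub (mul_self_nonneg _)
  obtain ⟨Q, eQ⟩ : ∃ Q : ℝ, Q = P := ⟨_, rfl⟩
  obtain ⟨l, el⟩ : ∃ l : ℝ, l = k := ⟨_, rfl⟩
  rw [← eQ, ← el] at hI
  rw [← eQ] at hP' hP0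
  rw [← el] at hk'
  have c12 : 1000 * (Q * Q * (1000000 - l * l)) + 12080 * (2016 * (Q * Q)) ≤
      12080 * (64000 * (l * l)) := by rw [eQ, el]; linarith
  have hQ2 : Q * Q ≤ 2030 * 2030 := mul_le_mul hP' hP' hP0 (by norm_num)
  have hl2 : 900 * 900 ≤ l * l := mul_le_mul hk' hk' (by norm_num) (by linarith)
  have hpos : 0 < 64 * (l / 1000) ^ 2 - 2016 / 1000 * (Q / 1000) ^ 2 := by
    have e : 64 * (l / 1000) ^ 2 - 2016 / 1000 * (Q / 1000) ^ 2 =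
      (64 * (l * l) - 2016 / 1000 * (Q * Q)) / 1000000 := by ring
    rw [e]
    apply div_pos _ (by norm_num)
    linarith
  have h3 : (64 * (l / 1000) ^ 2 - 2016 / 1000 * (Q / 1000) ^ 2) * I ^ 2 ≤
      (64 * (l / 1000) ^ 2 - 2016 / 1000 * (Q / 1000) ^ 2) * (1208 / 100000) := by
    refine hI.trans ?_
    have e1 : (Q / 1000) ^ 2 * (1 - (l / 1000) ^ 2) = (Q * Q * (1000000 - l * l)) / 10 ^ 12 := by
      ring
    have e2 : (64 * (l / 1000) ^ 2 - 2016 / 1000 * (Q / 1000) ^ 2) * (1208 / 100000) =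
      (12080 * (64000 * (l * l)) - 12080 * (2016 * (Q * Q))) / 10 ^ 15 := by ring
    rw [e1, e2]
    linarith
  have h4 := le_of_mul_le_mul_left h3 hpos
  apply le_of_sq_le_sq _ (by norm_num)
  norm_num
  linarith

theorem n8_e (R I : ℝ) : (cos R * cosh I) ^ 2 + (sin R * sinh I) ^ 2 = cos R ^ 2 + sinh I ^ 2 := by
  have k1 := cosh_sq I
  have k2 := sin_sq_add_cos_sq R
  rw [mul_pow, mul_pow, k1]
  linear_combination sinh I ^ 2 * k2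

theorem n8_c (z : ℂ) : Complex.normSq (Complex.cos z) = cos z.re ^ 2 + sinh z.im ^ 2 := by
  rw [Complex.normSq_apply, Pool.Agent.S5.G.cos_re, Pool.Agent.S5.G.cos_im, ← n8_e]
  ring

theorem n8_b {b : ℂ} {x y : ℝ} {s : Bool} (h : b = (x : ℂ) + (sgy s y : ℝ) * Complex.I) :
    b.re = x ∧ (bif s then -b.im else b.im) = y ∧ Complex.normSq b = x ^ 2 + y ^ 2 := by
  have h1 : b.re = x := by rw [h]; simp
  have h2 : b.im = sgy s y := by rw [h]; simp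
  refine ⟨h1, ?_, ?_⟩
  · rw [h2]
    cases s <;> simp [sgy]
  · rw [Complex.normSq_apply, h1, h2]
    cases s <;> simp [sgy] <;> ring

/-- The last step: all bounds of the slot. -/
theorem n8_f {c : ℕ} {y v : ℂ} {R I p : ℝ} (hR0 : 0 < R) (hI0 : 0 < I) (hR : R ≤ 1 / 2)
    (hI : I ≤ 1342 / 10000) (hc1 : c = 1 → I ≤ 10991 / 100000) (hb : 4 * I ≤ π * p)
    (hv1 : v.re = R / π) (hv2 : v.im = I / π) (Y : Y8 (KE0 c) (KE1 c) y)
    (hl : lamv y v ≤ KL c) (hl2 : lamv y v ≤ 2562 / 10000) (hL : Lamv y v = 2 * p) :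
    VUx (KE0 c) (KE1 c) (KL c) (KX c) (KN c) y v := by
  have hpi := pi_pos
  have hpi6 := pi_gt_d6
  have hν : I / π ≤ 4272 / 100000 := by
    rw [div_le_iff₀ hpi]
    nlinarith
  have hx : R / π ≤ 15916 / 100000 := by
    rw [div_le_iff₀ hpi]
    nlinarith
  have hKE0 := KE0_le c
  have hKE1 := KE1_le c
  have hKL := KL_le c
  have hKX := KX_ge c
  have hKN := KN_ge c
  obtain ⟨T0, T1, Y0, Y1⟩ := Y
  have hd : I / π - y.im ≤ 165 / 1000 := by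
    by_cases h1 : c = 1
    · have hI' := hc1 h1
      rw [h1] at Y0
      have hk1 := KE0_le1
      have hν' : I / π ≤ 3499 / 100000 := by
        rw [div_le_iff₀ hpi]
        nlinarith
      linarith
    · have := KE0_le8 c h1
      linarith
  have hν0 : 0 < I / π := div_pos hI0 hpi
  have hx0 : 0 < R / π := div_pos hR0 hpi
  have hp1 : 8 * (I / π) ≤ 2 * p := by
    rw [mul_div_assoc', div_le_iff₀ hpi]
    linarith
  refine ⟨⟨?_, ?_, ?_, ?_, ?_, T0, T1, ?_, by linarith, by linarith, ?_, by linarith, ?_, ?_, ?_⟩,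
    Y0, Y1, hl, ?_, ?_⟩
  · rw [hv1]; exact hx0
  · rw [hv1]; linarith
  · rw [hv2]; exact hν0
  · rw [hv2]; linarith
  · rw [hv1]; linarith
  · rw [hv1]; linarith
  · rw [hv2]; exact hd
  · rw [hv2]; linarith
  · rw [hv2, hL]; exact hp1
  · rw [hv2, hv1, hL]
    have e3 : (8 * (I / π)) * (12 / 100) ≤ 2 * p * (7 / 25 - R / π) :=
      mul_le_mul hp1 (by linarith) (by norm_num) (by linarith)
    linarith
  · rw [hv1]; linarith
  · rw [hv2]; linarith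

/-- The vertex. -/
theorem n8_v {x : ℕ × Inst} {ab : ℕ × ℕ} {m1 m2 : Md} {a R I p₁ q₁ p₂ q₂ : ℝ} (h8 : 8 ≤ a)
    (hV : VH (vpI x.2 ab m1 m2) a R I p₁ q₁ p₂ q₂) (hm : m1 ≠ Md.o)
    (hD : ((x.2.own.k0 : ℝ) / 1000) ^ 2 ≤ cos R ^ 2 + sinh I ^ 2) (c2 : 900 ≤ x.2.own.k0)
    (c3 : x.2.r₁.k1 + x.2.r₂.k1 ≤ 2030) (c4 : x.2.r₂.k1 ≤ 1040) (c5 : x.2.r₁.t1 ≤ 1040)
    (c6 : 2209 * (1000000 + x.2.r₁.t1 * x.2.r₁.t1) ≤ 10000 * (x.2.r₁.k0 * x.2.r₁.k0)) :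
    V8 (((x.2.r₁.k1 + x.2.r₂.k1 : ℕ) : ℝ) / 1000) R I p₁ p₂ ∧ 4 * I ≤ π * p₁ := by
  have hsI : 0 < sinh I := sinh_pos_iff.2 hV.I0
  have hN : 0 < sin R ^ 2 + sinh I ^ 2 := by positivity
  have hD0 := n8_D c2 hD
  have hDp : 0 < cos R ^ 2 + sinh I ^ 2 := by linarith
  have k₁ : sinh p₁ ^ 2 * (cos R ^ 2 + sinh I ^ 2) ≤
    ((x.2.r₁.k1 : ℝ) / 1000) ^ 2 * (sin R ^ 2 + sinh I ^ 2) := hV.s1.sinh_le hN hDp
  have k₂ : sinh p₂ ^ 2 * (cos R ^ 2 + sinh I ^ 2) ≤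
    ((x.2.r₂.k1 : ℝ) / 1000) ^ 2 * (sin R ^ 2 + sinh I ^ 2) := hV.s2.sinh_le hN hDp
  have c3' : ((x.2.r₁.k1 + x.2.r₂.k1 : ℕ) : ℝ) ≤ 2030 := by exact_mod_cast c3
  have e : (x.2.r₁.k1 : ℝ) / 1000 + (x.2.r₂.k1 : ℝ) / 1000 =
    ((x.2.r₁.k1 + x.2.r₂.k1 : ℕ) : ℝ) / 1000 := by push_cast; ring
  have hρ : (x.2.r₁.k1 : ℝ) / 1000 + (x.2.r₂.k1 : ℝ) / 1000 ≤ 203 / 100 := by
    rw [e]
    linarith
  have hρ0 : 0 ≤ (x.2.r₁.k1 : ℝ) / 1000 + (x.2.r₂.k1 : ℝ) / 1000 := by positivity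
  have V := v8_of h8 hV.eI hV.I0 hV.R0 hV.R1 hV.s1.p0 hV.s2.p0 hV.s1.p1 hV.s2.p1 k₁ k₂
    (by positivity) (by positivity) hρ hD0
  have c4' : (x.2.r₂.k1 : ℝ) ≤ 1040 := by exact_mod_cast c4
  have c5' : (x.2.r₁.t1 : ℝ) ≤ 1040 := by exact_mod_cast c5
  have hb4 := V.b hρ0 hρ hV.s1.p0 hV.s2.p0 k₂ (by positivity) (by linarith)
    (t := (x.2.r₁.t1 : ℝ) / 1000) (k := (x.2.r₁.k0 : ℝ) / 1000) (by positivity) (by linarith)
    (by positivity) (n8_k c6) (hV.s1.re_ge hm hV.R0 hV.R1 hV.I0)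
  rw [e] at V
  exact ⟨V, hb4⟩

/-- **Soundness of the check.** -/
theorem chk8_sound {ι : Type*} {a : ι → ℝ} {nl nr : ι → Option (ι × Bool)} {z : ι → ℂ}
    {x : ℕ × Inst} {i j : ι} {o : Option (ι × Bool)} (hf : Fit a nl nr z x.2 i j o)
    (h : Zr true a nl nr (gC a nl nr) 1 z) (hc : chk8 x = true) {q : ℂ}
    (hq : q.re = PP (bo true 1 z (some (j, x.2.s₁)) * Complex.tan (z i)))
    (hq' : q.im = RS (bo true 1 z (some (j, x.2.s₁)) * Complex.tan (z i)))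
    (hs : G.Slot q (z i)) :
    VUx (KE0 x.1) (KE1 x.1) (KL x.1) (KX x.1) (KN x.1) (sy q (z i)) (z i / π) := by
  have hpi := pi_pos
  have hpi6 := pi_gt_d6
  obtain ⟨φ₁, φ₂, hv, h1, h2, ho⟩ := hf.vx h
  unfold chk8 chk8a at hc
  simp only [Bool.and_eq_true, Nat.ble_eq, Nat.beq_eq] at hc
  obtain ⟨⟨⟨ca, cS⟩, c1, ⟨⟨⟨c2, c3⟩, c4, c5⟩, ⟨c6, c7, c8⟩, c9⟩⟩, cu, cr⟩ := hc
  obtain ⟨ab, hab, m1, hm1, m2, hm2, q₁, q₂, e1, e2, hV⟩ := vh_of hv hf.a h1 h2 ho cS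
    (by omega) c1 (by omega)
  have hm : m1 ≠ Md.o := by
    rintro rfl
    cases hs1 : x.2.s₁ <;> rw [hs1] at hm1 <;> simp [mds] at hm1
  have ha8 : 8 ≤ a i := by
    have := hf.a
    rw [ca] at this
    unfold HasA at this
    rw [if_pos rfl] at this
    obtain ⟨k, hk, ek⟩ := this
    rw [ek]
    exact_mod_cast hk
  have hDk := ho.lo
  rw [n8_e] at hDk
  obtain ⟨V, hb4⟩ := n8_v ha8 hV hm hDk c2 c3 c4 c5 c6
  have hρ0 : 0 ≤ ((x.2.r₁.k1 + x.2.r₂.k1 : ℕ) : ℝ) / 1000 := by positivity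
  have hρ : ((x.2.r₁.k1 + x.2.r₂.k1 : ℕ) : ℝ) / 1000 ≤ 203 / 100 := by
    have c3' : ((x.2.r₁.k1 + x.2.r₂.k1 : ℕ) : ℝ) ≤ 2030 := by exact_mod_cast c3
    linarith
  -- the slot
  obtain ⟨b, eb⟩ : ∃ b, b = bo true 1 z (some (j, x.2.s₁)) := ⟨_, rfl⟩
  have hbo := h.bo_re1 j x.2.s₁
  rw [← eb] at hbo hq hq' hb4
  have hqas : q = as (b * Complex.tan (z i)) := by
    apply Complex.ext
    · rw [as_re, hq]
    · rw [as_im, hq']
  have hsinh : Complex.sinh q = b * Complex.tan (z i) := by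
    rw [hqas]
    apply sinh_as
    rw [eb]
    apply h.w_nonneg
    rcases hf.t with ⟨ht, -⟩ | ⟨-, ht⟩
    · exact Or.inl ht
    · exact Or.inr ht
  rw [← hq] at hb4
  have hI0 := V.I0
  have hp : 0 < q.re := by
    by_contra hn
    push Not at hn
    have : π * q.re ≤ 0 := mul_nonpos_of_nonneg_of_nonpos hpi.le hn
    linarith
  have hq0 : q ≠ 0 := by
    intro h0
    rw [h0] at hp
    simp at hp
  have hsw : Complex.sinh q ≠ 0 := by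
    intro h0
    have h1 : 0 < ‖Complex.sinh q‖ ^ 2 := by
      rw [norm_sinh_sq']
      have := sinh_pos_iff.2 hp
      positivity
    rw [h0, norm_zero] at h1
    norm_num at h1
  obtain ⟨hbre, hy, hnb⟩ := n8_b hbo
  have hr := hf.r1
  obtain ⟨X0, X1, Y0, Y1⟩ := V.parts hρ0 hρ (z := z i) rfl rfl
  have Y := w8_slot (c := x.1) hs hq0 hsinh (by rw [hbre]; exact h.re_pos j)
    (by rw [hy]; exact hr.y0) cu cr (by rw [hnb]; exact hr.lo) (by rw [hnb]; exact hr.hi)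
    (by rw [hy, hbre]; exact hr.a0) (by rw [hy, hbre]; exact hr.a1) X0 X1 Y0 Y1
  -- `λ`
  obtain ⟨lam, Lam⟩ := lam_eq hs hsw hsinh (h.cos_ne i)
  have nb1 : Complex.normSq b ≤ ((x.2.r₁.k1 : ℝ) / 1000) ^ 2 := by rw [hnb]; exact hr.hi
  have nb0 : 0 < Complex.normSq b := by
    rw [hnb]
    have := h.re_pos j
    positivity
  have hD : 0 < Complex.normSq (Complex.cos (z i)) := by
    rw [n8_c]
    have := n8_D c2 hDk
    linarith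
  have hDk' : ((x.2.own.k0 : ℝ) / 1000) ^ 2 ≤ Complex.normSq (Complex.cos (z i)) := by
    rw [n8_c]
    exact hDk
  have hl : lamv (sy q (z i)) (z i / π) ≤ KL x.1 := by
    rw [lam]
    exact log_ratio nb0 hD (c := ((KU x.1).cl : ℝ) / 1073741824) (n8_l c7 nb1 hDk')
      (lb_v (KU_ok x.1).cl)
  have hl2 : lamv (sy q (z i)) (z i / π) ≤ 2562 / 10000 := by
    rw [lam]
    exact log_ratio nb0 hD (c := 1292 / 1000) (n8_l2 c8 nb1 hDk') exp_l2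
  refine n8_f V.R0 hI0 (V.r hρ0 hρ) (V.i4 hρ0 hρ) ?_ hb4 (v_re _) (v_im _) Y hl hl2 Lam
  intro h1
  rw [h1, Bool.or_eq_true] at c9
  rcases c9 with c9 | c9
  · simp at c9
  · rw [Nat.ble_eq] at c9
    exact n8_i c2 c3 c9 (V.i2 hDk)

end Pool.Agent.S5.E.VX
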