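import Pool.Agent.S5.E.VX.W8
import Pool.Agent.S5.E.VX.VUk

/-!
# Vertices with eight or more half twists: from the test to the slot
-/

set_option autoImplicit false

namespace Pool.Agent.S5.E.VX

open Real Pool.Agent.S3.NI Pool.Agent.S5.E.B2 Pool.Agent.S5.G
open scoped ComplexConjugate

/-- The data for the constants `cu`, `cl` (units `2 ^ (-30)`). -/
def w8K (S : Bool) (cu cl : ℕ) : W8 :=
  ⟨S, !S && !(Nat.ble cu cl), (S || !(Nat.ble cu cl)) && !(Nat.ble 1073741824 cl),
    dlo (Nat.sub cu 1073741824) (Nat.add cu 1073741824),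
    dhi (Nat.sub 1073741824 cl) (Nat.add 1073741824 cl)⟩

theorem rat_u {s g τ c : ℝ} (hs : 0 ≤ s) (h : (2 * g) ^ 2 ≤ τ ^ 2 * s ^ 2) (hτ : 0 ≤ τ)
    (hc : τ * (c + 1) ≤ c - 1) (hc0 : 0 ≤ c) :
    s + 2 * g ≤ c * (s - 2 * g) ∧ s - 2 * g ≤ c * (s + 2 * g) := by
  have h1 : |2 * g| ≤ τ * s := by
    apply abs_le_of_sq_le_sq _ (by positivity)
    rw [mul_pow τ s]
    exact h
  obtain ⟨h2, h3⟩ := abs_le.1 h1
  have h4 : τ * s * (c + 1) ≤ (c - 1) * s := by linarith only [mul_nonneg (sub_nonneg.2 hs) (sub_nonneg.2 hc)]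
  constructor
  · linarith only [h4, h3, mul_nonneg (sub_nonneg.2 hc0) (sub_nonneg.2 h3)]
  · linarith only [h4, h2, mul_nonneg (sub_nonneg.2 hc0) (sub_nonneg.2 h2)]

theorem rat_l {s g τ c : ℝ} (hs : 0 ≤ s) (hg : 0 ≤ g) (h : τ ^ 2 * s ^ 2 ≤ (2 * g) ^ 2)
    (hc : 1 - c ≤ τ * (1 + c)) (hc0 : 0 ≤ c) : s - 2 * g ≤ c * (s + 2 * g) := by
  have h1 : τ * s ≤ 2 * g := by
    apply le_of_sq_le_sq _ (by positivity)
    rw [mul_pow]
    exact h
  linarith only [h1, mul_nonneg (sub_nonneg.2 hc0) (sub_nonneg.2 h1),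
    mul_nonneg (sub_nonneg.2 hs) (sub_nonneg.2 hc)]

theorem tu_le {cu : ℕ} (h : 1073741824 ≤ cu) {c : ℝ} (hc : c = (cu : ℝ) / 1073741824) :
    ((dlo (Nat.sub cu 1073741824) (Nat.add cu 1073741824) : ℕ) : ℝ) / 1073741824 * (c + 1) ≤
      c - 1 := by
  have c1 : 1 ≤ c := by
    rw [hc, le_div_iff₀ (by norm_num)]
    have : (1073741824 : ℝ) ≤ cu := by exact_mod_cast h
    linarith only [this]
  have l1 : Lb (Nat.sub cu 1073741824) (c - 1) := by
    have := lb_self cu
    rw [← hc] at this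
    exact this.subm ub_one (by linarith only [c1]) le_rfl
  have u1 : Ub (c + 1) (Nat.add cu 1073741824) := by
    have := ub_self cu
    rw [← hc] at this
    exact this.add ub_one
  have := l1.div u1 (by linarith only [c1])
  have h2 := lb_v this
  rwa [le_div_iff₀ (by linarith only [c1])] at h2

theorem tl_ge {cl : ℕ} {c : ℝ} (hc : c = (cl : ℝ) / 1073741824) :
    1 - c ≤ ((dhi (Nat.sub 1073741824 cl) (Nat.add 1073741824 cl) : ℕ) : ℝ) / 1073741824 *
      (1 + c) := by
  have c0 : 0 ≤ c := by rw [hc]; positivity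
  have u1 : Ub (1 - c) (Nat.sub 1073741824 cl) := by
    have := lb_self cl
    rw [← hc] at this
    exact ub_one.subm this le_rfl
  have l1 : Lb (Nat.add 1073741824 cl) (1 + c) := by
    have := lb_self cl
    rw [← hc] at this
    exact lb_one.add this
  have := u1.div l1 (by
    show 0 < 1073741824 + cl
    omega)
  have h2 := ub_v this
  rwa [div_le_iff₀ (by linarith only [c0])] at h2

/-- The two ratios, `g ≥ 0` if it is needed. -/
theorem w8_ratio {S : Bool} {cu cl : ℕ} {A K g V s : ℝ} (hcu : 1073741824 ≤ cu)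
    (h : W8R (w8K S cu cl) A K (4 * g ^ 2) V s) (hAK : 0 ≤ A + K) (hg : S = true → 0 ≤ g)
    (hg' : V ≤ s → 0 ≤ g) :
    A + K + 2 * g ≤ (cu : ℝ) / 1073741824 * (A + K - 2 * g) ∧
      A + K - 2 * g ≤ (cl : ℝ) / 1073741824 * (A + K + 2 * g) := by
  have hu := h.u
  rw [show 4 * g ^ 2 = (2 * g) ^ 2 by ring] at hu
  obtain ⟨r1, r2⟩ := rat_u hAK hu (by positivity) (tu_le hcu rfl) (by positivity)
  refine ⟨r1, ?_⟩
  have hp : 0 ≤ A + K + 2 * g := by
    have h1 := rat_u hAK hu (by positivity) (tu_le hcu rfl) (by positivity)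
    have hc1 : (1 : ℝ) ≤ (cu : ℝ) / 1073741824 := by
      rw [le_div_iff₀ (by norm_num)]
      have : (1073741824 : ℝ) ≤ cu := by exact_mod_cast hcu
      linarith only [this]
    by_contra hn
    push Not at hn
    have := h1.2
    linarith only [hn, r2, hAK, mul_nonneg (sub_nonneg.2 hc1) (sub_nonneg.2 hn.le)]
  cases hb : Nat.ble cu cl with
  | true =>
    rw [Nat.ble_eq] at hb
    have hb' : (cu : ℝ) ≤ cl := by exact_mod_cast hb
    have : (cu : ℝ) / 1073741824 * (A + K + 2 * g) ≤ (cl : ℝ) / 1073741824 * (A + K + 2 * g) :=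
      mul_le_mul_of_nonneg_right (by
        apply div_le_div_of_nonneg_right hb' (by norm_num)) hp
    linarith only [this, r2]
  | false =>
    have g0 : 0 ≤ g := by
      cases hS : S with
      | true => exact hg hS
      | false =>
        exact hg' (h.s (by simp [w8K, hb, hS]) (by simp [w8K, hS]))
    cases hl : Nat.ble 1073741824 cl with
    | true =>
      rw [Nat.ble_eq] at hl
      have hl' : (1 : ℝ) ≤ (cl : ℝ) / 1073741824 := by
        rw [le_div_iff₀ (by norm_num)]
        have : (1073741824 : ℝ) ≤ cl := by exact_mod_cast hl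
        linarith only [this]
      linarith only [g0, mul_nonneg (sub_nonneg.2 hp) (sub_nonneg.2 hl')]
    | false =>
      have h1 := h.l (by simp [w8K, hb, hl])
      rw [show 4 * g ^ 2 = (2 * g) ^ 2 by ring] at h1
      exact rat_l hAK g0 h1 (tl_ge rfl) (by positivity)

/-! ### The complex identities -/

section

variable {q z b : ℂ}

theorem sinh_pm (hc : Complex.cos z ≠ 0) (hb : Complex.sinh q = b * Complex.tan z) :
    Complex.sinh (q + Complex.I * z) = Complex.sin z * (b + Complex.I * Complex.cosh q) ∧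
      Complex.sinh (q - Complex.I * z) = Complex.sin z * (b - Complex.I * Complex.cosh q) := by
  have h1 : Complex.sinh q * Complex.cos z = b * Complex.sin z := by
    rw [hb, Complex.tan_eq_sin_div_cos]
    field_simp
  constructor
  · rw [sinh_addI]
    linear_combination h1
  · rw [sinh_subI]
    linear_combination h1

/-- `g₁ + i g₂ = b conj (cosh q)`. -/
noncomputable def gr (b C : ℂ) : ℝ := b.re * C.re + b.im * C.im
noncomputable def gi (b C : ℂ) : ℝ := b.im * C.re - b.re * C.im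

theorem n_add (b C : ℂ) : ‖b + Complex.I * C‖ ^ 2 =
    Complex.normSq b + Complex.normSq C + 2 * gi b C := by
  rw [← Complex.normSq_eq_norm_sq, Complex.normSq_apply, Complex.normSq_apply, Complex.normSq_apply]
  unfold gi
  simp
  ring

theorem n_sub (b C : ℂ) : ‖b - Complex.I * C‖ ^ 2 =
    Complex.normSq b + Complex.normSq C - 2 * gi b C := by
  rw [← Complex.normSq_eq_norm_sq, Complex.normSq_apply, Complex.normSq_apply, Complex.normSq_apply]
  unfold gi
  simp
  ring

theorem ab_prod (b C : ℂ) (w : ℂ) : (w * (b + Complex.I * C) * conj (w * (b - Complex.I * C))).re =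
      ‖w‖ ^ 2 * (Complex.normSq b - Complex.normSq C) ∧
    (w * (b + Complex.I * C) * conj (w * (b - Complex.I * C))).im = ‖w‖ ^ 2 * (2 * gr b C) := by
  rw [← Complex.normSq_eq_norm_sq, Complex.normSq_apply, Complex.normSq_apply, Complex.normSq_apply]
  unfold gr
  constructor
  · simp
    ring
  · simp
    ring

theorem gri (b C : ℂ) : gr b C ^ 2 + gi b C ^ 2 = Complex.normSq b * Complex.normSq C := by
  rw [Complex.normSq_apply, Complex.normSq_apply]
  unfold gr gi
  ring

/-- The real form of `C² = 1 + b² v`. -/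
theorem c_parts {b C v : ℂ} (h : C ^ 2 = 1 + b ^ 2 * v) :
    C.re ^ 2 - C.im ^ 2 = 1 + (b.re ^ 2 - b.im ^ 2) * v.re - 2 * b.re * b.im * v.im ∧
      2 * C.re * C.im = (b.re ^ 2 - b.im ^ 2) * v.im + 2 * b.re * b.im * v.re := by
  have h1 := congrArg Complex.re h
  have h2 := congrArg Complex.im h
  simp [pow_two] at h1 h2
  constructor
  · linarith only [h1]
  · linarith only [h2]

theorem k_sq {b C v : ℂ} (h : C ^ 2 = 1 + b ^ 2 * v) : Complex.normSq C ^ 2 =
    1 + 2 * ((b.re ^ 2 - b.im ^ 2) * v.re - 2 * b.re * b.im * v.im) +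
      (Complex.normSq b * v.re) ^ 2 + (Complex.normSq b * v.im) ^ 2 := by
  obtain ⟨h1, h2⟩ := c_parts h
  have e : Complex.normSq C ^ 2 = (C.re ^ 2 - C.im ^ 2) ^ 2 + (2 * C.re * C.im) ^ 2 := by
    rw [Complex.normSq_apply]
    ring
  rw [e, h1, h2, Complex.normSq_apply]
  ring

theorem g_sq {b C v : ℂ} (h : C ^ 2 = 1 + b ^ 2 * v) : 4 * gi b C ^ 2 =
    2 * (Complex.normSq b * Complex.normSq C - (b.re ^ 2 - b.im ^ 2) -
      Complex.normSq b ^ 2 * v.re) := by
  obtain ⟨h1, h2⟩ := c_parts h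
  rw [Complex.normSq_apply, Complex.normSq_apply]
  unfold gi
  linear_combination (-2 * (b.re ^ 2 - b.im ^ 2)) * h1 - (4 * b.re * b.im) * h2

theorem g_mul {b C v : ℂ} (h : C ^ 2 = 1 + b ^ 2 * v) : 2 * gr b C * gi b C =
    2 * b.re * b.im - Complex.normSq b ^ 2 * v.im := by
  obtain ⟨h1, h2⟩ := c_parts h
  rw [Complex.normSq_apply]
  unfold gr gi
  linear_combination (2 * b.re * b.im) * h1 - (b.re ^ 2 - b.im ^ 2) * h2

end

/-! ### The slot -/

/-- The bounds for `y`. -/
structure Y8 (e0 e1 : ℝ) (y : ℂ) : Prop where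
  t0 : 245 / 1000 ≤ y.re
  t1 : y.re ≤ 342 / 1000
  e0 : -e0 ≤ y.im
  e1 : y.im ≤ e1

/-- The angle from below. -/
theorem w8_lo {q z : ℂ} (h : G.Slot q z) {N A K g : ℝ} (hN : 0 < N) (hg : 0 < g)
    (h1 : (Complex.sinh (q + Complex.I * z) * conj (Complex.sinh (q - Complex.I * z))).re =
      N * (A - K))
    (h2 : (Complex.sinh (q + Complex.I * z) * conj (Complex.sinh (q - Complex.I * z))).im =
      N * (2 * g)) {E : ℝ} (hE : (A + K) ^ 2 - E = (A - K) ^ 2 + 4 * g ^ 2)
    (ht : A ≤ K ∨ (A - K) ^ 2 ≤ 1059333 / 1073741824 * ((A + K) ^ 2 - E)) :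
    245 / 1000 ≤ (sy q z).re := by
  have hpi := pi_pos
  have hs0 : 0 < sin (1 / 100 * π) := sin_pos_of_pos_of_lt_pi (by positivity) (by linarith only [hpi])
  have hc0 : 0 < cos (1 / 100 * π) := cos_pos_of_mem_Ioo ⟨by linarith only [hpi], by linarith only [hpi]⟩
  have key : (A - K) * cos (1 / 100 * π) ≤ 2 * g * sin (1 / 100 * π) := by
    rcases ht with ht | ht
    · have : 0 < 2 * g * sin (1 / 100 * π) := by positivity
      linarith only [mul_nonneg (sub_nonneg.2 hc0.le) (sub_nonneg.2 ht),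
        mul_pos (sub_pos.2 hg) (sub_pos.2 hs0)]
    · apply le_of_sq_le_sq _ (by positivity)
      rw [hE] at ht
      have hs : 1059333 / 1073741824 ≤ sin (1 / 100 * π) ^ 2 := by
        have h3 : (314159 : ℝ) / 10000000 ≤ 1 / 100 * π := by linarith only [pi_gt_d6]
        have h4 : sin (314159 / 10000000 : ℝ) ≤ sin (1 / 100 * π) :=
          sin_le_sin_of_le_of_le_pi_div_two (by linarith only [hpi]) (by linarith only [hpi]) h3
        have h5 := T3_le_sin (x := 314159 / 10000000) (by norm_num)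
        have h6 : (314107 : ℝ) / 10000000 ≤ sin (1 / 100 * π) := by
          refine le_trans ?_ (h5.trans h4)
          norm_num
        have h7 := pow_le_pow_left₀ (by norm_num) h6 2
        refine le_trans ?_ h7
        norm_num
      have hsc := sin_sq_add_cos_sq (1 / 100 * π)
      have h3 : (A - K) ^ 2 ≤ sin (1 / 100 * π) ^ 2 * ((A - K) ^ 2 + 4 * g ^ 2) :=
        ht.trans (mul_le_mul_of_nonneg_right hs (by positivity))
      rw [mul_pow, mul_pow]
      linarith only [h3, mul_nonneg (sq_nonneg (1 * A - 1 * K)) (sub_nonneg.2 hsc.le),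
        mul_nonneg (sq_nonneg (1 * A - 1 * K)) (sub_nonneg.2 hsc.ge)]
  have h3 := slot_lo h (ψ := 1 / 100 * π) (by positivity) (by
    rw [h1, h2]
    have := mul_le_mul_of_nonneg_left key hN.le
    linarith only [this])
  have h4 : 245 / 1000 * (2 * π) ≤ (sy q z).re * (2 * π) := by linarith only [h3]
  exact le_of_mul_le_mul_right h4 (by positivity)

/-- The angle from above. -/
theorem w8_hi {q z : ℂ} (h : G.Slot q z) {N A K g : ℝ} (hN : 0 < N) (hg : 0 < g)
    (h1 : (Complex.sinh (q + Complex.I * z) * conj (Complex.sinh (q - Complex.I * z))).re =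
      N * (A - K))
    (h2 : (Complex.sinh (q + Complex.I * z) * conj (Complex.sinh (q - Complex.I * z))).im =
      N * (2 * g)) {E : ℝ} (hE : (A + K) ^ 2 - E = (A - K) ^ 2 + 4 * g ^ 2)
    (ht : K ≤ A ∨ (K - A) ^ 2 ≤ 320500000 / 1073741824 * ((A + K) ^ 2 - E)) :
    (sy q z).re ≤ 342 / 1000 := by
  have hpi := pi_pos
  have hs0 : 0 < sin (184 / 1000 * π) := sin_pos_of_pos_of_lt_pi (by positivity) (by linarith only [hpi])
  have hc0 : 0 < cos (184 / 1000 * π) := cos_pos_of_mem_Ioo ⟨by linarith only [hpi], by linarith only [hpi]⟩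
  have key : (K - A) * cos (184 / 1000 * π) ≤ 2 * g * sin (184 / 1000 * π) := by
    rcases ht with ht | ht
    · have : 0 < 2 * g * sin (184 / 1000 * π) := by positivity
      linarith only [mul_nonneg (sub_nonneg.2 hc0.le) (sub_nonneg.2 ht),
        mul_pos (sub_pos.2 hg) (sub_pos.2 hs0)]
    · apply le_of_sq_le_sq _ (by positivity)
      rw [hE] at ht
      have hs : 320500000 / 1073741824 ≤ sin (184 / 1000 * π) ^ 2 := by
        have h3 : (57805 : ℝ) / 100000 ≤ 184 / 1000 * π := by linarith only [pi_gt_d6]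
        have h4 : sin (57805 / 100000 : ℝ) ≤ sin (184 / 1000 * π) :=
          sin_le_sin_of_le_of_le_pi_div_two (by linarith only [hpi]) (by linarith only [hpi]) h3
        have h5 := T7_le_sin (x := 57805 / 100000) (by norm_num)
        have h6 : (54638 : ℝ) / 100000 ≤ sin (184 / 1000 * π) := by
          refine le_trans ?_ (h5.trans h4)
          norm_num
        have h7 := pow_le_pow_left₀ (by norm_num) h6 2
        refine le_trans ?_ h7
        norm_num
      have hsc := sin_sq_add_cos_sq (184 / 1000 * π)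
      have h3 : (K - A) ^ 2 ≤ sin (184 / 1000 * π) ^ 2 * ((A - K) ^ 2 + 4 * g ^ 2) :=
        ht.trans (mul_le_mul_of_nonneg_right hs (by positivity))
      rw [mul_pow, mul_pow]
      linarith only [h3, mul_nonneg (sq_nonneg (1 * K - 1 * A)) (sub_nonneg.2 hsc.le),
        mul_nonneg (sq_nonneg (1 * K - 1 * A)) (sub_nonneg.2 hsc.ge)]
  have h3 := slot_hi h (ψ := 184 / 1000 * π) (by positivity) (by
    rw [h1, h2]
    have := mul_le_mul_of_nonneg_left key hN.le
    linarith only [this])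
  have h4 : (sy q z).re * (2 * π) ≤ 342 / 1000 * (2 * π) := by linarith only [h3]
  exact le_of_mul_le_mul_right h4 (by positivity)

theorem log_ratio {a b c e : ℝ} (ha : 0 < a) (hb : 0 < b) (h : a ≤ c * b) (hc : c ≤ exp e) :
    log (a / b) ≤ e := by
  rw [log_le_iff_le_exp (by positivity), div_le_iff₀ hb]
  exact h.trans (mul_le_mul_of_nonneg_right hc hb.le)

/-- The slot, for an `A` edge: `b = conj (cos z_j)`; for an `S` edge: `b = cos z_j`. -/
theorem w8_slot {S : Bool} {c k0 k1 t0 t1 n : ℕ} {q z b : ℂ} (hs : G.Slot q z) (hq : q ≠ 0)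
    (hb : Complex.sinh q = b * Complex.tan z) (hx : 0 < b.re)
    (hy : 0 ≤ (bif S then -b.im else b.im))
    (hcu : 1073741824 ≤ (bif S then (KU c).c1 else (KU c).c0))
    (h : w8r (w8K S (bif S then (KU c).c1 else (KU c).c0) (bif S then (KU c).c0 else (KU c).c1))
      k0 k1 t0 t1 n = true)
    (hA0 : ((k0 : ℝ) / 1000) ^ 2 ≤ Complex.normSq b)
    (hA1 : Complex.normSq b ≤ ((k1 : ℝ) / 1000) ^ 2)
    (hT0 : (t0 : ℝ) / 1000 * b.re ≤ (bif S then -b.im else b.im))
    (hT1 : (bif S then -b.im else b.im) ≤ (t1 : ℝ) / 1000 * b.re)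
    (hX0 : 0 ≤ (Complex.tan z ^ 2).re) (hX : (Complex.tan z ^ 2).re ≤ 2802 / 10000)
    (hY0 : 0 ≤ (Complex.tan z ^ 2).im)
    (hY1 : (Complex.tan z ^ 2).im ≤ kp8 * (Complex.tan z ^ 2).re) :
    Y8 (KE0 c) (KE1 c) (sy q z) := by
  obtain ⟨y, ey⟩ : ∃ y, y = (bif S then -b.im else b.im) := ⟨_, rfl⟩
  rw [← ey] at hy hT0 hT1
  have ey2 : y ^ 2 = b.im ^ 2 := by
    rw [ey]
    cases S <;> simp
  obtain ⟨C, eC⟩ : ∃ C, C = Complex.cosh q := ⟨_, rfl⟩
  obtain ⟨v, ev⟩ : ∃ v, v = Complex.tan z ^ 2 := ⟨_, rfl⟩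
  rw [← ev] at hX0 hX hY0 hY1
  have hC : C ^ 2 = 1 + b ^ 2 * v := by
    rw [eC, ev, Complex.cosh_sq, hb]
    ring
  have hcz : Complex.cos z ≠ 0 := by
    intro h0
    have h1 : 0 < (Complex.cos z).re := by
      rw [Pool.Agent.S5.G.cos_re]
      exact mul_pos (cos_pos_of_mem_Ioo ⟨by linarith only [hs.z0, pi_pos], hs.z1⟩) (cosh_pos _)
    rw [h0] at h1
    simp at h1
  obtain ⟨eA, eB⟩ := sinh_pm hcz hb
  rw [← eC] at eA eB
  have nA : 0 < Complex.normSq b := by
    rw [Complex.normSq_apply]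
    linarith only [mul_self_nonneg (b.im), mul_pos (sub_pos.2 hx) (sub_pos.2 hx)]
  have nA2 : Complex.normSq b = b.re ^ 2 + y ^ 2 := by rw [Complex.normSq_apply, ey2]; ring
  have nK : 0 ≤ Complex.normSq C := Complex.normSq_nonneg _
  have hN : 0 < ‖Complex.sin z‖ ^ 2 := by
    obtain ⟨s1, -⟩ := sin_quad hs.z0 hs.z1 hs.zi
    apply pow_pos
    rw [norm_pos_iff]
    intro h0
    rw [h0] at s1
    simp at s1
  obtain ⟨p1, p2⟩ := ab_prod b C (Complex.sin z)
  rw [← eA, ← eB] at p1 p2
  have hg : 0 < gr b C := by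
    rcases hs.yp with h0 | h0
    · exact absurd h0 hq
    · rw [p2] at h0
      by_contra hn
      push Not at hn
      linarith only [h0, mul_nonneg (sq_nonneg (‖Complex.sin z‖)) (sub_nonneg.2 hn)]
  -- the point
  have hT : (y / b.re) * b.re = y := div_mul_cancel₀ _ hx.ne'
  have hTu : (1 - uu (y / b.re)) * Complex.normSq b = b.re ^ 2 - b.im ^ 2 := by
    rw [nA2, ← ey2]
    unfold uu
    have : 0 < b.re ^ 2 + y ^ 2 := by positivity
    field_simp
    ring
  have hTs : ss (y / b.re) * Complex.normSq b = 2 * b.re * y := by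
    rw [nA2]
    unfold ss
    have : 0 < b.re ^ 2 + y ^ 2 := by positivity
    field_simp
  have hsg : sg8 S * (2 * b.re * y) = -(2 * b.re * b.im) := by
    rw [ey]
    cases S <;> simp [sg8]
  have eE : 4 * gi b C ^ 2 = 2 * Complex.normSq b * (Complex.normSq C + uu (y / b.re) - 1 -
      Complex.normSq b * v.re) := by
    rw [g_sq hC]
    linear_combination 2 * hTu
  have hP : P8 S (Complex.normSq b) (y / b.re) v.re (Complex.normSq b * v.im)
      (Complex.normSq C) := by
    refine ⟨nA, by positivity, hX0, by positivity, ?_, nK, ?_, ?_⟩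
    · have := mul_le_mul_of_nonneg_left hY1 nA.le
      linarith only [this]
    · rw [k_sq hC]
      linear_combination (-2 * v.re) * hTu - (2 * sg8 S * v.im) * hTs - 2 * v.im * hsg
    · rw [← eE]
      positivity
  have hR := w8r_sound (w := w8K S _ _) h hP hA0 hA1 (by rw [le_div_iff₀ hx]; exact hT0)
    (by rw [div_le_iff₀ hx]; exact hT1) hX
  rw [← eE] at hR
  have e3 : (Complex.normSq b + Complex.normSq C) ^ 2 - 4 * gi b C ^ 2 =
      (Complex.normSq b - Complex.normSq C) ^ 2 + 4 * gr b C ^ 2 := by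
    have := gri b C
    linarith only [this]
  have T0 := w8_lo hs hN hg p1 p2 e3 hR.t0
  have T1 := w8_hi hs hN hg p1 p2 e3 hR.t1
  -- the ratios
  have a2 : ‖Complex.sinh (q + Complex.I * z)‖ ^ 2 =
      ‖Complex.sin z‖ ^ 2 * (Complex.normSq b + Complex.normSq C + 2 * gi b C) := by
    rw [eA, norm_mul, mul_pow, n_add]
  have b2 : ‖Complex.sinh (q - Complex.I * z)‖ ^ 2 =
      ‖Complex.sin z‖ ^ 2 * (Complex.normSq b + Complex.normSq C - 2 * gi b C) := by
    rw [eB, norm_mul, mul_pow, n_sub]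
  have A00 : 0 < ‖Complex.sinh (q + Complex.I * z)‖ ^ 2 :=
    pow_pos (norm_pos_iff.2 (slot_neA hs)) 2
  have B00 : 0 < ‖Complex.sinh (q - Complex.I * z)‖ ^ 2 :=
    pow_pos (norm_pos_iff.2 (slot_ne hs)) 2
  have hmul := g_mul hC
  have im := slot_im hs
  have hok := KU_ok c
  have v0 : ((KU c).c0 : ℝ) / 1073741824 ≤ exp (4 * π * KE0 c) := lb_v hok.c0
  have v1 : ((KU c).c1 : ℝ) / 1073741824 ≤ exp (4 * π * KE1 c) := lb_v hok.c1
  have hpi := pi_pos
  have fin : ‖Complex.sinh (q + Complex.I * z)‖ ^ 2 ≤ ((KU c).c0 : ℝ) / 1073741824 *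
        ‖Complex.sinh (q - Complex.I * z)‖ ^ 2 ∧
      ‖Complex.sinh (q - Complex.I * z)‖ ^ 2 ≤ ((KU c).c1 : ℝ) / 1073741824 *
        ‖Complex.sinh (q + Complex.I * z)‖ ^ 2 := by
    rw [a2, b2]
    cases S with
    | true =>
      simp only [cond_true] at h hcu hR ey
      have hgi : 0 ≤ -gi b C := by
        have h1 : 2 * gr b C * gi b C ≤ 0 := by
          rw [hmul]
          have : b.im = -y := by rw [ey]; ring
          rw [this]
          have : 0 ≤ Complex.normSq b ^ 2 * v.im := by positivity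
          linarith only [this, mul_nonneg (sub_nonneg.2 hx.le) (sub_nonneg.2 hy)]
        (refine le_of_not_gt fun hng => ?_; linarith only [h1,
          mul_pos (sub_pos.2 hng) (sub_pos.2 hg)])
      rw [show 4 * gi b C ^ 2 = 4 * (-gi b C) ^ 2 by ring] at hR
      obtain ⟨r1, r2⟩ := w8_ratio hcu hR (by linarith only [nK, nA]) (fun _ => hgi) (fun _ => hgi)
      have r1' := mul_le_mul_of_nonneg_left r1 hN.le
      have r2' := mul_le_mul_of_nonneg_left r2 hN.le
      constructor
      · linarith only [r2']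
      · linarith only [r1']
    | false =>
      simp only [cond_false] at h hcu hR ey
      obtain ⟨r1, r2⟩ := w8_ratio hcu hR (by linarith only [nK, nA]) (fun h => by simp at h) (fun hV => by
        have h1 : 0 ≤ 2 * gr b C * gi b C := by
          rw [hmul, ← ey]
          have := mul_le_mul_of_nonneg_right hV nA.le
          rw [hTs] at this
          linarith only [this]
        (refine le_of_not_gt fun hng => ?_; linarith only [h1,
          mul_pos (sub_pos.2 hng) (sub_pos.2 hg)]))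
      have r1' := mul_le_mul_of_nonneg_left r1 hN.le
      have r2' := mul_le_mul_of_nonneg_left r2 hN.le
      constructor
      · linarith only [r1']
      · linarith only [r2']
  refine ⟨T0, T1, ?_, ?_⟩
  · have h1 := log_ratio A00 B00 fin.1 v0
    rw [log_div B00.ne' A00.ne'] at im
    rw [log_div A00.ne' B00.ne'] at h1
    have : 0 ≤ 4 * π * ((sy q z).im + KE0 c) := by linarith only [h1, im]
    have := nonneg_of_mul_nonneg_right this (by positivity)
    linarith only [this]
  · have h1 := log_ratio B00 A00 fin.2 v1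
    rw [← im] at h1
    exact le_of_mul_le_mul_left h1 (by positivity)

end Pool.Agent.S5.E.VX
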